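import Mathlib

/-! # Maynard-Tao: basic definitions

`PP D R` = the primes in `(D, R]`. A configuration `r : Cfg k D R` gives every such prime no label
or one of `k` labels; it stands for `k` squarefree numbers `comp r 0, ..`, pairwise coprime and free
of primes `≤ D`. `ft z X = ∑_r z r ∏_{p labelled by r} (1[X p = r p] - 1/p)` is the sieve weight at
the outcome `X`. -/

namespace Pool.Agent.MT

open Finset

noncomputable section

/-- the primes in `(D, R]` -/
def PP (D R : ℕ) : Finset ℕ := (Ioc D R).filter Nat.Prime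

/-- every prime in `(D, R]` gets no label or one of `k` labels -/
abbrev Cfg (k D R : ℕ) : Type := (PP D R) → Option (Fin k)

/-- `1` if `a` is no label, `1[X = i] - 1/p` if `a` is the label `i` -/
def uu {k : ℕ} (p : ℕ) (X : Option (Fin k)) : Option (Fin k) → ℝ
  | none => 1
  | some i => (if X = some i then 1 else 0) - 1 / (p : ℝ)

/-- the sieve weight with coefficients `z`, at the outcome `X` -/
def ft {k D R : ℕ} (z : Cfg k D R → ℝ) (X : Cfg k D R) : ℝ :=
  ∑ r : Cfg k D R, z r * ∏ p : PP D R, uu (p : ℕ) (X p) (r p)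

/-- probabilities of the outcomes at `p`, over all integers -/
def mass (k p : ℕ) : Option (Fin k) → ℝ
  | none => 1 - (k : ℝ) / (p : ℝ)
  | some _ => 1 / (p : ℝ)

/-- probabilities of the outcomes at `p`, over the integers where the form `i` is prime -/
def massi {k : ℕ} (i : Fin k) (p : ℕ) : Option (Fin k) → ℝ
  | none => 1 - ((k : ℝ) - 1) / ((p : ℝ) - 1)
  | some j => if j = i then 0 else 1 / ((p : ℝ) - 1)

/-- the product of the labelled primes -/
def tot {k D R : ℕ} (r : Cfg k D R) : ℕ := ∏ p : PP D R, if r p = none then 1 else (p : ℕ)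

/-- the product of the primes with label `i` -/
def comp {k D R : ℕ} (r : Cfg k D R) (i : Fin k) : ℕ :=
  ∏ p : PP D R, if r p = some i then (p : ℕ) else 1

/-- `μ(tot r)` -/
def sgn {k D R : ℕ} (r : Cfg k D R) : ℝ := ∏ p : PP D R, if r p = none then (1 : ℝ) else -1

/-- the sum of `1/p` over the labelled primes -/
def recip {k D R : ℕ} (r : Cfg k D R) : ℝ :=
  ∑ p : PP D R, if r p = none then (0 : ℝ) else 1 / (p : ℕ)

/-- the coefficients with profile `F` -/
def zz {k D R : ℕ} (F : (Fin k → ℕ) → ℝ) (r : Cfg k D R) : ℝ := sgn r * F (comp r)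

/-- truncated product profile -/
def FF {k : ℕ} (G b : ℕ → ℝ) (n : Fin k → ℕ) : ℝ := if ∑ i, b (n i) ≤ 1 then ∏ i, G (n i) else 0

/-- the admissible pairs `(G, b)` -/
structure Good (R : ℕ) (G b : ℕ → ℝ) : Prop where
  nonneg : ∀ n, 0 ≤ G n
  le_one : ∀ n, G n ≤ 1
  anti : ∀ m n, 1 ≤ m → m ≤ n → G n ≤ G m
  supp : ∀ n, R < n → G n = 0
  b_nonneg : ∀ n, 0 ≤ b n
  b_half : ∀ n, G n ≠ 0 → b n ≤ 1 / 2
  b_log : ∀ n, 1 ≤ n → G n ≠ 0 → (n : ℝ) ≤ (R : ℝ) ^ (b n)

/-- the `D`-rough numbers in `[1, R]` -/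
def NN (D R : ℕ) : Finset ℕ := (Icc 1 R).filter (fun n => ∀ p ∈ n.primeFactors, D < p)

def I1 (D R : ℕ) (G : ℕ → ℝ) : ℝ := ∑ n ∈ NN D R, G n / n

def I2 (D R : ℕ) (G : ℕ → ℝ) : ℝ := ∑ n ∈ NN D R, G n ^ 2 / n

def I3 (D R : ℕ) (G b : ℕ → ℝ) : ℝ := ∑ n ∈ NN D R, b n * G n ^ 2 / n

/-- `∏_{p ≤ D} (1 - 1/p)` -/
def kap (D : ℕ) : ℝ := ∏ p ∈ (Icc 1 D).filter Nat.Prime, (1 - 1 / (p : ℝ))

/-- `1[X = a]` or `1` if `a` is no label -/
def ind {k : ℕ} (X : Option (Fin k)) : Option (Fin k) → ℝ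
  | none => 1
  | some i => if X = some i then 1 else 0

/-- `uu p X a = ∑ c, hh p a c * ind X c` -/
def hh {k : ℕ} (p : ℕ) : Option (Fin k) → Option (Fin k) → ℝ
  | none, none => 1
  | none, some _ => 0
  | some _, none => -1 / (p : ℝ)
  | some i, some j => if i = j then 1 else 0

/-- the coefficients `λ_d` of the sieve weight -/
def lam {k D R : ℕ} (z : Cfg k D R → ℝ) (d : Cfg k D R) : ℝ :=
  ∑ r : Cfg k D R, z r * ∏ p : PP D R, hh (p : ℕ) (r p) (d p)

/-- the hypotheses on the forms `a i * m + b i` -/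
structure Forms (k D : ℕ) (a b : Fin k → ℕ) : Prop where
  pos : ∀ i, 0 < a i
  small : ∀ i p, p.Prime → (p ∣ a i ↔ p ≤ D)
  cop : ∀ i, (a i).Coprime (b i)
  diff : ∀ i j, i ≠ j → ∀ p : ℕ, p.Prime → (p : ℤ) ∣ (a i : ℤ) * b j - a j * b i → p ≤ D

open Classical in
/-- the outcome at `m`: the label of `p` is the `i` with `p ∣ a i * m + b i` -/
def XX {k : ℕ} (D R : ℕ) (a b : Fin k → ℕ) (m : ℕ) : Cfg k D R := fun p =>
  if h : ∃ i, (p : ℕ) ∣ a i * m + b i then some h.choose else none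

/-- the configurations without label `i` -/
def NoI {k : ℕ} (D R : ℕ) (i : Fin k) : Finset (Cfg k D R) := univ.filter (fun r => ∀ p, r p ≠ some i)

/-- the configurations which extend `r` by the label `i` only -/
def Ext {k D R : ℕ} (i : Fin k) (r : Cfg k D R) : Finset (Cfg k D R) :=
  univ.filter (fun s => ∀ p, (r p ≠ none → s p = r p) ∧ (r p = none → s p = none ∨ s p = some i))

/-- `∑_b F(r with b in place i) / b` -/
def Zi {k D R : ℕ} (i : Fin k) (F : (Fin k → ℕ) → ℝ) (r : Cfg k D R) : ℝ :=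
  ∑ s ∈ Ext i r, F (comp s) / comp s i

/-- diagonal lower bound of the Gram matrices -/
def nn (k p : ℕ) (a : Option (Fin k)) : ℝ :=
  match a with
  | none => 1 - 1 / ((p : ℝ) - 1) ^ 2
  | some _ => (1 - 4 * k / p) / p

/-- `log n` at primes -/
def th (n : ℕ) : ℝ := if n.Prime then Real.log n else 0

/-- positive semidefinite kernels -/
def PSD {A : Type*} [Fintype A] (K : A → A → ℝ) : Prop :=
  (∀ a b, K a b = K b a) ∧ ∀ x : A → ℝ, 0 ≤ ∑ a, ∑ b, x a * x b * K a b

/-- hypothesis on the coefficients -/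
def Bdd {k D R : ℕ} (z : Cfg k D R → ℝ) : Prop := (∀ r, |z r| ≤ 1) ∧ ∀ r, z r ≠ 0 → tot r ≤ R

/-- two configurations which never give different labels -/
def Comp {k D R : ℕ} (d e : Cfg k D R) : Prop := ∀ p, d p = none ∨ e p = none ∨ d p = e p

/-- the product of the primes labelled by `d` or `e` -/
def tot2 {k D R : ℕ} (d e : Cfg k D R) : ℕ :=
  ∏ p : PP D R, if d p = none ∧ e p = none then 1 else (p : ℕ)

end

end Pool.Agent.MT
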