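import Pool.Agent.Work.MT.RoughF

/-! # Maynard-Tao with all the forms free of small prime factors (after Pintz) -/

namespace Pool.Agent.MT

open Finset Filter

/-- **Maynard-Tao, with almost primes** (after Pintz), uniformly in the constant coefficients
`b i ≤ C₀ N`: for every `r` there are `k` and `c > 0` such that among `k` linear forms in general
position (all primes `≤ D` divide the leading coefficients) at least `r` are prime and none has a
prime factor `≤ N^c`, for at least `κ N / (log N)^k` of the `m` in `(N, 2 N]` -/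
theorem maynard_rough (r : ℕ) : ∃ k : ℕ, 2 ≤ k ∧ ∃ c : ℝ, 0 < c ∧ ∃ D₁ : ℕ,
    ∀ (D : ℕ) (a : Fin k → ℕ) (C₀ : ℕ), D₁ ≤ D → ∃ κ : ℝ, 0 < κ ∧
      ∃ N₀ : ℕ, ∀ N : ℕ, N₀ ≤ N → ∀ b : Fin k → ℕ, Forms k D a b →
      (∀ i, b i ≤ C₀ * N) → ∃ V : Finset ℕ, κ * N / Real.log N ^ k ≤ V.card ∧
        ∀ m ∈ V, m ∈ Ioc N (2 * N) ∧ r ≤ (univ.filter (fun i => (a i * m + b i).Prime)).card ∧
          ∀ i, ∀ q : ℕ, q.Prime → q ∣ a i * m + b i → (N : ℝ) ^ c < q := by
  classical
  obtain ⟨k, hk, η, hη0, hη1, J, hc⟩ := cells_rough (96 * (r + 1))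
  have hk1 : 1 ≤ k := by omega
  have hk0 : (0 : ℝ) < k := by exact_mod_cast (by omega : 0 < k)
  have hk1' : (1 : ℝ) ≤ k := by exact_mod_cast hk1
  set c : ℝ := η / (1536 * k ^ 2 * (J + 1)) with hcdef
  have hc0 : 0 < c := by positivity
  have hcη : 1536 * k ^ 2 * ((J : ℝ) + 1) * c = η := by
    rw [hcdef]
    field_simp
  have hJ0 : (0 : ℝ) ≤ J := Nat.cast_nonneg _
  have hcJ : 1536 * k ^ 2 * (J : ℝ) * c ≤ η := by
    have : 0 ≤ 1536 * (k : ℝ) ^ 2 * c := by positivity
    nlinarith
  have hc1536 : 1536 * c ≤ η := by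
    have h1 : (1 : ℝ) ≤ k ^ 2 * (J + 1) := by
      have : (1 : ℝ) ≤ k ^ 2 := one_le_pow₀ hk1'
      nlinarith
    have h2 : 1536 * c * 1 ≤ 1536 * c * (k ^ 2 * (J + 1)) := by gcongr
    nlinarith
  refine ⟨k, hk, c, hc0, 100 * k ^ 2, fun D a C₀ hD => ?_⟩
  by_cases hapos : ∀ i, 0 < a i
  swap
  · exact ⟨1, one_pos, 0, fun N _ b h _ => (hapos h.pos).elim⟩
  obtain ⟨R₀, C, hC0, hR₀⟩ := hc D
  have hk4 : k ≤ D := by nlinarith
  have hD1 : 1 ≤ D := by omega
  have hDk : 32 * (k : ℝ) ^ 4 ≤ (D : ℝ) ^ 2 := by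
    have h1 : (100 * (k : ℝ) ^ 2) ≤ D := by exact_mod_cast hD
    have h2 : (100 * (k : ℝ) ^ 2) ^ 2 ≤ (D : ℝ) ^ 2 := pow_le_pow_left₀ (by positivity) h1 2
    nlinarith [show (0 : ℝ) ≤ (k : ℝ) ^ 4 by positivity]
  choose Ce hCe hE using fun i => Main_err ((k + 1) ^ 2) (2 * k) (a i) (hapos i)
  set cc : ℝ := ∑ i, Ce i * (2 * a i + C₀) with hccdef
  have hcc0 : 0 ≤ cc := sum_nonneg fun i _ => mul_nonneg (hCe i).le (by positivity)
  have hκ := Main_kap_pos D
  obtain ⟨K, hK0, hK⟩ := RoughE_recip (kap D / (C + 1)) (by positivity)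
  set C2 : ℝ := kap D * Real.log 4 + C * K with hC2
  set W : ℕ := k * ⌊2 / c⌋₊ with hW
  -- limits
  have tl : Tendsto (fun N : ℕ => Real.log N) atTop atTop :=
    Real.tendsto_log_atTop.comp tendsto_natCast_atTop_atTop
  have tp : ∀ s : ℝ, 0 < s → Tendsto (fun N : ℕ => (N : ℝ) ^ s) atTop atTop := fun s hs =>
    (tendsto_rpow_atTop hs).comp tendsto_natCast_atTop_atTop
  have hlp : ∀ᶠ N : ℕ in atTop, 2 * r * (Real.log N) ^ (2 * k + 1) ≤ (N : ℝ) ^ (1 / 5 : ℝ) := by
    have h1 := (isLittleO_log_rpow_rpow_atTop ((2 * k + 1 : ℕ) : ℝ)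
      (show (0 : ℝ) < 1 / 5 by norm_num)).comp_tendsto tendsto_natCast_atTop_atTop
    have h2 := h1.bound (show (0 : ℝ) < 1 / (2 * r + 1) by positivity)
    filter_upwards [h2, tl.eventually_ge_atTop 0] with N hN hN0
    simp only [Function.comp_apply, Real.norm_eq_abs, Real.rpow_natCast] at hN
    rw [abs_of_nonneg (by positivity), abs_of_nonneg (by positivity), div_mul_eq_mul_div,
      le_div_iff₀ (by positivity), one_mul] at hN
    have : 0 ≤ Real.log N ^ (2 * k + 1) := by positivity
    nlinarith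
  have hlp2 : ∀ᶠ N : ℕ in atTop, 32 * k ^ 2 * (Real.log N) ^ (2 * k) ≤ (N : ℝ) ^ (1 / 10 : ℝ) := by
    have h1 := (isLittleO_log_rpow_rpow_atTop ((2 * k : ℕ) : ℝ)
      (show (0 : ℝ) < 1 / 10 by norm_num)).comp_tendsto tendsto_natCast_atTop_atTop
    have h2 := h1.bound (show (0 : ℝ) < 1 / (32 * k ^ 2) by positivity)
    filter_upwards [h2, tl.eventually_ge_atTop 0] with N hN hN0
    simp only [Function.comp_apply, Real.norm_eq_abs, Real.rpow_natCast] at hN
    rw [abs_of_nonneg (by positivity), abs_of_nonneg (by positivity), div_mul_eq_mul_div,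
      le_div_iff₀ (by positivity), one_mul] at hN
    linarith
  have hθ : ∀ᶠ N : ℕ in atTop, ∀ i, ∀ b : ℕ, b ≤ C₀ * N → (a i : ℝ) * N / 2 ≤
      BV.theta (a i * (2 * N) + b) - BV.theta (a i * N + b) :=
    eventually_all.2 fun i => Main_theta (a i) C₀ (hapos i)
  have hai : ∀ᶠ N : ℕ in atTop, ∀ i, (a i : ℝ) ≤ (N : ℝ) ^ (2 / 45 : ℝ) :=
    eventually_all.2 fun i => (tp (2 / 45) (by norm_num)).eventually_ge_atTop _
  have hbig : ∀ᶠ N : ℕ in atTop, ∀ i, 2 * a i + C₀ ≤ N :=
    eventually_all.2 fun i => eventually_ge_atTop _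
  set κ' : ℝ := (η / 12 * kap D) ^ k / (4 * k * 4 ^ W) with hκ'
  have hκ'0 : 0 < κ' := by positivity
  have key : ∀ᶠ N : ℕ in atTop, ∀ b : Fin k → ℕ, Forms k D a b → (∀ i, b i ≤ C₀ * N) →
      κ' * N / Real.log N ^ k ≤ ((Ioc N (2 * N)).filter (fun m =>
          r ≤ (univ.filter (fun i => (a i * m + b i).Prime)).card ∧
          ∀ i, ∀ q : ℕ, q.Prime → q ∣ a i * m + b i → (N : ℝ) ^ c < q)).card := by
    filter_upwards [hlp, hlp2, hθ, hai, hbig, eventually_ge_atTop 3,
      tl.eventually_ge_atTop (cc + 1), tl.eventually_ge_atTop 3,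
      (tp (1 / 5) (by norm_num)).eventually_ge_atTop (R₀ + 1),
      (tp (1 / 30) (by norm_num)).eventually_ge_atTop 2,
      tl.eventually_ge_atTop (768 * k ^ 2 * J * C2 / (η * kap D))]
      with N hlp hlp2 hθ hai hbig hN3 hNc hN2 hNR hN30 hNC2
    intro b h hbN
    have hN3' : (3 : ℝ) ≤ N := by exact_mod_cast hN3
    have hN1 : (1 : ℝ) ≤ N := by linarith
    have hN0 : (0 : ℝ) < N := by linarith
    set R : ℕ := ⌊(N : ℝ) ^ (1 / 5 : ℝ)⌋₊ with hR
    have hRle : (R : ℝ) ≤ (N : ℝ) ^ (1 / 5 : ℝ) := Nat.floor_le (by positivity)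
    have hRge : (N : ℝ) ^ (1 / 5 : ℝ) - 1 ≤ R := by
      have := Nat.lt_floor_add_one ((N : ℝ) ^ (1 / 5 : ℝ))
      rw [← hR] at this
      linarith
    have hRR₀ : R₀ ≤ R := by
      have : (R₀ : ℝ) ≤ R := by linarith
      exact_mod_cast this
    have h16 : 1 ≤ (N : ℝ) ^ (1 / 6 : ℝ) := Real.one_le_rpow hN1 (by norm_num)
    have h15 : (N : ℝ) ^ (1 / 5 : ℝ) = (N : ℝ) ^ (1 / 6 : ℝ) * (N : ℝ) ^ (1 / 30 : ℝ) := by
      rw [← Real.rpow_add hN0]; norm_num
    have hR16 : (N : ℝ) ^ (1 / 6 : ℝ) ≤ R := by nlinarith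
    have hR1' : (1 : ℝ) ≤ R := h16.trans hR16
    have hR1 : 1 ≤ R := by exact_mod_cast hR1'
    have hlR : Real.log N / 6 ≤ Real.log R := by
      have := Real.log_le_log (by positivity) hR16
      rw [Real.log_rpow hN0] at this
      linarith
    have hlR2 : Real.log R ≤ Real.log N / 5 := by
      have := Real.log_le_log (by linarith) hRle
      rw [Real.log_rpow hN0] at this
      linarith
    have hlR0 : 0 ≤ Real.log R := Real.log_nonneg hR1'
    have hRN : R ≤ N := by
      have : (R : ℝ) ≤ N := hRle.trans (by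
        calc (N : ℝ) ^ (1 / 5 : ℝ) ≤ (N : ℝ) ^ (1 : ℝ) :=
              Real.rpow_le_rpow_of_exponent_le hN1 (by norm_num)
          _ = N := Real.rpow_one _)
      exact_mod_cast this
    obtain ⟨G, bb, hG, hI2, hI3, hcell, hI2lo, hI4⟩ := hR₀ R hRR₀
    set z : Cfg k D R → ℝ := zz (FF G bb) with hz
    have hbdd : Bdd z := bdd_zz hG hR1
    set L : ℝ := (1 + Real.log R) ^ k with hL
    have hL0 : 0 ≤ L := by positivity
    have hLle : L ≤ Real.log N ^ k := pow_le_pow_left₀ (by linarith) (by linarith) k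
    have hlN0 : 0 < Real.log N := by linarith
    -- the roughness
    set y : ℕ := ⌊(N : ℝ) ^ c⌋₊ with hy
    have hyle : (y : ℝ) ≤ (N : ℝ) ^ c := Nat.floor_le (by positivity)
    have hy1 : 1 ≤ y := Nat.le_floor (by
      push_cast
      exact Real.one_le_rpow hN1 hc0.le)
    have hNcR : (N : ℝ) ^ c ≤ (R : ℝ) ^ η := by
      calc (N : ℝ) ^ c ≤ (N : ℝ) ^ (1 / 6 * η : ℝ) :=
            Real.rpow_le_rpow_of_exponent_le hN1 (by linarith)
        _ = ((N : ℝ) ^ (1 / 6 : ℝ)) ^ η := Real.rpow_mul hN0.le _ _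
        _ ≤ (R : ℝ) ^ η := Real.rpow_le_rpow (by positivity) hR16 hη0.le
    have hRη : (R : ℝ) ^ η ≤ R := by
      calc (R : ℝ) ^ η ≤ (R : ℝ) ^ (1 : ℝ) := Real.rpow_le_rpow_of_exponent_le hR1' hη1
        _ = R := Real.rpow_one _
    have hyR : y ≤ R := by
      have : (y : ℝ) ≤ R := hyle.trans (hNcR.trans hRη)
      exact_mod_cast this
    have hly : Real.log y ≤ c * Real.log N := by
      have := Real.log_le_log (by exact_mod_cast hy1) hyle
      rwa [Real.log_rpow hN0] at this
    -- the sums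
    set S : ℝ := ∑ m ∈ Ioc N (2 * N), ft z (XX D R a b m) ^ 2 with hS
    set SB : ℝ := ∑ m ∈ RoughE_bad D R a b y N, ft z (XX D R a b m) ^ 2 with hSB
    set T : ℝ := ∑ i, ∑ m ∈ Ioc N (2 * N), th (a i * m + b i) * ft z (XX D R a b m) ^ 2 with hT
    set Gd : Finset ℕ := (Ioc N (2 * N)).filter (fun m =>
          r ≤ (univ.filter (fun i => (a i * m + b i).Prime)).card ∧
          ∀ i, ∀ q : ℕ, q.Prime → q ∣ a i * m + b i → (N : ℝ) ^ c < q) with hGd
    have hI20 : 0 < I2 D R G := by linarith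
    have hLam := sum_lam_le hR1 hbdd
    have hLam0 : 0 ≤ ∑ d : Cfg k D R, |lam z d| := sum_nonneg fun _ _ => abs_nonneg _
    have hSle : S ≤ N * I2 D R G ^ k + ((R : ℝ) ^ 2 * L) ^ 2 := by
      refine (sum_all h z N).trans ?_
      have h1 := (E_upper hk4 z).trans (upper_sum hD1 hG)
      gcongr
    have hbd : ∀ m ∈ Ioc N (2 * N), ∀ i, a i * m + b i ≤ N ^ 2 := by
      intro m hm i
      have hmle := (mem_Ioc.1 hm).2
      have h7 := hbig i
      have h8 := hbN i
      nlinarith [Nat.mul_le_mul_left (a i) hmle, Nat.mul_le_mul_right N h7]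
    have hpos : ∀ m ∈ Ioc N (2 * N), ∀ i, 1 ≤ a i * m + b i := by
      intro m hm i
      have h9 := h.pos i
      have h10 := (mem_Ioc.1 hm).1
      have : 0 < a i * m := Nat.mul_pos h9 (by omega)
      omega
    have hth : ∀ m ∈ Ioc N (2 * N), ∑ i, th (a i * m + b i) ≤
        ((univ.filter (fun i => (a i * m + b i).Prime)).card : ℝ) * (2 * Real.log N) := by
      intro m hm
      have h1 : ∀ i, th (a i * m + b i) ≤ if (a i * m + b i).Prime then 2 * Real.log N else 0 := by
        intro i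
        unfold th
        split_ifs with hp
        · have h3 : ((a i * m + b i : ℕ) : ℝ) ≤ (N : ℝ) ^ 2 := by exact_mod_cast hbd m hm i
          have h4 := Real.log_le_log (by exact_mod_cast hp.pos) h3
          rw [Real.log_pow] at h4
          exact_mod_cast h4
        · exact le_rfl
      refine (sum_le_sum fun i _ => h1 i).trans ?_
      rw [← sum_filter, sum_const, nsmul_eq_mul]
    have hthk : ∀ m ∈ Ioc N (2 * N), ∑ i, th (a i * m + b i) ≤ k * (2 * Real.log N) := by
      intro m hm
      refine (hth m hm).trans ?_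
      have : (univ.filter (fun i : Fin k => (a i * m + b i).Prime)).card ≤ k := by
        have := card_le_univ (univ.filter (fun i : Fin k => (a i * m + b i).Prime))
        rwa [Fintype.card_fin] at this
      have h1 : ((univ.filter (fun i : Fin k => (a i * m + b i).Prime)).card : ℝ) ≤ k := by
        exact_mod_cast this
      gcongr
    -- the integers which are not bad are free of small prime factors
    have hrough : ∀ m ∈ Ioc N (2 * N), m ∉ RoughE_bad D R a b y N →
        ∀ i, ∀ q : ℕ, q.Prime → q ∣ a i * m + b i → (N : ℝ) ^ c < q := by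
      intro m hm hmb i q hq hqd
      have hDq : D < q := by
        by_contra hcon
        have hqa : q ∣ a i := (h.small i q hq).2 (not_lt.1 hcon)
        have hqb : q ∣ b i := (Nat.dvd_add_right (Dvd.dvd.mul_right hqa m)).1 hqd
        exact hq.one_lt.ne' (Nat.dvd_one.1 ((h.cop i) ▸ Nat.dvd_gcd hqa hqb))
      have hyq : y < q := by
        by_contra hcon
        rw [not_lt] at hcon
        apply hmb
        unfold RoughE_bad
        rw [mem_filter]
        have hqP : q ∈ PP D R := by
          rw [PP, mem_filter, mem_Ioc]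
          exact ⟨⟨hDq, hcon.trans hyR⟩, hq⟩
        refine ⟨hm, ⟨q, hqP⟩, hcon, ?_⟩
        rw [(XX_eq h m ⟨q, hqP⟩ i).2 hqd]
        exact Option.some_ne_none _
      exact (Nat.lt_floor_add_one _).trans_le (by exact_mod_cast hyq)
    -- the weights at the integers free of small prime factors
    have hft : ∀ m ∈ Ioc N (2 * N), m ∉ RoughE_bad D R a b y N →
        ft z (XX D R a b m) ^ 2 ≤ (Real.log N ^ k) ^ 2 * 4 ^ W := by
      intro m hm hmb
      have h1 := Small_ft (lam_le hR1 hbdd) (XX D R a b m)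
      have h2 : (univ.filter (fun p : PP D R => XX D R a b m p ≠ none)).card ≤ W := by
        calc (univ.filter (fun p : PP D R => XX D R a b m p ≠ none)).card
            = ((univ.filter (fun p : PP D R => XX D R a b m p ≠ none)).image
                (fun p : PP D R => (p : ℕ))).card :=
              (card_image_of_injective _ Subtype.val_injective).symm
          _ ≤ (univ.biUnion fun i => (a i * m + b i).primeFactors.filter
                (fun q : ℕ => (N : ℝ) ^ c < q)).card := by
              refine card_le_card fun q hq => ?_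
              obtain ⟨p, hp, rfl⟩ := mem_image.1 hq
              rw [mem_filter] at hp
              obtain ⟨i, hi⟩ := Option.ne_none_iff_exists'.1 hp.2
              have hi' := (XX_eq h m p i).1 hi
              have hpp := SumAll_prime p
              refine mem_biUnion.2 ⟨i, mem_univ _, mem_filter.2 ⟨Nat.mem_primeFactors.2
                ⟨hpp, hi', ?_⟩, hrough m hm hmb i p hpp hi'⟩⟩
              have := hpos m hm i
              omega
          _ ≤ ∑ i, ((a i * m + b i).primeFactors.filter (fun q : ℕ => (N : ℝ) ^ c < q)).card :=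
              card_biUnion_le
          _ ≤ ∑ _i : Fin k, ⌊2 / c⌋₊ := by
              refine sum_le_sum fun i _ => Nat.le_floor ?_
              exact RoughF_omega (hpos m hm i) (hbd m hm i) (by omega) hc0
          _ = W := by simp [hW]
      have h3 : |ft z (XX D R a b m)| ≤ Real.log N ^ k * 2 ^ W := by
        refine h1.trans ?_
        have : (2 : ℝ) ^ (univ.filter (fun p : PP D R => XX D R a b m p ≠ none)).card ≤ 2 ^ W :=
          pow_le_pow_right₀ (by norm_num) h2
        gcongr
      calc ft z (XX D R a b m) ^ 2 = |ft z (XX D R a b m)| ^ 2 := (sq_abs _).symm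
        _ ≤ (Real.log N ^ k * 2 ^ W) ^ 2 := by gcongr
        _ = (Real.log N ^ k) ^ 2 * 4 ^ W := by
            rw [mul_pow, ← pow_mul 2 W 2, mul_comm W 2, pow_mul]
            norm_num
    set B : ℝ := (Real.log N ^ k) ^ 2 * 4 ^ W with hB
    have hB0 : 0 ≤ B := by positivity
    have hTle : T ≤ 2 * r * Real.log N * S + 2 * k * Real.log N * SB +
        2 * k * Real.log N * (B * Gd.card) := by
      have h1 : T ≤ ∑ m ∈ Ioc N (2 * N), (2 * r * Real.log N * ft z (XX D R a b m) ^ 2 +
          (if m ∈ RoughE_bad D R a b y N then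
            2 * k * Real.log N * ft z (XX D R a b m) ^ 2 else 0) +
          (if r ≤ (univ.filter (fun i => (a i * m + b i).Prime)).card ∧
            (∀ i, ∀ q : ℕ, q.Prime → q ∣ a i * m + b i → (N : ℝ) ^ c < q) then
            2 * k * Real.log N * B else 0)) := by
        rw [hT, sum_comm]
        refine sum_le_sum fun m hm => ?_
        rw [← sum_mul]
        have h2 := hth m hm
        have h2k := hthk m hm
        have h3 : 0 ≤ ft z (XX D R a b m) ^ 2 := sq_nonneg _
        have h30 : 0 ≤ 2 * r * Real.log N * ft z (XX D R a b m) ^ 2 := by positivity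
        have h31 : 0 ≤ (if r ≤ (univ.filter (fun i => (a i * m + b i).Prime)).card ∧
            (∀ i, ∀ q : ℕ, q.Prime → q ∣ a i * m + b i → (N : ℝ) ^ c < q) then
            2 * k * Real.log N * B else 0) := by
          split_ifs <;> positivity
        by_cases hmb : m ∈ RoughE_bad D R a b y N
        · rw [if_pos hmb]
          have h4 : (∑ i, th (a i * m + b i)) * ft z (XX D R a b m) ^ 2 ≤
              2 * k * Real.log N * ft z (XX D R a b m) ^ 2 := by
            refine (mul_le_mul_of_nonneg_right h2k h3).trans (le_of_eq (by ring))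
          linarith
        · rw [if_neg hmb, add_zero]
          by_cases hr : r ≤ (univ.filter (fun i => (a i * m + b i).Prime)).card
          · rw [if_pos ⟨hr, hrough m hm hmb⟩]
            have h5 := hft m hm hmb
            have h4 : (∑ i, th (a i * m + b i)) * ft z (XX D R a b m) ^ 2 ≤
                2 * k * Real.log N * B := by
              calc (∑ i, th (a i * m + b i)) * ft z (XX D R a b m) ^ 2
                  ≤ (k * (2 * Real.log N)) * ft z (XX D R a b m) ^ 2 :=
                    mul_le_mul_of_nonneg_right h2k h3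
                _ ≤ (k * (2 * Real.log N)) * B := by gcongr
                _ = _ := by ring
            linarith
          · rw [if_neg (fun hcon => hr hcon.1), add_zero]
            have h5 : ((univ.filter (fun i => (a i * m + b i).Prime)).card : ℝ) ≤ r := by
              exact_mod_cast (not_le.1 hr).le
            refine mul_le_mul_of_nonneg_right (h2.trans ?_) h3
            nlinarith
      refine h1.trans (le_of_eq ?_)
      rw [sum_add_distrib, sum_add_distrib, ← mul_sum, ← hS, ← sum_filter, ← sum_filter,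
        sum_const, nsmul_eq_mul, ← hGd, ← mul_sum]
      have h6 : (Ioc N (2 * N)).filter (fun m => m ∈ RoughE_bad D R a b y N) =
          RoughE_bad D R a b y N := by
        ext m
        rw [mem_filter]
        constructor
        · exact fun hm => hm.2
        · exact fun hm => ⟨(mem_filter.1 hm).1, hm⟩
      rw [h6, ← hSB]
      ring
    have hTge : k * (N / (8 * kap D) * (I1 D R G ^ 2 * I2 D R G ^ (k - 1))) - cc * N ≤ T := by
      have hi : ∀ i ∈ (univ : Finset (Fin k)),
          N / (8 * kap D) * (I1 D R G ^ 2 * I2 D R G ^ (k - 1)) - Ce i * (2 * a i + C₀) * N ≤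
          ∑ m ∈ Ioc N (2 * N), th (a i * m + b i) * ft z (XX D R a b m) ^ 2 := by
        intro i _
        have hai1 : (1 : ℝ) ≤ a i := by exact_mod_cast h.pos i
        have hx3 : 3 ≤ a i * (2 * N) + b i := by
          have := h.pos i
          nlinarith
        have hxN : (N : ℝ) ≤ ((a i * (2 * N) + b i : ℕ) : ℝ) := by
          push_cast
          nlinarith [Nat.cast_nonneg (α := ℝ) (b i)]
        have hlev : ((a i * R ^ 2 : ℕ) : ℝ) ≤ ((a i * (2 * N) + b i : ℕ) : ℝ) ^ (4 / 9 : ℝ) := by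
          have h1 : ((a i * R ^ 2 : ℕ) : ℝ) ≤ (N : ℝ) ^ (2 / 45 : ℝ) * ((N : ℝ) ^ (1 / 5 : ℝ)) ^ 2 := by
            push_cast
            have := hai i
            gcongr
          refine h1.trans ?_
          have h2 : (N : ℝ) ^ (2 / 45 : ℝ) * ((N : ℝ) ^ (1 / 5 : ℝ)) ^ 2 = (N : ℝ) ^ (4 / 9 : ℝ) := by
            rw [← Real.rpow_natCast, ← Real.rpow_mul hN0.le, ← Real.rpow_add hN0]
            norm_num
          rw [h2]
          exact Real.rpow_le_rpow hN0.le hxN (by norm_num)
        obtain ⟨E₁, E₂, hE₁, hE₂, hsum⟩ := hE i (b i) N (R ^ 2) hx3 hlev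
        have h1 := sum_primes h i (lam_le hR1 hbdd) (lam_supp hbdd) hRN hE₁ hE₂
        refine le_trans ?_ h1
        have hmain := E_main hk1 hD hG hI20 hI3 i
        have h2 : N / (8 * kap D) * (I1 D R G ^ 2 * I2 D R G ^ (k - 1)) ≤
            (BV.theta (a i * (2 * N) + b i) - BV.theta (a i * N + b i)) / (a i).totient *
            (∑ X : Cfg k D R, (∏ p : PP D R, massi i p (X p)) * ft z X ^ 2) := by
          rw [Main_totient h i]
          have h3 : (N : ℝ) / (2 * kap D) ≤
              (BV.theta (a i * (2 * N) + b i) - BV.theta (a i * N + b i)) / (a i * kap D) := by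
            rw [div_le_div_iff₀ (by positivity) (by positivity)]
            have := hθ i (b i) (hbN i)
            have h4 : (N : ℝ) * (a i * kap D) = (a i * N / 2) * (2 * kap D) := by ring
            rw [h4]
            gcongr
          have h5 : 0 ≤ 1 / 4 * I1 D R G ^ 2 * I2 D R G ^ (k - 1) := by positivity
          calc N / (8 * kap D) * (I1 D R G ^ 2 * I2 D R G ^ (k - 1)) =
              N / (2 * kap D) * (1 / 4 * I1 D R G ^ 2 * I2 D R G ^ (k - 1)) := by
                field_simp; ring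
            _ ≤ _ := by
                refine mul_le_mul h3 hmain h5 ?_
                exact le_trans (by positivity) h3
        have h6 : L ^ 2 * ∑ q ∈ (Icc 1 (R ^ 2)).filter (fun q => Squarefree q ∧ (a i).Coprime q),
            (((k + 1) ^ 2 : ℕ) : ℝ) ^ q.primeFactors.card * (E₁ q + E₂ q) ≤
            Ce i * (2 * a i + C₀) * N := by
          have hlx : Real.log N ≤ Real.log ((a i * (2 * N) + b i : ℕ) : ℝ) :=
            Real.log_le_log hN0 hxN
          calc L ^ 2 * ∑ q ∈ (Icc 1 (R ^ 2)).filter (fun q => Squarefree q ∧ (a i).Coprime q),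
                (((k + 1) ^ 2 : ℕ) : ℝ) ^ q.primeFactors.card * (E₁ q + E₂ q)
              ≤ L ^ 2 * (Ce i * (a i * (2 * N) + b i : ℕ) /
                  (Real.log (a i * (2 * N) + b i : ℕ)) ^ (2 * k)) := by gcongr
            _ ≤ (Real.log N ^ k) ^ 2 * (Ce i * ((2 * a i + C₀) * N) / (Real.log N) ^ (2 * k)) := by
                have hCi := hCe i
                have e1 : ((a i * (2 * N) + b i : ℕ) : ℝ) ≤ (2 * a i + C₀) * N := by
                  have e2 : (b i : ℝ) ≤ C₀ * N := by exact_mod_cast hbN i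
                  push_cast
                  linarith
                gcongr
            _ = Ce i * (2 * a i + C₀) * N := by
                rw [← pow_mul, mul_comm k 2]
                field_simp
        linarith
      have h7 := sum_le_sum hi
      rw [sum_sub_distrib, sum_const, card_univ, Fintype.card_fin, nsmul_eq_mul, ← sum_mul] at h7
      exact h7
    have hRR : 2 * r * Real.log N * ((R : ℝ) ^ 2 * L) ^ 2 ≤ N := by
      calc 2 * r * Real.log N * ((R : ℝ) ^ 2 * L) ^ 2
          ≤ 2 * r * Real.log N * ((((N : ℝ) ^ (1 / 5 : ℝ)) ^ 2) * Real.log N ^ k) ^ 2 := by gcongr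
        _ = (2 * r * Real.log N ^ (2 * k + 1)) * ((N : ℝ) ^ (1 / 5 : ℝ)) ^ 4 := by ring
        _ ≤ (N : ℝ) ^ (1 / 5 : ℝ) * ((N : ℝ) ^ (1 / 5 : ℝ)) ^ 4 := by gcongr
        _ = ((N : ℝ) ^ (1 / 5 : ℝ)) ^ 5 := by ring
        _ = N := by
            rw [← Real.rpow_natCast, ← Real.rpow_mul hN0.le]
            norm_num
    have hΛ : 16 * (k : ℝ) ^ 2 * (y + 1) * (∑ d : Cfg k D R, |lam z d|) ^ 2 ≤ N := by
      have hy10 : (y : ℝ) + 1 ≤ 2 * (N : ℝ) ^ (1 / 10 : ℝ) := by
        have h1 : (y : ℝ) ≤ (N : ℝ) ^ (1 / 10 : ℝ) :=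
          hyle.trans (Real.rpow_le_rpow_of_exponent_le hN1 (by linarith))
        have h2 : 1 ≤ (N : ℝ) ^ (1 / 10 : ℝ) := Real.one_le_rpow hN1 (by norm_num)
        linarith
      calc 16 * (k : ℝ) ^ 2 * (y + 1) * (∑ d : Cfg k D R, |lam z d|) ^ 2
          ≤ 16 * (k : ℝ) ^ 2 * (2 * (N : ℝ) ^ (1 / 10 : ℝ)) *
            ((((N : ℝ) ^ (1 / 5 : ℝ)) ^ 2) * Real.log N ^ k) ^ 2 := by
            have h1 : ∑ d : Cfg k D R, |lam z d| ≤
                (((N : ℝ) ^ (1 / 5 : ℝ)) ^ 2) * Real.log N ^ k := by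
              refine hLam.trans ?_
              gcongr
            gcongr
        _ = (32 * k ^ 2 * Real.log N ^ (2 * k)) * ((N : ℝ) ^ (1 / 10 : ℝ) *
            ((N : ℝ) ^ (1 / 5 : ℝ)) ^ 4) := by ring
        _ ≤ (N : ℝ) ^ (1 / 10 : ℝ) * ((N : ℝ) ^ (1 / 10 : ℝ) *
            ((N : ℝ) ^ (1 / 5 : ℝ)) ^ 4) := by gcongr
        _ = N := by
            rw [← Real.rpow_natCast ((N : ℝ) ^ (1 / 5 : ℝ)), ← Real.rpow_mul hN0.le,
              ← Real.rpow_add hN0, ← Real.rpow_add hN0]
            norm_num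
    have hbadsum := RoughE_sum h hk4 hD1 hG (J := J) hC0 hκ.le hy1 (fun p hp1 hpy => hI4 p hp1
      (by
        have : (p : ℝ) ≤ y := by exact_mod_cast hpy
        exact this.trans (hyle.trans hNcR))) N
    rw [← hz, ← hSB] at hbadsum
    have hSB4 : 4 * k * SB ≤ N * I2 D R G ^ k := by
      refine RoughF_bad (c := c) (lN := Real.log N) (l4 := Real.log 4) (K := K)
        (ε := kap D / (C + 1)) (η := η) (J := J) hk1 hN0.le hκ hC0 hJ0 hlN0.le hI2
        (by exact_mod_cast hD1 : (0 : ℝ) < D) (Real.log_natCast_nonneg y) hbadsum hly (hK y hy1)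
        ?_ ?_ hcJ ?_ hDk hΛ
      · rw [mul_div_assoc', div_le_iff₀ (by linarith)]
        nlinarith
      · refine le_trans ?_ hI2lo
        have h1 : kap D * (Real.log N / 6) ≤ kap D * Real.log R := by gcongr
        calc η / 12 * (kap D * Real.log N) = η / 2 * (kap D * (Real.log N / 6)) := by ring
          _ ≤ _ := by gcongr
      · rw [div_le_iff₀ (by positivity)] at hNC2
        rw [← hC2]
        linarith
    have hfin := RoughF_cmp (r := r) hk1 hN3' hκ hI2 hNc (by linarith) hlR hcell hTge hTle hSle hRR hSB4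
    -- the number of the good integers
    have hI2lo' : η / 12 * kap D * Real.log N ≤ I2 D R G := by
      refine le_trans ?_ hI2lo
      have h1 : kap D * (Real.log N / 6) ≤ kap D * Real.log R := by gcongr
      calc η / 12 * kap D * Real.log N = η / 2 * (kap D * (Real.log N / 6)) := by ring
        _ ≤ _ := by gcongr
    have h8 : N * (η / 12 * kap D * Real.log N) ^ k ≤ 4 * k * (B * Gd.card) := by
      refine le_trans ?_ hfin
      gcongr
    rw [hB, mul_pow] at h8
    rw [hκ', div_mul_eq_mul_div, div_div, div_le_iff₀ (by positivity)]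
    have h9 : 0 < Real.log N ^ k := by positivity
    have h10 : Real.log N ^ k * ((η / 12 * kap D) ^ k * N) ≤
        Real.log N ^ k * ((Gd.card : ℝ) * (4 * k * 4 ^ W * Real.log N ^ k)) := by
      calc Real.log N ^ k * ((η / 12 * kap D) ^ k * N) =
          N * ((η / 12 * kap D) ^ k * Real.log N ^ k) := by ring
        _ ≤ 4 * k * ((Real.log N ^ k) ^ 2 * 4 ^ W * Gd.card) := h8
        _ = _ := by ring
    exact le_of_mul_le_mul_left h10 h9
  obtain ⟨N₀, hN₀⟩ := eventually_atTop.1 key
  refine ⟨κ', hκ'0, N₀, fun N hN b h hb => ⟨_, hN₀ N hN b h hb, fun m hm => ?_⟩⟩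
  rw [mem_filter] at hm
  exact hm

end Pool.Agent.MT
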