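import Pool.Agent.Work.MT.Main

/-! # Maynard-Tao for admissible tuples of linear forms -/

namespace Pool.Agent.MT

open Finset

/-- a residue class without small prime factors -/
lemma General_class {k : ℕ} (D : ℕ) (a b : Fin k → ℕ)
    (h : ∀ p : ℕ, p.Prime → ∃ m : ℕ, ∀ i, ¬ p ∣ a i * m + b i) :
    ∃ ν : ℕ, ∀ p : ℕ, p.Prime → p ≤ D → ∀ i, ¬ p ∣ a i * ν + b i := by
  classical
  choose! m hm using h
  set t := (Icc 1 D).filter Nat.Prime with ht
  have hs : ∀ p ∈ t, p ≠ 0 := fun p hp => (mem_filter.1 hp).2.ne_zero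
  have pp : Set.Pairwise (t : Set ℕ) (Function.onFun Nat.Coprime (fun p => p)) := by
    intro p hp q hq hpq
    exact (Nat.coprime_primes (mem_filter.1 hp).2 (mem_filter.1 hq).2).2 hpq
  obtain ⟨ν, hν⟩ := Nat.chineseRemainderOfFinset m (fun p => p) t hs pp
  refine ⟨ν, fun p hp hpD i hd => ?_⟩
  have h1 := hν p (mem_filter.2 ⟨mem_Icc.2 ⟨hp.one_lt.le, hpD⟩, hp⟩)
  refine hm p hp i ?_
  have h2 : a i * ν + b i ≡ a i * m p + b i [MOD p] := (h1.mul_left _).add_right _
  exact (h2.dvd_iff (dvd_refl p)).1 hd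

/-- the forms after the `W`-trick -/
lemma General_forms {k : ℕ} (D : ℕ) (a b : Fin k → ℕ) (ha : ∀ i, 0 < a i)
    (haD : ∀ i, a i ≤ D) (hab : ∀ i j, i ≠ j → a i * b j ≠ a j * b i)
    (hD : ∀ i j, ((a i : ℤ) * b j - a j * b i).natAbs ≤ D) (ν : ℕ)
    (hν : ∀ p : ℕ, p.Prime → p ≤ D → ∀ i, ¬ p ∣ a i * ν + b i) :
    Forms k D (fun i => a i * ∏ p ∈ (Icc 1 D).filter Nat.Prime, p) (fun i => a i * ν + b i) := by
  set W : ℕ := ∏ p ∈ (Icc 1 D).filter Nat.Prime, p with hW
  have hW0 : 0 < W := prod_pos fun p hp => (mem_filter.1 hp).2.pos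
  have hWp : ∀ p : ℕ, p.Prime → (p ∣ W ↔ p ≤ D) := by
    intro p hp
    constructor
    · intro h
      obtain ⟨q, hq, hpq⟩ := (hp.prime.dvd_finsetProd_iff _).1 h
      rw [mem_filter, mem_Icc] at hq
      have := (Nat.prime_dvd_prime_iff_eq hp hq.2).1 hpq
      omega
    · intro h
      exact dvd_prod_of_mem _ (mem_filter.2 ⟨mem_Icc.2 ⟨hp.one_lt.le, h⟩, hp⟩)
  have hsm : ∀ i (p : ℕ), p.Prime → (p ∣ a i * W ↔ p ≤ D) := by
    intro i p hp
    rw [hp.dvd_mul, hWp p hp]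
    constructor
    · rintro (h | h)
      · exact (Nat.le_of_dvd (ha i) h).trans (haD i)
      · exact h
    · exact Or.inr
  refine ⟨fun i => Nat.mul_pos (ha i) hW0, hsm, ?_, ?_⟩
  · intro i
    refine Nat.Coprime.symm (Nat.coprime_of_dvd fun p hp h1 h2 => ?_)
    exact hν p hp ((hsm i p hp).1 h2) i h1
  · intro i j hij p hp hd
    have e : ((a i * W : ℕ) : ℤ) * (a j * ν + b j : ℕ) - ((a j * W : ℕ) : ℤ) * (a i * ν + b i : ℕ) =
        W * ((a i : ℤ) * b j - a j * b i) := by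
      push_cast
      ring
    rw [e] at hd
    rcases (Nat.prime_iff_prime_int.1 hp).dvd_or_dvd hd with h | h
    · exact (hWp p hp).1 (by exact_mod_cast h)
    · have h0 : (a i : ℤ) * b j - a j * b i ≠ 0 := by
        intro h0
        refine hab i j hij ?_
        have : (a i : ℤ) * b j = a j * b i := by linarith
        exact_mod_cast this
      have h3 : p ∣ ((a i : ℤ) * b j - a j * b i).natAbs := Int.natCast_dvd.1 h
      exact (Nat.le_of_dvd (Int.natAbs_pos.2 h0) h3).trans (hD i j)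

/-- **Maynard-Tao** for admissible tuples of linear forms, with a lower bound for the number of
values -/
theorem maynard_tao_count (r : ℕ) : ∃ k : ℕ, 2 ≤ k ∧ ∀ a b : Fin k → ℕ, (∀ i, 0 < a i) →
    (∀ i j, i ≠ j → a i * b j ≠ a j * b i) →
    (∀ p : ℕ, p.Prime → ∃ m : ℕ, ∀ i, ¬ p ∣ a i * m + b i) →
    ∃ W ν : ℕ, 0 < W ∧ ∀ ε : ℝ, 0 < ε → ∃ N₀ : ℕ, ∀ N : ℕ, N₀ ≤ N → (N : ℝ) ^ (1 - ε) ≤
      ((Ioc N (2 * N)).filter (fun m =>
        r ≤ (univ.filter (fun i => (a i * (W * m + ν) + b i).Prime)).card)).card := by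
  obtain ⟨k, hk, D₁, h⟩ := maynard_count r
  refine ⟨k, hk, fun a b ha hab hadm => ?_⟩
  set D : ℕ := D₁ + ∑ i, a i + ∑ i, ∑ j, ((a i : ℤ) * b j - a j * b i).natAbs with hDdef
  obtain ⟨ν, hν⟩ := General_class D a b hadm
  have haD : ∀ i, a i ≤ D := by
    intro i
    have := single_le_sum (f := a) (fun _ _ => Nat.zero_le _) (mem_univ i)
    omega
  have hdD : ∀ i j, ((a i : ℤ) * b j - a j * b i).natAbs ≤ D := by
    intro i j
    have h1 := single_le_sum (f := fun j => ((a i : ℤ) * b j - a j * b i).natAbs)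
      (fun _ _ => Nat.zero_le _) (mem_univ j)
    have h2 := single_le_sum (f := fun i => ∑ j, ((a i : ℤ) * b j - a j * b i).natAbs)
      (fun _ _ => Nat.zero_le _) (mem_univ i)
    omega
  have hF := General_forms D a b ha haD hab hdD ν hν
  set W : ℕ := ∏ p ∈ (Icc 1 D).filter Nat.Prime, p with hW
  refine ⟨W, ν, prod_pos fun p hp => (mem_filter.1 hp).2.pos, fun ε hε => ?_⟩
  obtain ⟨N₀, hN₀⟩ := h D _ (∑ i, (a i * ν + b i)) ε (by omega) hε
  refine ⟨max N₀ 1, fun N hN => ?_⟩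
  have hN1 : 1 ≤ N := le_trans (le_max_right _ _) hN
  have h1 := hN₀ N (le_trans (le_max_left _ _) hN) _ hF fun i => ?_
  · have e : ∀ i m, a i * (W * m + ν) + b i = a i * W * m + (a i * ν + b i) := fun i m => by ring
    simp only [e]
    exact h1
  · have h2 := single_le_sum (f := fun i => a i * ν + b i) (fun _ _ => Nat.zero_le _) (mem_univ i)
    calc a i * ν + b i ≤ ∑ i, (a i * ν + b i) := h2
      _ ≤ _ := Nat.le_mul_of_pos_right _ hN1

/-- **Maynard-Tao** for admissible tuples of linear forms -/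
theorem maynard_tao (r : ℕ) : ∃ k : ℕ, 2 ≤ k ∧ ∀ a b : Fin k → ℕ, (∀ i, 0 < a i) →
    (∀ i j, i ≠ j → a i * b j ≠ a j * b i) →
    (∀ p : ℕ, p.Prime → ∃ m : ℕ, ∀ i, ¬ p ∣ a i * m + b i) →
    {m : ℕ | r ≤ (univ.filter (fun i => (a i * m + b i).Prime)).card}.Infinite := by
  obtain ⟨k, hk, h⟩ := maynard_tao_count r
  refine ⟨k, hk, fun a b ha hab hadm => ?_⟩
  obtain ⟨W, ν, hW, hc⟩ := h a b ha hab hadm
  obtain ⟨N₀, hN⟩ := hc (1 / 2) (by norm_num)
  refine Set.infinite_of_forall_exists_gt fun n => ?_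
  have h0 := hN (max n N₀ + 1) (by have := le_max_right n N₀; omega)
  have h2 : (0 : ℝ) < ((max n N₀ + 1 : ℕ) : ℝ) ^ (1 - 1 / 2 : ℝ) :=
    Real.rpow_pos_of_pos (by positivity) _
  have h3 := h2.trans_le h0
  obtain ⟨m, hm⟩ := card_pos.1 (by exact_mod_cast h3)
  rw [mem_filter] at hm
  refine ⟨W * m + ν, hm.2, ?_⟩
  have h1 := (mem_Ioc.1 hm.1).1
  have h2 : n ≤ max n N₀ := le_max_left _ _
  nlinarith

/-- the application: two primes among the `x i * t - 1`, for at least `X^(1-ε)` of the `t ≤ X`, for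
arbitrarily large `X` -/
theorem two_primes : ∃ k : ℕ, 2 ≤ k ∧ ∀ x : Fin k → ℕ, (∀ i, 0 < x i) → StrictMono x →
    ∃ i j, i < j ∧ ∀ ε : ℝ, 0 < ε → ∀ X₀ : ℕ, ∃ X : ℕ, X₀ ≤ X ∧ (X : ℝ) ^ (1 - ε) ≤
      ((Icc 1 X).filter (fun t => (x i * t - 1).Prime ∧ (x j * t - 1).Prime)).card := by
  obtain ⟨k, hk, h⟩ := maynard_tao_count 2
  refine ⟨k, hk, fun x hx hmono => ?_⟩
  have h1 := h x (fun i => x i - 1) hx ?_ ?_
  · obtain ⟨W, ν, hW, hc⟩ := h1
    -- one pair for every `n`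
    have hpair : ∀ n : ℕ, ∃ N : ℕ, n + 1 ≤ N ∧ ∃ ij : Fin k × Fin k, ij.1 < ij.2 ∧
        (N : ℝ) ^ (1 - 1 / ((n : ℝ) + 1)) ≤ (k : ℝ) ^ 2 *
        ((Icc 1 (2 * N * W + ν + 1)).filter (fun t => (x ij.1 * t - 1).Prime ∧
          (x ij.2 * t - 1).Prime)).card := by
      intro n
      obtain ⟨N₀, hN₀⟩ := hc (1 / ((n : ℝ) + 1)) (by positivity)
      refine ⟨max N₀ (n + 1), le_max_right _ _, ?_⟩
      set N := max N₀ (n + 1) with hN
      have h2 := hN₀ N (le_max_left _ _)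
      set V := (Ioc N (2 * N)).filter (fun m =>
        2 ≤ (univ.filter (fun i => (x i * (W * m + ν) + (x i - 1)).Prime)).card) with hV
      set T : Finset (Fin k × Fin k) := univ.filter (fun ij => ij.1 < ij.2) with hT
      set F : Fin k × Fin k → Finset ℕ := fun ij => (Icc 1 (2 * N * W + ν + 1)).filter
        (fun t => (x ij.1 * t - 1).Prime ∧ (x ij.2 * t - 1).Prime) with hF
      have hsub : V.image (fun m => W * m + ν + 1) ⊆ T.biUnion F := by
        intro t ht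
        obtain ⟨m, hm, rfl⟩ := mem_image.1 ht
        rw [hV, mem_filter, mem_Ioc] at hm
        obtain ⟨i, hi, j, hj, hij⟩ := Finset.one_lt_card.1 (show 1 < _ from hm.2)
        have e : ∀ l, x l * (W * m + ν) + (x l - 1) = x l * (W * m + ν + 1) - 1 := by
          intro l
          have := hx l
          rw [mul_add (x l) (W * m + ν) 1, mul_one]
          omega
        simp only [mem_filter, mem_univ, true_and, e] at hi hj
        have hr : W * m + ν + 1 ∈ Icc 1 (2 * N * W + ν + 1) := by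
          rw [mem_Icc]
          refine ⟨by omega, ?_⟩
          nlinarith [Nat.mul_le_mul_left W hm.1.2]
        rw [mem_biUnion]
        rcases lt_or_gt_of_ne hij with hlt | hlt
        · exact ⟨(i, j), mem_filter.2 ⟨mem_univ _, hlt⟩, mem_filter.2 ⟨hr, hi, hj⟩⟩
        · exact ⟨(j, i), mem_filter.2 ⟨mem_univ _, hlt⟩, mem_filter.2 ⟨hr, hj, hi⟩⟩
      have hcard : V.card ≤ ∑ ij ∈ T, (F ij).card := by
        calc V.card = (V.image (fun m => W * m + ν + 1)).card := by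
              refine (card_image_of_injective _ fun u v huv => ?_).symm
              have h3 : W * u = W * v := by simpa using huv
              exact Nat.eq_of_mul_eq_mul_left hW h3
          _ ≤ _ := (card_le_card hsub).trans card_biUnion_le
      have hTne : T.Nonempty := by
        refine ⟨(⟨0, by omega⟩, ⟨1, by omega⟩), mem_filter.2 ⟨mem_univ _, ?_⟩⟩
        simp [Fin.lt_def]
      obtain ⟨ij, hij, hmax⟩ := exists_max_image T (fun ij => (F ij).card) hTne
      refine ⟨ij, (mem_filter.1 hij).2, h2.trans ?_⟩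
      have h5 : V.card ≤ k ^ 2 * (F ij).card := by
        refine hcard.trans ?_
        calc ∑ ij' ∈ T, (F ij').card ≤ ∑ _ij' ∈ T, (F ij).card := sum_le_sum hmax
          _ = T.card * (F ij).card := by rw [sum_const, smul_eq_mul]
          _ ≤ k ^ 2 * (F ij).card := by
              refine Nat.mul_le_mul_right _ ?_
              have := card_le_univ T
              rw [Fintype.card_prod, Fintype.card_fin] at this
              nlinarith
      exact_mod_cast h5
    choose Nf hNf ijf hijf hcf using hpair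
    obtain ⟨ij, hinf⟩ := Finite.exists_infinite_fiber ijf
    have hinf' : (ijf ⁻¹' {ij}).Infinite := Set.infinite_coe_iff.1 hinf
    obtain ⟨n₁, hn₁⟩ := hinf'.nonempty
    have hij : ij.1 < ij.2 := by
      have := hijf n₁
      rwa [show ijf n₁ = ij from hn₁] at this
    refine ⟨ij.1, ij.2, hij, fun ε hε X₀ => ?_⟩
    -- choose `n` large in the fiber
    set c : ℝ := 2 * W + ν + 1 with hcdef
    have hc1 : 1 ≤ c := by
      rw [hcdef]
      have h2 : (0 : ℝ) ≤ W := Nat.cast_nonneg _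
      have h3 : (0 : ℝ) ≤ ν := Nat.cast_nonneg _
      linarith
    have hk0 : (0 : ℝ) < k := by exact_mod_cast (by omega : 0 < k)
    obtain ⟨B, hB⟩ : ∃ B : ℕ, ∀ n : ℕ, B ≤ n →
        (k : ℝ) ^ 2 * (c ^ (1 : ℝ) + 1) ≤ (n : ℝ) ^ (ε / 2) := by
      have := ((tendsto_rpow_atTop (show 0 < ε / 2 by positivity)).comp
        tendsto_natCast_atTop_atTop).eventually_ge_atTop ((k : ℝ) ^ 2 * (c ^ (1 : ℝ) + 1))
      obtain ⟨B, hB⟩ := Filter.eventually_atTop.1 this
      exact ⟨B, fun n hn => hB n hn⟩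
    obtain ⟨n, hn, hngt⟩ := hinf'.exists_gt (B + X₀ + ⌈2 / ε⌉₊)
    have hN1 := hNf n
    have hN := hcf n
    rw [show ijf n = ij from hn] at hN
    set N := Nf n with hNdef
    have hNB : B ≤ N := by omega
    have hN0 : (0 : ℝ) < N := by exact_mod_cast (by omega : 0 < N)
    have hNone : (1 : ℝ) ≤ N := by exact_mod_cast (by omega : 1 ≤ N)
    have hW1 : (1 : ℝ) ≤ W := by exact_mod_cast hW
    have hX : ((2 * N * W + ν + 1 : ℕ) : ℝ) ≤ c * N := by
      push_cast
      rw [hcdef]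
      have : (0 : ℝ) ≤ ν := Nat.cast_nonneg _
      nlinarith
    have hXge : (N : ℝ) ≤ ((2 * N * W + ν + 1 : ℕ) : ℝ) := by
      push_cast
      have : (0 : ℝ) ≤ ν := Nat.cast_nonneg _
      nlinarith
    refine ⟨2 * N * W + ν + 1, ?_, ?_⟩
    · have : N ≤ 2 * N * W + ν + 1 := by exact_mod_cast hXge
      omega
    have hεn : 1 / ((n : ℝ) + 1) ≤ ε / 2 := by
      have h4 : 2 / ε ≤ n := by
        refine (Nat.le_ceil _).trans ?_
        exact_mod_cast (by omega : ⌈2 / ε⌉₊ ≤ n)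
      rw [div_le_div_iff₀ (by positivity) (by norm_num)]
      rw [div_le_iff₀ hε] at h4
      nlinarith
    set cnt : ℝ := (((Icc 1 (2 * N * W + ν + 1)).filter (fun t => (x ij.1 * t - 1).Prime ∧
          (x ij.2 * t - 1).Prime)).card : ℝ) with hcnt
    have hcnt0 : 0 ≤ cnt := Nat.cast_nonneg _
    have h6 : (N : ℝ) ^ (1 - ε / 2) ≤ (k : ℝ) ^ 2 * cnt :=
      (Real.rpow_le_rpow_of_exponent_le hNone (by linarith)).trans hN
    have h7 := hB N hNB
    have h8 : (c * N) ^ (1 - ε) ≤ (c ^ (1 : ℝ) + 1) * (N : ℝ) ^ (1 - ε) := by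
      rw [Real.mul_rpow (by linarith) hN0.le]
      refine mul_le_mul_of_nonneg_right ?_ (by positivity)
      have := Real.rpow_le_rpow_of_exponent_le hc1 (show 1 - ε ≤ 1 by linarith)
      linarith
    have h9 : (N : ℝ) ^ (1 - ε / 2) = (N : ℝ) ^ (1 - ε) * (N : ℝ) ^ (ε / 2) := by
      rw [← Real.rpow_add hN0]
      congr 1
      ring
    have h10 : (k : ℝ) ^ 2 * ((c * N) ^ (1 - ε)) ≤ (k : ℝ) ^ 2 * cnt := by
      calc (k : ℝ) ^ 2 * ((c * N) ^ (1 - ε))
          ≤ (k : ℝ) ^ 2 * ((c ^ (1 : ℝ) + 1) * (N : ℝ) ^ (1 - ε)) := by gcongr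
        _ = (k : ℝ) ^ 2 * (c ^ (1 : ℝ) + 1) * (N : ℝ) ^ (1 - ε) := by ring
        _ ≤ (N : ℝ) ^ (ε / 2) * (N : ℝ) ^ (1 - ε) := by gcongr
        _ = (N : ℝ) ^ (1 - ε / 2) := by rw [h9]; ring
        _ ≤ _ := h6
    have h11 : (c * N) ^ (1 - ε) ≤ cnt := le_of_mul_le_mul_left h10 (by positivity)
    by_cases hε1 : ε ≤ 1
    · exact (Real.rpow_le_rpow (Nat.cast_nonneg _) hX (by linarith)).trans h11
    · -- `ε > 1`: the left side is at most `1`
      have h12 : ((2 * N * W + ν + 1 : ℕ) : ℝ) ^ (1 - ε) ≤ 1 :=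
        Real.rpow_le_one_of_one_le_of_nonpos (hNone.trans hXge) (by linarith)
      have h13 : 0 < cnt := by
        have : 0 < (N : ℝ) ^ (1 - ε / 2) := by positivity
        have h14 := this.trans_le h6
        exact (pos_iff_pos_of_mul_pos h14).1 (by positivity)
      have h15 : (1 : ℝ) ≤ cnt := by
        rw [hcnt] at h13 ⊢
        exact_mod_cast h13
      exact h12.trans h15
  · intro i j hij heq
    have h2 := hx i
    have h3 := hx j
    have h4 : x i ≠ x j := fun h => hij (hmono.injective h)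
    apply h4
    have h5 : x i * (x j - 1) + x i = x j * (x i - 1) + x j → x i = x j := by
      intro h5; omega
    have e1 : x i * (x j - 1) + x i = x i * x j := by
      obtain ⟨y, hy⟩ : ∃ y, x j = y + 1 := ⟨x j - 1, by omega⟩
      rw [hy]; simp; ring
    have e2 : x j * (x i - 1) + x j = x j * x i := by
      obtain ⟨y, hy⟩ : ∃ y, x i = y + 1 := ⟨x i - 1, by omega⟩
      rw [hy]; simp; ring
    nlinarith [mul_comm (x i) (x j)]
  · intro p hp
    refine ⟨p - 1, fun i hd => ?_⟩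
    have hp2 := hp.two_le
    have h2 := hx i
    have e : x i * (p - 1) + (x i - 1) + 1 = x i * p := by
      obtain ⟨y, hy⟩ : ∃ y, p = y + 1 := ⟨p - 1, by omega⟩
      rw [hy, Nat.add_sub_cancel, mul_add, mul_one]
      omega
    have h3 : p ∣ x i * (p - 1) + (x i - 1) + 1 := e ▸ dvd_mul_left _ _
    have h4 : p ∣ 1 := (Nat.dvd_add_right hd).1 h3
    exact hp.one_lt.ne' (Nat.dvd_one.1 h4)

end Pool.Agent.MT
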