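import Pool.Agent.Work.MT.Defs

/-! # sums over rough numbers; the choice of the profile -/

namespace Pool.Agent.MT

open Finset

noncomputable section

/-- sum of `1/n` over the `n ≤ t` without prime factors in `S` -/
def Cells_A (S : Finset ℕ) (t : ℝ) : ℝ :=
  ∑ n ∈ (Ioc 0 ⌊t⌋₊).filter (fun n => ∀ p ∈ S, ¬ p ∣ n), 1 / (n : ℝ)

/-- density of the numbers without prime factors in `S` -/
def Cells_k (S : Finset ℕ) : ℝ := ∏ p ∈ S, (1 - 1 / (p : ℝ))

end

theorem Cells_base (t : ℝ) (ht : 1 ≤ t) : |Cells_A ∅ t - Real.log t| ≤ 1 := by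
  have h1 : Cells_A ∅ t = (harmonic ⌊t⌋₊ : ℝ) := by
    unfold Cells_A
    rw [harmonic_eq_sum_Icc]
    push_cast
    rw [Finset.filter_true_of_mem (by simp)]
    apply Finset.sum_congr
    · ext n
      simp only [mem_Ioc, mem_Icc]
      omega
    · intro n _
      rw [one_div]
  have h2 := log_le_harmonic_floor t (by linarith)
  have h3 := harmonic_floor_le_one_add_log t ht
  rw [h1, abs_le]
  constructor <;> linarith

theorem Cells_step (S : Finset ℕ) (hS : ∀ q ∈ S, q.Prime) (p : ℕ) (hp : p.Prime) (hpS : p ∉ S)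
    (t : ℝ) : Cells_A (insert p S) t = Cells_A S t - 1 / (p : ℝ) * Cells_A S (t / p) := by
  have hp0 : 0 < p := hp.pos
  have hpR : (0 : ℝ) < p := by exact_mod_cast hp0
  have hdvd : ∀ m : ℕ, (∀ q ∈ S, ¬ q ∣ p * m) ↔ (∀ q ∈ S, ¬ q ∣ m) := by
    intro m
    refine forall₂_congr fun q hq => ?_
    have hqp := hS q hq
    have hne : ¬ q ∣ p := by
      intro h
      rw [(Nat.prime_dvd_prime_iff_eq hqp hp)] at h
      exact hpS (h ▸ hq)
    rw [hqp.dvd_mul]
    tauto
  have key : ∑ n ∈ ((Ioc 0 ⌊t⌋₊).filter (fun n => ∀ q ∈ S, ¬ q ∣ n)).filter (fun n => p ∣ n),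
      1 / (n : ℝ) = 1 / (p : ℝ) * Cells_A S (t / p) := by
    unfold Cells_A
    rw [Finset.mul_sum]
    symm
    apply Finset.sum_nbij' (fun m => p * m) (fun n => n / p)
    · intro m hm
      simp only [mem_filter, mem_Ioc] at hm ⊢
      rw [Nat.floor_div_natCast, Nat.le_div_iff_mul_le hp0] at hm
      refine ⟨⟨⟨Nat.mul_pos hp0 hm.1.1, ?_⟩, (hdvd m).2 hm.2⟩, dvd_mul_right _ _⟩
      rw [mul_comm]
      exact hm.1.2
    · intro n hn
      simp only [mem_filter, mem_Ioc] at hn ⊢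
      obtain ⟨⟨⟨h1, h2⟩, h3⟩, m, rfl⟩ := hn
      rw [Nat.mul_div_cancel_left _ hp0, Nat.floor_div_natCast, Nat.le_div_iff_mul_le hp0]
      refine ⟨⟨Nat.pos_of_mul_pos_left h1 |> fun h => ?_, ?_⟩, (hdvd m).1 h3⟩
      · rcases Nat.eq_zero_or_pos m with rfl | h'
        · simp at h1
        · exact h'
      · rw [mul_comm]
        exact h2
    · intro m _
      exact Nat.mul_div_cancel_left _ hp0
    · intro n hn
      simp only [mem_filter] at hn
      exact Nat.mul_div_cancel' hn.2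
    · intro m _
      push_cast
      rw [one_div_mul_one_div]
  have hsplit := Finset.sum_filter_add_sum_filter_not
    ((Ioc 0 ⌊t⌋₊).filter (fun n => ∀ q ∈ S, ¬ q ∣ n)) (fun n => p ∣ n) (fun n => 1 / (n : ℝ))
  rw [key] at hsplit
  have h2 : Cells_A (insert p S) t =
      ∑ n ∈ ((Ioc 0 ⌊t⌋₊).filter (fun n => ∀ q ∈ S, ¬ q ∣ n)).filter (fun n => ¬ p ∣ n),
        1 / (n : ℝ) := by
    unfold Cells_A
    rw [Finset.filter_filter]
    apply Finset.sum_congr _ (fun _ _ => rfl)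
    ext n
    simp only [mem_filter, mem_insert, forall_eq_or_imp]
    tauto
  have h3 : Cells_A S t = ∑ n ∈ (Ioc 0 ⌊t⌋₊).filter (fun n => ∀ q ∈ S, ¬ q ∣ n), 1 / (n : ℝ) := rfl
  rw [h2, h3]
  linarith

theorem Cells_k_nonneg (S : Finset ℕ) (hS : ∀ q ∈ S, q.Prime) : 0 < Cells_k S := by
  unfold Cells_k
  apply Finset.prod_pos
  intro p hp
  have h2 : (2 : ℝ) ≤ p := by exact_mod_cast (hS p hp).two_le
  have : 1 / (p : ℝ) ≤ 1 / 2 := one_div_le_one_div_of_le (by norm_num) h2
  linarith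

theorem Cells_k_le (S : Finset ℕ) (hS : ∀ q ∈ S, q.Prime) : Cells_k S ≤ 1 := by
  unfold Cells_k
  apply Finset.prod_le_one
  · intro p hp
    have h2 : (2 : ℝ) ≤ p := by exact_mod_cast (hS p hp).two_le
    have : 1 / (p : ℝ) ≤ 1 / 2 := one_div_le_one_div_of_le (by norm_num) h2
    linarith
  · intro p hp
    have : (0 : ℝ) ≤ 1 / (p : ℝ) := by positivity
    linarith

theorem Cells_asym (S : Finset ℕ) (hS : ∀ q ∈ S, q.Prime) :
    ∃ C : ℝ, 0 ≤ C ∧ ∀ t : ℝ, 1 ≤ t → |Cells_A S t - Cells_k S * Real.log t| ≤ C := by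
  induction S using Finset.induction_on with
  | empty =>
    refine ⟨1, by norm_num, fun t ht => ?_⟩
    have := Cells_base t ht
    simpa [Cells_k] using this
  | insert p S hpS ih =>
    obtain ⟨C, hC0, hC⟩ := ih (fun q hq => hS q (mem_insert_of_mem hq))
    have hp : p.Prime := hS p (mem_insert_self _ _)
    have hS' : ∀ q ∈ S, q.Prime := fun q hq => hS q (mem_insert_of_mem hq)
    have hp1 : (1 : ℝ) ≤ p := by exact_mod_cast hp.one_lt.le
    have hpR : (0 : ℝ) < p := by linarith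
    have hk0 := Cells_k_nonneg S hS'
    have hk1 := Cells_k_le S hS'
    have hlogp : 0 ≤ Real.log p := Real.log_nonneg hp1
    have hkp : Cells_k (insert p S) = (1 - 1 / (p : ℝ)) * Cells_k S := by
      unfold Cells_k
      rw [Finset.prod_insert hpS]
    refine ⟨2 * C + Real.log p, by positivity, fun t ht => ?_⟩
    rw [Cells_step S hS' p hp hpS t, hkp]
    have h1 := hC t ht
    have hinv : 1 / (p : ℝ) ≤ 1 := by
      rw [div_le_one hpR]
      exact hp1
    have hinv0 : 0 ≤ 1 / (p : ℝ) := by positivity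
    by_cases htp : (p : ℝ) ≤ t
    · have h2 := hC (t / p) (by rwa [le_div_iff₀ hpR, one_mul])
      rw [Real.log_div (by linarith) (by linarith)] at h2
      have e : Cells_A S t - 1 / (p : ℝ) * Cells_A S (t / p) -
          (1 - 1 / (p : ℝ)) * Cells_k S * Real.log t =
          (Cells_A S t - Cells_k S * Real.log t) -
          1 / (p : ℝ) * (Cells_A S (t / p) - Cells_k S * (Real.log t - Real.log p)) +
          1 / (p : ℝ) * Cells_k S * Real.log p := by ring
      rw [e]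
      have h3 : |1 / (p : ℝ) * (Cells_A S (t / p) - Cells_k S * (Real.log t - Real.log p))| ≤ C := by
        rw [abs_mul, abs_of_nonneg hinv0]
        calc 1 / (p : ℝ) * |Cells_A S (t / p) - Cells_k S * (Real.log t - Real.log p)|
            ≤ 1 * C := mul_le_mul hinv h2 (abs_nonneg _) (by norm_num)
          _ = C := one_mul _
      have h4 : |1 / (p : ℝ) * Cells_k S * Real.log p| ≤ Real.log p := by
        rw [abs_of_nonneg (by positivity)]
        have : 1 / (p : ℝ) * Cells_k S ≤ 1 := by nlinarith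
        nlinarith
      have h5 := abs_add_le ((Cells_A S t - Cells_k S * Real.log t) -
          1 / (p : ℝ) * (Cells_A S (t / p) - Cells_k S * (Real.log t - Real.log p)))
          (1 / (p : ℝ) * Cells_k S * Real.log p)
      have h6 := abs_sub (Cells_A S t - Cells_k S * Real.log t)
          (1 / (p : ℝ) * (Cells_A S (t / p) - Cells_k S * (Real.log t - Real.log p)))
      linarith
    · push Not at htp
      have hz : Cells_A S (t / p) = 0 := by
        unfold Cells_A
        have : ⌊t / (p : ℝ)⌋₊ = 0 := by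
          rw [Nat.floor_eq_zero]
          rwa [div_lt_one hpR]
        rw [this]
        simp
      rw [hz]
      have hlt : Real.log t ≤ Real.log p := Real.log_le_log (by linarith) htp.le
      have hlt0 : 0 ≤ Real.log t := Real.log_nonneg ht
      have e : Cells_A S t - 1 / (p : ℝ) * 0 - (1 - 1 / (p : ℝ)) * Cells_k S * Real.log t =
          (Cells_A S t - Cells_k S * Real.log t) + 1 / (p : ℝ) * Cells_k S * Real.log t := by ring
      rw [e]
      have h4 : |1 / (p : ℝ) * Cells_k S * Real.log t| ≤ Real.log p := by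
        rw [abs_of_nonneg (by positivity)]
        have : 1 / (p : ℝ) * Cells_k S ≤ 1 := by nlinarith
        nlinarith
      have h5 := abs_add_le (Cells_A S t - Cells_k S * Real.log t)
          (1 / (p : ℝ) * Cells_k S * Real.log t)
      linarith

theorem Cells_rough_iff (D n : ℕ) (hn : 0 < n) :
    (∀ p ∈ n.primeFactors, D < p) ↔ ∀ p ∈ (Icc 1 D).filter Nat.Prime, ¬ p ∣ n := by
  constructor
  · intro h p hp hdvd
    simp only [mem_filter, mem_Icc] at hp
    have := h p (Nat.mem_primeFactors.2 ⟨hp.2, hdvd, hn.ne'⟩)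
    omega
  · intro h p hp
    rw [Nat.mem_primeFactors] at hp
    by_contra hlt
    push Not at hlt
    exact h p (by simp only [mem_filter, mem_Icc]; exact ⟨⟨hp.1.one_lt.le, hlt⟩, hp.1⟩) hp.2.1

/-- the sum over the rough numbers up to `t` -/
noncomputable def Cells_B (D : ℕ) (t : ℝ) : ℝ := Cells_A ((Icc 1 D).filter Nat.Prime) t

theorem Cells_B_eq (D : ℕ) (t : ℝ) : Cells_B D t =
    ∑ n ∈ (Ioc 0 ⌊t⌋₊).filter (fun n => ∀ p ∈ n.primeFactors, D < p), 1 / (n : ℝ) := by
  unfold Cells_B Cells_A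
  apply Finset.sum_congr _ (fun _ _ => rfl)
  ext n
  simp only [mem_filter, and_congr_right_iff]
  intro hn
  rw [mem_Ioc] at hn
  have := Cells_rough_iff D n hn.1
  simp only [mem_filter] at this
  exact this.symm

theorem Cells_B_asym (D : ℕ) :
    ∃ C : ℝ, 0 ≤ C ∧ ∀ t : ℝ, 1 ≤ t → |Cells_B D t - kap D * Real.log t| ≤ C :=
  Cells_asym ((Icc 1 D).filter Nat.Prime) (fun _ hq => (mem_filter.1 hq).2)

theorem rough_sum (D : ℕ) : ∃ C : ℝ, 0 < C ∧ ∀ x y : ℝ, 1 ≤ x → x ≤ y →
    |∑ n ∈ (Ioc ⌊x⌋₊ ⌊y⌋₊).filter (fun n => ∀ p ∈ n.primeFactors, D < p), 1 / (n : ℝ) -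
      kap D * Real.log (y / x)| ≤ C := by
  obtain ⟨C, hC0, hC⟩ := Cells_B_asym D
  refine ⟨2 * C + 1, by linarith, fun x y hx hxy => ?_⟩
  have hy : 1 ≤ y := le_trans hx hxy
  have hfl : ⌊x⌋₊ ≤ ⌊y⌋₊ := Nat.floor_le_floor hxy
  have hsum : Cells_B D y = Cells_B D x +
      ∑ n ∈ (Ioc ⌊x⌋₊ ⌊y⌋₊).filter (fun n => ∀ p ∈ n.primeFactors, D < p), 1 / (n : ℝ) := by
    rw [Cells_B_eq, Cells_B_eq, ← Finset.sum_union]
    · apply Finset.sum_congr _ (fun _ _ => rfl)
      rw [← Finset.filter_union, Finset.Ioc_union_Ioc_eq_Ioc (Nat.zero_le _) hfl]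
    · apply Finset.disjoint_filter_filter
      rw [Finset.disjoint_left]
      intro a ha hb
      rw [mem_Ioc] at ha hb
      omega
  have h1 := hC x hx
  have h2 := hC y hy
  rw [Real.log_div (by linarith) (by linarith)]
  rw [abs_le] at h1 h2 ⊢
  constructor <;> nlinarith [h1.1, h1.2, h2.1, h2.2, hsum]

noncomputable section

/-- the cell boundaries -/
def Cells_T (R : ℕ) (η : ℝ) (c : ℕ) : ℝ := (R : ℝ) ^ ((2 : ℝ) ^ c * η)

open Classical in
/-- the number of the cell of `n` -/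
def Cells_c (R : ℕ) (η : ℝ) (J n : ℕ) : ℕ :=
  ((range J).filter (fun c => Cells_T R η c < n)).card

/-- a function of the cell -/
def Cells_g (R : ℕ) (η : ℝ) (J : ℕ) (g : ℕ → ℝ) (n : ℕ) : ℝ :=
  if Cells_c R η J n < J then g (Cells_c R η J n) else 0

end

theorem Cells_T_mono (R : ℕ) (hR : 1 ≤ R) (η : ℝ) (hη : 0 ≤ η) {c d : ℕ} (h : c ≤ d) :
    Cells_T R η c ≤ Cells_T R η d := by
  unfold Cells_T
  apply Real.rpow_le_rpow_of_exponent_le (by exact_mod_cast hR)
  exact mul_le_mul_of_nonneg_right (pow_le_pow_right₀ (by norm_num) h) hη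

theorem Cells_c_le_iff (R : ℕ) (hR : 1 ≤ R) (η : ℝ) (hη : 0 ≤ η) (J n c : ℕ) (hc : c < J) :
    Cells_c R η J n ≤ c ↔ (n : ℝ) ≤ Cells_T R η c := by
  classical
  unfold Cells_c
  constructor
  · intro h
    by_contra hlt
    push Not at hlt
    have hsub : range (c + 1) ⊆ (range J).filter (fun c => Cells_T R η c < n) := by
      intro d hd
      rw [mem_range] at hd
      rw [mem_filter, mem_range]
      exact ⟨by omega, lt_of_le_of_lt (Cells_T_mono R hR η hη (by omega)) hlt⟩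
    have := Finset.card_le_card hsub
    rw [card_range] at this
    omega
  · intro h
    have hsub : (range J).filter (fun c => Cells_T R η c < n) ⊆ range c := by
      intro d hd
      rw [mem_filter, mem_range] at hd
      rw [mem_range]
      by_contra hle
      push Not at hle
      have := Cells_T_mono R hR η hη hle
      linarith [hd.2]
    have := Finset.card_le_card hsub
    rwa [card_range] at this

theorem Cells_c_mono (R : ℕ) (η : ℝ) (J : ℕ) {m n : ℕ} (h : m ≤ n) :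
    Cells_c R η J m ≤ Cells_c R η J n := by
  classical
  unfold Cells_c
  apply Finset.card_le_card
  intro d hd
  rw [mem_filter] at hd ⊢
  exact ⟨hd.1, lt_of_lt_of_le hd.2 (by exact_mod_cast h)⟩

theorem Cells_tel (g : ℕ → ℝ) (j m : ℕ) :
    (∑ c ∈ range j, if m ≤ c then g c - g (c + 1) else 0) + (if m ≤ j then g j else 0) =
      if m < j + 1 then g m else 0 := by
  induction j with
  | zero =>
    simp only [range_zero, sum_empty, zero_add, Nat.le_zero_eq, Nat.lt_one_iff]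
    split_ifs with h
    · rw [h]
    · rfl
  | succ j ih =>
    rw [Finset.sum_range_succ]
    by_cases h1 : m ≤ j
    · rw [if_pos h1, if_pos (by omega : m < j + 1)] at ih
      rw [if_pos h1, if_pos (by omega : m ≤ j + 1), if_pos (by omega : m < j + 1 + 1)]
      linarith
    · rw [if_neg h1, if_neg (by omega : ¬ m < j + 1)] at ih
      rw [if_neg h1]
      by_cases h2 : m = j + 1
      · subst h2
        rw [if_pos le_rfl, if_pos (by omega)]
        linarith
      · rw [if_neg (by omega), if_neg (by omega)]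
        linarith

theorem Cells_BT (D R : ℕ) (t : ℝ) (ht : t ≤ R) :
    ∑ n ∈ NN D R, (if (n : ℝ) ≤ t then 1 / (n : ℝ) else 0) = Cells_B D t := by
  rw [Cells_B_eq, ← Finset.sum_filter]
  apply Finset.sum_congr _ (fun _ _ => rfl)
  ext n
  simp only [NN, mem_filter, mem_Icc, mem_Ioc]
  constructor
  · rintro ⟨⟨⟨h1, _⟩, h3⟩, h4⟩
    exact ⟨⟨by omega, Nat.le_floor h4⟩, h3⟩
  · rintro ⟨⟨h1, h2⟩, h3⟩
    have h4 : (n : ℝ) ≤ t := by
      rw [Nat.le_floor_iff' (by omega)] at h2
      exact h2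
    exact ⟨⟨⟨by omega, by exact_mod_cast le_trans h4 ht⟩, h3⟩, h4⟩

theorem Cells_sum (D R : ℕ) (hR : 1 ≤ R) (η : ℝ) (hη : 0 ≤ η) (j : ℕ)
    (hj : (2 : ℝ) ^ j * η ≤ 1) (g : ℕ → ℝ) :
    ∑ n ∈ NN D R, Cells_g R η (j + 1) g n / (n : ℝ) =
      (∑ c ∈ range j, (g c - g (c + 1)) * Cells_B D (Cells_T R η c)) +
        g j * Cells_B D (Cells_T R η j) := by
  have hTR : ∀ c, c ≤ j → Cells_T R η c ≤ R := by
    intro c hc
    refine le_trans (Cells_T_mono R hR η hη hc) ?_
    unfold Cells_T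
    calc (R : ℝ) ^ ((2 : ℝ) ^ j * η) ≤ (R : ℝ) ^ (1 : ℝ) :=
          Real.rpow_le_rpow_of_exponent_le (by exact_mod_cast hR) hj
      _ = R := Real.rpow_one _
  have h1 : ∀ n : ℕ, Cells_g R η (j + 1) g n / (n : ℝ) =
      (∑ c ∈ range j, (g c - g (c + 1)) * (if (n : ℝ) ≤ Cells_T R η c then 1 / (n : ℝ) else 0)) +
        g j * (if (n : ℝ) ≤ Cells_T R η j then 1 / (n : ℝ) else 0) := by
    intro n
    unfold Cells_g
    rw [← Cells_tel g j (Cells_c R η (j + 1) n), add_div, Finset.sum_div]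
    congr 1
    · apply Finset.sum_congr rfl
      intro c hc
      rw [mem_range] at hc
      have := Cells_c_le_iff R hR η hη (j + 1) n c (by omega)
      by_cases h : (n : ℝ) ≤ Cells_T R η c
      · rw [if_pos (this.2 h), if_pos h, mul_one_div]
      · rw [if_neg (fun h' => h (this.1 h')), if_neg h, zero_div, mul_zero]
    · have := Cells_c_le_iff R hR η hη (j + 1) n j (by omega)
      by_cases h : (n : ℝ) ≤ Cells_T R η j
      · rw [if_pos (this.2 h), if_pos h, mul_one_div]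
      · rw [if_neg (fun h' => h (this.1 h')), if_neg h, zero_div, mul_zero]
  rw [Finset.sum_congr rfl (fun n _ => h1 n), Finset.sum_add_distrib, Finset.sum_comm]
  congr 1
  · apply Finset.sum_congr rfl
    intro c hc
    rw [mem_range] at hc
    rw [← Finset.mul_sum, Cells_BT D R _ (hTR c hc.le)]
  · rw [← Finset.mul_sum, Cells_BT D R _ (hTR j le_rfl)]

theorem Cells_phi1 (j : ℕ) :
    (∑ c ∈ range j, ((1 / 2 : ℝ) ^ c - (1 / 2) ^ (c + 1)) * 2 ^ c) + (1 / 2 : ℝ) ^ j * 2 ^ j =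
      (j : ℝ) / 2 + 1 := by
  have h : ∀ c : ℕ, (1 / 2 : ℝ) ^ c * 2 ^ c = 1 := by
    intro c
    rw [← mul_pow]
    norm_num
  have h2 : ∀ c : ℕ, ((1 / 2 : ℝ) ^ c - (1 / 2) ^ (c + 1)) * 2 ^ c = 1 / 2 := by
    intro c
    have := h c
    rw [pow_succ]
    linarith
  rw [Finset.sum_congr rfl (fun c _ => h2 c), h j]
  simp
  ring

theorem Cells_phi2 (j : ℕ) :
    (∑ c ∈ range j, ((1 / 4 : ℝ) ^ c - (1 / 4) ^ (c + 1)) * 2 ^ c) + (1 / 4 : ℝ) ^ j * 2 ^ j =
      3 / 2 - (1 / 2) ^ (j + 1) := by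
  induction j with
  | zero => norm_num
  | succ j ih =>
    rw [Finset.sum_range_succ]
    have h : ∀ c : ℕ, (1 / 4 : ℝ) ^ c * 2 ^ c = (1 / 2) ^ c := by
      intro c
      rw [← mul_pow]
      norm_num
    have h1 := h j
    have h2 := h (j + 1)
    rw [pow_succ] at h2
    simp only [pow_succ] at *
    linarith

/-- upper and lower bounds of the sums over the cells -/
theorem Cells_bounds (D R : ℕ) (hR : 1 ≤ R) (η : ℝ) (hη : 0 < η) (j : ℕ)
    (hj : (2 : ℝ) ^ j * η ≤ 1) (C : ℝ)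
    (hC : ∀ t : ℝ, 1 ≤ t → |Cells_B D t - kap D * Real.log t| ≤ C)
    (hCB : C ≤ 1 / 2 * (η * (kap D * Real.log R))) (hkap : 0 ≤ kap D * Real.log R)
    (g : ℕ → ℝ) (hg : ∀ c, g (c + 1) ≤ g c) (hg0 : ∀ c, 0 ≤ g c) :
    1 / 2 * (η * (kap D * Real.log R)) *
        ((∑ c ∈ range j, (g c - g (c + 1)) * 2 ^ c) + g j * 2 ^ j) ≤
      ∑ n ∈ NN D R, Cells_g R η (j + 1) g n / (n : ℝ) ∧
    ∑ n ∈ NN D R, Cells_g R η (j + 1) g n / (n : ℝ) ≤
      2 * (η * (kap D * Real.log R)) *
        ((∑ c ∈ range j, (g c - g (c + 1)) * 2 ^ c) + g j * 2 ^ j) := by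
  have hR1 : (1 : ℝ) ≤ R := by exact_mod_cast hR
  have hT : ∀ c : ℕ, 1 / 2 * (η * (kap D * Real.log R)) * 2 ^ c ≤ Cells_B D (Cells_T R η c) ∧
      Cells_B D (Cells_T R η c) ≤ 2 * (η * (kap D * Real.log R)) * 2 ^ c := by
    intro c
    have h1 : 1 ≤ Cells_T R η c := by
      unfold Cells_T
      exact Real.one_le_rpow hR1 (by positivity)
    have h2 := hC _ h1
    have h3 : Real.log (Cells_T R η c) = 2 ^ c * η * Real.log R := by
      unfold Cells_T
      rw [Real.log_rpow (by linarith)]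
    rw [h3, abs_le] at h2
    have h4 : (1 : ℝ) ≤ 2 ^ c := one_le_pow₀ (by norm_num)
    have h5 : 0 ≤ η * (kap D * Real.log R) := by positivity
    have h6 : η * (kap D * Real.log R) ≤ η * (kap D * Real.log R) * 2 ^ c := by
      nlinarith
    constructor <;> nlinarith [h2.1, h2.2]
  rw [Cells_sum D R hR η hη.le j hj g, mul_add, mul_add, Finset.mul_sum, Finset.mul_sum]
  constructor
  · apply add_le_add
    · apply Finset.sum_le_sum
      intro c _
      have h1 := (hT c).1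
      have h2 : 0 ≤ g c - g (c + 1) := by linarith [hg c]
      calc _ = (g c - g (c + 1)) * (1 / 2 * (η * (kap D * Real.log R)) * 2 ^ c) := by ring
        _ ≤ _ := mul_le_mul_of_nonneg_left h1 h2
    · calc _ = g j * (1 / 2 * (η * (kap D * Real.log R)) * 2 ^ j) := by ring
        _ ≤ _ := mul_le_mul_of_nonneg_left (hT j).1 (hg0 j)
  · apply add_le_add
    · apply Finset.sum_le_sum
      intro c _
      have h1 := (hT c).2
      have h2 : 0 ≤ g c - g (c + 1) := by linarith [hg c]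
      calc _ ≤ (g c - g (c + 1)) * (2 * (η * (kap D * Real.log R)) * 2 ^ c) :=
            mul_le_mul_of_nonneg_left h1 h2
        _ = _ := by ring
    · calc _ ≤ g j * (2 * (η * (kap D * Real.log R)) * 2 ^ j) :=
            mul_le_mul_of_nonneg_left (hT j).2 (hg0 j)
        _ = _ := by ring

theorem cells (M : ℝ) : ∃ k : ℕ, 2 ≤ k ∧ ∀ D : ℕ, ∃ R₀ : ℕ, ∀ R : ℕ, R₀ ≤ R →
    ∃ G b : ℕ → ℝ, Good R G b ∧ 1 ≤ I2 D R G ∧ 4 * k * I3 D R G b ≤ I2 D R G ∧
      M * kap D * Real.log R * I2 D R G ≤ k * I1 D R G ^ 2 := by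
  obtain ⟨j, hj⟩ : ∃ j : ℕ, 768 * M ≤ j := ⟨⌈768 * M⌉₊, Nat.le_ceil _⟩
  set k : ℕ := 2 ^ (j + 1) with hk
  have hk2 : 2 ≤ k := by
    rw [hk, pow_succ]
    have : 1 ≤ 2 ^ j := Nat.one_le_two_pow
    omega
  have hkR : (0 : ℝ) < k := by positivity
  have hkR' : (k : ℝ) = 2 ^ j * 2 := by
    rw [hk]
    push_cast
    rw [pow_succ]
  refine ⟨k, hk2, fun D => ?_⟩
  obtain ⟨C, hC0, hC⟩ := Cells_B_asym D
  have hkap : 0 < kap D := Cells_k_nonneg ((Icc 1 D).filter Nat.Prime) (fun _ hq => (mem_filter.1 hq).2)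
  set η : ℝ := 1 / (16 * k * (j + 1)) with hη
  have hη0 : 0 < η := by positivity
  have hkη : 16 * (k : ℝ) * (j + 1) * η = 1 := by
    rw [hη]
    field_simp
  have h2j : (2 : ℝ) ^ j * η ≤ 1 / 32 := by
    have h1 : 32 * ((2 : ℝ) ^ j * η) * (j + 1) = 1 := by
      calc 32 * ((2 : ℝ) ^ j * η) * (j + 1) = 16 * (2 ^ j * 2) * (j + 1) * η := by ring
        _ = 1 := by rw [← hkR', hkη]
    have h3 : 0 ≤ (2 : ℝ) ^ j * η := by positivity
    have h4 : 0 ≤ (2 : ℝ) ^ j * η * j := by positivity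
    nlinarith
  refine ⟨⌈Real.exp (2 * (C + 1) / (η * kap D))⌉₊ + 1, fun R hR => ?_⟩
  have hR1 : 1 ≤ R := by omega
  have hRR : (1 : ℝ) ≤ R := by exact_mod_cast hR1
  have hexp : Real.exp (2 * (C + 1) / (η * kap D)) ≤ R := by
    refine le_trans (Nat.le_ceil _) ?_
    exact_mod_cast (by omega : ⌈Real.exp (2 * (C + 1) / (η * kap D))⌉₊ ≤ R)
  have hlog : 2 * (C + 1) / (η * kap D) ≤ Real.log R := by
    rw [Real.le_log_iff_exp_le (by linarith)]
    exact hexp
  have hBv : 2 * (C + 1) ≤ η * (kap D * Real.log R) := by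
    rw [div_le_iff₀ (by positivity)] at hlog
    linarith
  have hlog0 : 0 ≤ Real.log R := Real.log_nonneg hRR
  set B : ℝ := kap D * Real.log R with hB
  have hB0 : 0 ≤ B := by positivity
  have hbd := Cells_bounds D R hR1 η hη0 j (by linarith) C hC (by linarith) hB0
  have hg1 := hbd (fun c => (1 / 2 : ℝ) ^ c) (fun c => by
    rw [pow_succ]
    have : (0 : ℝ) ≤ (1 / 2) ^ c := by positivity
    linarith) (fun c => by positivity)
  have hg2 := hbd (fun c => (1 / 4 : ℝ) ^ c) (fun c => by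
    rw [pow_succ]
    have : (0 : ℝ) ≤ (1 / 4) ^ c := by positivity
    linarith) (fun c => by positivity)
  simp only [Cells_phi1] at hg1
  simp only [Cells_phi2] at hg2
  have hI1 : I1 D R (Cells_g R η (j + 1) (fun c => (1 / 2 : ℝ) ^ c)) =
      ∑ n ∈ NN D R, Cells_g R η (j + 1) (fun c => (1 / 2 : ℝ) ^ c) n / (n : ℝ) := rfl
  have hI2 : I2 D R (Cells_g R η (j + 1) (fun c => (1 / 2 : ℝ) ^ c)) =
      ∑ n ∈ NN D R, Cells_g R η (j + 1) (fun c => (1 / 4 : ℝ) ^ c) n / (n : ℝ) := by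
    unfold I2
    apply Finset.sum_congr rfl
    intro n _
    unfold Cells_g
    split_ifs
    · rw [← pow_mul, mul_comm _ 2, pow_mul]
      norm_num
    · norm_num
  have hI3 : I3 D R (Cells_g R η (j + 1) (fun c => (1 / 2 : ℝ) ^ c))
      (fun n => 2 ^ (Cells_c R η (j + 1) n) * η) =
      η * ∑ n ∈ NN D R, Cells_g R η (j + 1) (fun c => (1 / 2 : ℝ) ^ c) n / (n : ℝ) := by
    unfold I3
    rw [Finset.mul_sum]
    apply Finset.sum_congr rfl
    intro n _
    unfold Cells_g
    split_ifs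
    · have h : (2 : ℝ) ^ (Cells_c R η (j + 1) n) * (1 / 2) ^ (Cells_c R η (j + 1) n) = 1 := by
        rw [← mul_pow]
        norm_num
      calc 2 ^ (Cells_c R η (j + 1) n) * η * ((1 / 2 : ℝ) ^ (Cells_c R η (j + 1) n)) ^ 2 / (n : ℝ)
          = ((2 : ℝ) ^ (Cells_c R η (j + 1) n) * (1 / 2) ^ (Cells_c R η (j + 1) n)) *
            (η * ((1 / 2 : ℝ) ^ (Cells_c R η (j + 1) n) / (n : ℝ))) := by ring
        _ = _ := by rw [h, one_mul]
    · simp
  have hhalf : (1 / 2 : ℝ) ^ (j + 1) ≤ 1 / 2 := by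
    rw [pow_succ]
    have : (1 / 2 : ℝ) ^ j ≤ 1 := pow_le_one₀ (by norm_num) (by norm_num)
    linarith
  have hhalf0 : (0 : ℝ) ≤ (1 / 2 : ℝ) ^ (j + 1) := by positivity
  set S1 : ℝ := ∑ n ∈ NN D R, Cells_g R η (j + 1) (fun c => (1 / 2 : ℝ) ^ c) n / (n : ℝ) with hS1
  set S2 : ℝ := ∑ n ∈ NN D R, Cells_g R η (j + 1) (fun c => (1 / 4 : ℝ) ^ c) n / (n : ℝ) with hS2
  have hηB : 0 ≤ η * B := by positivity
  have hjR : (0 : ℝ) ≤ j := Nat.cast_nonneg j
  have hS2lo : 1 / 2 * (η * B) ≤ S2 := by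
    refine le_trans ?_ hg2.1
    nlinarith
  have hS2hi : S2 ≤ 3 * (η * B) := by
    refine le_trans hg2.2 ?_
    nlinarith
  have hS1lo : η * B * (j + 1) / 4 ≤ S1 := by
    refine le_trans ?_ hg1.1
    nlinarith
  have hS1hi : S1 ≤ η * B * (j + 2) := by
    refine le_trans hg1.2 ?_
    nlinarith
  refine ⟨Cells_g R η (j + 1) (fun c => (1 / 2 : ℝ) ^ c),
    fun n => 2 ^ (Cells_c R η (j + 1) n) * η, ?_, ?_, ?_, ?_⟩
  · refine ⟨?_, ?_, ?_, ?_, ?_, ?_, ?_⟩
    · intro n
      unfold Cells_g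
      split_ifs
      · positivity
      · exact le_rfl
    · intro n
      unfold Cells_g
      split_ifs
      · exact pow_le_one₀ (by norm_num) (by norm_num)
      · norm_num
    · intro m n _ hmn
      have hc := Cells_c_mono R η (j + 1) hmn
      unfold Cells_g
      by_cases h1 : Cells_c R η (j + 1) n < j + 1
      · rw [if_pos h1, if_pos (lt_of_le_of_lt hc h1)]
        exact pow_le_pow_of_le_one (by norm_num) (by norm_num) hc
      · rw [if_neg h1]
        split_ifs
        · positivity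
        · exact le_rfl
    · intro n hn
      unfold Cells_g
      rw [if_neg]
      intro h
      have h1 := (Cells_c_le_iff R hR1 η hη0.le (j + 1) n j (by omega)).1 (by omega)
      have h2 : Cells_T R η j ≤ R := by
        unfold Cells_T
        calc (R : ℝ) ^ ((2 : ℝ) ^ j * η) ≤ (R : ℝ) ^ (1 : ℝ) :=
              Real.rpow_le_rpow_of_exponent_le hRR (by linarith)
          _ = R := Real.rpow_one _
      have h3 : (R : ℝ) < n := by exact_mod_cast hn
      linarith
    · intro n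
      positivity
    · intro n hn
      unfold Cells_g at hn
      have h1 : Cells_c R η (j + 1) n < j + 1 := by
        by_contra h
        rw [if_neg h] at hn
        exact hn rfl
      have h2 : (2 : ℝ) ^ (Cells_c R η (j + 1) n) ≤ 2 ^ j :=
        pow_le_pow_right₀ (by norm_num) (by omega)
      have h3 : (2 : ℝ) ^ (Cells_c R η (j + 1) n) * η ≤ 2 ^ j * η :=
        mul_le_mul_of_nonneg_right h2 hη0.le
      show (2 : ℝ) ^ (Cells_c R η (j + 1) n) * η ≤ 1 / 2
      linarith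
    · intro n _ hn
      unfold Cells_g at hn
      have h1 : Cells_c R η (j + 1) n < j + 1 := by
        by_contra h
        rw [if_neg h] at hn
        exact hn rfl
      exact (Cells_c_le_iff R hR1 η hη0.le (j + 1) n _ h1).1 le_rfl
  · rw [hI2]
    linarith
  · rw [hI2, hI3]
    have h1 : 4 * (k : ℝ) * (η * S1) ≤ 4 * k * (η * (η * B * (j + 2))) := by
      apply mul_le_mul_of_nonneg_left _ (by positivity)
      exact mul_le_mul_of_nonneg_left hS1hi hη0.le
    have h2 : 4 * (k : ℝ) * (η * (η * B * (j + 2))) ≤ 1 / 2 * (η * B) := by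
      have h3 : 4 * (k : ℝ) * η * (j + 2) ≤ 1 / 2 := by
        have h4 : 0 ≤ (k : ℝ) * η := by positivity
        have h5 : 0 ≤ (k : ℝ) * η * j := by positivity
        nlinarith
      calc 4 * (k : ℝ) * (η * (η * B * (j + 2))) = (4 * (k : ℝ) * η * (j + 2)) * (η * B) := by ring
        _ ≤ _ := mul_le_mul_of_nonneg_right h3 hηB
    linarith
  · rw [hI1, hI2]
    have hS20 : 0 ≤ S2 := by linarith
    rcases le_or_gt M 0 with hM | hM
    · have h1 : M * kap D * Real.log R * S2 ≤ 0 := by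
        have : M * kap D * Real.log R * S2 = M * (B * S2) := by rw [hB]; ring
        rw [this]
        exact mul_nonpos_of_nonpos_of_nonneg hM (mul_nonneg hB0 hS20)
      have h2 : 0 ≤ (k : ℝ) * S1 ^ 2 := by positivity
      linarith
    · have h1 : M * kap D * Real.log R * S2 ≤ M * B * (3 * (η * B)) := by
        have : M * kap D * Real.log R * S2 = M * B * S2 := by rw [hB]; ring
        rw [this]
        exact mul_le_mul_of_nonneg_left hS2hi (by positivity)
      have h2 : (k : ℝ) * (η * B * (j + 1) / 4) ^ 2 ≤ k * S1 ^ 2 := by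
        apply mul_le_mul_of_nonneg_left _ hkR.le
        exact pow_le_pow_left₀ (by positivity) hS1lo 2
      have h3 : M * B * (3 * (η * B)) ≤ (k : ℝ) * (η * B * (j + 1) / 4) ^ 2 := by
        have h4 : (k : ℝ) * (η * B * (j + 1) / 4) ^ 2 =
            (16 * (k : ℝ) * (j + 1) * η) * (j + 1) * (η * B * B) / 256 := by ring
        rw [h4, hkη]
        have h5 : 0 ≤ η * B * B := by positivity
        nlinarith
      linarith

end Pool.Agent.MT
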