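import Pool.Agent.Work.MT.Defs

/-! # sums over configurations against sums over tuples of rough numbers -/

namespace Pool.Agent.MT

open Finset

theorem Tuples_mem {D R : ℕ} (p : PP D R) : D < (p : ℕ) ∧ (p : ℕ) ≤ R ∧ (p : ℕ).Prime := by
  have := p.2
  simp only [PP, mem_filter, mem_Ioc] at this
  exact ⟨this.1.1, this.1.2, this.2⟩

theorem Tuples_prime_dvd {k D R : ℕ} (r : Cfg k D R) (i : Fin k) (q : ℕ) (hq : q.Prime)
    (h : q ∣ comp r i) : ∃ p : PP D R, (p : ℕ) = q ∧ r p = some i := by
  unfold comp at h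
  rw [Prime.dvd_finsetProd_iff hq.prime] at h
  obtain ⟨p, _, hp⟩ := h
  by_cases hr : r p = some i
  · rw [if_pos hr] at hp
    exact ⟨p, ((Nat.prime_dvd_prime_iff_eq hq (Tuples_mem p).2.2).1 hp).symm, hr⟩
  · rw [if_neg hr] at hp
    exact absurd (Nat.dvd_one.1 hp) hq.one_lt.ne'

theorem Tuples_dvd_comp {k D R : ℕ} (r : Cfg k D R) (i : Fin k) (p : PP D R) :
    (p : ℕ) ∣ comp r i ↔ r p = some i := by
  constructor
  · intro h
    obtain ⟨q, hq, hr⟩ := Tuples_prime_dvd r i p (Tuples_mem p).2.2 h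
    have : q = p := Subtype.ext hq
    rw [← this]
    exact hr
  · intro h
    unfold comp
    have h1 : (if r p = some i then (p : ℕ) else 1) ∣
        ∏ p : PP D R, if r p = some i then (p : ℕ) else 1 :=
      Finset.dvd_prod_of_mem (fun p : PP D R => if r p = some i then (p : ℕ) else 1) (mem_univ p)
    rwa [if_pos h] at h1

theorem Tuples_comp_pos {k D R : ℕ} (r : Cfg k D R) (i : Fin k) : 0 < comp r i := by
  unfold comp
  apply Finset.prod_pos
  intro p _
  split_ifs
  · exact (Tuples_mem p).2.2.pos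
  · exact one_pos

theorem Tuples_comp_inj {k D R : ℕ} : Function.Injective (comp : Cfg k D R → Fin k → ℕ) := by
  intro r s h
  funext p
  have key : ∀ i, r p = some i ↔ s p = some i := by
    intro i
    rw [← Tuples_dvd_comp, ← Tuples_dvd_comp, h]
  rcases hr : r p with _ | i
  · rcases hs : s p with _ | j
    · rfl
    · have := (key j).2 hs
      rw [hr] at this
      exact absurd this (by simp)
  · exact ((key i).1 hr).symm

theorem Tuples_comp_NN {k D R : ℕ} (r : Cfg k D R) (i : Fin k) (h : comp r i ≤ R) :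
    comp r i ∈ NN D R := by
  unfold NN
  rw [mem_filter, mem_Icc]
  refine ⟨⟨Tuples_comp_pos r i, h⟩, fun q hq => ?_⟩
  obtain ⟨p, hp, _⟩ := Tuples_prime_dvd r i q (Nat.prime_of_mem_primeFactors hq)
    (Nat.dvd_of_mem_primeFactors hq)
  rw [← hp]
  exact (Tuples_mem p).1

theorem Tuples_tot {k D R : ℕ} (r : Cfg k D R) : tot r = ∏ i, comp r i := by
  unfold tot comp
  rw [Finset.prod_comm]
  apply Finset.prod_congr rfl
  intro p _
  rcases h : r p with _ | j
  · simp
  · simp

theorem Tuples_noI_comp {k D R : ℕ} {i : Fin k} {r : Cfg k D R} (h : r ∈ NoI D R i) :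
    comp r i = 1 := by
  unfold NoI at h
  rw [mem_filter] at h
  unfold comp
  apply Finset.prod_eq_one
  intro p _
  rw [if_neg (h.2 p)]

theorem Tuples_noI_tot {k D R : ℕ} {i : Fin k} {r : Cfg k D R} (h : r ∈ NoI D R i) :
    tot r = ∏ j ∈ univ.erase i, comp r j := by
  rw [Tuples_tot, Finset.prod_erase _ (Tuples_noI_comp h)]

/-- the tuples with `1` at the coordinate `i` -/
def TI {k : ℕ} (D R : ℕ) (i : Fin k) : Finset (Fin k → ℕ) :=
  Fintype.piFinset (fun j => if j = i then {1} else NN D R)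

/-- the weight of a tuple -/
noncomputable def WW {k : ℕ} (G : ℕ → ℝ) (i : Fin k) (n : Fin k → ℕ) : ℝ :=
  ∏ j ∈ univ.erase i, (G (n j) ^ 2 / n j)

theorem Tuples_WW_nonneg {k : ℕ} (G : ℕ → ℝ) (i : Fin k) (n : Fin k → ℕ) : 0 ≤ WW G i n := by
  unfold WW
  apply Finset.prod_nonneg
  intro j _
  positivity

theorem Tuples_WW_comp {k D R : ℕ} {i : Fin k} {r : Cfg k D R} (G : ℕ → ℝ) (h : r ∈ NoI D R i) :
    (∏ j ∈ univ.erase i, G (comp r j) ^ 2) / tot r = WW G i (comp r) := by
  unfold WW
  rw [Finset.prod_div_distrib, Tuples_noI_tot h]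
  push_cast
  rfl

theorem Tuples_factor {k : ℕ} (D R : ℕ) (G : ℕ → ℝ) (i : Fin k) (φ : Fin k → ℕ → ℝ) :
    ∑ n ∈ TI D R i, WW G i n * ∏ j ∈ univ.erase i, φ j (n j) =
      ∏ j ∈ univ.erase i, ∑ m ∈ NN D R, G m ^ 2 / m * φ j m := by
  have h1 := Finset.prod_univ_sum (fun j : Fin k => if j = i then ({1} : Finset ℕ) else NN D R)
    (fun j m => if j = i then (1 : ℝ) else G m ^ 2 / m * φ j m)
  unfold TI WW
  have h2 : ∀ n : Fin k → ℕ, (∏ j ∈ univ.erase i, (G (n j) ^ 2 / n j)) *
      ∏ j ∈ univ.erase i, φ j (n j) =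
      ∏ j, if j = i then (1 : ℝ) else G (n j) ^ 2 / n j * φ j (n j) := by
    intro n
    rw [← Finset.prod_erase univ (f := fun j => if j = i then (1 : ℝ) else
      G (n j) ^ 2 / n j * φ j (n j)) (a := i) (by simp), ← Finset.prod_mul_distrib]
    apply Finset.prod_congr rfl
    intro j hj
    rw [if_neg (Finset.ne_of_mem_erase hj)]
  rw [Finset.sum_congr rfl (fun n _ => h2 n), ← h1,
    ← Finset.prod_erase univ (a := i) (by simp)]
  apply Finset.prod_congr rfl
  intro j hj
  rw [if_neg (Finset.ne_of_mem_erase hj)]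
  apply Finset.sum_congr rfl
  intro m _
  rw [if_neg (Finset.ne_of_mem_erase hj)]

theorem Tuples_le {k D R : ℕ} {G b : ℕ → ℝ} (h : Good R G b) (i : Fin k)
    (g : (Fin k → ℕ) → ℝ) (hg : ∀ n, 0 ≤ g n) :
    ∑ r ∈ NoI D R i, WW G i (comp r) * g (comp r) ≤ ∑ n ∈ TI D R i, WW G i n * g n := by
  classical
  have h1 : ∑ r ∈ NoI D R i, WW G i (comp r) * g (comp r) =
      ∑ r ∈ (NoI D R i).filter (fun r => comp r ∈ TI D R i), WW G i (comp r) * g (comp r) := by
    symm
    apply Finset.sum_subset (Finset.filter_subset _ _)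
    intro r hr hr2
    rw [mem_filter, not_and] at hr2
    have h3 := hr2 hr
    have h4 : WW G i (comp r) = 0 := by
      by_contra h5
      apply h3
      unfold TI
      rw [Fintype.mem_piFinset]
      intro j
      by_cases hj : j = i
      · rw [if_pos hj, hj, mem_singleton]
        exact Tuples_noI_comp hr
      · rw [if_neg hj]
        apply Tuples_comp_NN
        by_contra h6
        apply h5
        unfold WW
        apply Finset.prod_eq_zero (mem_erase.2 ⟨hj, mem_univ j⟩)
        rw [h.supp _ (by omega)]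
        simp
    rw [h4, zero_mul]
  rw [h1, ← Finset.sum_image (f := fun n => WW G i n * g n) (g := (comp : Cfg k D R → Fin k → ℕ))
    (fun x _ y _ hxy => Tuples_comp_inj hxy)]
  apply Finset.sum_le_sum_of_subset_of_nonneg
  · intro n hn
    rw [mem_image] at hn
    obtain ⟨r, hr, rfl⟩ := hn
    exact (mem_filter.1 hr).2
  · intro n _ _
    exact mul_nonneg (Tuples_WW_nonneg G i n) (hg n)

theorem Tuples_I2_nonneg (D R : ℕ) (G : ℕ → ℝ) : 0 ≤ I2 D R G := by
  unfold I2
  apply Finset.sum_nonneg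
  intro n _
  positivity

theorem Tuples_I3_nonneg (D : ℕ) {R : ℕ} {G b : ℕ → ℝ} (h : Good R G b) : 0 ≤ I3 D R G b := by
  unfold I3
  apply Finset.sum_nonneg
  intro n _
  have := h.b_nonneg n
  positivity

theorem Tuples_dvd {D R : ℕ} {G b : ℕ → ℝ} (h : Good R G b) (d : ℕ) (hd : 1 ≤ d) :
    ∑ m ∈ NN D R, G m ^ 2 / m * (if d ∣ m then 1 else 0) ≤ 1 / (d : ℝ) * I2 D R G := by
  classical
  have hd0 : (0 : ℝ) < d := by exact_mod_cast hd
  have h1 : ∑ m ∈ NN D R, G m ^ 2 / m * (if d ∣ m then (1 : ℝ) else 0) =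
      ∑ m ∈ (NN D R).filter (fun m => d ∣ m), G m ^ 2 / m := by
    rw [Finset.sum_filter]
    apply Finset.sum_congr rfl
    intro m _
    split_ifs <;> simp
  have h2 : ∀ m ∈ (NN D R).filter (fun m => d ∣ m), G m ^ 2 / m ≤
      1 / (d : ℝ) * (G (m / d) ^ 2 / (m / d : ℕ)) := by
    intro m hm
    rw [mem_filter] at hm
    obtain ⟨hm1, c, rfl⟩ := hm
    unfold NN at hm1
    rw [mem_filter, mem_Icc] at hm1
    have hc : 0 < c := by
      rcases Nat.eq_zero_or_pos c with h0 | h0
      · subst h0
        simp at hm1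
      · exact h0
    rw [Nat.mul_div_cancel_left c (by omega)]
    have h3 : G (d * c) ≤ G c := h.anti c (d * c) hc (Nat.le_mul_of_pos_left c (by omega))
    have h4 : G (d * c) ^ 2 ≤ G c ^ 2 := pow_le_pow_left₀ (h.nonneg _) h3 2
    have hc0 : (0 : ℝ) < c := by exact_mod_cast hc
    push_cast
    rw [div_mul_div_comm, one_mul]
    apply div_le_div_of_nonneg_right h4
    positivity
  have h5 : Set.InjOn (fun m : ℕ => m / d) ((NN D R).filter (fun m => d ∣ m)) := by
    intro x hx y hy hxy
    simp only [coe_filter, Set.mem_ofPred_eq] at hx hy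
    obtain ⟨_, c, rfl⟩ := hx
    obtain ⟨_, e, rfl⟩ := hy
    simp only [Nat.mul_div_cancel_left _ (show 0 < d by omega)] at hxy
    rw [hxy]
  calc ∑ m ∈ NN D R, G m ^ 2 / m * (if d ∣ m then (1 : ℝ) else 0)
      = ∑ m ∈ (NN D R).filter (fun m => d ∣ m), G m ^ 2 / m := h1
    _ ≤ ∑ m ∈ (NN D R).filter (fun m => d ∣ m), 1 / (d : ℝ) * (G (m / d) ^ 2 / (m / d : ℕ)) :=
        Finset.sum_le_sum h2
    _ = 1 / (d : ℝ) * ∑ m ∈ (NN D R).filter (fun m => d ∣ m), (G (m / d) ^ 2 / (m / d : ℕ)) := by
        rw [Finset.mul_sum]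
    _ = 1 / (d : ℝ) * ∑ n ∈ ((NN D R).filter (fun m => d ∣ m)).image (fun m => m / d),
          (G n ^ 2 / (n : ℕ)) := by
        rw [Finset.sum_image h5]
    _ ≤ 1 / (d : ℝ) * I2 D R G := by
        apply mul_le_mul_of_nonneg_left _ (by positivity)
        unfold I2
        apply Finset.sum_le_sum_of_subset_of_nonneg
        · intro n hn
          rw [mem_image] at hn
          obtain ⟨m, hm, rfl⟩ := hn
          rw [mem_filter] at hm
          obtain ⟨hm1, c, rfl⟩ := hm
          unfold NN at hm1 ⊢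
          rw [mem_filter, mem_Icc] at hm1 ⊢
          have hc : 0 < c := by
            rcases Nat.eq_zero_or_pos c with h0 | h0
            · subst h0
              simp at hm1
            · exact h0
          rw [Nat.mul_div_cancel_left c (by omega)]
          refine ⟨⟨hc, ?_⟩, ?_⟩
          · exact (Nat.le_mul_of_pos_left c (by omega)).trans hm1.1.2
          · intro p hp
            apply hm1.2
            rw [Nat.mem_primeFactors] at hp ⊢
            exact ⟨hp.1, hp.2.1.trans (Dvd.intro_left d rfl), by positivity⟩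
        · intro n _ _
          positivity

theorem Tuples_sum_sq {D R : ℕ} (hD : 1 ≤ D) :
    ∑ p ∈ PP D R, (1 : ℝ) / ((p : ℝ) ^ 2) ≤ 1 / D := by
  have h1 : ∑ p ∈ PP D R, (1 : ℝ) / ((p : ℝ) ^ 2) ≤ ∑ p ∈ Ioc D R, (1 : ℝ) / ((p : ℝ) ^ 2) := by
    unfold PP
    apply Finset.sum_le_sum_of_subset_of_nonneg (Finset.filter_subset _ _)
    intro n _ _
    positivity
  refine h1.trans ?_
  rcases le_total D R with h | h
  · have h2 := sum_Ioc_inv_sq_le_sub (α := ℝ) (k := D) (n := R) (by omega) h
    have h3 : (0 : ℝ) ≤ (R : ℝ)⁻¹ := by positivity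
    have h4 : ∑ p ∈ Ioc D R, (1 : ℝ) / ((p : ℝ) ^ 2) = ∑ p ∈ Ioc D R, ((p : ℝ) ^ 2)⁻¹ := by
      apply Finset.sum_congr rfl
      intro p _
      rw [one_div]
    rw [h4, one_div]
    linarith
  · rw [Finset.Ioc_eq_empty (by omega), Finset.sum_empty]
    positivity

theorem Tuples_card {k : ℕ} (i : Fin k) : (univ.erase i).card = k - 1 := by
  rw [Finset.card_erase_of_mem (mem_univ i), Finset.card_univ, Fintype.card_fin]

theorem Tuples_bound {k D R : ℕ} {G : ℕ → ℝ} (i : Fin k)
    (φ : Fin k → ℕ → ℝ) (c : Fin k → ℝ) (hφ : ∀ j m, 0 ≤ φ j m)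
    (hc : ∀ j, j ≠ i → ∑ m ∈ NN D R, G m ^ 2 / m * φ j m ≤ c j * I2 D R G) :
    ∑ n ∈ TI D R i, WW G i n * ∏ j ∈ univ.erase i, φ j (n j) ≤
      (∏ j ∈ univ.erase i, c j) * I2 D R G ^ (k - 1) := by
  rw [Tuples_factor]
  calc ∏ j ∈ univ.erase i, ∑ m ∈ NN D R, G m ^ 2 / m * φ j m
      ≤ ∏ j ∈ univ.erase i, (c j * I2 D R G) := by
        apply Finset.prod_le_prod
        · intro j _
          apply Finset.sum_nonneg
          intro m _
          have := hφ j m
          positivity
        · intro j hj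
          exact hc j (Finset.ne_of_mem_erase hj)
    _ = (∏ j ∈ univ.erase i, c j) * I2 D R G ^ (k - 1) := by
        rw [Finset.prod_mul_distrib, Finset.prod_const, Tuples_card]

/-- the divisibility bound for one coordinate -/
theorem Tuples_one {k D R : ℕ} {G b : ℕ → ℝ} (h : Good R G b) (i j : Fin k) (hj : j ≠ i)
    (d : ℕ) (hd : 1 ≤ d) :
    ∑ n ∈ TI D R i, WW G i n * (if d ∣ n j then 1 else 0) ≤ 1 / (d : ℝ) * I2 D R G ^ (k - 1) := by
  have h1 := Tuples_bound (D := D) (R := R) (G := G) i (fun j' m => if j' = j then (if d ∣ m then 1 else 0) else 1)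
    (fun j' => if j' = j then 1 / (d : ℝ) else 1) (by
      intro j' m
      split_ifs <;> norm_num) (by
      intro j' _
      by_cases hjj : j' = j
      · simp only [if_pos hjj]
        exact Tuples_dvd h d hd
      · simp only [if_neg hjj, one_mul, mul_one]
        exact le_rfl)
  have hjm : j ∈ univ.erase i := mem_erase.2 ⟨hj, mem_univ j⟩
  rw [Finset.prod_ite_eq' (univ.erase i) j, if_pos hjm] at h1
  refine le_trans (le_of_eq ?_) h1
  apply Finset.sum_congr rfl
  intro n _
  congr 1
  rw [Finset.prod_ite_eq' (univ.erase i) j (fun j' => if d ∣ n j' then (1 : ℝ) else 0), if_pos hjm]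

/-- the divisibility bound for two coordinates -/
theorem Tuples_two {k D R : ℕ} {G b : ℕ → ℝ} (h : Good R G b) (i j j' : Fin k) (hj : j ≠ i)
    (hj' : j' ≠ i) (hjj : j ≠ j') (d : ℕ) (hd : 1 ≤ d) :
    ∑ n ∈ TI D R i, WW G i n * ((if d ∣ n j then 1 else 0) * (if d ∣ n j' then 1 else 0)) ≤
      1 / (d : ℝ) ^ 2 * I2 D R G ^ (k - 1) := by
  have h1 := Tuples_bound (D := D) (R := R) (G := G) i
    (fun x m => (if x = j then (if d ∣ m then 1 else 0) else 1) *
      (if x = j' then (if d ∣ m then 1 else 0) else 1))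
    (fun x => (if x = j then 1 / (d : ℝ) else 1) * (if x = j' then 1 / (d : ℝ) else 1)) (by
      intro x m
      apply mul_nonneg
      · split_ifs <;> norm_num
      · split_ifs <;> norm_num) (by
      intro x _
      by_cases h2 : x = j
      · have h3 : x ≠ j' := fun h4 => hjj (h2.symm.trans h4)
        simp only [if_pos h2, if_neg h3, mul_one]
        exact Tuples_dvd h d hd
      · by_cases h3 : x = j'
        · simp only [if_neg h2, if_pos h3, one_mul]
          exact Tuples_dvd h d hd
        · simp only [if_neg h2, if_neg h3, one_mul, mul_one]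
          exact le_rfl)
  have hjm : j ∈ univ.erase i := mem_erase.2 ⟨hj, mem_univ j⟩
  have hjm' : j' ∈ univ.erase i := mem_erase.2 ⟨hj', mem_univ j'⟩
  rw [Finset.prod_mul_distrib, Finset.prod_ite_eq' (univ.erase i) j, if_pos hjm,
    Finset.prod_ite_eq' (univ.erase i) j', if_pos hjm'] at h1
  have h5 : (1 : ℝ) / (d : ℝ) * (1 / (d : ℝ)) = 1 / (d : ℝ) ^ 2 := by
    rw [div_mul_div_comm, one_mul, sq]
  rw [h5] at h1
  refine le_trans (le_of_eq ?_) h1
  apply Finset.sum_congr rfl
  intro n _
  congr 1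
  rw [Finset.prod_mul_distrib,
    Finset.prod_ite_eq' (univ.erase i) j (fun x => if d ∣ n x then (1 : ℝ) else 0), if_pos hjm,
    Finset.prod_ite_eq' (univ.erase i) j' (fun x => if d ∣ n x then (1 : ℝ) else 0), if_pos hjm']

theorem Tuples_WW_sum {k D R : ℕ} (G : ℕ → ℝ) (i : Fin k) :
    ∑ n ∈ TI D R i, WW G i n = I2 D R G ^ (k - 1) := by
  have h1 := Tuples_factor D R G i (fun _ _ => 1)
  simp only [Finset.prod_const_one, mul_one] at h1
  rw [h1, Finset.prod_const, Tuples_card]
  rfl

theorem upper_sum {k D R : ℕ} (hD : 1 ≤ D) {G b : ℕ → ℝ} (h : Good R G b) :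
    ∑ r : Cfg k D R, zz (FF G b) r ^ 2 / tot r ≤ I2 D R G ^ k := by
  classical
  have hz : ∀ r : Cfg k D R, zz (FF G b) r ^ 2 / tot r ≤ ∏ j, (G (comp r j) ^ 2 / comp r j) := by
    intro r
    have h1 : zz (FF G b) r ^ 2 ≤ ∏ j, G (comp r j) ^ 2 := by
      unfold zz
      have h2 : (sgn r) ^ 2 = 1 := by
        unfold sgn
        rw [← Finset.prod_pow]
        apply Finset.prod_eq_one
        intro p _
        split_ifs <;> norm_num
      rw [mul_pow, h2, one_mul]
      unfold FF
      split_ifs with h3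
      · rw [Finset.prod_pow]
      · rw [zero_pow two_ne_zero]
        apply Finset.prod_nonneg
        intro j _
        positivity
    rw [Finset.prod_div_distrib, Tuples_tot r]
    push_cast
    apply div_le_div_of_nonneg_right h1
    apply Finset.prod_nonneg
    intro j _
    positivity
  refine (Finset.sum_le_sum (fun r _ => hz r)).trans ?_
  have h1 : ∑ r : Cfg k D R, ∏ j, (G (comp r j) ^ 2 / comp r j) =
      ∑ r ∈ univ.filter (fun r : Cfg k D R => comp r ∈ Fintype.piFinset (fun _ : Fin k => NN D R)),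
        ∏ j, (G (comp r j) ^ 2 / comp r j) := by
    symm
    apply Finset.sum_subset (Finset.filter_subset _ _)
    intro r hr hr2
    rw [mem_filter, not_and] at hr2
    have h3 := hr2 hr
    by_contra h5
    apply h3
    rw [Fintype.mem_piFinset]
    intro j
    apply Tuples_comp_NN
    by_contra h6
    apply h5
    apply Finset.prod_eq_zero (mem_univ j)
    rw [h.supp _ (by omega)]
    simp
  rw [h1, ← Finset.sum_image (f := fun n => ∏ j, (G (n j) ^ 2 / n j))
    (g := (comp : Cfg k D R → Fin k → ℕ)) (fun x _ y _ hxy => Tuples_comp_inj hxy)]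
  have h2 : ∑ n ∈ Fintype.piFinset (fun _ : Fin k => NN D R), ∏ j, (G (n j) ^ 2 / n j) =
      I2 D R G ^ k := by
    rw [← Finset.prod_univ_sum (fun _ : Fin k => NN D R) (fun _ m => G m ^ 2 / m),
      Finset.prod_const, Finset.card_univ, Fintype.card_fin]
    rfl
  rw [← h2]
  apply Finset.sum_le_sum_of_subset_of_nonneg
  · intro n hn
    rw [mem_image] at hn
    obtain ⟨r, hr, rfl⟩ := hn
    exact (mem_filter.1 hr).2
  · intro n _ _
    apply Finset.prod_nonneg
    intro j _
    positivity

/-- a tuple of pairwise coprime squarefree rough numbers comes from a configuration -/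
theorem Tuples_exists {k D R : ℕ} (i : Fin k) (n : Fin k → ℕ) (hn : n ∈ TI D R i)
    (h1 : ∀ j, j ≠ i → ∀ p : ℕ, p ∈ PP D R → ¬ p ^ 2 ∣ n j)
    (h2 : ∀ j j', j ≠ i → j' ≠ i → j ≠ j' → ∀ p : ℕ, p ∈ PP D R → p ∣ n j → ¬ p ∣ n j') :
    ∃ r ∈ NoI D R i, comp r = n := by
  classical
  unfold TI at hn
  rw [Fintype.mem_piFinset] at hn
  have hi : n i = 1 := by
    have := hn i
    rw [if_pos rfl, mem_singleton] at this
    exact this
  have hj : ∀ j, j ≠ i → n j ∈ NN D R := by
    intro j hj
    have := hn j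
    rwa [if_neg hj] at this
  set r : Cfg k D R := fun p => if h : ∃ j, (p : ℕ) ∣ n j then some h.choose else none with hr
  have hr1 : ∀ (p : PP D R) (j : Fin k), r p = some j ↔ (p : ℕ) ∣ n j := by
    intro p j
    have hp := (Tuples_mem p).2.2
    have hne : ∀ x, (p : ℕ) ∣ n x → x ≠ i := by
      intro x hx hxi
      rw [hxi, hi] at hx
      exact hp.one_lt.ne' (Nat.dvd_one.1 hx)
    constructor
    · intro h
      simp only [hr] at h
      split_ifs at h with h3
      have h4 := h3.choose_spec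
      have h5 : h3.choose = j := Option.some_injective _ h
      rwa [h5] at h4
    · intro h
      have h3 : ∃ j, (p : ℕ) ∣ n j := ⟨j, h⟩
      simp only [hr]
      rw [dif_pos h3]
      have h4 := h3.choose_spec
      by_contra h5
      have h6 : h3.choose ≠ j := fun h7 => h5 (by rw [h7])
      exact h2 _ _ (hne _ h4) (hne _ h) h6 p p.2 h4 h
  have hcomp : ∀ j, comp r j = n j := by
    intro j
    by_cases hji : j = i
    · rw [hji, hi]
      unfold comp
      apply Finset.prod_eq_one
      intro p _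
      rw [if_neg]
      rw [hr1, hi]
      intro h3
      exact (Tuples_mem p).2.2.one_lt.ne' (Nat.dvd_one.1 h3)
    · have hN := hj j hji
      unfold NN at hN
      rw [mem_filter, mem_Icc] at hN
      have hsq : Squarefree (n j) := by
        rw [Nat.squarefree_iff_prime_squarefree]
        intro p hp h3
        have hpd : p ∣ n j := (Dvd.intro _ rfl : p ∣ p * p).trans h3
        have hpf : p ∈ (n j).primeFactors := by
          rw [Nat.mem_primeFactors]
          exact ⟨hp, hpd, by omega⟩
        have hpP : p ∈ PP D R := by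
          unfold PP
          rw [mem_filter, mem_Ioc]
          exact ⟨⟨hN.2 p hpf, (Nat.le_of_dvd (by omega) hpd).trans hN.1.2⟩, hp⟩
        exact h1 j hji p hpP (by rwa [sq])
      unfold comp
      have h3 : ∏ p : PP D R, (if r p = some j then (p : ℕ) else 1) =
          ∏ p ∈ (PP D R).filter (fun p => p ∣ n j), p := by
        rw [Finset.prod_filter, ← Finset.prod_coe_sort (PP D R)]
        apply Finset.prod_congr rfl
        intro p _
        simp only [hr1]
      rw [h3]
      have h4 : (PP D R).filter (fun p => p ∣ n j) = (n j).primeFactors := by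
        ext p
        unfold PP
        rw [mem_filter, mem_filter, mem_Ioc, Nat.mem_primeFactors]
        constructor
        · rintro ⟨⟨_, hp⟩, hd⟩
          exact ⟨hp, hd, by omega⟩
        · rintro ⟨hp, hd, h0⟩
          have hpf : p ∈ (n j).primeFactors := by
            rw [Nat.mem_primeFactors]
            exact ⟨hp, hd, h0⟩
          exact ⟨⟨⟨hN.2 p hpf, (Nat.le_of_dvd (by omega) hd).trans hN.1.2⟩, hp⟩, hd⟩
      rw [h4]
      exact Nat.prod_primeFactors_of_squarefree hsq
  refine ⟨r, ?_, funext hcomp⟩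
  unfold NoI
  rw [mem_filter]
  refine ⟨mem_univ _, fun p h3 => ?_⟩
  rw [hr1, hi] at h3
  exact (Tuples_mem p).2.2.one_lt.ne' (Nat.dvd_one.1 h3)

theorem low_main {k D R : ℕ} (hD : 1 ≤ D) {G b : ℕ → ℝ} (h : Good R G b) (i : Fin k) :
    (1 - 2 * (k : ℝ) ^ 2 / D) * I2 D R G ^ (k - 1) ≤
      ∑ r ∈ NoI D R i, (∏ j ∈ univ.erase i, G (comp r j) ^ 2) / tot r := by
  classical
  have e1 : ∑ r ∈ NoI D R i, (∏ j ∈ univ.erase i, G (comp r j) ^ 2) / tot r =
      ∑ r ∈ NoI D R i, WW G i (comp r) :=
    Finset.sum_congr rfl (fun r hr => Tuples_WW_comp G hr)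
  rw [e1]
  have hD0 : (0 : ℝ) < D := by exact_mod_cast hD
  set I := I2 D R G ^ (k - 1) with hI
  have hI0 : 0 ≤ I := pow_nonneg (Tuples_I2_nonneg D R G) _
  -- pointwise bound
  have key : ∀ n ∈ TI D R i, WW G i n ≤
      (if n ∈ (NoI D R i).image comp then WW G i n else 0) +
      (∑ p ∈ PP D R, ∑ j ∈ univ.erase i, WW G i n * (if p ^ 2 ∣ n j then 1 else 0) +
      ∑ p ∈ PP D R, ∑ j ∈ univ.erase i, ∑ j' ∈ (univ.erase i).filter (fun j' => j ≠ j'),
        WW G i n * ((if p ∣ n j then 1 else 0) * (if p ∣ n j' then 1 else 0))) := by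
    intro n hn
    have hW := Tuples_WW_nonneg G i n
    have hA : ∀ p ∈ PP D R, ∀ j ∈ univ.erase i,
        0 ≤ WW G i n * (if p ^ 2 ∣ n j then (1 : ℝ) else 0) := by
      intro p _ j _
      apply mul_nonneg hW
      split_ifs <;> norm_num
    have hB : ∀ p ∈ PP D R, ∀ j ∈ univ.erase i, ∀ j' ∈ (univ.erase i).filter (fun j' => j ≠ j'),
        0 ≤ WW G i n * ((if p ∣ n j then (1 : ℝ) else 0) * (if p ∣ n j' then 1 else 0)) := by
      intro p _ j _ j' _
      apply mul_nonneg hW
      apply mul_nonneg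
      · split_ifs <;> norm_num
      · split_ifs <;> norm_num
    have hA' : 0 ≤ ∑ p ∈ PP D R, ∑ j ∈ univ.erase i,
        WW G i n * (if p ^ 2 ∣ n j then (1 : ℝ) else 0) :=
      Finset.sum_nonneg fun p hp => Finset.sum_nonneg fun j hj => hA p hp j hj
    have hB' : 0 ≤ ∑ p ∈ PP D R, ∑ j ∈ univ.erase i,
        ∑ j' ∈ (univ.erase i).filter (fun j' => j ≠ j'),
        WW G i n * ((if p ∣ n j then (1 : ℝ) else 0) * (if p ∣ n j' then 1 else 0)) :=
      Finset.sum_nonneg fun p hp => Finset.sum_nonneg fun j hj =>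
        Finset.sum_nonneg fun j' hj' => hB p hp j hj j' hj'
    by_cases h1 : ∀ j, j ≠ i → ∀ p : ℕ, p ∈ PP D R → ¬ p ^ 2 ∣ n j
    · by_cases h2 : ∀ j j', j ≠ i → j' ≠ i → j ≠ j' → ∀ p : ℕ, p ∈ PP D R → p ∣ n j → ¬ p ∣ n j'
      · obtain ⟨r, hr, hrn⟩ := Tuples_exists i n hn h1 h2
        have : n ∈ (NoI D R i).image comp := mem_image.2 ⟨r, hr, hrn⟩
        rw [if_pos this]
        linarith
      · push Not at h2
        obtain ⟨j, j', hj, hj', hjj, p, hp, hpj, hpj'⟩ := h2
        have h3 : WW G i n ≤ ∑ p ∈ PP D R, ∑ j ∈ univ.erase i,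
            ∑ j' ∈ (univ.erase i).filter (fun j' => j ≠ j'),
            WW G i n * ((if p ∣ n j then (1 : ℝ) else 0) * (if p ∣ n j' then 1 else 0)) := by
          have hjm : j ∈ univ.erase i := mem_erase.2 ⟨hj, mem_univ j⟩
          have hjm' : j' ∈ (univ.erase i).filter (fun j' => j ≠ j') :=
            mem_filter.2 ⟨mem_erase.2 ⟨hj', mem_univ j'⟩, hjj⟩
          calc WW G i n = WW G i n * ((if p ∣ n j then (1 : ℝ) else 0) *
                (if p ∣ n j' then 1 else 0)) := by
                rw [if_pos hpj, if_pos hpj']; ring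
            _ ≤ ∑ j' ∈ (univ.erase i).filter (fun j' => j ≠ j'),
                WW G i n * ((if p ∣ n j then (1 : ℝ) else 0) * (if p ∣ n j' then 1 else 0)) :=
                Finset.single_le_sum (f := fun j' => WW G i n * ((if p ∣ n j then (1 : ℝ) else 0) *
                  (if p ∣ n j' then 1 else 0))) (hB p hp j hjm) hjm'
            _ ≤ ∑ j ∈ univ.erase i, ∑ j' ∈ (univ.erase i).filter (fun j' => j ≠ j'),
                WW G i n * ((if p ∣ n j then (1 : ℝ) else 0) * (if p ∣ n j' then 1 else 0)) :=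
                Finset.single_le_sum (f := fun j => ∑ j' ∈ (univ.erase i).filter (fun j' => j ≠ j'),
                  WW G i n * ((if p ∣ n j then (1 : ℝ) else 0) * (if p ∣ n j' then 1 else 0)))
                  (fun j hj => Finset.sum_nonneg (hB p hp j hj)) hjm
            _ ≤ _ :=
                Finset.single_le_sum (f := fun p => ∑ j ∈ univ.erase i,
                  ∑ j' ∈ (univ.erase i).filter (fun j' => j ≠ j'),
                  WW G i n * ((if p ∣ n j then (1 : ℝ) else 0) * (if p ∣ n j' then 1 else 0)))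
                  (fun p hp => Finset.sum_nonneg fun j hj => Finset.sum_nonneg (hB p hp j hj)) hp
        have h4 : (0 : ℝ) ≤ (if n ∈ (NoI D R i).image comp then WW G i n else 0) := by
          split_ifs
          · exact hW
          · exact le_rfl
        linarith
    · push Not at h1
      obtain ⟨j, hj, p, hp, hpj⟩ := h1
      have h3 : WW G i n ≤ ∑ p ∈ PP D R, ∑ j ∈ univ.erase i,
          WW G i n * (if p ^ 2 ∣ n j then (1 : ℝ) else 0) := by
        have hjm : j ∈ univ.erase i := mem_erase.2 ⟨hj, mem_univ j⟩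
        calc WW G i n = WW G i n * (if p ^ 2 ∣ n j then (1 : ℝ) else 0) := by
              rw [if_pos hpj]; ring
          _ ≤ ∑ j ∈ univ.erase i, WW G i n * (if p ^ 2 ∣ n j then (1 : ℝ) else 0) :=
              Finset.single_le_sum (f := fun j => WW G i n * (if p ^ 2 ∣ n j then (1 : ℝ) else 0))
                (hA p hp) hjm
          _ ≤ _ :=
              Finset.single_le_sum (f := fun p => ∑ j ∈ univ.erase i,
                WW G i n * (if p ^ 2 ∣ n j then (1 : ℝ) else 0))
                (fun p hp => Finset.sum_nonneg (hA p hp)) hp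
      have h4 : (0 : ℝ) ≤ (if n ∈ (NoI D R i).image comp then WW G i n else 0) := by
        split_ifs
        · exact hW
        · exact le_rfl
      linarith
  have hsum := Finset.sum_le_sum key
  rw [Tuples_WW_sum, Finset.sum_add_distrib, Finset.sum_add_distrib] at hsum
  -- first part
  have p1 : ∑ n ∈ TI D R i, (if n ∈ (NoI D R i).image comp then WW G i n else 0) ≤
      ∑ r ∈ NoI D R i, WW G i (comp r) := by
    rw [← Finset.sum_filter]
    rw [← Finset.sum_image (f := fun n => WW G i n) (g := (comp : Cfg k D R → Fin k → ℕ))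
      (fun x _ y _ hxy => Tuples_comp_inj hxy)]
    apply Finset.sum_le_sum_of_subset_of_nonneg
    · intro n hn
      exact (mem_filter.1 hn).2
    · intro n _ _
      exact Tuples_WW_nonneg G i n
  -- second part
  have hcard : ((univ.erase i).card : ℝ) ≤ k := by
    rw [Tuples_card]
    exact_mod_cast Nat.sub_le k 1
  have hsq := Tuples_sum_sq (R := R) hD
  have p2 : ∑ n ∈ TI D R i, ∑ p ∈ PP D R, ∑ j ∈ univ.erase i,
      WW G i n * (if p ^ 2 ∣ n j then (1 : ℝ) else 0) ≤ k * (1 / D) * I := by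
    rw [Finset.sum_comm]
    calc ∑ p ∈ PP D R, ∑ n ∈ TI D R i, ∑ j ∈ univ.erase i,
          WW G i n * (if p ^ 2 ∣ n j then (1 : ℝ) else 0)
        ≤ ∑ p ∈ PP D R, (k * I) * (1 / ((p : ℝ) ^ 2)) := by
          apply Finset.sum_le_sum
          intro p hp
          have hp1 : 1 ≤ p ^ 2 := Nat.one_le_pow _ _ (Tuples_mem ⟨p, hp⟩).2.2.pos
          rw [Finset.sum_comm]
          calc ∑ j ∈ univ.erase i, ∑ n ∈ TI D R i,
                WW G i n * (if p ^ 2 ∣ n j then (1 : ℝ) else 0)
              ≤ ∑ j ∈ univ.erase i, 1 / ((p ^ 2 : ℕ) : ℝ) * I := by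
                apply Finset.sum_le_sum
                intro j hj
                exact Tuples_one h i j (Finset.ne_of_mem_erase hj) (p ^ 2) hp1
            _ = (univ.erase i).card * (1 / ((p ^ 2 : ℕ) : ℝ) * I) := by
                rw [Finset.sum_const, nsmul_eq_mul]
            _ ≤ k * (1 / ((p ^ 2 : ℕ) : ℝ) * I) := by
                apply mul_le_mul_of_nonneg_right hcard
                positivity
            _ = (k * I) * (1 / ((p : ℝ) ^ 2)) := by
                push_cast
                ring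
      _ = (k * I) * ∑ p ∈ PP D R, (1 / ((p : ℝ) ^ 2)) := by rw [Finset.mul_sum]
      _ ≤ (k * I) * (1 / D) := by
          apply mul_le_mul_of_nonneg_left hsq
          positivity
      _ = k * (1 / D) * I := by ring
  have p3 : ∑ n ∈ TI D R i, ∑ p ∈ PP D R, ∑ j ∈ univ.erase i,
      ∑ j' ∈ (univ.erase i).filter (fun j' => j ≠ j'),
      WW G i n * ((if p ∣ n j then (1 : ℝ) else 0) * (if p ∣ n j' then 1 else 0)) ≤
      k ^ 2 * (1 / D) * I := by
    rw [Finset.sum_comm]
    calc ∑ p ∈ PP D R, ∑ n ∈ TI D R i, ∑ j ∈ univ.erase i,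
          ∑ j' ∈ (univ.erase i).filter (fun j' => j ≠ j'),
          WW G i n * ((if p ∣ n j then (1 : ℝ) else 0) * (if p ∣ n j' then 1 else 0))
        ≤ ∑ p ∈ PP D R, (k ^ 2 * I) * (1 / ((p : ℝ) ^ 2)) := by
          apply Finset.sum_le_sum
          intro p hp
          have hp1 : 1 ≤ p := (Tuples_mem ⟨p, hp⟩).2.2.pos
          rw [Finset.sum_comm]
          calc ∑ j ∈ univ.erase i, ∑ n ∈ TI D R i,
                ∑ j' ∈ (univ.erase i).filter (fun j' => j ≠ j'),
                WW G i n * ((if p ∣ n j then (1 : ℝ) else 0) * (if p ∣ n j' then 1 else 0))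
              ≤ ∑ j ∈ univ.erase i, k * (1 / (p : ℝ) ^ 2 * I) := by
                apply Finset.sum_le_sum
                intro j hj
                rw [Finset.sum_comm]
                calc ∑ j' ∈ (univ.erase i).filter (fun j' => j ≠ j'), ∑ n ∈ TI D R i,
                      WW G i n * ((if p ∣ n j then (1 : ℝ) else 0) * (if p ∣ n j' then 1 else 0))
                    ≤ ∑ j' ∈ (univ.erase i).filter (fun j' => j ≠ j'),
                        1 / (p : ℝ) ^ 2 * I := by
                      apply Finset.sum_le_sum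
                      intro j' hj'
                      rw [mem_filter] at hj'
                      exact Tuples_two h i j j' (Finset.ne_of_mem_erase hj)
                        (Finset.ne_of_mem_erase hj'.1) hj'.2 p hp1
                  _ = ((univ.erase i).filter (fun j' => j ≠ j')).card *
                        (1 / (p : ℝ) ^ 2 * I) := by
                      rw [Finset.sum_const, nsmul_eq_mul]
                  _ ≤ k * (1 / (p : ℝ) ^ 2 * I) := by
                      apply mul_le_mul_of_nonneg_right _ (by positivity)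
                      refine le_trans ?_ hcard
                      exact_mod_cast Finset.card_filter_le _ _
            _ = (univ.erase i).card * (k * (1 / (p : ℝ) ^ 2 * I)) := by
                rw [Finset.sum_const, nsmul_eq_mul]
            _ ≤ k * (k * (1 / (p : ℝ) ^ 2 * I)) := by
                apply mul_le_mul_of_nonneg_right hcard
                positivity
            _ = (k ^ 2 * I) * (1 / ((p : ℝ) ^ 2)) := by ring
      _ = (k ^ 2 * I) * ∑ p ∈ PP D R, (1 / ((p : ℝ) ^ 2)) := by rw [Finset.mul_sum]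
      _ ≤ (k ^ 2 * I) * (1 / D) := by
          apply mul_le_mul_of_nonneg_left hsq
          positivity
      _ = k ^ 2 * (1 / D) * I := by ring
  have hk : (k : ℝ) ≤ (k : ℝ) ^ 2 := by
    have h0 : 1 ≤ k := Fin.pos i
    have h1 : (1 : ℝ) ≤ k := by exact_mod_cast h0
    nlinarith
  have p4 : (k : ℝ) * (1 / D) * I ≤ (k : ℝ) ^ 2 * (1 / D) * I := by
    apply mul_le_mul_of_nonneg_right _ hI0
    apply mul_le_mul_of_nonneg_right hk
    positivity
  have e2 : (1 - 2 * (k : ℝ) ^ 2 / D) * I = I - 2 * ((k : ℝ) ^ 2 * (1 / D) * I) := by ring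
  rw [e2]
  linarith

theorem low_markov {k D R : ℕ} (hD : 1 ≤ D) {G b : ℕ → ℝ} (h : Good R G b) (i : Fin k) :
    I2 D R G * ∑ r ∈ NoI D R i, (∏ j ∈ univ.erase i, G (comp r j) ^ 2) / tot r *
      ∑ j ∈ univ.erase i, b (comp r j) ≤ k * I3 D R G b * I2 D R G ^ (k - 1) := by
  classical
  have e1 : ∑ r ∈ NoI D R i, (∏ j ∈ univ.erase i, G (comp r j) ^ 2) / tot r *
      ∑ j ∈ univ.erase i, b (comp r j) =
      ∑ r ∈ NoI D R i, WW G i (comp r) * ∑ j ∈ univ.erase i, b (comp r j) :=
    Finset.sum_congr rfl (fun r hr => by rw [Tuples_WW_comp G hr])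
  rw [e1]
  have h1 := Tuples_le (D := D) h i (fun n => ∑ j ∈ univ.erase i, b (n j))
    (fun n => Finset.sum_nonneg fun j _ => h.b_nonneg _)
  have hI0 := Tuples_I2_nonneg D R G
  have hI3 := Tuples_I3_nonneg D h
  refine (mul_le_mul_of_nonneg_left h1 hI0).trans ?_
  have h2 : ∀ j ∈ univ.erase i, I2 D R G * ∑ n ∈ TI D R i, WW G i n * b (n j) =
      I3 D R G b * I2 D R G ^ (k - 1) := by
    intro j hj
    have h3 := Tuples_factor D R G i (fun x m => if x = j then b m else 1)
    have h4 : ∀ n : Fin k → ℕ, ∏ x ∈ univ.erase i, (if x = j then b (n x) else 1) = b (n j) := by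
      intro n
      rw [Finset.prod_ite_eq' (univ.erase i) j (fun x => b (n x)), if_pos hj]
    simp only [h4] at h3
    rw [h3, ← Finset.mul_prod_erase (univ.erase i) _ hj]
    have h5 : ∏ x ∈ (univ.erase i).erase j, ∑ m ∈ NN D R,
        G m ^ 2 / m * (if x = j then b m else 1) = I2 D R G ^ (k - 1 - 1) := by
      have h6 : ∀ x ∈ (univ.erase i).erase j, ∑ m ∈ NN D R,
          G m ^ 2 / m * (if x = j then b m else 1) = I2 D R G := by
        intro x hx
        unfold I2
        apply Finset.sum_congr rfl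
        intro m _
        rw [if_neg (Finset.ne_of_mem_erase hx), mul_one]
      rw [Finset.prod_congr rfl h6, Finset.prod_const, Finset.card_erase_of_mem hj, Tuples_card]
    rw [h5]
    have h7 : ∑ m ∈ NN D R, G m ^ 2 / m * (if j = j then b m else 1) = I3 D R G b := by
      unfold I3
      apply Finset.sum_congr rfl
      intro m _
      rw [if_pos rfl]
      ring
    rw [h7]
    have h8 : 1 ≤ k - 1 := by
      rw [← Tuples_card i]
      exact Finset.card_pos.2 ⟨j, hj⟩
    have h9 : I2 D R G ^ (k - 1) = I2 D R G ^ (k - 1 - 1) * I2 D R G := by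
      rw [← pow_succ, Nat.sub_add_cancel h8]
    rw [h9]
    ring
  calc I2 D R G * ∑ n ∈ TI D R i, WW G i n * ∑ j ∈ univ.erase i, b (n j)
      = ∑ j ∈ univ.erase i, I2 D R G * ∑ n ∈ TI D R i, WW G i n * b (n j) := by
        rw [← Finset.mul_sum, Finset.sum_comm]
        congr 1
        apply Finset.sum_congr rfl
        intro n _
        rw [Finset.mul_sum]
    _ = ∑ j ∈ univ.erase i, I3 D R G b * I2 D R G ^ (k - 1) := Finset.sum_congr rfl h2
    _ = (univ.erase i).card * (I3 D R G b * I2 D R G ^ (k - 1)) := by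
        rw [Finset.sum_const, nsmul_eq_mul]
    _ ≤ k * (I3 D R G b * I2 D R G ^ (k - 1)) := by
        apply mul_le_mul_of_nonneg_right _ (by positivity)
        rw [Tuples_card]
        exact_mod_cast Nat.sub_le k 1
    _ = k * I3 D R G b * I2 D R G ^ (k - 1) := by ring

theorem low_recip {k D R : ℕ} (hD : 1 ≤ D) {G b : ℕ → ℝ} (h : Good R G b) (i : Fin k) :
    ∑ r ∈ NoI D R i, (∏ j ∈ univ.erase i, G (comp r j) ^ 2) / tot r * recip r ≤
      k / D * I2 D R G ^ (k - 1) := by
  classical
  have e1 : ∑ r ∈ NoI D R i, (∏ j ∈ univ.erase i, G (comp r j) ^ 2) / tot r * recip r =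
      ∑ r ∈ NoI D R i, WW G i (comp r) * (∑ p ∈ PP D R, ∑ j ∈ univ.erase i,
        1 / (p : ℝ) * (if p ∣ comp r j then 1 else 0)) := by
    apply Finset.sum_congr rfl
    intro r hr
    rw [Tuples_WW_comp G hr]
    congr 1
    unfold recip
    rw [← Finset.sum_coe_sort (PP D R)]
    apply Finset.sum_congr rfl
    intro p _
    unfold NoI at hr
    rw [mem_filter] at hr
    have hi := hr.2 p
    simp only [Tuples_dvd_comp]
    rcases hrp : r p with _ | j
    · simp
    · have hji : j ≠ i := by
        intro hj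
        rw [hj] at hrp
        exact hi hrp
      have hjm : j ∈ univ.erase i := mem_erase.2 ⟨hji, mem_univ j⟩
      rw [if_neg (by simp)]
      simp only [Option.some.injEq, mul_ite, mul_one, mul_zero]
      rw [Finset.sum_ite_eq (univ.erase i) j, if_pos hjm]
  rw [e1]
  have h1 := Tuples_le (D := D) h i (fun n => ∑ p ∈ PP D R, ∑ j ∈ univ.erase i,
        1 / (p : ℝ) * (if p ∣ n j then 1 else 0)) (by
      intro n
      apply Finset.sum_nonneg
      intro p _
      apply Finset.sum_nonneg
      intro j _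
      apply mul_nonneg
      · positivity
      · split_ifs <;> norm_num)
  refine h1.trans ?_
  set I := I2 D R G ^ (k - 1) with hI
  have hI0 : 0 ≤ I := pow_nonneg (Tuples_I2_nonneg D R G) _
  have hcard : ((univ.erase i).card : ℝ) ≤ k := by
    rw [Tuples_card]
    exact_mod_cast Nat.sub_le k 1
  have hsq := Tuples_sum_sq (R := R) hD
  calc ∑ n ∈ TI D R i, WW G i n * ∑ p ∈ PP D R, ∑ j ∈ univ.erase i,
        1 / (p : ℝ) * (if p ∣ n j then 1 else 0)
      = ∑ p ∈ PP D R, ∑ j ∈ univ.erase i, 1 / (p : ℝ) *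
          ∑ n ∈ TI D R i, WW G i n * (if p ∣ n j then 1 else 0) := by
        simp only [Finset.mul_sum]
        rw [Finset.sum_comm]
        apply Finset.sum_congr rfl
        intro p _
        rw [Finset.sum_comm]
        apply Finset.sum_congr rfl
        intro j _
        apply Finset.sum_congr rfl
        intro n _
        ring
    _ ≤ ∑ p ∈ PP D R, (k * I) * (1 / ((p : ℝ) ^ 2)) := by
        apply Finset.sum_le_sum
        intro p hp
        have hp1 : 1 ≤ p := (Tuples_mem ⟨p, hp⟩).2.2.pos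
        have hp0 : (0 : ℝ) < p := by exact_mod_cast hp1
        calc ∑ j ∈ univ.erase i, 1 / (p : ℝ) *
              ∑ n ∈ TI D R i, WW G i n * (if p ∣ n j then 1 else 0)
            ≤ ∑ j ∈ univ.erase i, 1 / (p : ℝ) * (1 / (p : ℝ) * I) := by
              apply Finset.sum_le_sum
              intro j hj
              apply mul_le_mul_of_nonneg_left _ (by positivity)
              exact Tuples_one h i j (Finset.ne_of_mem_erase hj) p hp1
          _ = (univ.erase i).card * (1 / (p : ℝ) * (1 / (p : ℝ) * I)) := by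
              rw [Finset.sum_const, nsmul_eq_mul]
          _ ≤ k * (1 / (p : ℝ) * (1 / (p : ℝ) * I)) := by
              apply mul_le_mul_of_nonneg_right hcard
              positivity
          _ = (k * I) * (1 / ((p : ℝ) ^ 2)) := by
              field_simp
    _ = (k * I) * ∑ p ∈ PP D R, (1 / ((p : ℝ) ^ 2)) := by rw [Finset.mul_sum]
    _ ≤ (k * I) * (1 / D) := by
        apply mul_le_mul_of_nonneg_left hsq
        positivity
    _ = k / D * I := by ring

end Pool.Agent.MT
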