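import Pool.Agent.Work.MT.Lower
import Pool.Agent.Work.MT.Tuples

/-! # lower bound for `Zi`, and the main lower bound `E_main` -/

namespace Pool.Agent.MT

open Finset

theorem Ext_sum_inv_sq (D R : ℕ) (hD : 1 ≤ D) :
    ∑ n ∈ Ioc D R, 1 / (n : ℝ) ^ 2 ≤ (1 : ℝ) / D := by
  have hD0 : (0 : ℝ) < D := by exact_mod_cast hD
  rcases le_or_gt R D with h | h
  · rw [Ioc_eq_empty (by omega), sum_empty]
    positivity
  · have key : ∀ m : ℕ, ∑ n ∈ Ioc D (D + m), 1 / (n : ℝ) ^ 2 ≤ 1 / D - 1 / ((D + m : ℕ) : ℝ) := by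
      intro m
      induction m with
      | zero => simp
      | succ m ih =>
        have e : Ioc D (D + (m + 1)) = insert (D + (m + 1)) (Ioc D (D + m)) := by
          ext x
          simp only [mem_Ioc, mem_insert]
          omega
        rw [e, sum_insert (by simp)]
        have h1 : (0 : ℝ) < ((D + m : ℕ) : ℝ) := by
          have : 0 < D + m := by omega
          exact_mod_cast this
        have h2 : ((D + (m + 1) : ℕ) : ℝ) = ((D + m : ℕ) : ℝ) + 1 := by push_cast; ring
        rw [h2]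
        set x : ℝ := ((D + m : ℕ) : ℝ) with hx
        have h3 : 1 / (x + 1) ^ 2 ≤ 1 / x - 1 / (x + 1) := by
          have : 1 / x - 1 / (x + 1) = 1 / (x * (x + 1)) := by
            field_simp
            ring
          rw [this]
          apply one_div_le_one_div_of_le
          · positivity
          · nlinarith
        linarith
    obtain ⟨m, rfl⟩ := Nat.exists_eq_add_of_lt h
    have := key (m + 1)
    have h3 : (0 : ℝ) ≤ 1 / ((D + (m + 1) : ℕ) : ℝ) := by positivity
    rw [show D + m + 1 = D + (m + 1) by ring]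
    linarith

theorem Ext_sum_PP {D R : ℕ} (f : ℕ → ℝ) : ∑ p : PP D R, f p = ∑ p ∈ PP D R, f p :=
  Finset.sum_coe_sort (PP D R) f

theorem Ext_prime {D R : ℕ} (p : PP D R) : (p : ℕ).Prime ∧ D < p ∧ (p : ℕ) ≤ R := by
  have := p.2
  simp only [PP, mem_filter, mem_Ioc] at this
  exact ⟨this.2, this.1⟩

theorem Ext_mem_PP {D R p : ℕ} : p ∈ PP D R ↔ (D < p ∧ p ≤ R) ∧ p.Prime := by
  simp [PP]

theorem Ext_sum_p2 {D R : ℕ} (hD : 1 ≤ D) :
    ∑ p : PP D R, 1 / ((p : ℕ) : ℝ) ^ 2 ≤ (1 : ℝ) / D := by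
  rw [Ext_sum_PP (fun p => 1 / (p : ℝ) ^ 2)]
  refine le_trans ?_ (Ext_sum_inv_sq D R hD)
  unfold PP
  exact sum_le_sum_of_subset_of_nonneg (filter_subset _ _) fun _ _ _ => by positivity

/-- `∑ 1/(p-1)^2 ≤ 2/D` -/
theorem Ext_sum_p12 {D R : ℕ} (hD : 1 ≤ D) :
    ∑ p : PP D R, 1 / (((p : ℕ) : ℝ) - 1) ^ 2 ≤ (2 : ℝ) / D := by
  have hD0 : (0 : ℝ) < D := by exact_mod_cast hD
  have hD1 : (1 : ℝ) ≤ D := by exact_mod_cast hD
  rw [Ext_sum_PP (fun p => 1 / ((p : ℝ) - 1) ^ 2)]
  have h1 : ∑ p ∈ PP D R, 1 / ((p : ℝ) - 1) ^ 2 ≤ ∑ n ∈ Ioc D R, 1 / ((n : ℝ) - 1) ^ 2 := by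
    unfold PP
    exact sum_le_sum_of_subset_of_nonneg (filter_subset _ _) fun _ _ _ => by positivity
  have h2 : ∑ n ∈ Ioc D R, 1 / ((n : ℝ) - 1) ^ 2 ≤ 1 / (D : ℝ) ^ 2 + ∑ n ∈ Ioc D R, 1 / (n : ℝ) ^ 2 := by
    have h3 : ∑ n ∈ Ioc D R, 1 / ((n : ℝ) - 1) ^ 2 = ∑ n ∈ Ico D R, 1 / (n : ℝ) ^ 2 := by
      refine Finset.sum_bij (fun n _ => n - 1) ?_ ?_ ?_ ?_
      · intro a ha; simp only [mem_Ioc, mem_Ico] at *; omega
      · intro a ha b hb h; simp only [mem_Ioc] at *; omega
      · intro b hb; simp only [mem_Ico, mem_Ioc] at *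
        exact ⟨b + 1, by omega, by omega⟩
      · intro a ha
        simp only [mem_Ioc] at ha
        have : ((a - 1 : ℕ) : ℝ) = (a : ℝ) - 1 := by
          rw [Nat.cast_sub (by omega)]; simp
        rw [this]
    rw [h3]
    rcases le_or_gt R D with h | h
    · rw [Ico_eq_empty (by omega), Ioc_eq_empty (by omega), sum_empty]
      positivity
    · have e : Ico D R ⊆ insert D (Ioc D R) := by
        intro x
        simp only [mem_Ico, mem_insert, mem_Ioc]
        omega
      have := sum_le_sum_of_subset_of_nonneg (f := fun n : ℕ => 1 / (n : ℝ) ^ 2) e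
        (fun _ _ _ => by positivity)
      rwa [sum_insert (by simp)] at this
  have h4 := Ext_sum_inv_sq D R hD
  have h5 : 1 / (D : ℝ) ^ 2 ≤ 1 / D := by
    apply one_div_le_one_div_of_le hD0
    nlinarith
  have h6 : (2 : ℝ) / D = 1 / D + 1 / D := by ring
  linarith

theorem Ext_mult {D R : ℕ} {G b : ℕ → ℝ} (h : Good R G b) (q : ℕ) (hq : 1 ≤ q) :
    ∑ n ∈ (NN D R).filter (fun n => q ∣ n), G n / n ≤ I1 D R G / q := by
  classical
  have hq0 : (0 : ℝ) < q := by exact_mod_cast hq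
  have hmem : ∀ n ∈ (NN D R).filter (fun n => q ∣ n), n / q ∈ NN D R ∧ 1 ≤ n / q ∧
      n = q * (n / q) := by
    intro n hn
    simp only [NN, mem_filter, mem_Icc] at hn ⊢
    obtain ⟨⟨⟨h1, h2⟩, h3⟩, h4⟩ := hn
    obtain ⟨m, rfl⟩ := h4
    have hm : q * m / q = m := Nat.mul_div_cancel_left m (by omega)
    rw [hm]
    have hm1 : 1 ≤ m := by
      rcases Nat.eq_zero_or_pos m with h | h
      · subst h; simp at h1
      · exact h
    refine ⟨⟨⟨hm1, le_trans (Nat.le_mul_of_pos_left m (by omega)) h2⟩, ?_⟩, hm1, rfl⟩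
    intro p hp
    apply h3
    rw [Nat.primeFactors_mul (by omega) (by omega)]
    exact mem_union_right _ hp
  have hI : I1 D R G / q = ∑ n ∈ NN D R, (G n / n) / q := by
    rw [I1, sum_div]
  rw [hI]
  calc ∑ n ∈ (NN D R).filter (fun n => q ∣ n), G n / n
      ≤ ∑ n ∈ (NN D R).filter (fun n => q ∣ n), (G (n / q) / (n / q : ℕ)) / q := by
        refine sum_le_sum fun n hn => ?_
        obtain ⟨h1, h2, h3⟩ := hmem n hn
        have hG : G n ≤ G (n / q) := h.anti _ _ h2 (Nat.div_le_self n q)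
        have hn0 : (0 : ℝ) < ((n / q : ℕ) : ℝ) := by exact_mod_cast h2
        have e : (n : ℝ) = q * ((n / q : ℕ) : ℝ) := by exact_mod_cast h3
        rw [div_div, div_le_div_iff₀ (by rw [e]; positivity) (by positivity), mul_comm (((n / q : ℕ) : ℝ)) (q : ℝ), ← e]
        exact mul_le_mul_of_nonneg_right hG (by positivity)
    _ = ∑ m ∈ ((NN D R).filter (fun n => q ∣ n)).image (fun n => n / q), (G m / m) / q := by
        rw [sum_image]
        intro x hx y hy hxy
        have h1 := (hmem x hx).2.2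
        have h2 := (hmem y hy).2.2
        simp only at hxy
        rw [h1, h2, hxy]
    _ ≤ ∑ n ∈ NN D R, (G n / n) / q := by
        refine sum_le_sum_of_subset_of_nonneg ?_ ?_
        · intro m hm
          rw [mem_image] at hm
          obtain ⟨n, hn, rfl⟩ := hm
          exact (hmem n hn).1
        · intro n _ _
          have := h.nonneg n
          positivity

theorem Ext_I1_nonneg {D R : ℕ} {G b : ℕ → ℝ} (h : Good R G b) : 0 ≤ I1 D R G :=
  sum_nonneg fun n _ => div_nonneg (h.nonneg n) (by positivity)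

/-- the squarefree numbers prime to `tot r` -/
noncomputable def ExtGd {k D R : ℕ} (r : Cfg k D R) : Finset ℕ :=
  open Classical in (NN D R).filter (fun n => Squarefree n ∧ ∀ p : PP D R, r p ≠ none → ¬ (p : ℕ) ∣ n)

theorem Ext_I1_le {k D R : ℕ} (hD : 1 ≤ D) {G b : ℕ → ℝ} (h : Good R G b) (r : Cfg k D R) :
    I1 D R G * (1 - 1 / D - recip r) ≤ ∑ n ∈ ExtGd r, G n / n := by
  classical
  have hI := Ext_I1_nonneg (D := D) h
  have hpt : ∀ n ∈ NN D R, G n / n ≤ (if n ∈ ExtGd r then G n / n else 0) +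
      (∑ p : PP D R, if (p : ℕ) ^ 2 ∣ n then G n / n else 0) +
      ∑ p : PP D R, if r p ≠ none ∧ (p : ℕ) ∣ n then G n / n else 0 := by
    intro n hn
    have hg : 0 ≤ G n / n := div_nonneg (h.nonneg n) (by positivity)
    have s1 : 0 ≤ ∑ p : PP D R, (if (p : ℕ) ^ 2 ∣ n then G n / n else 0) :=
      sum_nonneg fun p _ => by split_ifs <;> simp [hg]
    have s2 : 0 ≤ ∑ p : PP D R, (if r p ≠ none ∧ (p : ℕ) ∣ n then G n / n else 0) :=
      sum_nonneg fun p _ => by split_ifs <;> simp [hg]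
    by_cases hgd : n ∈ ExtGd r
    · rw [if_pos hgd]; linarith
    · rw [if_neg hgd]
      have hn' := hn
      simp only [NN, mem_filter, mem_Icc] at hn'
      by_cases hsq : Squarefree n
      · have : ∃ p : PP D R, r p ≠ none ∧ (p : ℕ) ∣ n := by
          by_contra hcon
          push Not at hcon
          apply hgd
          unfold ExtGd
          rw [mem_filter]
          exact ⟨hn, hsq, hcon⟩
        obtain ⟨p, hp⟩ := this
        have := single_le_sum (f := fun p : PP D R => if r p ≠ none ∧ (p : ℕ) ∣ n then G n / n else 0)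
          (fun p _ => by split_ifs <;> simp [hg]) (mem_univ p)
        simp only [if_pos hp] at this
        linarith
      · rw [Nat.squarefree_iff_prime_squarefree] at hsq
        push Not at hsq
        obtain ⟨p, hp, hpn⟩ := hsq
        have hpd : p ∣ n := (Dvd.intro _ rfl : p ∣ p * p).trans hpn
        have hpf : p ∈ n.primeFactors := Nat.mem_primeFactors.2 ⟨hp, hpd, by omega⟩
        have hpP : p ∈ PP D R := Ext_mem_PP.2
          ⟨⟨hn'.2 p hpf, (Nat.le_of_dvd (by omega) hpd).trans hn'.1.2⟩, hp⟩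
        have := single_le_sum (f := fun p : PP D R => if (p : ℕ) ^ 2 ∣ n then G n / n else 0)
          (fun p _ => by split_ifs <;> simp [hg]) (mem_univ (⟨p, hpP⟩ : PP D R))
        simp only [sq, if_pos hpn] at this
        simp only [sq]
        simp only [sq] at s1
        linarith
  have hsum := sum_le_sum hpt
  rw [sum_add_distrib, sum_add_distrib] at hsum
  have e1 : ∑ n ∈ NN D R, (if n ∈ ExtGd r then G n / n else 0) = ∑ n ∈ ExtGd r, G n / n := by
    rw [← sum_filter]
    apply sum_congr _ fun _ _ => rfl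
    ext n
    rw [mem_filter]
    constructor
    · exact fun h => h.2
    · intro h
      refine ⟨?_, h⟩
      unfold ExtGd at h
      exact (mem_filter.1 h).1
  have e2 : ∑ n ∈ NN D R, ∑ p : PP D R, (if (p : ℕ) ^ 2 ∣ n then G n / n else 0) ≤
      I1 D R G * (1 / D) := by
    rw [sum_comm]
    calc ∑ p : PP D R, ∑ n ∈ NN D R, (if (p : ℕ) ^ 2 ∣ n then G n / n else 0)
        ≤ ∑ p : PP D R, I1 D R G * (1 / ((p : ℕ) : ℝ) ^ 2) := by
          refine sum_le_sum fun p _ => ?_
          rw [← sum_filter]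
          have := Ext_mult (D := D) h ((p : ℕ) ^ 2) (Nat.one_le_pow _ _ (Ext_prime p).1.pos)
          rw [Nat.cast_pow] at this
          rw [mul_one_div]
          exact this
      _ = I1 D R G * ∑ p : PP D R, 1 / ((p : ℕ) : ℝ) ^ 2 := by rw [mul_sum]
      _ ≤ I1 D R G * (1 / D) := mul_le_mul_of_nonneg_left (Ext_sum_p2 hD) hI
  have e3 : ∑ n ∈ NN D R, ∑ p : PP D R, (if r p ≠ none ∧ (p : ℕ) ∣ n then G n / n else 0) ≤
      I1 D R G * recip r := by
    rw [sum_comm, recip, mul_sum]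
    refine sum_le_sum fun p _ => ?_
    by_cases hp : r p = none
    · simp [hp]
    · rw [if_neg hp, mul_one_div]
      refine le_trans (le_of_eq ?_) (Ext_mult (D := D) h (p : ℕ) (Ext_prime p).1.pos)
      rw [sum_filter]
      refine sum_congr rfl fun n _ => ?_
      simp [hp]
  rw [e1] at hsum
  have : I1 D R G = ∑ n ∈ NN D R, G n / n := rfl
  nlinarith

open Classical in
/-- the configuration of `n` on top of `r` -/
noncomputable def ExtS {k D R : ℕ} (i : Fin k) (r : Cfg k D R) (n : ℕ) : Cfg k D R := fun p =>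
  if r p ≠ none then r p else if (p : ℕ) ∣ n then some i else none

theorem ExtS_mem {k D R : ℕ} (i : Fin k) (r : Cfg k D R) (n : ℕ) : ExtS i r n ∈ Ext i r := by
  classical
  simp only [Ext, mem_filter, mem_univ, true_and]
  intro p
  unfold ExtS
  constructor
  · intro h; rw [if_pos h]
  · intro h
    rw [if_neg (by simpa using h)]
    split_ifs <;> simp

theorem ExtS_comp {k D R : ℕ} (i : Fin k) (r : Cfg k D R) (hr : r ∈ NoI D R i) {n : ℕ}
    (hn : n ∈ ExtGd r) : comp (ExtS i r n) i = n := by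
  classical
  simp only [NoI, mem_filter, mem_univ, true_and] at hr
  unfold ExtGd at hn
  rw [mem_filter] at hn
  obtain ⟨hN, hsq, hc⟩ := hn
  simp only [NN, mem_filter, mem_Icc] at hN
  have e1 : comp (ExtS i r n) i = ∏ p : PP D R, if (p : ℕ) ∣ n then (p : ℕ) else 1 := by
    unfold comp
    refine prod_congr rfl fun p _ => ?_
    unfold ExtS
    by_cases hp : r p = none
    · by_cases hd : (p : ℕ) ∣ n
      · simp [hp, hd]
      · simp [hp, hd]
    · have := hc p hp
      simp [hp, this, hr p]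
  rw [e1, Finset.prod_coe_sort (PP D R) (fun p => if p ∣ n then p else 1), ← prod_filter]
  have e2 : (PP D R).filter (fun p => p ∣ n) = n.primeFactors := by
    ext p
    rw [mem_filter, Ext_mem_PP, Nat.mem_primeFactors]
    constructor
    · rintro ⟨⟨-, hp⟩, hd⟩
      exact ⟨hp, hd, by omega⟩
    · rintro ⟨hp, hd, h0⟩
      exact ⟨⟨⟨hN.2 p (Nat.mem_primeFactors.2 ⟨hp, hd, h0⟩),
        (Nat.le_of_dvd (by omega) hd).trans hN.1.2⟩, hp⟩, hd⟩
  rw [e2]
  exact Nat.prod_primeFactors_of_squarefree hsq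

theorem Ext_comp_ne {k D R : ℕ} {i j : Fin k} (hij : j ≠ i) {r s : Cfg k D R} (hs : s ∈ Ext i r) :
    comp s j = comp r j := by
  simp only [Ext, mem_filter, mem_univ, true_and] at hs
  unfold comp
  refine prod_congr rfl fun p _ => ?_
  by_cases hp : r p = none
  · have h1 : r p ≠ some j := by rw [hp]; simp
    have h2 : s p ≠ some j := by
      rcases (hs p).2 hp with h | h
      · rw [h]; simp
      · rw [h]
        intro h'
        exact hij (Option.some.inj h').symm
    rw [if_neg h1, if_neg h2]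
  · rw [(hs p).1 hp]

theorem ext_lower {k D R : ℕ} (hD : 1 ≤ D) {G b : ℕ → ℝ} (h : Good R G b) (i : Fin k)
    (r : Cfg k D R) (hr : r ∈ NoI D R i) (hb : ∑ j ∈ univ.erase i, b (comp r j) ≤ 1 / 2) :
    (∏ j ∈ univ.erase i, G (comp r j)) * I1 D R G * (1 - 1 / D - recip r) ≤ Zi i (FF G b) r := by
  classical
  have hprod : 0 ≤ ∏ j ∈ univ.erase i, G (comp r j) := prod_nonneg fun j _ => h.nonneg _
  have hF : ∀ s ∈ Ext i r, FF G b (comp s) = (∏ j ∈ univ.erase i, G (comp r j)) * G (comp s i) := by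
    intro s hs
    have e1 : ∏ j, G (comp s j) = (∏ j ∈ univ.erase i, G (comp r j)) * G (comp s i) := by
      rw [← mul_prod_erase univ _ (mem_univ i), mul_comm]
      congr 1
      exact prod_congr rfl fun j hj => by rw [Ext_comp_ne (mem_erase.1 hj).1 hs]
    have e2 : ∑ j, b (comp s j) = b (comp s i) + ∑ j ∈ univ.erase i, b (comp r j) := by
      rw [← add_sum_erase univ _ (mem_univ i)]
      congr 1
      exact sum_congr rfl fun j hj => by rw [Ext_comp_ne (mem_erase.1 hj).1 hs]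
    unfold FF
    by_cases hG : G (comp s i) = 0
    · rw [e1, hG]; simp
    · have := h.b_half _ hG
      rw [if_pos (by rw [e2]; linarith), e1]
  have hZ : Zi i (FF G b) r = (∏ j ∈ univ.erase i, G (comp r j)) *
      ∑ s ∈ Ext i r, G (comp s i) / comp s i := by
    unfold Zi
    rw [mul_sum]
    refine sum_congr rfl fun s hs => ?_
    rw [hF s hs]
    ring
  rw [hZ, mul_assoc]
  refine mul_le_mul_of_nonneg_left (le_trans (Ext_I1_le hD h r) ?_) hprod
  have hinj : Set.InjOn (ExtS i r) (ExtGd r : Set ℕ) := by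
    intro x hx y hy hxy
    rw [← ExtS_comp i r hr (n := x) (by exact_mod_cast hx),
      ← ExtS_comp i r hr (n := y) (by exact_mod_cast hy), hxy]
  calc ∑ n ∈ ExtGd r, G n / n
      = ∑ s ∈ (ExtGd r).image (ExtS i r), G (comp s i) / comp s i := by
        rw [sum_image hinj]
        exact sum_congr rfl fun n hn => by rw [ExtS_comp i r hr hn]
    _ ≤ ∑ s ∈ Ext i r, G (comp s i) / comp s i := by
        refine sum_le_sum_of_subset_of_nonneg ?_ ?_
        · intro s hs
          rw [mem_image] at hs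
          obtain ⟨n, -, rfl⟩ := hs
          exact ExtS_mem i r n
        · intro s _ _
          exact div_nonneg (h.nonneg _) (by positivity)

/-- `∏ (1 - x) ≥ 1 - ∑ x` for `x ∈ [0, 1]` -/
theorem Ext_prod_ge {ι : Type*} (s : Finset ι) (x : ι → ℝ) (h0 : ∀ i ∈ s, 0 ≤ x i)
    (h1 : ∀ i ∈ s, x i ≤ 1) : 1 - ∑ i ∈ s, x i ≤ ∏ i ∈ s, (1 - x i) := by
  classical
  induction s using Finset.induction_on with
  | empty => simp
  | insert a s ha ih =>
    rw [sum_insert ha, prod_insert ha]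
    have i1 := ih (fun i hi => h0 i (mem_insert_of_mem hi)) (fun i hi => h1 i (mem_insert_of_mem hi))
    have a0 := h0 a (mem_insert_self a s)
    have a1 := h1 a (mem_insert_self a s)
    have s0 : 0 ≤ ∑ i ∈ s, x i := sum_nonneg fun i hi => h0 i (mem_insert_of_mem hi)
    nlinarith

theorem Ext_tot_pos {k D R : ℕ} (r : Cfg k D R) : 0 < tot r := by
  unfold tot
  refine prod_pos fun p _ => ?_
  split_ifs
  · exact one_pos
  · exact (Ext_prime p).1.pos

theorem Ext_recip_nonneg {k D R : ℕ} (r : Cfg k D R) : 0 ≤ recip r :=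
  sum_nonneg fun p _ => by split_ifs <;> positivity

theorem Ext_nn_nonneg {k D R : ℕ} (hD1 : 2 ≤ D) (hD : 4 * k ≤ D) (p : PP D R)
    (a : Option (Fin k)) : 0 ≤ nn k p a := by
  obtain ⟨hp, h1, h2⟩ := Ext_prime p
  have hp3 : (3 : ℝ) ≤ (p : ℕ) := by exact_mod_cast (by omega : 3 ≤ (p : ℕ))
  have hkp : (4 : ℝ) * k ≤ (p : ℕ) := by exact_mod_cast (by omega : 4 * k ≤ (p : ℕ))
  have hp0 : (0 : ℝ) < (p : ℕ) := by linarith
  cases a with
  | none =>
    simp only [nn]
    have : 1 / (((p : ℕ) : ℝ) - 1) ^ 2 ≤ 1 := by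
      rw [div_le_one (by nlinarith)]
      nlinarith
    linarith
  | some j =>
    simp only [nn]
    have : 4 * (k : ℝ) / (p : ℕ) ≤ 1 := by
      rw [div_le_one hp0]; exact hkp
    apply div_nonneg _ hp0.le
    linarith

/-- lower bound for `∏ nn` -/
theorem Ext_nn_ge {k D R : ℕ} (hD1 : 2 ≤ D) (hD : 4 * k ≤ D) (r : Cfg k D R) :
    (1 - 2 / D - 4 * k * recip r) / tot r ≤ ∏ p : PP D R, nn k p (r p) := by
  classical
  set x : PP D R → ℝ := fun p => if r p = none then 1 / (((p : ℕ) : ℝ) - 1) ^ 2 else 4 * k / (p : ℕ)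
    with hx
  have hnn : ∀ p : PP D R, nn k p (r p) = (1 - x p) * (1 / ((if r p = none then 1 else (p : ℕ) : ℕ) : ℝ)) := by
    intro p
    rcases hrp : r p with _ | j
    · simp [nn, hx, hrp]
    · simp only [nn, hx, hrp, reduceCtorEq, if_false]
      rw [mul_one_div]
  have e1 : ∏ p : PP D R, nn k p (r p) = (∏ p : PP D R, (1 - x p)) / tot r := by
    rw [prod_congr rfl fun p _ => hnn p, prod_mul_distrib]
    rw [prod_div_distrib, prod_const_one, tot, Nat.cast_prod, mul_one_div]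
  rw [e1]
  have ht : (0 : ℝ) < tot r := by exact_mod_cast Ext_tot_pos r
  apply div_le_div_of_nonneg_right _ ht.le
  have hx0 : ∀ p ∈ (univ : Finset (PP D R)), 0 ≤ x p := by
    intro p _
    simp only [hx]
    split_ifs <;> positivity
  have hx1 : ∀ p ∈ (univ : Finset (PP D R)), x p ≤ 1 := by
    intro p _
    obtain ⟨hp, h1, h2⟩ := Ext_prime p
    have hp3 : (3 : ℝ) ≤ (p : ℕ) := by exact_mod_cast (by omega : 3 ≤ (p : ℕ))
    have hkp : (4 : ℝ) * k ≤ (p : ℕ) := by exact_mod_cast (by omega : 4 * k ≤ (p : ℕ))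
    simp only [hx]
    split_ifs
    · rw [div_le_one (by nlinarith)]; nlinarith
    · rw [div_le_one (by linarith)]; exact hkp
  refine le_trans ?_ (Ext_prod_ge univ x hx0 hx1)
  have hs : ∑ p : PP D R, x p ≤ 2 / D + 4 * k * recip r := by
    calc ∑ p : PP D R, x p ≤ ∑ p : PP D R, (1 / (((p : ℕ) : ℝ) - 1) ^ 2 +
          4 * k * (if r p = none then 0 else 1 / ((p : ℕ) : ℝ))) := by
          refine sum_le_sum fun p _ => ?_
          simp only [hx]
          split_ifs
          · simp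
          · have : (0 : ℝ) ≤ 1 / (((p : ℕ) : ℝ) - 1) ^ 2 := by positivity
            have e : 4 * (k : ℝ) / (p : ℕ) = 4 * k * (1 / (p : ℕ)) := by ring
            rw [e]
            linarith
      _ = ∑ p : PP D R, 1 / (((p : ℕ) : ℝ) - 1) ^ 2 + 4 * k * recip r := by
          rw [sum_add_distrib, recip, mul_sum]
      _ ≤ _ := by
          have := Ext_sum_p12 (R := R) (show 1 ≤ D by omega)
          linarith
  linarith

theorem E_main {k D R : ℕ} (hk : 1 ≤ k) (hD : 100 * k ^ 2 ≤ D) {G b : ℕ → ℝ} (h : Good R G b)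
    (h2 : 0 < I2 D R G) (h3 : 4 * k * I3 D R G b ≤ I2 D R G) (i : Fin k) :
    1 / 4 * I1 D R G ^ 2 * I2 D R G ^ (k - 1) ≤
      ∑ X : Cfg k D R, (∏ p : PP D R, massi i p (X p)) * ft (zz (FF G b)) X ^ 2 := by
  classical
  have hk2 : k ≤ k ^ 2 := Nat.le_self_pow (by norm_num) k
  have hD1 : 1 ≤ D := by nlinarith
  have hD2 : 2 ≤ D := by nlinarith
  have hD4 : 4 * k ≤ D := by nlinarith
  refine le_trans ?_ (E_lower hD4 i (FF G b))
  have hDr : (100 : ℝ) * k ^ 2 ≤ D := by exact_mod_cast hD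
  have hkr : (1 : ℝ) ≤ k := by exact_mod_cast hk
  have hkk : (k : ℝ) ≤ k ^ 2 := by exact_mod_cast hk2
  have hD0 : (0 : ℝ) < D := by linarith
  set H : Cfg k D R → ℝ := fun r => (∏ j ∈ univ.erase i, G (comp r j) ^ 2) / tot r with hH
  set B : Cfg k D R → ℝ := fun r => ∑ j ∈ univ.erase i, b (comp r j) with hB
  have hH0 : ∀ r, 0 ≤ H r := fun r => div_nonneg (prod_nonneg fun j _ => sq_nonneg _)
    (by positivity)
  have hB0 : ∀ r, 0 ≤ B r := fun r => sum_nonneg fun j _ => h.b_nonneg _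
  set T : ℝ := I2 D R G ^ (k - 1) with hT
  have hT0 : 0 ≤ T := pow_nonneg h2.le _
  -- the three sums
  have s1 : (1 - 2 * (k : ℝ) ^ 2 / D) * T ≤ ∑ r ∈ NoI D R i, H r := low_main hD1 h i
  have s2 : I2 D R G * ∑ r ∈ NoI D R i, H r * B r ≤ k * I3 D R G b * T := by
    have := low_markov hD1 h i
    simpa only [hH, hB] using this
  have s3 : ∑ r ∈ NoI D R i, H r * recip r ≤ k / D * T := low_recip hD1 h i
  have s2' : ∑ r ∈ NoI D R i, H r * B r ≤ 1 / 4 * T := by
    have h4 : k * I3 D R G b * T ≤ I2 D R G * (1 / 4 * T) := by nlinarith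
    exact le_of_mul_le_mul_left (s2.trans h4) h2
  -- pointwise
  have hpt : ∀ r ∈ NoI D R i, I1 D R G ^ 2 * ((H r * (1 - 4 / D) - H r * ((4 * k + 2) * recip r)) -
      2 * (H r * B r)) ≤ (∏ p : PP D R, nn k p (r p)) * Zi i (FF G b) r ^ 2 := by
    intro r hr
    have ht : (0 : ℝ) < tot r := by exact_mod_cast Ext_tot_pos r
    have hnn0 : 0 ≤ ∏ p : PP D R, nn k p (r p) := prod_nonneg fun p _ => Ext_nn_nonneg hD2 hD4 p _
    have hrhs : 0 ≤ (∏ p : PP D R, nn k p (r p)) * Zi i (FF G b) r ^ 2 :=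
      mul_nonneg hnn0 (sq_nonneg _)
    have hrec := Ext_recip_nonneg r
    have hI : 0 ≤ I1 D R G ^ 2 := sq_nonneg _
    have hHr := hH0 r
    have hBr := hB0 r
    by_cases hb : B r ≤ 1 / 2
    · have hZ := ext_lower hD1 h i r hr hb
      have hnn := Ext_nn_ge hD2 hD4 r
      by_cases hneg : 1 - 4 / (D : ℝ) - (4 * k + 2) * recip r ≤ 0
      · have : I1 D R G ^ 2 * ((H r * (1 - 4 / D) - H r * ((4 * k + 2) * recip r)) -
            2 * (H r * B r)) ≤ 0 := by
          apply mul_nonpos_of_nonneg_of_nonpos hI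
          nlinarith [mul_nonneg hHr hBr, mul_nonneg hHr (neg_nonneg.2 hneg)]
        linarith
      · push Not at hneg
        have hkrec : 0 ≤ 4 * (k : ℝ) * recip r := by positivity
        have h2D : (0 : ℝ) < 2 / D := by positivity
        have h4D : (4 : ℝ) / D = 2 / D + 2 / D := by ring
        have h1D : (2 : ℝ) / D = 1 / D + 1 / D := by ring
        set P := ∏ j ∈ univ.erase i, G (comp r j) with hP
        have hP0 : 0 ≤ P := prod_nonneg fun j _ => h.nonneg _
        have hI1 := Ext_I1_nonneg (D := D) h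
        have hHP : H r = P ^ 2 / tot r := by
          simp only [hH, hP]
          rw [prod_pow]
        -- square of Zi
        have hy : 0 ≤ 1 - 1 / (D : ℝ) - recip r := by nlinarith
        have hZ2 : P ^ 2 * I1 D R G ^ 2 * (1 - 2 / D - 2 * recip r) ≤ Zi i (FF G b) r ^ 2 := by
          have h5 : (P * I1 D R G * (1 - 1 / D - recip r)) ^ 2 ≤ Zi i (FF G b) r ^ 2 :=
            pow_le_pow_left₀ (by positivity) hZ 2
          have h6 : (1 : ℝ) - 2 / D - 2 * recip r ≤ (1 - 1 / D - recip r) ^ 2 := by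
            nlinarith [sq_nonneg (1 / (D : ℝ) + recip r)]
          have h7 : P ^ 2 * I1 D R G ^ 2 * (1 - 2 / D - 2 * recip r) ≤
              (P * I1 D R G * (1 - 1 / D - recip r)) ^ 2 := by
            rw [mul_pow, mul_pow]
            exact mul_le_mul_of_nonneg_left h6 (by positivity)
          linarith
        have hw : 0 ≤ (1 - 2 / (D : ℝ) - 4 * k * recip r) := by nlinarith
        have hw2 : 0 ≤ 1 - 2 / (D : ℝ) - 2 * recip r := by nlinarith
        calc I1 D R G ^ 2 * ((H r * (1 - 4 / D) - H r * ((4 * k + 2) * recip r)) - 2 * (H r * B r))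
            ≤ I1 D R G ^ 2 * (H r * (1 - 4 / D - (4 * k + 2) * recip r)) := by
              apply mul_le_mul_of_nonneg_left _ hI
              nlinarith [mul_nonneg hHr hBr]
          _ ≤ I1 D R G ^ 2 * (H r * ((1 - 2 / D - 4 * k * recip r) * (1 - 2 / D - 2 * recip r))) := by
              apply mul_le_mul_of_nonneg_left _ hI
              apply mul_le_mul_of_nonneg_left _ hHr
              nlinarith [mul_nonneg (show 0 ≤ 2 / (D : ℝ) + 4 * k * recip r by positivity)
                (show 0 ≤ 2 / (D : ℝ) + 2 * recip r by positivity)]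
          _ = ((1 - 2 / D - 4 * k * recip r) / tot r) *
                (P ^ 2 * I1 D R G ^ 2 * (1 - 2 / D - 2 * recip r)) := by
              rw [hHP]; ring
          _ ≤ _ := mul_le_mul hnn hZ2 (by positivity) hnn0
    · push Not at hb
      have : I1 D R G ^ 2 * ((H r * (1 - 4 / D) - H r * ((4 * k + 2) * recip r)) -
            2 * (H r * B r)) ≤ 0 := by
        apply mul_nonpos_of_nonneg_of_nonpos hI
        have h8 : 0 ≤ H r * ((4 * k + 2) * recip r) := by positivity
        have h9 : H r * (1 - 4 / D) ≤ H r := by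
          have : (0 : ℝ) ≤ 4 / D := by positivity
          nlinarith
        nlinarith
      linarith
  refine le_trans ?_ (sum_le_sum hpt)
  rw [← mul_sum, mul_assoc, mul_comm (1 / 4 : ℝ), mul_assoc]
  apply mul_le_mul_of_nonneg_left _ (sq_nonneg _)
  rw [sum_sub_distrib, sum_sub_distrib, ← mul_sum, ← sum_mul]
  have e5 : ∑ r ∈ NoI D R i, H r * ((4 * k + 2) * recip r) =
      (4 * k + 2) * ∑ r ∈ NoI D R i, H r * recip r := by
    rw [mul_sum]
    exact sum_congr rfl fun r _ => by ring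
  rw [e5]
  have hc1 : 2 * (k : ℝ) ^ 2 / D ≤ 1 / 50 := by
    rw [div_le_div_iff₀ hD0 (by norm_num)]; linarith
  have hc2 : 4 / (D : ℝ) ≤ 1 / 25 := by
    rw [div_le_div_iff₀ hD0 (by norm_num)]; nlinarith
  have hc3 : (4 * (k : ℝ) + 2) * (k / D) ≤ 6 / 100 := by
    have : (4 * (k : ℝ) + 2) * (k / D) = (4 * k + 2) * k / D := by ring
    rw [this, div_le_div_iff₀ hD0 (by norm_num)]
    nlinarith
  have t1 : 49 / 50 * T ≤ ∑ r ∈ NoI D R i, H r := by nlinarith
  have t3 : (4 * (k : ℝ) + 2) * ∑ r ∈ NoI D R i, H r * recip r ≤ 6 / 100 * T := by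
    calc (4 * (k : ℝ) + 2) * ∑ r ∈ NoI D R i, H r * recip r
        ≤ (4 * k + 2) * (k / D * T) := mul_le_mul_of_nonneg_left s3 (by positivity)
      _ = ((4 * k + 2) * (k / D)) * T := by ring
      _ ≤ _ := mul_le_mul_of_nonneg_right hc3 hT0
  nlinarith

end Pool.Agent.MT
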