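import Pool.Agent.Work.MT.Defs

/-! # the expansion of the sieve weight in the `λ_d` -/

namespace Pool.Agent.MT

open Finset

theorem Lambda_prime {D R : ℕ} (p : PP D R) : (p : ℕ).Prime := (Finset.mem_filter.1 p.2).2

theorem Lambda_uu {k : ℕ} (p : ℕ) (X a : Option (Fin k)) : uu p X a = ∑ c, hh p a c * ind X c := by
  rw [Fintype.sum_option]
  cases a with
  | none => simp [uu, hh, ind]
  | some i =>
    simp only [uu, hh, ind, mul_one]
    have : ∑ j : Fin k, (if i = j then (1 : ℝ) else 0) * (if X = some j then 1 else 0) =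
        if X = some i then 1 else 0 := by
      simp only [ite_mul, one_mul, zero_mul, Finset.sum_ite_eq, Finset.mem_univ, if_true]
    rw [this]
    ring

theorem ft_eq {k D R : ℕ} (z : Cfg k D R → ℝ) (X : Cfg k D R) :
    ft z X = ∑ d : Cfg k D R, lam z d * ∏ p : PP D R, ind (X p) (d p) := by
  unfold ft lam
  have h : ∀ r : Cfg k D R, z r * ∏ p : PP D R, uu (p : ℕ) (X p) (r p) =
      ∑ d : Cfg k D R, z r * ∏ p : PP D R, hh (p : ℕ) (r p) (d p) *
        ind (X p) (d p) := by
    intro r
    simp_rw [Lambda_uu]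
    rw [Finset.prod_univ_sum, Fintype.piFinset_univ, Finset.mul_sum]
  simp_rw [h, Finset.sum_mul]
  rw [Finset.sum_comm]
  refine Finset.sum_congr rfl fun d _ => Finset.sum_congr rfl fun r _ => ?_
  rw [Finset.prod_mul_distrib]
  ring

theorem Lambda_tot_eq {k D R : ℕ} (r : Cfg k D R) : tot r = ∏ i, comp r i := by
  unfold tot comp
  rw [Finset.prod_comm]
  refine Finset.prod_congr rfl fun p _ => ?_
  cases h : r p with
  | none => simp
  | some j => simp

theorem Lambda_tot_pos {k D R : ℕ} (r : Cfg k D R) : 0 < tot r := by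
  unfold tot
  refine Finset.prod_pos fun p _ => ?_
  split_ifs
  · exact one_pos
  · exact (Lambda_prime p).pos

theorem Lambda_comp_pos {k D R : ℕ} (r : Cfg k D R) (i : Fin k) : 0 < comp r i := by
  unfold comp
  refine Finset.prod_pos fun p _ => ?_
  split_ifs
  · exact (Lambda_prime p).pos
  · exact one_pos

theorem Lambda_comp_dvd {k D R : ℕ} (r : Cfg k D R) (i : Fin k) (p : PP D R) :
    (p : ℕ) ∣ comp r i ↔ r p = some i := by
  unfold comp
  constructor
  · intro h
    rw [(Lambda_prime p).prime.dvd_finsetProd_iff] at h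
    obtain ⟨q, -, hq⟩ := h
    split_ifs at hq with h1
    · have h2 := (Nat.prime_dvd_prime_iff_eq (Lambda_prime p) (Lambda_prime q)).1 hq
      have h3 : p = q := Subtype.ext h2
      rw [h3]
      exact h1
    · exact absurd (Nat.dvd_one.1 hq) (Lambda_prime p).one_lt.ne'
  · intro h
    have h1 : (if r p = some i then (p : ℕ) else 1) ∣
        ∏ q : PP D R, (if r q = some i then (q : ℕ) else 1) :=
      Finset.dvd_prod_of_mem (fun q : PP D R => if r q = some i then (q : ℕ) else 1)
        (Finset.mem_univ p)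
    rw [if_pos h] at h1
    exact h1

theorem Lambda_comp_inj {k D R : ℕ} : Function.Injective (fun (r : Cfg k D R) (i : Fin k) =>
    comp r i) := by
  intro r s h
  have h' : ∀ i, comp r i = comp s i := fun i => congrFun h i
  funext p
  have key : ∀ i, r p = some i ↔ s p = some i := by
    intro i
    rw [← Lambda_comp_dvd, ← Lambda_comp_dvd, h' i]
  cases hr : r p with
  | none =>
    cases hs : s p with
    | none => rfl
    | some j =>
      have := (key j).2 hs
      rw [hr] at this
      exact absurd this (by simp)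
  | some j => exact ((key j).1 hr).symm

theorem bdd_zz {k D R : ℕ} {G b : ℕ → ℝ} (h : Good R G b) (hR : 1 ≤ R) :
    Bdd (zz (k := k) (D := D) (R := R) (FF G b)) := by
  constructor
  · intro r
    unfold zz
    rw [abs_mul]
    have h1 : |sgn r| = 1 := by
      unfold sgn
      rw [Finset.abs_prod]
      refine Finset.prod_eq_one fun p _ => ?_
      split_ifs <;> simp
    rw [h1, one_mul]
    unfold FF
    split_ifs
    · rw [abs_of_nonneg (Finset.prod_nonneg fun i _ => h.nonneg _)]
      exact Finset.prod_le_one (fun i _ => h.nonneg _) fun i _ => h.le_one _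
    · simp
  · intro r hr
    unfold zz at hr
    have hF : FF G b (comp r) ≠ 0 := right_ne_zero_of_mul hr
    unfold FF at hF
    split_ifs at hF with hb
    · have hG : ∀ i, G (comp r i) ≠ 0 := fun i => (Finset.prod_ne_zero_iff.1 hF) i (mem_univ i)
      have hR' : (1 : ℝ) ≤ (R : ℝ) := by exact_mod_cast hR
      have h1 : (tot r : ℝ) ≤ (R : ℝ) ^ (∑ i, b (comp r i)) := by
        rw [Lambda_tot_eq, Nat.cast_prod,
          Real.rpow_sum_of_pos (by linarith : (0 : ℝ) < R)]
        exact Finset.prod_le_prod (fun i _ => Nat.cast_nonneg _) fun i _ =>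
          h.b_log _ (Lambda_comp_pos r i) (hG i)
      have h2 : (R : ℝ) ^ (∑ i, b (comp r i)) ≤ (R : ℝ) ^ (1 : ℝ) :=
        Real.rpow_le_rpow_of_exponent_le hR' hb
      rw [Real.rpow_one] at h2
      exact_mod_cast h1.trans h2
    · exact absurd rfl hF

/-- `∑ 1 / tot r ≤ (1 + log R) ^ k` -/
theorem Lambda_sum_recip (k : ℕ) {D R : ℕ} (hR : 1 ≤ R) :
    ∑ r ∈ (univ : Finset (Cfg k D R)).filter (fun r => tot r ≤ R), 1 / (tot r : ℝ) ≤
      (1 + Real.log R) ^ k := by
  classical
  have h1 : ∑ n ∈ Icc 1 R, 1 / (n : ℝ) ≤ 1 + Real.log R := by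
    have := harmonic_le_one_add_log R
    rw [harmonic_eq_sum_Icc] at this
    push_cast at this
    simpa [one_div] using this
  have h2 : ∑ r ∈ (univ : Finset (Cfg k D R)).filter (fun r => tot r ≤ R), 1 / (tot r : ℝ) ≤
      ∑ n ∈ Fintype.piFinset (fun _ : Fin k => Icc 1 R), ∏ i, 1 / (n i : ℝ) := by
    have h3 : ∑ r ∈ (univ : Finset (Cfg k D R)).filter (fun r => tot r ≤ R), 1 / (tot r : ℝ) =
        ∑ n ∈ ((univ : Finset (Cfg k D R)).filter (fun r => tot r ≤ R)).image
          (fun (r : Cfg k D R) (i : Fin k) => comp r i), ∏ i, 1 / (n i : ℝ) := by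
      rw [Finset.sum_image (fun a _ b _ hab => Lambda_comp_inj hab)]
      refine Finset.sum_congr rfl fun r _ => ?_
      rw [Lambda_tot_eq, Nat.cast_prod]
      simp only [one_div]
      rw [← Finset.prod_inv_distrib]
    rw [h3]
    refine Finset.sum_le_sum_of_subset_of_nonneg ?_ fun n _ _ =>
      Finset.prod_nonneg fun i _ => by positivity
    intro n hn
    obtain ⟨r, hr, rfl⟩ := Finset.mem_image.1 hn
    rw [Fintype.mem_piFinset]
    intro i
    rw [Finset.mem_Icc]
    refine ⟨Lambda_comp_pos r i, ?_⟩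
    have h4 : tot r ≤ R := (Finset.mem_filter.1 hr).2
    refine le_trans ?_ h4
    apply Nat.le_of_dvd (Lambda_tot_pos r)
    rw [Lambda_tot_eq]
    exact Finset.dvd_prod_of_mem (fun i => comp r i) (mem_univ i)
  refine h2.trans ?_
  have h5 := Finset.prod_univ_sum (fun _ : Fin k => Icc 1 R) (fun _ n => 1 / (n : ℝ))
  rw [← h5, Finset.prod_const, Finset.card_univ, Fintype.card_fin]
  exact pow_le_pow_left₀ (Finset.sum_nonneg fun n _ => by positivity) h1 k

/-- the configurations which contain `d` -/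
def LambdaExt {k D R : ℕ} (d r : Cfg k D R) : Prop := ∀ p, d p ≠ none → r p = d p

theorem Lambda_ext_of_ne {k D R : ℕ} {d r : Cfg k D R}
    (h : ∏ p : PP D R, hh (p : ℕ) (r p) (d p) ≠ 0) : LambdaExt d r := by
  intro p hp
  have h1 : hh (p : ℕ) (r p) (d p) ≠ 0 := (Finset.prod_ne_zero_iff.1 h) p (mem_univ p)
  obtain ⟨j, hj⟩ := Option.ne_none_iff_exists'.1 hp
  rw [hj] at h1 ⊢
  cases hr : r p with
  | none =>
    rw [hr] at h1
    simp [hh] at h1
  | some i =>
    rw [hr] at h1
    simp only [hh] at h1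
    split_ifs at h1 with h2
    · rw [h2]
    · exact absurd rfl h1

theorem Lambda_tot_le {k D R : ℕ} {d r : Cfg k D R} (h : ∀ p, r p = none → d p = none) :
    tot d ≤ tot r := by
  unfold tot
  refine Finset.prod_le_prod' fun p _ => ?_
  by_cases h1 : r p = none
  · rw [if_pos h1, if_pos (h p h1)]
  · rw [if_neg h1]
    split_ifs
    · exact (Lambda_prime p).one_lt.le
    · exact le_rfl

theorem lam_le {k D R : ℕ} (hR : 1 ≤ R) {z : Cfg k D R → ℝ} (h : Bdd z) (d : Cfg k D R) :
    |lam z d| ≤ (1 + Real.log R) ^ k := by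
  classical
  refine le_trans ?_ (Lambda_sum_recip k (D := D) hR)
  unfold lam
  refine (Finset.abs_sum_le_sum_abs _ _).trans ?_
  -- restrict to the extensions with `tot r ≤ R`
  set S : Finset (Cfg k D R) := univ.filter (fun r => tot r ≤ R ∧ LambdaExt d r) with hS
  have h1 : ∑ r : Cfg k D R, |z r * ∏ p : PP D R, hh (p : ℕ) (r p) (d p)| =
      ∑ r ∈ S, |z r * ∏ p : PP D R, hh (p : ℕ) (r p) (d p)| := by
    symm
    refine Finset.sum_subset (Finset.subset_univ _) fun r _ hr => ?_
    by_contra hne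
    apply hr
    rw [hS, Finset.mem_filter]
    have h2 : z r * ∏ p : PP D R, hh (p : ℕ) (r p) (d p) ≠ 0 := fun h3 => hne (by rw [h3, abs_zero])
    exact ⟨mem_univ _, h.2 r (left_ne_zero_of_mul h2), Lambda_ext_of_ne (right_ne_zero_of_mul h2)⟩
  rw [h1]
  -- the part of `r` outside `d`
  set π : Cfg k D R → Cfg k D R := fun r p => if d p = none then r p else none with hπ
  have hπinj : Set.InjOn π S := by
    intro r hr s hs hrs
    have hr' : LambdaExt d r := (Finset.mem_filter.1 hr).2.2
    have hs' : LambdaExt d s := (Finset.mem_filter.1 hs).2.2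
    funext p
    by_cases hp : d p = none
    · have := congrFun hrs p
      simpa [hπ, hp] using this
    · rw [hr' p hp, hs' p hp]
  have h2 : ∑ r ∈ S, |z r * ∏ p : PP D R, hh (p : ℕ) (r p) (d p)| ≤
      ∑ r ∈ S, 1 / (tot (π r) : ℝ) := by
    refine Finset.sum_le_sum fun r hr => ?_
    have hr' : LambdaExt d r := (Finset.mem_filter.1 hr).2.2
    rw [abs_mul, Finset.abs_prod]
    have h3 : ∏ p : PP D R, |hh (p : ℕ) (r p) (d p)| = 1 / (tot (π r) : ℝ) := by
      unfold tot
      rw [Nat.cast_prod, one_div, ← Finset.prod_inv_distrib]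
      refine Finset.prod_congr rfl fun p _ => ?_
      by_cases hp : d p = none
      · cases hrp : r p with
        | none => simp [hπ, hp, hrp, hh]
        | some i =>
          simp only [hπ, hp, hrp, hh, if_true]
          rw [abs_div, abs_neg, abs_one]
          simp
      · obtain ⟨j, hj⟩ := Option.ne_none_iff_exists'.1 hp
        have h4 : r p = some j := by rw [hr' p hp, hj]
        simp [hπ, hj, h4, hh]
    rw [h3]
    have h5 : 0 ≤ 1 / (tot (π r) : ℝ) := by positivity
    nlinarith [h.1 r, abs_nonneg (z r)]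
  refine h2.trans ?_
  rw [← Finset.sum_image (f := fun r : Cfg k D R => 1 / (tot r : ℝ)) hπinj]
  refine Finset.sum_le_sum_of_subset_of_nonneg ?_ fun r _ _ => by positivity
  intro s hs
  obtain ⟨r, hr, rfl⟩ := Finset.mem_image.1 hs
  rw [Finset.mem_filter]
  refine ⟨mem_univ _, ?_⟩
  have h6 : tot r ≤ R := (Finset.mem_filter.1 hr).2.1
  refine le_trans (Lambda_tot_le ?_) h6
  intro p hp
  simp only [hπ]
  split_ifs
  · exact hp
  · rfl

theorem lam_supp {k D R : ℕ} {z : Cfg k D R → ℝ} (h : Bdd z) (d : Cfg k D R)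
    (hd : lam z d ≠ 0) : tot d ≤ R := by
  unfold lam at hd
  obtain ⟨r, -, hr⟩ := Finset.exists_ne_zero_of_sum_ne_zero hd
  have h1 := h.2 r (left_ne_zero_of_mul hr)
  have h2 := Lambda_ext_of_ne (right_ne_zero_of_mul hr)
  refine le_trans (Lambda_tot_le ?_) h1
  intro p hp
  by_contra h3
  rw [← h2 p h3] at h3
  exact h3 hp

theorem sum_lam_le {k D R : ℕ} (hR : 1 ≤ R) {z : Cfg k D R → ℝ} (h : Bdd z) :
    ∑ d : Cfg k D R, |lam z d| ≤ (R : ℝ) ^ 2 * (1 + Real.log R) ^ k := by
  classical
  have h1 : ∑ d : Cfg k D R, |lam z d| ≤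
      ∑ r : Cfg k D R, |z r| * ∏ p : PP D R, ∑ c, |hh (p : ℕ) (r p) c| := by
    calc ∑ d : Cfg k D R, |lam z d|
        ≤ ∑ d : Cfg k D R, ∑ r : Cfg k D R, |z r| * ∏ p : PP D R, |hh (p : ℕ) (r p) (d p)| := by
          refine Finset.sum_le_sum fun d _ => ?_
          unfold lam
          refine (Finset.abs_sum_le_sum_abs _ _).trans (le_of_eq ?_)
          refine Finset.sum_congr rfl fun r _ => ?_
          rw [abs_mul, Finset.abs_prod]
      _ = ∑ r : Cfg k D R, |z r| * ∏ p : PP D R, ∑ c, |hh (p : ℕ) (r p) c| := by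
          rw [Finset.sum_comm]
          refine Finset.sum_congr rfl fun r _ => ?_
          rw [Finset.prod_univ_sum, Fintype.piFinset_univ, Finset.mul_sum]
  have h2 : ∀ r : Cfg k D R, ∏ p : PP D R, ∑ c, |hh (p : ℕ) (r p) c| ≤ (tot r : ℝ) := by
    intro r
    unfold tot
    rw [Nat.cast_prod]
    refine Finset.prod_le_prod (fun p _ => Finset.sum_nonneg fun c _ => abs_nonneg _) fun p _ => ?_
    rw [Fintype.sum_option]
    cases hr : r p with
    | none => simp [hh]
    | some i =>
      have hp2 : (2 : ℝ) ≤ (p : ℕ) := by exact_mod_cast (Lambda_prime p).two_le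
      have h3 : ∑ j : Fin k, |hh (p : ℕ) (some i) (some j)| = 1 := by
        have : ∀ j : Fin k, |hh (p : ℕ) (some i) (some j)| = if i = j then (1 : ℝ) else 0 := by
          intro j
          simp only [hh]
          split_ifs <;> simp
        simp_rw [this]
        simp
      rw [h3]
      simp only [hh, reduceCtorEq, if_false]
      rw [abs_div, abs_neg, abs_one, abs_of_nonneg (by linarith : (0 : ℝ) ≤ (p : ℕ))]
      have h4 : 1 / ((p : ℕ) : ℝ) ≤ 1 := by
        rw [div_le_one (by linarith)]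
        linarith
      linarith
  have h3 : ∑ r : Cfg k D R, |z r| * ∏ p : PP D R, ∑ c, |hh (p : ℕ) (r p) c| ≤
      ∑ r ∈ (univ : Finset (Cfg k D R)).filter (fun r => tot r ≤ R),
        (R : ℝ) ^ 2 * (1 / (tot r : ℝ)) := by
    have h4 : ∑ r : Cfg k D R, |z r| * ∏ p : PP D R, ∑ c, |hh (p : ℕ) (r p) c| =
        ∑ r ∈ (univ : Finset (Cfg k D R)).filter (fun r => tot r ≤ R),
          |z r| * ∏ p : PP D R, ∑ c, |hh (p : ℕ) (r p) c| := by
      symm
      refine Finset.sum_subset (Finset.subset_univ _) fun r _ hr => ?_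
      have : z r = 0 := by
        by_contra hne
        exact hr (Finset.mem_filter.2 ⟨mem_univ _, h.2 r hne⟩)
      rw [this, abs_zero, zero_mul]
    rw [h4]
    refine Finset.sum_le_sum fun r hr => ?_
    have hrR : (tot r : ℝ) ≤ R := by exact_mod_cast (Finset.mem_filter.1 hr).2
    have ht : (0 : ℝ) < tot r := by exact_mod_cast Lambda_tot_pos r
    have h5 : |z r| * ∏ p : PP D R, ∑ c, |hh (p : ℕ) (r p) c| ≤ 1 * (tot r : ℝ) :=
      mul_le_mul (h.1 r) (h2 r) (Finset.prod_nonneg fun p _ =>
        Finset.sum_nonneg fun c _ => abs_nonneg _) zero_le_one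
    refine h5.trans ?_
    rw [one_mul, mul_one_div, le_div_iff₀ ht]
    nlinarith
  refine h1.trans (h3.trans ?_)
  rw [← Finset.mul_sum]
  exact mul_le_mul_of_nonneg_left (Lambda_sum_recip k hR) (by positivity)

end Pool.Agent.MT
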