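import Pool.Agent.Work.BV.Primes
import Pool.Agent.Work.MP_40574a_nt.Mertens

/-! # Bombieri-Vinogradov with weights `K^ω(q)` -/

namespace Pool.Agent.MT

open Finset Pool.Agent.Work.MP_40574a_nt.Mertens

/-- the trivial bound -/
lemma Level_triv {x y e c : ℕ} (he : 1 ≤ e) (hex : e ≤ x) (hx : 1 ≤ x) (hy : y ≤ x) :
    |BV.thetaA e c y - BV.theta y / e.totient| ≤ 2 * x * Real.log x / e.totient := by
  have hφ : (1 : ℝ) ≤ e.totient := by exact_mod_cast Nat.totient_pos.2 he
  have hx1 : (1 : ℝ) ≤ x := by exact_mod_cast hx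
  have he0 : (0 : ℝ) < e := by exact_mod_cast he
  have hlx : 0 ≤ Real.log x := Real.log_nonneg hx1
  have hlog0 : ∀ p : ℕ, 0 ≤ Real.log p := fun p => Real.log_natCast_nonneg p
  have hφe : (e.totient : ℝ) ≤ e := by exact_mod_cast Nat.totient_le e
  have h1 : BV.thetaA e c y ≤ 2 * x * Real.log x / e.totient := by
    unfold BV.thetaA
    calc ∑ p ∈ (Icc 1 y).filter (fun p => p.Prime ∧ p ≡ c [MOD e]), Real.log p
        ≤ ∑ p ∈ (Ioc 0 x).filter (fun p => p ≡ c [MOD e]), Real.log x := by
          refine le_trans (sum_le_sum_of_subset_of_nonneg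
            (t := (Ioc 0 x).filter (fun p => p ≡ c [MOD e])) ?_ fun p _ _ => hlog0 p) ?_
          · intro p hp
            rw [mem_filter, mem_Icc] at hp
            rw [mem_filter, mem_Ioc]
            exact ⟨⟨by omega, by omega⟩, hp.2.2⟩
          · refine sum_le_sum fun p hp => ?_
            rw [mem_filter, mem_Ioc] at hp
            refine Real.log_le_log ?_ ?_
            · exact_mod_cast hp.1.1
            · exact_mod_cast hp.1.2
      _ = ((Ioc 0 x).filter (fun p => p ≡ c [MOD e])).card * Real.log x := by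
          rw [sum_const, nsmul_eq_mul]
      _ ≤ (2 * x / e) * Real.log x := by
          refine mul_le_mul_of_nonneg_right ?_ hlx
          have h2 : (((Ioc 0 x).filter (fun p => p ≡ c [MOD e])).card : ℝ) ≤ x / e + 1 := by
            have h3 := Nat.Ioc_filter_modEq_card 0 x (r := e) he c
            have h4 : (((Ioc 0 x).filter (fun p => p ≡ c [MOD e])).card : ℝ) =
                ((max (⌊((x : ℚ) - c) / e⌋ - ⌊((0 : ℕ) - c : ℚ) / e⌋) 0 : ℤ) : ℝ) := by
              rw [← h3]; push_cast; rfl
            rw [h4]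
            push_cast
            refine max_le ?_ (by positivity)
            have a1 := Int.floor_le (((x : ℚ) - c) / e)
            have a2 := Int.lt_floor_add_one (((0 : ℕ) - c : ℚ) / e)
            have a3 : ((⌊((x : ℚ) - c) / e⌋ : ℤ) : ℝ) ≤ ((x : ℝ) - c) / e := by
              have := (Rat.cast_le (K := ℝ)).2 a1
              push_cast at this
              exact this
            have a4 : ((0 : ℝ) - c) / e ≤ ((⌊((0 : ℕ) - c : ℚ) / e⌋ : ℤ) : ℝ) + 1 := by
              have := (Rat.cast_le (K := ℝ)).2 a2.le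
              push_cast at this
              exact this
            push_cast at a3 a4 ⊢
            have a5 : ((x : ℝ) - c) / e = x / e + (0 - c) / e := by ring
            rw [a5] at a3
            linarith
          have h5 : (1 : ℝ) ≤ x / e := by
            rw [le_div_iff₀ he0]
            rw [one_mul]
            exact_mod_cast hex
          calc (((Ioc 0 x).filter (fun p => p ≡ c [MOD e])).card : ℝ) ≤ x / e + 1 := h2
            _ ≤ x / e + x / e := by linarith
            _ = 2 * x / e := by ring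
      _ = 2 * x * Real.log x / e := by ring
      _ ≤ 2 * x * Real.log x / e.totient :=
          div_le_div_of_nonneg_left (by positivity) (by linarith) hφe
  have h1' : 0 ≤ BV.thetaA e c y := sum_nonneg fun p _ => hlog0 p
  have h2 : BV.theta y / e.totient ≤ 2 * x * Real.log x / e.totient := by
    refine div_le_div_of_nonneg_right ?_ (by linarith)
    unfold BV.theta
    calc ∑ p ∈ (Icc 1 y).filter Nat.Prime, Real.log p ≤ ∑ p ∈ Icc 1 y, Real.log x := by
          refine le_trans (sum_le_sum_of_subset_of_nonneg (filter_subset _ _)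
            fun p _ _ => hlog0 p) (sum_le_sum fun p hp => ?_)
          rw [mem_Icc] at hp
          refine Real.log_le_log ?_ ?_
          · exact_mod_cast (by omega : 0 < p)
          · exact_mod_cast (by omega : p ≤ x)
      _ = (y : ℝ) * Real.log x := by
          rw [sum_const, Nat.card_Icc, nsmul_eq_mul]; simp
      _ ≤ (2 * x) * Real.log x := by
          refine mul_le_mul_of_nonneg_right ?_ hlx
          have : (y : ℝ) ≤ x := by exact_mod_cast hy
          linarith
  have h2' : 0 ≤ BV.theta y / e.totient :=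
    div_nonneg (sum_nonneg fun p _ => hlog0 p) (by linarith)
  rw [abs_le]
  constructor <;> linarith

/-- `∑_{e ≤ Q squarefree} M^ω(e)/φ(e) ≤ C (log x)^M` for `Q ≤ x` -/
lemma Level_sum (M : ℕ) : ∃ C : ℝ, 0 < C ∧ ∀ x Q : ℕ, 3 ≤ x → Q ≤ x →
    ∑ e ∈ (Icc 1 Q).filter Squarefree, (M : ℝ) ^ e.primeFactors.card / e.totient ≤
      C * (Real.log x) ^ M := by
  obtain ⟨C, hC, hM⟩ := mertens_second
  have hl2 : 0 < Real.log 2 := Real.log_pos (by norm_num)
  refine ⟨Real.exp (M * (3 / 2 + C / Real.log 2)) / (Real.log 2) ^ M, by positivity, ?_⟩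
  intro x Q hx hQ
  have hxR : (3 : ℝ) ≤ x := by exact_mod_cast hx
  have hlx : 0 < Real.log x := Real.log_pos (by linarith)
  set P : Finset ℕ := (Icc 1 x).filter Nat.Prime with hP
  set f : ℕ → ℝ := fun q => M / ((q : ℝ) - 1) with hf
  have hf0 : ∀ q ∈ P, 0 ≤ f q := by
    intro q hq
    have h2 : (2 : ℝ) ≤ q := by exact_mod_cast (mem_filter.1 hq).2.two_le
    exact div_nonneg (by positivity) (by linarith)
  have h1 : ∑ e ∈ (Icc 1 Q).filter Squarefree, (M : ℝ) ^ e.primeFactors.card / e.totient ≤
      ∑ T ∈ P.powerset, ∏ q ∈ T, f q := by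
    have e1 : ∀ e ∈ (Icc 1 Q).filter Squarefree, (M : ℝ) ^ e.primeFactors.card / e.totient =
        ∏ q ∈ e.primeFactors, f q := by
      intro e he
      have hsq := (mem_filter.1 he).2
      have h2 : (e.totient : ℝ) = ∏ q ∈ e.primeFactors, ((q : ℝ) - 1) := by
        have h3 : e.totient = ∏ q ∈ e.primeFactors, (q - 1) := by
          rw [Nat.totient_eq_prod_factorization hsq.ne_zero, Finsupp.prod]
          rw [Nat.support_factorization]
          refine prod_congr rfl fun q hq => ?_
          have hq' := Nat.prime_of_mem_primeFactors hq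
          have h4 : e.factorization q = 1 := by
            have h5 := hsq.natFactorization_le_one q
            have h6 : e.factorization q ≠ 0 := by
              rw [← Finsupp.mem_support_iff, Nat.support_factorization]; exact hq
            omega
          rw [h4]; simp
        rw [h3]
        push_cast
        refine prod_congr rfl fun q hq => ?_
        have hq' := Nat.prime_of_mem_primeFactors hq
        rw [Nat.cast_sub hq'.one_le]; simp
      rw [h2, ← prod_const, ← prod_div_distrib]
    rw [sum_congr rfl e1]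
    have hinj : Set.InjOn (fun e : ℕ => e.primeFactors)
        (((Icc 1 Q).filter Squarefree : Finset ℕ) : Set ℕ) := by
      intro a ha b hb hab
      have ha' := (mem_filter.1 (mem_coe.1 ha)).2
      have hb' := (mem_filter.1 (mem_coe.1 hb)).2
      rw [← Nat.prod_primeFactors_of_squarefree ha', ← Nat.prod_primeFactors_of_squarefree hb']
      simp only at hab
      rw [hab]
    rw [← sum_image (f := fun T : Finset ℕ => ∏ q ∈ T, f q) hinj]
    refine sum_le_sum_of_subset_of_nonneg ?_ ?_
    · intro T hT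
      obtain ⟨e, he, rfl⟩ := mem_image.1 hT
      rw [mem_powerset]
      intro q hq
      have he' := mem_Icc.1 (mem_filter.1 he).1
      have hq' := Nat.prime_of_mem_primeFactors hq
      have hle := Nat.le_of_mem_primeFactors hq
      rw [hP, mem_filter, mem_Icc]
      exact ⟨⟨hq'.one_le, by omega⟩, hq'⟩
    · intro T hT _
      exact prod_nonneg fun q hq => hf0 q (mem_powerset.1 hT hq)
  have h2 : ∑ T ∈ P.powerset, ∏ q ∈ T, f q = ∏ q ∈ P, (1 + f q) := by
    rw [prod_one_add]
  have h3 : ∏ q ∈ P, (1 + f q) ≤ Real.exp (∑ q ∈ P, f q) := by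
    rw [Real.exp_sum]
    refine prod_le_prod (fun q hq => by have := hf0 q hq; linarith) fun q hq => ?_
    rw [add_comm]
    exact Real.add_one_le_exp _
  have h4 : ∑ q ∈ P, f q ≤ M * (3 / 2 + C / Real.log 2 +
      Real.log (Real.log x / Real.log 2)) := by
    have h5 : ∑ q ∈ P, f q = M * (∑ q ∈ P, (1 : ℝ) / q + ∑ q ∈ P, (1 : ℝ) / (q * (q - 1))) := by
      rw [← sum_add_distrib, mul_sum]
      refine sum_congr rfl fun q hq => ?_
      have h2 : (2 : ℝ) ≤ q := by exact_mod_cast (mem_filter.1 hq).2.two_le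
      have h6 : (q : ℝ) - 1 ≠ 0 := by linarith
      have h7 : (q : ℝ) ≠ 0 := by linarith
      simp only [hf]
      field_simp
      ring
    have h6 : ∑ q ∈ P, (1 : ℝ) / q ≤ 1 / 2 + (Real.log (Real.log x / Real.log 2) +
        C / Real.log 2) := by
      have h7 := hM 2 x le_rfl (by linarith)
      have h8 : P ⊆ insert 2 (PB 2 x) := by
        intro q hq
        rw [hP, mem_filter, mem_Icc] at hq
        rw [mem_insert, mem_PB (by norm_num) (by linarith)]
        rcases hq.2.two_le.lt_or_eq with h | h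
        · right
          refine ⟨hq.2, by exact_mod_cast h, by exact_mod_cast hq.1.2⟩
        · exact Or.inl h.symm
      have h9 : (2 : ℕ) ∉ PB 2 (x : ℝ) := by
        rw [mem_PB (by norm_num) (by linarith)]
        rintro ⟨_, h, _⟩
        norm_num at h
      calc ∑ q ∈ P, (1 : ℝ) / q ≤ ∑ q ∈ insert 2 (PB 2 x), (1 : ℝ) / q :=
            sum_le_sum_of_subset_of_nonneg h8 fun _ _ _ => by positivity
        _ = 1 / 2 + ∑ q ∈ PB 2 x, (1 : ℝ) / q := by
            rw [sum_insert h9]; norm_num
        _ ≤ _ := by linarith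
    have h7 : ∑ q ∈ P, (1 : ℝ) / (q * (q - 1)) ≤ 1 := by
      have h8 : ∀ N : ℕ, 1 ≤ N → ∑ n ∈ Icc 2 N, (1 : ℝ) / (n * (n - 1)) = 1 - 1 / N := by
        intro N hN
        induction N, hN using Nat.le_induction with
        | base => simp
        | succ N hN ih =>
          rw [sum_Icc_succ_top (by omega), ih]
          have h0 : (N : ℝ) ≠ 0 := by positivity
          have h0' : (N : ℝ) + 1 ≠ 0 := by positivity
          push_cast
          rw [add_sub_cancel_right]
          field_simp
          ring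
      have h9 : P ⊆ Icc 2 x := by
        intro q hq
        rw [hP, mem_filter, mem_Icc] at hq
        rw [mem_Icc]
        exact ⟨hq.2.two_le, hq.1.2⟩
      calc ∑ q ∈ P, (1 : ℝ) / (q * (q - 1)) ≤ ∑ q ∈ Icc 2 x, (1 : ℝ) / (q * (q - 1)) := by
            refine sum_le_sum_of_subset_of_nonneg h9 fun q hq _ => ?_
            have : (2 : ℝ) ≤ q := by exact_mod_cast (mem_Icc.1 hq).1
            refine div_nonneg zero_le_one (mul_nonneg (by linarith) (by linarith))
        _ = 1 - 1 / x := h8 x (by omega)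
        _ ≤ 1 := by
            have : (0 : ℝ) ≤ 1 / x := by positivity
            linarith
    rw [h5]
    have hM0 : (0 : ℝ) ≤ M := Nat.cast_nonneg M
    exact mul_le_mul_of_nonneg_left (by linarith) hM0
  calc ∑ e ∈ (Icc 1 Q).filter Squarefree, (M : ℝ) ^ e.primeFactors.card / e.totient
      ≤ Real.exp (∑ q ∈ P, f q) := h1.trans (h2.le.trans h3)
    _ ≤ Real.exp (M * (3 / 2 + C / Real.log 2 + Real.log (Real.log x / Real.log 2))) :=
        Real.exp_le_exp.2 h4
    _ = Real.exp (M * (3 / 2 + C / Real.log 2)) * (Real.log x / Real.log 2) ^ M := by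
        rw [mul_add (M : ℝ) (3 / 2 + C / Real.log 2), Real.exp_add]
        congr 1
        rw [Real.exp_nat_mul, Real.exp_log (by positivity)]
    _ = _ := by rw [div_pow]; ring

theorem level_weights (K A a : ℕ) (ha : 0 < a) : ∃ C : ℝ, 0 < C ∧ ∀ (x Q y : ℕ) (c : ℕ → ℕ),
    3 ≤ x → ((a * Q : ℕ) : ℝ) ≤ (x : ℝ) ^ (4 / 9 : ℝ) → y ≤ x → (∀ q, (c q).Coprime (a * q)) →
    ∑ q ∈ (Icc 1 Q).filter (fun q => Squarefree q ∧ a.Coprime q), (K : ℝ) ^ q.primeFactors.card *
      |BV.thetaA (a * q) (c q) y - BV.theta y / (a * q).totient| ≤ C * x / (Real.log x) ^ A := by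
  set B : ℕ := 2 * A + (K ^ 2 + 1) with hB
  obtain ⟨C₁, hC₁, h1⟩ := BV.bv_theta B
  obtain ⟨C₂, hC₂, h2⟩ := Level_sum (K ^ 2)
  refine ⟨Real.sqrt (2 * C₂ * C₁), by positivity, ?_⟩
  intro x Q y c hx hQ hy hc
  have hxR : (3 : ℝ) ≤ x := by exact_mod_cast hx
  have hx0 : (0 : ℝ) < x := by linarith
  have hx1 : (1 : ℝ) ≤ x := by linarith
  set L : ℝ := Real.log x with hL
  have hL0 : 0 < L := Real.log_pos (by linarith)
  have haQx : a * Q ≤ x := by
    have h1 : ((a * Q : ℕ) : ℝ) ≤ x := by
      refine hQ.trans ?_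
      calc (x : ℝ) ^ (4 / 9 : ℝ) ≤ (x : ℝ) ^ (1 : ℝ) :=
            Real.rpow_le_rpow_of_exponent_le hx1 (by norm_num)
        _ = x := Real.rpow_one _
    exact_mod_cast h1
  have hQx : Q ≤ x := (Nat.le_mul_of_pos_left Q ha).trans haQx
  set S : Finset ℕ := (Icc 1 Q).filter (fun q => Squarefree q ∧ a.Coprime q) with hS
  set E : ℕ → ℝ := fun q => |BV.thetaA (a * q) (c q) y - BV.theta y / (a * q).totient| with hE
  have hE0 : ∀ q, 0 ≤ E q := fun q => abs_nonneg _
  have hSm : ∀ q ∈ S, 1 ≤ q ∧ q ≤ Q ∧ Squarefree q ∧ a.Coprime q := by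
    intro q hq
    rw [hS, mem_filter, mem_Icc] at hq
    exact ⟨hq.1.1, hq.1.2, hq.2.1, hq.2.2⟩
  -- first moment
  have m1 : ∑ q ∈ S, E q ≤ C₁ * x / L ^ B := by
    set c' : ℕ → ℕ := fun m => if a ∣ m then c (m / a) else 1 with hc'
    have hcop : ∀ m ∈ Icc 1 (a * Q), (c' m).Coprime m := by
      intro m _
      simp only [hc']
      split_ifs with h
      · have := hc (m / a)
        rwa [Nat.mul_div_cancel' h] at this
      · exact Nat.coprime_one_left m
    have h3 := h1 x (a * Q) c' (fun _ => y) hx hQ hcop (fun _ _ => hy)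
    refine le_trans ?_ h3
    have hinj : Set.InjOn (fun q : ℕ => a * q) (S : Set ℕ) :=
      fun q _ q' _ h => Nat.eq_of_mul_eq_mul_left ha h
    have h4 : ∀ q ∈ S, E q = (fun m => |BV.thetaA m (c' m) y - BV.theta y / m.totient|)
        (a * q) := by
      intro q _
      simp only [hE, hc', dvd_mul_right, if_true, Nat.mul_div_cancel_left q ha]
    rw [sum_congr rfl h4, ← sum_image
      (f := fun m => |BV.thetaA m (c' m) y - BV.theta y / m.totient|) hinj]
    refine sum_le_sum_of_subset_of_nonneg ?_ fun _ _ _ => abs_nonneg _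
    intro m hm
    obtain ⟨q, hq, rfl⟩ := mem_image.1 hm
    have h5 := hSm q hq
    rw [mem_Icc]
    exact ⟨Nat.mul_pos ha (by omega), Nat.mul_le_mul_left a h5.2.1⟩
  -- trivial bound for the weighted sum
  have m2 : ∑ q ∈ S, ((K ^ 2 : ℕ) : ℝ) ^ q.primeFactors.card * E q ≤
      2 * C₂ * x * L ^ (K ^ 2 + 1) := by
    calc ∑ q ∈ S, ((K ^ 2 : ℕ) : ℝ) ^ q.primeFactors.card * E q
        ≤ ∑ q ∈ S, (2 * x * L) * (((K ^ 2 : ℕ) : ℝ) ^ q.primeFactors.card / q.totient) := by
          refine sum_le_sum fun q hq => ?_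
          have hq' := hSm q hq
          have a1 : E q ≤ 2 * x * Real.log x / (a * q).totient :=
            Level_triv (x := x) (y := y) (e := a * q) (c := c q)
              (Nat.mul_pos ha (by omega))
              ((Nat.mul_le_mul_left a hq'.2.1).trans haQx) (by omega) hy
          have a2 : (q.totient : ℝ) ≤ (a * q).totient := by
            rw [Nat.totient_mul hq'.2.2.2]
            exact_mod_cast Nat.le_mul_of_pos_left _ (Nat.totient_pos.2 ha)
          have a3 : (0 : ℝ) < q.totient := by
            exact_mod_cast Nat.totient_pos.2 hq'.1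
          have a4 : E q ≤ 2 * x * L / q.totient :=
            a1.trans (div_le_div_of_nonneg_left (by positivity) a3 a2)
          calc ((K ^ 2 : ℕ) : ℝ) ^ q.primeFactors.card * E q
              ≤ ((K ^ 2 : ℕ) : ℝ) ^ q.primeFactors.card * (2 * x * L / q.totient) :=
                mul_le_mul_of_nonneg_left a4 (by positivity)
            _ = _ := by ring
      _ = (2 * x * L) * ∑ q ∈ S, ((K ^ 2 : ℕ) : ℝ) ^ q.primeFactors.card / q.totient := by
          rw [mul_sum]
      _ ≤ (2 * x * L) * (C₂ * L ^ (K ^ 2)) := by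
          refine mul_le_mul_of_nonneg_left ((sum_le_sum_of_subset_of_nonneg ?_ ?_).trans
            (h2 x Q hx hQx)) (by positivity)
          · intro q hq
            have hq' := hSm q hq
            rw [mem_filter, mem_Icc]
            exact ⟨⟨hq'.1, hq'.2.1⟩, hq'.2.2.1⟩
          · intro q _ _
            positivity
      _ = _ := by rw [pow_succ]; ring
  have cs : ∑ q ∈ S, (K : ℝ) ^ q.primeFactors.card * E q ≤
      Real.sqrt (∑ q ∈ S, ((K ^ 2 : ℕ) : ℝ) ^ q.primeFactors.card * E q) *
      Real.sqrt (∑ q ∈ S, E q) := by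
    refine le_trans (le_of_eq ?_) (Real.sum_sqrt_mul_sqrt_le _
      (fun q => mul_nonneg (by positivity) (hE0 q)) hE0)
    refine sum_congr rfl fun q _ => ?_
    rw [Real.sqrt_mul (by positivity), mul_assoc, Real.mul_self_sqrt (hE0 q)]
    congr 1
    rw [show (((K ^ 2 : ℕ) : ℝ)) ^ q.primeFactors.card = ((K : ℝ) ^ q.primeFactors.card) ^ 2 by
      push_cast; rw [← pow_mul, ← pow_mul, mul_comm]]
    rw [Real.sqrt_sq (by positivity)]
  refine cs.trans ?_
  calc Real.sqrt (∑ q ∈ S, ((K ^ 2 : ℕ) : ℝ) ^ q.primeFactors.card * E q) *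
      Real.sqrt (∑ q ∈ S, E q)
      ≤ Real.sqrt (2 * C₂ * x * L ^ (K ^ 2 + 1)) * Real.sqrt (C₁ * x / L ^ B) := by
        gcongr
    _ = Real.sqrt ((2 * C₂ * C₁) * (x / L ^ A) ^ 2) := by
        rw [← Real.sqrt_mul (by positivity)]
        congr 1
        rw [hB, pow_add L (2 * A), mul_comm 2 A, pow_mul, div_pow]
        field_simp
    _ = Real.sqrt (2 * C₂ * C₁) * (x / L ^ A) := by
        rw [Real.sqrt_mul (by positivity), Real.sqrt_sq (by positivity)]
    _ = _ := by ring

end Pool.Agent.MT
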