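import Pool.Agent.Work.MT.Tensor

/-! # the lower bound `E_lower` -/

namespace Pool.Agent.MT

open Finset

noncomputable section

/-- weights of the lower kernel -/
def Lower_c {k : ℕ} (i : Fin k) (p : ℕ) : Option (Fin k) → ℝ
  | none => nn k p none
  | some j => if j = i then 0 else nn k p (some j)

/-- functionals of the lower kernel -/
def Lower_g {k : ℕ} (i : Fin k) (p : ℕ) : Option (Fin k) → Option (Fin k) → ℝ
  | none, none => 1
  | none, some j => if j = i then -1 / (p : ℝ) else 0
  | some j, a => if a = some j then 1 else 0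

theorem Lower_quad {A Ω : Type*} [Fintype A] [Fintype Ω] (c : Ω → ℝ) (g : Ω → A → ℝ) (x : A → ℝ) :
    ∑ a, ∑ b, x a * x b * (∑ w, c w * g w a * g w b) = ∑ w, c w * (∑ a, x a * g w a) ^ 2 := by
  have h : ∀ w, c w * (∑ a, x a * g w a) ^ 2 = ∑ a, ∑ b, x a * x b * (c w * g w a * g w b) := by
    intro w
    rw [sq, Finset.sum_mul_sum, Finset.mul_sum]
    refine Finset.sum_congr rfl fun a _ => ?_
    rw [Finset.mul_sum]
    refine Finset.sum_congr rfl fun b _ => ?_
    ring
  symm
  simp_rw [h]
  rw [Finset.sum_comm]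
  refine Finset.sum_congr rfl fun a _ => ?_
  rw [Finset.sum_comm]
  refine Finset.sum_congr rfl fun b _ => ?_
  rw [Finset.mul_sum]

theorem Lower_psd {A Ω : Type*} [Fintype A] [Fintype Ω] (c : Ω → ℝ) (hc : ∀ w, 0 ≤ c w)
    (g : Ω → A → ℝ) : PSD (fun a b => ∑ w, c w * g w a * g w b) := by
  refine ⟨fun a b => ?_, fun x => ?_⟩
  · refine Finset.sum_congr rfl fun w _ => ?_
    ring
  · rw [Lower_quad]
    exact Finset.sum_nonneg fun w _ => mul_nonneg (hc w) (sq_nonneg _)

theorem Lower_ineq (p k x0 S Q : ℝ) (hk : 1 ≤ k) (hp : 5 ≤ p) (hQ : 0 ≤ Q)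
    (hS : S ^ 2 ≤ (k - 1) * Q) :
    (1 - 1 / (p - 1) ^ 2) * x0 ^ 2 + (1 - 4 * k / p) / p * Q ≤
      (1 - (k - 1) / (p - 1)) * (x0 - S / p) ^ 2 +
        1 / (p - 1) * ((k - 1) * (x0 - S / p) ^ 2 + 2 * (x0 - S / p) * S + Q) := by
  have hp0 : 0 < p := by linarith
  have hp1 : 0 < p - 1 := by linarith
  obtain ⟨al, hal⟩ : ∃ al, al = 1 / (p - 1) := ⟨_, rfl⟩
  obtain ⟨be, hbe⟩ : ∃ be, be = 1 / p := ⟨_, rfl⟩
  have hab : al * be = al - be := by
    rw [hal, hbe]
    field_simp
    ring
  have hal0 : 0 < al := by rw [hal]; positivity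
  have hbe0 : 0 < be := by rw [hbe]; positivity
  have hle : al ≤ 5 / 4 * be := by
    rw [hal, hbe, mul_one_div, div_le_div_iff₀ hp1 hp0]
    linarith
  have e1 : (1 - 1 / (p - 1) ^ 2) = 1 - al ^ 2 := by rw [hal, div_pow, one_pow]
  have e2 : (1 - 4 * k / p) / p = (1 - 4 * k * be) * be := by rw [hbe]; ring
  have e3 : (k - 1) / (p - 1) = (k - 1) * al := by rw [hal]; ring
  have e4 : S / p = S * be := by rw [hbe]; ring
  rw [e1, e2, e3, e4, ← hal]
  have key : (1 - (k - 1) * al) * (x0 - S * be) ^ 2 +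
      al * ((k - 1) * (x0 - S * be) ^ 2 + 2 * (x0 - S * be) * S + Q) -
      ((1 - al ^ 2) * x0 ^ 2 + (1 - 4 * k * be) * be * Q) =
      (al * x0 + be * S) ^ 2 + (al * be + 4 * k * be ^ 2) * Q - 2 * (al * be) * S ^ 2 := by
    linear_combination (-2 * x0 * S - Q) * hab
  have h1 : 2 * (al * be) * S ^ 2 ≤ 2 * (al * be) * ((k - 1) * Q) :=
    mul_le_mul_of_nonneg_left hS (by positivity)
  have h2 : 2 * (al * be) * (k - 1) ≤ 5 / 2 * be ^ 2 * (k - 1) := by
    have : al * be ≤ 5 / 4 * be * be := mul_le_mul_of_nonneg_right hle hbe0.le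
    have hk1 : 0 ≤ k - 1 := by linarith
    nlinarith [mul_le_mul_of_nonneg_right this hk1]
  have h3 : 5 / 2 * be ^ 2 * (k - 1) ≤ al * be + 4 * k * be ^ 2 := by
    have : 0 ≤ be ^ 2 := by positivity
    have : 0 ≤ al * be := by positivity
    nlinarith
  have h4 : 2 * (al * be) * ((k - 1) * Q) ≤ (al * be + 4 * k * be ^ 2) * Q := by
    have := mul_le_mul_of_nonneg_right (h2.trans h3) hQ
    linarith
  nlinarith [sq_nonneg (al * x0 + be * S)]

theorem Lower_psd_sub {k : ℕ} (i : Fin k) (p : ℕ) (hp : 5 ≤ p) :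
    PSD (fun a b => (∑ w, massi i p w * uu p w a * uu p w b) -
      ∑ w, Lower_c i p w * Lower_g i p w a * Lower_g i p w b) := by
  refine ⟨fun a b => ?_, fun x => ?_⟩
  · dsimp only
    congr 1
    · refine Finset.sum_congr rfl fun w _ => ?_
      ring
    · refine Finset.sum_congr rfl fun w _ => ?_
      ring
  · simp_rw [mul_sub, Finset.sum_sub_distrib]
    rw [Lower_quad, Lower_quad, sub_nonneg]
    have hk : 1 ≤ k := by
      have := i.2
      omega
    -- notation
    set E : Finset (Fin k) := univ.erase i with hE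
    set S : ℝ := ∑ j ∈ E, x (some j) with hS
    set Q : ℝ := ∑ j ∈ E, x (some j) ^ 2 with hQ
    have hcard : (E.card : ℝ) = (k : ℝ) - 1 := by
      rw [hE, Finset.card_erase_of_mem (mem_univ i), Finset.card_univ, Fintype.card_fin,
        Nat.cast_sub hk, Nat.cast_one]
    have hsplit : ∀ f : Fin k → ℝ, ∑ j, f j = f i + ∑ j ∈ E, f j := by
      intro f
      rw [hE, Finset.add_sum_erase _ _ (mem_univ i)]
    set x0 : ℝ := x none - x (some i) / p with hx0
    have hT : ∀ w : Option (Fin k), ∑ a, x a * uu p w a =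
        (x0 - S / p) + (match w with | none => 0 | some j => x (some j)) := by
      intro w
      rw [Fintype.sum_option]
      have : ∀ j, x (some j) * uu p w (some j) =
          x (some j) * (if w = some j then 1 else 0) - x (some j) * (1 / (p : ℝ)) := by
        intro j
        simp only [uu]
        ring
      simp_rw [this]
      rw [Finset.sum_sub_distrib, ← Finset.sum_mul]
      have h0 : x none * uu p w none = x none := by simp [uu]
      rw [h0]
      have h1 : ∑ j : Fin k, x (some j) = x (some i) + S := by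
        rw [hsplit]
      rw [h1]
      cases w with
      | none =>
        simp only [reduceCtorEq, if_false, mul_zero, Finset.sum_const_zero]
        rw [hx0]
        ring
      | some l =>
        simp only [Option.some.injEq, mul_ite, mul_one, mul_zero, Finset.sum_ite_eq,
          Finset.mem_univ, if_true]
        rw [hx0]
        ring
    have hM : ∑ w, massi i p w * (∑ a, x a * uu p w a) ^ 2 =
        (1 - ((k : ℝ) - 1) / ((p : ℝ) - 1)) * (x0 - S / p) ^ 2 +
        1 / ((p : ℝ) - 1) * (((k : ℝ) - 1) * (x0 - S / p) ^ 2 + 2 * (x0 - S / p) * S + Q) := by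
      rw [Fintype.sum_option, hT]
      congr 1
      · simp [massi]
      · rw [hsplit]
        have hi : massi i p (some i) = 0 := by simp [massi]
        rw [hi, zero_mul, zero_add]
        have : ∀ j ∈ E, massi i p (some j) * (∑ a, x a * uu p (some j) a) ^ 2 =
            1 / ((p : ℝ) - 1) * ((x0 - S / p) ^ 2 + 2 * (x0 - S / p) * x (some j) +
              x (some j) ^ 2) := by
          intro j hj
          rw [hT]
          have hji : j ≠ i := (Finset.mem_erase.1 hj).1
          simp only [massi, if_neg hji]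
          ring
        rw [Finset.sum_congr rfl this, ← Finset.mul_sum, Finset.sum_add_distrib,
          Finset.sum_add_distrib, Finset.sum_const, nsmul_eq_mul, hcard, ← Finset.mul_sum]
    have hN : ∑ w, Lower_c i p w * (∑ a, x a * Lower_g i p w a) ^ 2 =
        (1 - 1 / ((p : ℝ) - 1) ^ 2) * x0 ^ 2 + (1 - 4 * (k : ℝ) / p) / p * Q := by
      rw [Fintype.sum_option]
      congr 1
      · have : ∑ a, x a * Lower_g i p none a = x0 := by
          rw [Fintype.sum_option, hsplit]
          have h0 : ∑ j ∈ E, x (some j) * Lower_g i p none (some j) = 0 := by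
            refine Finset.sum_eq_zero fun j hj => ?_
            have hji : j ≠ i := (Finset.mem_erase.1 hj).1
            simp [Lower_g, hji]
          rw [h0]
          simp only [Lower_g, if_true]
          rw [hx0]
          ring
        rw [this]
        simp [Lower_c, nn]
      · rw [hsplit]
        have hi : Lower_c i p (some i) = 0 := by simp [Lower_c]
        rw [hi, zero_mul, zero_add, hQ, Finset.mul_sum]
        refine Finset.sum_congr rfl fun j hj => ?_
        have hji : j ≠ i := (Finset.mem_erase.1 hj).1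
        have h1 : ∑ a, x a * Lower_g i p (some j) a = x (some j) := by
          simp [Lower_g]
        rw [h1]
        simp [Lower_c, nn, hji]
    rw [hM, hN]
    have hCS : S ^ 2 ≤ ((k : ℝ) - 1) * Q := by
      rw [← hcard]
      exact sq_sum_le_card_mul_sum_sq
    have hQ0 : 0 ≤ Q := Finset.sum_nonneg fun j _ => sq_nonneg _
    exact Lower_ineq p k x0 S Q (by exact_mod_cast hk) (by exact_mod_cast hp) hQ0 hCS

/-- the coefficient of the lower kernel at an extension -/
theorem Lower_prod {k D R : ℕ} (i : Fin k) (ω r : Cfg k D R) (hω : ω ∈ NoI D R i)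
    (hr : r ∈ Ext i ω) :
    sgn r * ∏ p : PP D R, Lower_g i (p : ℕ) (ω p) (r p) = sgn ω * (1 / (comp r i : ℝ)) := by
  unfold sgn comp
  rw [Nat.cast_prod, ← Finset.prod_mul_distrib, one_div, ← Finset.prod_inv_distrib,
    ← Finset.prod_mul_distrib]
  refine Finset.prod_congr rfl fun p _ => ?_
  have h1 : ω p ≠ some i := (Finset.mem_filter.1 hω).2 p
  have h2 := (Finset.mem_filter.1 hr).2 p
  by_cases h : ω p = none
  · rcases h2.2 h with h3 | h3
    · rw [h, h3]
      simp [Lower_g]
    · rw [h, h3]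
      simp [Lower_g]
      ring
  · have h3 := h2.1 h
    rw [h3]
    obtain ⟨j, hj⟩ := Option.ne_none_iff_exists'.1 h
    rw [hj]
    have hji : j ≠ i := by
      rintro rfl
      exact h1 hj
    simp [Lower_g, hji]

/-- the lower kernel vanishes outside the extensions -/
theorem Lower_zero {k D R : ℕ} (i : Fin k) (ω r : Cfg k D R) (hr : r ∉ Ext i ω) :
    ∏ p : PP D R, Lower_g i (p : ℕ) (ω p) (r p) = 0 := by
  by_contra hne
  apply hr
  rw [Ext, Finset.mem_filter]
  refine ⟨mem_univ _, fun p => ?_⟩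
  have hp : Lower_g i (p : ℕ) (ω p) (r p) ≠ 0 := by
    intro h0
    exact hne (Finset.prod_eq_zero (mem_univ p) h0)
  constructor
  · intro h
    obtain ⟨j, hj⟩ := Option.ne_none_iff_exists'.1 h
    rw [hj] at hp ⊢
    by_contra h3
    apply hp
    simp [Lower_g, h3]
  · intro h
    rw [h] at hp
    by_cases h3 : r p = none
    · exact Or.inl h3
    · obtain ⟨j, hj⟩ := Option.ne_none_iff_exists'.1 h3
      right
      rw [hj] at hp ⊢
      by_contra h4
      apply hp
      have hji : j ≠ i := fun h5 => h4 (by rw [h5])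
      simp [Lower_g, hji]

theorem Lower_inner {k D R : ℕ} (i : Fin k) (F : (Fin k → ℕ) → ℝ) (ω : Cfg k D R)
    (hω : ω ∈ NoI D R i) :
    ∑ r : Cfg k D R, zz F r * ∏ p : PP D R, Lower_g i (p : ℕ) (ω p) (r p) = sgn ω * Zi i F ω := by
  unfold Zi
  rw [Finset.mul_sum, ← Finset.sum_subset (Finset.subset_univ (Ext i ω))
    (fun r _ hr => by rw [Lower_zero i ω r hr, mul_zero])]
  refine Finset.sum_congr rfl fun r hr => ?_
  unfold zz
  calc sgn r * F (comp r) * ∏ p : PP D R, Lower_g i (p : ℕ) (ω p) (r p)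
      = (sgn r * ∏ p : PP D R, Lower_g i (p : ℕ) (ω p) (r p)) * F (comp r) := by ring
    _ = sgn ω * (1 / (comp r i : ℝ)) * F (comp r) := by rw [Lower_prod i ω r hω hr]
    _ = sgn ω * (F (comp r) / (comp r i : ℝ)) := by ring

theorem Lower_sgn {k D R : ℕ} (ω : Cfg k D R) : sgn ω ^ 2 = 1 := by
  unfold sgn
  rw [← Finset.prod_pow]
  refine Finset.prod_eq_one fun p _ => ?_
  split_ifs <;> norm_num

/-- lower bound for the expectation over the integers where the form `i` is prime -/
theorem E_lower {k D R : ℕ} (hk : 4 * k ≤ D) (i : Fin k) (F : (Fin k → ℕ) → ℝ) :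
    ∑ r ∈ NoI D R i, (∏ p : PP D R, nn k p (r p)) * Zi i F r ^ 2 ≤
      ∑ X : Cfg k D R, (∏ p : PP D R, massi i p (X p)) * ft (zz F) X ^ 2 := by
  classical
  have hk1 : 1 ≤ k := by
    have := i.2
    omega
  have hD : ∀ p : PP D R, D < (p : ℕ) := by
    intro p
    exact (Finset.mem_Ioc.1 (Finset.mem_filter.1 p.2).1).1
  have hp5 : ∀ p : PP D R, 5 ≤ (p : ℕ) := by
    intro p
    have := hD p
    omega
  have hc : ∀ (p : PP D R) (w : Option (Fin k)), 0 ≤ Lower_c i (p : ℕ) w := by
    intro p w
    have h5 : (5 : ℝ) ≤ (p : ℕ) := by exact_mod_cast hp5 p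
    have h4 : 4 * (k : ℝ) ≤ (p : ℕ) := by
      have := hD p
      exact_mod_cast (by omega : 4 * k ≤ (p : ℕ))
    cases w with
    | none =>
      simp only [Lower_c, nn]
      rw [sub_nonneg, div_le_one (by nlinarith)]
      nlinarith
    | some j =>
      simp only [Lower_c]
      split_ifs
      · exact le_rfl
      · simp only [nn]
        apply div_nonneg _ (by linarith)
        rw [sub_nonneg, div_le_one (by linarith)]
        exact h4
  -- left side
  have hL : ∑ r ∈ NoI D R i, (∏ p : PP D R, nn k p (r p)) * Zi i F r ^ 2 =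
      ∑ ω : Cfg k D R, (∏ p : PP D R, Lower_c i (p : ℕ) (ω p)) *
        (∑ r : Cfg k D R, zz F r * ∏ p : PP D R, Lower_g i (p : ℕ) (ω p) (r p)) ^ 2 := by
    rw [← Finset.sum_subset (Finset.subset_univ (NoI D R i))]
    · refine Finset.sum_congr rfl fun ω hω => ?_
      rw [Lower_inner i F ω hω, mul_pow, Lower_sgn, one_mul]
      congr 1
      refine Finset.prod_congr rfl fun p _ => ?_
      have h1 : ω p ≠ some i := (Finset.mem_filter.1 hω).2 p
      cases h : ω p with
      | none => rfl
      | some j =>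
        have hji : j ≠ i := by
          rintro rfl
          exact h1 h
        simp [Lower_c, hji]
    · intro ω _ hω
      rw [NoI, Finset.mem_filter] at hω
      push Not at hω
      obtain ⟨p, hp⟩ := hω (mem_univ _)
      have : ∏ p : PP D R, Lower_c i (p : ℕ) (ω p) = 0 := by
        apply Finset.prod_eq_zero (mem_univ p)
        rw [hp]
        simp [Lower_c]
      rw [this, zero_mul]
  have hR : ∑ X : Cfg k D R, (∏ p : PP D R, massi i p (X p)) * ft (zz F) X ^ 2 =
      ∑ X : Cfg k D R, (∏ p : PP D R, massi i p (X p)) *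
        (∑ r : Cfg k D R, zz F r * ∏ p : PP D R, uu (p : ℕ) (X p) (r p)) ^ 2 := rfl
  rw [hL, hR]
  rw [tensor_sum (fun (p : PP D R) w => Lower_c i (p : ℕ) w)
    (fun (p : PP D R) w a => Lower_g i (p : ℕ) w a) (zz F)]
  rw [tensor_sum (fun (p : PP D R) w => massi i (p : ℕ) w)
    (fun (p : PP D R) w a => uu (p : ℕ) w a) (zz F)]
  exact tensor_mono
    (fun (p : PP D R) a b => ∑ w, massi i (p : ℕ) w * uu (p : ℕ) w a * uu (p : ℕ) w b)
    (fun (p : PP D R) a b => ∑ w, Lower_c i (p : ℕ) w * Lower_g i (p : ℕ) w a *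
      Lower_g i (p : ℕ) w b)
    (fun p => Lower_psd _ (hc p) _) (fun p => Lower_psd_sub i p (hp5 p)) (zz F)

end

end Pool.Agent.MT
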