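import Pool.Agent.Work.MT.Lambda

/-! # the sum of the weights over all integers -/

namespace Pool.Agent.MT

open Finset

theorem SumAll_prime {D R : ℕ} (p : PP D R) : (p : ℕ).Prime := (mem_filter.1 p.2).2

theorem SumAll_lt {D R : ℕ} (p : PP D R) : D < (p : ℕ) := (mem_Ioc.1 (mem_filter.1 p.2).1).1

theorem SumAll_unique {k D R : ℕ} {a b : Fin k → ℕ} (h : Forms k D a b) (m : ℕ) (p : PP D R)
    {i j : Fin k} (hi : (p : ℕ) ∣ a i * m + b i) (hj : (p : ℕ) ∣ a j * m + b j) : i = j := by
  by_contra hij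
  have h1 := h.diff i j hij p (SumAll_prime p) (by
    have hi' : ((p : ℕ) : ℤ) ∣ (a i : ℤ) * m + b i := by exact_mod_cast hi
    have hj' : ((p : ℕ) : ℤ) ∣ (a j : ℤ) * m + b j := by exact_mod_cast hj
    have : (a i : ℤ) * b j - a j * b i =
        a i * ((a j : ℤ) * m + b j) - a j * ((a i : ℤ) * m + b i) := by ring
    rw [this]
    exact dvd_sub (Dvd.dvd.mul_left hj' _) (Dvd.dvd.mul_left hi' _))
  have h2 := SumAll_lt p
  omega

theorem XX_eq {k D R : ℕ} {a b : Fin k → ℕ} (h : Forms k D a b) (m : ℕ) (p : PP D R) (i : Fin k) :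
    XX D R a b m p = some i ↔ (p : ℕ) ∣ a i * m + b i := by
  unfold XX
  constructor
  · intro hx
    split_ifs at hx with h1
    have h2 := h1.choose_spec
    have h3 : h1.choose = i := Option.some.inj hx
    rw [h3] at h2
    exact h2
  · intro hd
    have h1 : ∃ i, (p : ℕ) ∣ a i * m + b i := ⟨i, hd⟩
    rw [dif_pos h1]
    exact congrArg some (SumAll_unique h m p h1.choose_spec hd)

theorem SumAll_ind {k : ℕ} (X a : Option (Fin k)) :
    ind X a = if a = none ∨ X = a then (1 : ℝ) else 0 := by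
  cases a with
  | none => simp [ind]
  | some i => simp [ind]

theorem SumAll_prod_ind {k D R : ℕ} (X d e : Cfg k D R) :
    (∏ p : PP D R, ind (X p) (d p)) * (∏ p : PP D R, ind (X p) (e p)) =
      if ∀ p : PP D R, (d p = none ∨ X p = d p) ∧ (e p = none ∨ X p = e p) then (1 : ℝ) else 0 := by
  rw [← Finset.prod_mul_distrib]
  have h1 : ∀ p : PP D R, ind (X p) (d p) * ind (X p) (e p) =
      if (d p = none ∨ X p = d p) ∧ (e p = none ∨ X p = e p) then (1 : ℝ) else 0 := by
    intro p
    rw [SumAll_ind, SumAll_ind, ite_and]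
    split_ifs <;> simp
  simp only [h1]
  rw [Finset.prod_ite_zero]
  simp

theorem not_comp {k D R : ℕ} {a b : Fin k → ℕ} (h : Forms k D a b) (d e : Cfg k D R)
    (hde : ¬ Comp d e) (m : ℕ) :
      (∏ p : PP D R, ind (XX D R a b m p) (d p)) * (∏ p : PP D R, ind (XX D R a b m p) (e p)) =
        0 := by
  rw [SumAll_prod_ind, if_neg]
  intro hall
  apply hde
  intro p
  obtain ⟨h1, h2⟩ := hall p
  rcases h1 with h1 | h1
  · exact Or.inl h1
  · rcases h2 with h2 | h2
    · exact Or.inr (Or.inl h2)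
    · exact Or.inr (Or.inr (h1.symm.trans h2))

/-- a root of the form `i` modulo `p` -/
theorem SumAll_root {k D R : ℕ} {a b : Fin k → ℕ} (h : Forms k D a b) (p : PP D R) (i : Fin k) :
    ∃ c : ℕ, ∀ m : ℕ, (p : ℕ) ∣ a i * m + b i ↔ m ≡ c [MOD p] := by
  have hp := SumAll_prime p
  have hpa : ¬ (p : ℕ) ∣ a i := by
    intro hd
    have := (h.small i p hp).1 hd
    have := SumAll_lt p
    omega
  have : Fact (p : ℕ).Prime := ⟨hp⟩
  have ha : ((a i : ℕ) : ZMod p) ≠ 0 := by
    intro h0
    exact hpa ((ZMod.natCast_eq_zero_iff _ _).1 h0)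
  refine ⟨(-(b i : ZMod p) / (a i : ZMod p)).val, fun m => ?_⟩
  rw [← ZMod.natCast_eq_natCast_iff, ZMod.natCast_zmod_val, ← ZMod.natCast_eq_zero_iff]
  push_cast
  constructor
  · intro h1
    field_simp
    linear_combination h1
  · intro h1
    rw [h1]
    field_simp
    ring

/-- the integers `m` with outcomes as prescribed by `d` and `e` form one residue class -/
theorem exists_class {k D R : ℕ} {a b : Fin k → ℕ} (h : Forms k D a b) (d e : Cfg k D R)
    (hde : Comp d e) : ∃ c : ℕ, ∀ m : ℕ,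
      (∏ p : PP D R, ind (XX D R a b m p) (d p)) * (∏ p : PP D R, ind (XX D R a b m p) (e p)) =
        if m ≡ c [MOD tot2 d e] then 1 else 0 := by
  classical
  -- the conditions at `p`
  have hloc : ∀ p : PP D R, ∃ c : ℕ, ∀ m : ℕ,
      ((d p = none ∨ XX D R a b m p = d p) ∧ (e p = none ∨ XX D R a b m p = e p)) ↔
        m ≡ c [MOD (if d p = none ∧ e p = none then 1 else (p : ℕ))] := by
    intro p
    rcases hd : d p with _ | i
    · rcases he : e p with _ | j
      · refine ⟨0, fun m => ?_⟩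
        simp [Nat.modEq_one]
      · obtain ⟨c, hc⟩ := SumAll_root h p j
        refine ⟨c, fun m => ?_⟩
        simp only [true_or, true_and, reduceCtorEq, false_or, and_false, if_false]
        rw [XX_eq h, hc]
    · obtain ⟨c, hc⟩ := SumAll_root h p i
      refine ⟨c, fun m => ?_⟩
      simp only [reduceCtorEq, false_or, false_and, if_false]
      rw [XX_eq h, hc]
      constructor
      · intro h1
        exact h1.1
      · intro h1
        refine ⟨h1, ?_⟩
        rcases hde p with h2 | h2 | h2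
        · rw [hd] at h2; cases h2
        · exact Or.inl h2
        · right
          rw [← h2, hd, XX_eq h, hc]
          exact h1
  choose c hc using hloc
  set s : PP D R → ℕ := fun p => if d p = none ∧ e p = none then 1 else (p : ℕ) with hs
  have hs0 : ∀ p, s p ≠ 0 := by
    intro p
    simp only [hs]
    split_ifs
    · exact one_ne_zero
    · exact (SumAll_prime p).ne_zero
  have hcop : ∀ p q : PP D R, p ≠ q → Nat.Coprime (s p) (s q) := by
    intro p q hpq
    simp only [hs]
    split_ifs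
    · exact Nat.coprime_one_left _
    · exact Nat.coprime_one_left _
    · exact Nat.coprime_one_right _
    · exact (Nat.coprime_primes (SumAll_prime p) (SumAll_prime q)).2 (fun h' => hpq (Subtype.ext h'))
  obtain ⟨C, hC⟩ := Nat.chineseRemainderOfFinset c s (Finset.univ : Finset (PP D R))
    (fun p _ => hs0 p) (fun p _ q _ hpq => hcop p q hpq)
  refine ⟨C, fun m => ?_⟩
  rw [SumAll_prod_ind]
  have hiff : (∀ p : PP D R, (d p = none ∨ XX D R a b m p = d p) ∧
      (e p = none ∨ XX D R a b m p = e p)) ↔ m ≡ C [MOD tot2 d e] := by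
    constructor
    · intro h1
      rw [Nat.modEq_iff_dvd]
      have h2 : ∀ p ∈ (Finset.univ : Finset (PP D R)), ((s p : ℕ) : ℤ) ∣ (C : ℤ) - m := by
        intro p _
        rw [← Nat.modEq_iff_dvd]
        exact ((hc p m).1 (h1 p)).trans (hC p (Finset.mem_univ _)).symm
      have h3 := Finset.prod_dvd_of_coprime (s := fun p => ((s p : ℕ) : ℤ)) (z := (C : ℤ) - m)
        (t := (Finset.univ : Finset (PP D R)))
        (fun p _ q _ hpq => (Nat.isCoprime_iff_coprime.2 (hcop p q hpq))) h2
      have h4 : ((tot2 d e : ℕ) : ℤ) = ∏ p : PP D R, ((s p : ℕ) : ℤ) := by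
        unfold tot2
        push_cast
        apply Finset.prod_congr rfl
        intro p _
        simp only [hs]
        split_ifs <;> simp
      rw [h4]
      exact h3
    · intro h1 p
      rw [hc p m]
      have h2 : s p ∣ tot2 d e := by
        unfold tot2
        exact Finset.dvd_prod_of_mem s (Finset.mem_univ p)
      exact (h1.of_dvd h2).trans (hC p (Finset.mem_univ _))
  by_cases hh : ∀ p : PP D R, (d p = none ∨ XX D R a b m p = d p) ∧
      (e p = none ∨ XX D R a b m p = e p)
  · rw [if_pos hh, if_pos (hiff.1 hh)]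
  · rw [if_neg hh, if_neg (fun h' => hh (hiff.2 h'))]

theorem SumAll_tot2_pos {k D R : ℕ} (d e : Cfg k D R) : 0 < tot2 d e := by
  unfold tot2
  apply Finset.prod_pos
  intro p _
  split_ifs
  · exact Nat.one_pos
  · exact (SumAll_prime p).pos

/-- the number of integers of one class in `(N, 2N]` -/
theorem SumAll_count (N c q : ℕ) (hq : 0 < q) :
    |(∑ m ∈ Ioc N (2 * N), if m ≡ c [MOD q] then (1 : ℝ) else 0) - (N : ℝ) / q| ≤ 1 := by
  have h1 : (∑ m ∈ Ioc N (2 * N), if m ≡ c [MOD q] then (1 : ℝ) else 0) =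
      (((Ioc N (2 * N)).filter (fun m => m ≡ c [MOD q])).card : ℝ) := by
    rw [Finset.sum_boole]
  rw [h1]
  have h2 := Nat.Ioc_filter_modEq_card N (2 * N) hq c
  have h2' : ((((Ioc N (2 * N)).filter (fun m => m ≡ c [MOD q])).card : ℤ) : ℝ) =
      ((max (⌊(((2 * N : ℕ) : ℚ) - c) / q⌋ - ⌊((N : ℚ) - c) / q⌋) 0 : ℤ) : ℝ) := by
    exact_mod_cast congrArg (fun z : ℤ => (z : ℝ)) h2
  have h3 : ((((Ioc N (2 * N)).filter (fun m => m ≡ c [MOD q])).card : ℤ) : ℝ) =
      (((Ioc N (2 * N)).filter (fun m => m ≡ c [MOD q])).card : ℝ) := by push_cast; rfl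
  rw [← h3, h2']
  have hq' : (0 : ℚ) < q := by exact_mod_cast hq
  have hmono : ⌊((N : ℚ) - c) / q⌋ ≤ ⌊(((2 * N : ℕ) : ℚ) - c) / q⌋ := by
    apply Int.floor_le_floor
    apply div_le_div_of_nonneg_right _ hq'.le
    push_cast
    have : (0 : ℚ) ≤ N := Nat.cast_nonneg _
    linarith
  rw [max_eq_left (by omega)]
  have e1 := Int.floor_le ((((2 * N : ℕ) : ℚ) - c) / q)
  have e2 := Int.lt_floor_add_one ((((2 * N : ℕ) : ℚ) - c) / q)
  have e3 := Int.floor_le (((N : ℚ) - c) / q)
  have e4 := Int.lt_floor_add_one (((N : ℚ) - c) / q)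
  have e5 : (((2 * N : ℕ) : ℚ) - c) / q - ((N : ℚ) - c) / q = N / q := by
    push_cast
    field_simp
    ring
  have e6 : |((⌊(((2 * N : ℕ) : ℚ) - c) / q⌋ - ⌊((N : ℚ) - c) / q⌋ : ℤ) : ℚ) - (N : ℚ) / q| ≤ 1 := by
    push_cast
    push_cast at e1 e2 e3 e4 e5
    rw [abs_le]
    constructor <;> linarith
  generalize (⌊(((2 * N : ℕ) : ℚ) - c) / q⌋ - ⌊((N : ℚ) - c) / q⌋ : ℤ) = K at e6 ⊢
  have e7 : ((|(K : ℚ) - (N : ℚ) / q| : ℚ) : ℝ) ≤ ((1 : ℚ) : ℝ) := Rat.cast_le.2 e6
  push_cast at e7
  exact e7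

/-- the expectation of the product of two indicators at `p` -/
theorem SumAll_mass {k : ℕ} (p : ℕ) (d e : Option (Fin k)) :
    ∑ x : Option (Fin k), mass k p x * ind x d * ind x e =
      if d = none ∨ e = none ∨ d = e then (if d = none ∧ e = none then 1 else 1 / (p : ℝ)) else 0 := by
  rw [Fintype.sum_option]
  rcases d with _ | i
  · rcases e with _ | j
    · simp [mass, ind]
      ring
    · simp [mass, ind]
  · rcases e with _ | j
    · simp [mass, ind]
    · simp only [ind, reduceCtorEq, if_false, mul_zero, zero_add, false_or, false_and,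
        Option.some.injEq, mul_ite, mul_one]
      by_cases hij : i = j
      · subst hij
        simp [mass]
      · rw [if_neg hij]
        apply Finset.sum_eq_zero
        intro x _
        by_cases h1 : x = j
        · subst h1
          rw [if_pos rfl, if_neg (fun h' => hij h'.symm)]
        · rw [if_neg h1]

theorem SumAll_expect {k D R : ℕ} (d e : Cfg k D R) :
    ∑ X : Cfg k D R, (∏ p : PP D R, mass k p (X p)) *
      ((∏ p : PP D R, ind (X p) (d p)) * (∏ p : PP D R, ind (X p) (e p))) =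
      ∏ p : PP D R, ∑ x : Option (Fin k), mass k p x * ind x (d p) * ind x (e p) := by
  rw [Finset.prod_univ_sum, Fintype.piFinset_univ]
  apply Finset.sum_congr rfl
  intro X _
  rw [← Finset.prod_mul_distrib, ← Finset.prod_mul_distrib]
  apply Finset.prod_congr rfl
  intro p _
  ring

theorem SumAll_expect_comp {k D R : ℕ} (d e : Cfg k D R) (hde : Comp d e) :
    ∑ X : Cfg k D R, (∏ p : PP D R, mass k p (X p)) *
      ((∏ p : PP D R, ind (X p) (d p)) * (∏ p : PP D R, ind (X p) (e p))) =
      1 / (tot2 d e : ℝ) := by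
  rw [SumAll_expect]
  unfold tot2
  push_cast
  rw [one_div, ← Finset.prod_inv_distrib]
  apply Finset.prod_congr rfl
  intro p _
  rw [SumAll_mass, if_pos (hde p)]
  split_ifs <;> simp

theorem SumAll_expect_not_comp {k D R : ℕ} (d e : Cfg k D R) (hde : ¬ Comp d e) :
    ∑ X : Cfg k D R, (∏ p : PP D R, mass k p (X p)) *
      ((∏ p : PP D R, ind (X p) (d p)) * (∏ p : PP D R, ind (X p) (e p))) = 0 := by
  rw [SumAll_expect]
  unfold Comp at hde
  push Not at hde
  obtain ⟨p, h1, h2, h3⟩ := hde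
  apply Finset.prod_eq_zero (Finset.mem_univ p)
  rw [SumAll_mass, if_neg]
  rintro (h | h | h)
  · exact h1 h
  · exact h2 h
  · exact h3 h

theorem sum_all {k D R : ℕ} {a b : Fin k → ℕ} (h : Forms k D a b) (z : Cfg k D R → ℝ) (N : ℕ) :
    ∑ m ∈ Ioc N (2 * N), ft z (XX D R a b m) ^ 2 ≤
      N * ∑ X : Cfg k D R, (∏ p : PP D R, mass k p (X p)) * ft z X ^ 2 +
        (∑ d : Cfg k D R, |lam z d|) ^ 2 := by
  classical
  have hsq : ∀ X : Cfg k D R, ft z X ^ 2 = ∑ d : Cfg k D R, ∑ e : Cfg k D R,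
      lam z d * lam z e *
        ((∏ p : PP D R, ind (X p) (d p)) * (∏ p : PP D R, ind (X p) (e p))) := by
    intro X
    rw [ft_eq, sq, Finset.sum_mul_sum]
    apply Finset.sum_congr rfl
    intro d _
    apply Finset.sum_congr rfl
    intro e _
    ring
  have hL : ∑ m ∈ Ioc N (2 * N), ft z (XX D R a b m) ^ 2 =
      ∑ d : Cfg k D R, ∑ e : Cfg k D R, lam z d * lam z e *
        ∑ m ∈ Ioc N (2 * N), ((∏ p : PP D R, ind (XX D R a b m p) (d p)) *
          (∏ p : PP D R, ind (XX D R a b m p) (e p))) := by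
    simp only [hsq]
    rw [Finset.sum_comm]
    apply Finset.sum_congr rfl
    intro d _
    rw [Finset.sum_comm]
    apply Finset.sum_congr rfl
    intro e _
    rw [Finset.mul_sum]
  have hE : ∑ X : Cfg k D R, (∏ p : PP D R, mass k p (X p)) * ft z X ^ 2 =
      ∑ d : Cfg k D R, ∑ e : Cfg k D R, lam z d * lam z e *
        ∑ X : Cfg k D R, (∏ p : PP D R, mass k p (X p)) *
          ((∏ p : PP D R, ind (X p) (d p)) * (∏ p : PP D R, ind (X p) (e p))) := by
    simp only [hsq, Finset.mul_sum]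
    rw [Finset.sum_comm]
    apply Finset.sum_congr rfl
    intro d _
    rw [Finset.sum_comm]
    apply Finset.sum_congr rfl
    intro e _
    apply Finset.sum_congr rfl
    intro X _
    ring
  rw [hL, hE, sq, Finset.sum_mul_sum, Finset.mul_sum, ← Finset.sum_add_distrib]
  apply Finset.sum_le_sum
  intro d _
  rw [Finset.mul_sum, ← Finset.sum_add_distrib]
  apply Finset.sum_le_sum
  intro e _
  by_cases hde : Comp d e
  · obtain ⟨c, hc⟩ := exists_class h d e hde
    rw [SumAll_expect_comp d e hde]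
    simp only [hc]
    have h1 := SumAll_count N c (tot2 d e) (SumAll_tot2_pos d e)
    set S := ∑ m ∈ Ioc N (2 * N), if m ≡ c [MOD tot2 d e] then (1 : ℝ) else 0 with hS
    have h2 : lam z d * lam z e * (S - (N : ℝ) / (tot2 d e)) ≤ |lam z d| * |lam z e| := by
      calc lam z d * lam z e * (S - (N : ℝ) / (tot2 d e))
          ≤ |lam z d * lam z e * (S - (N : ℝ) / (tot2 d e))| := le_abs_self _
        _ = |lam z d| * |lam z e| * |S - (N : ℝ) / (tot2 d e)| := by rw [abs_mul, abs_mul]
        _ ≤ |lam z d| * |lam z e| * 1 := by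
            apply mul_le_mul_of_nonneg_left h1 (by positivity)
        _ = |lam z d| * |lam z e| := mul_one _
    have h3 : lam z d * lam z e * (S - (N : ℝ) / (tot2 d e)) =
        lam z d * lam z e * S - N * (lam z d * lam z e * (1 / (tot2 d e : ℝ))) := by ring
    linarith
  · rw [SumAll_expect_not_comp d e hde]
    have h1 : ∑ m ∈ Ioc N (2 * N), ((∏ p : PP D R, ind (XX D R a b m p) (d p)) *
          (∏ p : PP D R, ind (XX D R a b m p) (e p))) = 0 :=
      Finset.sum_eq_zero (fun m _ => not_comp h d e hde m)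
    rw [h1, mul_zero, mul_zero, zero_add]
    positivity

end Pool.Agent.MT
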