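import Pool.Agent.Work.MT.Lambda
import Pool.Agent.Work.MT.SumAll

/-! # the sieve weights are small: `|ft| ≤ N^ε` -/

namespace Pool.Agent.MT

open Finset Filter

/-- `2^ω(n) ≤ C n^ε` -/
lemma Small_omega (ε : ℝ) (hε : 0 < ε) : ∃ C : ℝ, 1 ≤ C ∧ ∀ n : ℕ, 1 ≤ n →
    (2 : ℝ) ^ n.primeFactors.card ≤ C * (n : ℝ) ^ ε := by
  set P : ℕ := ⌈(2 : ℝ) ^ (1 / ε)⌉₊ with hP
  refine ⟨2 ^ (P + 1), one_le_pow₀ (by norm_num), fun n hn => ?_⟩
  have hn0 : n ≠ 0 := by omega
  have h1 : (2 : ℝ) ^ n.primeFactors.card = ∏ p ∈ n.primeFactors, (2 : ℝ) := by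
    rw [prod_const]
  have h2 : ∏ p ∈ n.primeFactors, (2 : ℝ) ≤
      ∏ p ∈ n.primeFactors, ((if p ≤ P then 2 else 1) * (p : ℝ) ^ ε) := by
    refine prod_le_prod (fun _ _ => by norm_num) fun p hp => ?_
    have hp2 := (Nat.prime_of_mem_primeFactors hp).two_le
    have hp1 : (1 : ℝ) ≤ p := by exact_mod_cast (by omega : 1 ≤ p)
    split_ifs with h
    · have : 1 ≤ (p : ℝ) ^ ε := Real.one_le_rpow hp1 hε.le
      linarith
    · rw [one_mul]
      have h3 : (2 : ℝ) ^ (1 / ε) ≤ p := by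
        refine (Nat.le_ceil _).trans ?_
        exact_mod_cast (by omega : P ≤ p)
      calc (2 : ℝ) = ((2 : ℝ) ^ (1 / ε)) ^ ε := by
            rw [← Real.rpow_mul (by norm_num), one_div, inv_mul_cancel₀ hε.ne', Real.rpow_one]
        _ ≤ (p : ℝ) ^ ε := Real.rpow_le_rpow (by positivity) h3 hε.le
  have h3 : ∏ p ∈ n.primeFactors, (if p ≤ P then (2 : ℝ) else 1) ≤ 2 ^ (P + 1) := by
    rw [← prod_filter, prod_const]
    refine pow_le_pow_right₀ (by norm_num) ?_
    calc _ ≤ (range (P + 1)).card := card_le_card fun p hp => by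
          rw [mem_filter] at hp
          exact mem_range.2 (by omega)
      _ = P + 1 := card_range _
  have h4 : ∏ p ∈ n.primeFactors, (p : ℝ) ^ ε ≤ (n : ℝ) ^ ε := by
    rw [Real.finsetProd_rpow _ _ (fun p _ => Nat.cast_nonneg p)]
    refine Real.rpow_le_rpow (prod_nonneg fun p _ => Nat.cast_nonneg p) ?_ hε.le
    have := Nat.le_of_dvd (by omega) (Nat.prod_primeFactors_dvd n)
    rw [← Nat.cast_prod]
    exact_mod_cast this
  rw [h1]
  refine h2.trans ?_
  rw [prod_mul_distrib]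
  exact mul_le_mul h3 h4 (prod_nonneg fun p _ => by positivity) (by positivity)

/-- `|ft|` in terms of the number of labelled primes -/
lemma Small_ft {k D R : ℕ} {z : Cfg k D R → ℝ} {L : ℝ} (hL : ∀ d, |lam z d| ≤ L)
    (X : Cfg k D R) :
    |ft z X| ≤ L * 2 ^ (univ.filter (fun p : PP D R => X p ≠ none)).card := by
  classical
  have hL0 : 0 ≤ L := (abs_nonneg _).trans (hL (fun _ => none))
  have hind : ∀ (Y c : Option (Fin k)), 0 ≤ ind Y c := by
    intro Y c
    cases c with
    | none => simp [ind]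
    | some i => simp only [ind]; split_ifs <;> norm_num
  rw [ft_eq]
  refine (abs_sum_le_sum_abs _ _).trans ?_
  have h1 : ∀ d : Cfg k D R, |lam z d * ∏ p : PP D R, ind (X p) (d p)| ≤
      L * ∏ p : PP D R, ind (X p) (d p) := by
    intro d
    have h0 : 0 ≤ ∏ p : PP D R, ind (X p) (d p) := prod_nonneg fun p _ => hind _ _
    rw [abs_mul, abs_of_nonneg h0]
    exact mul_le_mul_of_nonneg_right (hL d) h0
  refine (sum_le_sum fun d _ => h1 d).trans ?_
  rw [← mul_sum]
  refine mul_le_mul_of_nonneg_left ?_ hL0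
  have h2 : ∑ d : Cfg k D R, ∏ p : PP D R, ind (X p) (d p) =
      ∏ p : PP D R, ∑ c : Option (Fin k), ind (X p) c := by
    rw [prod_univ_sum, Fintype.piFinset_univ]
  rw [h2, ← prod_const, prod_filter]
  refine prod_le_prod (fun p _ => sum_nonneg fun c _ => hind _ _) fun p _ => ?_
  rw [Fintype.sum_option]
  rcases hX : X p with _ | i
  · simp [ind]
  · simp only [ind, Option.some.injEq, sum_ite_eq, mem_univ, if_true]
    simp
    norm_num

/-- the weights at the integers -/
lemma Small_XX {k D R : ℕ} {a b : Fin k → ℕ} {z : Cfg k D R → ℝ} {L : ℝ}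
    (hL : ∀ d, |lam z d| ≤ L) {N m : ℕ} (hm : ∀ i, 1 ≤ a i * m + b i)
    (hN : ∀ i, a i * m + b i ≤ N) {C ε : ℝ} (hε : 0 < ε) (hC : 1 ≤ C)
    (hω : ∀ n : ℕ, 1 ≤ n → (2 : ℝ) ^ n.primeFactors.card ≤ C * (n : ℝ) ^ ε) :
    |ft z (XX D R a b m)| ≤ L * (C * (N : ℝ) ^ ε) ^ k := by
  classical
  have hL0 : 0 ≤ L := (abs_nonneg _).trans (hL (fun _ => none))
  refine (Small_ft hL _).trans (mul_le_mul_of_nonneg_left ?_ hL0)
  have h1 : (univ.filter (fun p : PP D R => XX D R a b m p ≠ none)).card ≤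
      ∑ i, (a i * m + b i).primeFactors.card := by
    calc (univ.filter (fun p : PP D R => XX D R a b m p ≠ none)).card
        = ((univ.filter (fun p : PP D R => XX D R a b m p ≠ none)).image
            (fun p : PP D R => (p : ℕ))).card :=
          (card_image_of_injective _ Subtype.val_injective).symm
      _ ≤ (univ.biUnion fun i => (a i * m + b i).primeFactors).card := by
          refine card_le_card fun q hq => ?_
          obtain ⟨p, hp, rfl⟩ := mem_image.1 hq
          rw [mem_filter] at hp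
          have hp2 := hp.2
          unfold XX at hp2
          split_ifs at hp2 with h
          · obtain ⟨i, hi⟩ := h
            refine mem_biUnion.2 ⟨i, mem_univ _, Nat.mem_primeFactors.2
              ⟨(mem_filter.1 p.2).2, hi, ?_⟩⟩
            have := hm i
            omega
          · exact (hp2 rfl).elim
      _ ≤ _ := card_biUnion_le
  calc (2 : ℝ) ^ (univ.filter (fun p : PP D R => XX D R a b m p ≠ none)).card
      ≤ 2 ^ ∑ i, (a i * m + b i).primeFactors.card := pow_le_pow_right₀ (by norm_num) h1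
    _ = ∏ i, (2 : ℝ) ^ (a i * m + b i).primeFactors.card := by rw [prod_pow_eq_pow_sum]
    _ ≤ ∏ _i : Fin k, (C * (N : ℝ) ^ ε) := by
        refine prod_le_prod (fun _ _ => by positivity) fun i _ => (hω _ (hm i)).trans ?_
        have h2 : ((a i * m + b i : ℕ) : ℝ) ≤ N := by exact_mod_cast hN i
        have := Real.rpow_le_rpow (Nat.cast_nonneg _) h2 hε.le
        gcongr
    _ = (C * (N : ℝ) ^ ε) ^ k := by simp

end Pool.Agent.MT
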