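import Pool.Agent.Work.MT.MainA
import Pool.Agent.Work.MT.Small

/-! # Maynard-Tao -/

namespace Pool.Agent.MT

open Finset Filter

/-- the final comparison -/
lemma Main_cmp {k r : ℕ} {N c κ lR lN i1 i2 Rr L T S : ℝ} (hk : 1 ≤ k) (hN : 3 ≤ N) (hκ : 0 < κ)
    (hi2 : 1 ≤ i2) (hcN : c ≤ lN) (hlN : 2 < lN) (hlR : lN / 6 ≤ lR)
    (hcell : 96 * (r + 1) * κ * lR * i2 ≤ k * i1 ^ 2)
    (hT : k * (N / (8 * κ) * (i1 ^ 2 * i2 ^ (k - 1))) - c * N ≤ T)
    (hTS : T ≤ 2 * r * lN * S + N) (hS : S ≤ N * i2 ^ k + (Rr ^ 2 * L) ^ 2)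
    (hR : 2 * r * lN * (Rr ^ 2 * L) ^ 2 ≤ N) : False := by
  have hik : i2 ^ k = i2 * i2 ^ (k - 1) := by
    rw [← pow_succ']
    congr 1
    omega
  have hi2p : 1 ≤ i2 ^ (k - 1) := one_le_pow₀ hi2
  have hi2k : 1 ≤ i2 ^ k := one_le_pow₀ hi2
  have hN0 : 0 < N := by linarith
  have hr0 : (0 : ℝ) ≤ r := Nat.cast_nonneg _
  have h1 : 2 * (r + 1) * N * lN * i2 ^ k ≤ k * (N / (8 * κ) * (i1 ^ 2 * i2 ^ (k - 1))) := by
    have e1 : k * (N / (8 * κ) * (i1 ^ 2 * i2 ^ (k - 1))) =
        N / (8 * κ) * i2 ^ (k - 1) * (k * i1 ^ 2) := by ring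
    rw [e1]
    calc 2 * (r + 1) * N * lN * i2 ^ k
        ≤ 2 * (r + 1) * N * (6 * lR) * i2 ^ k := by gcongr; linarith
      _ = N / (8 * κ) * i2 ^ (k - 1) * (96 * (r + 1) * κ * lR * i2) := by
          rw [hik]; field_simp; ring
      _ ≤ _ := by gcongr
  have h2 : 2 * r * lN * S ≤ 2 * r * lN * (N * i2 ^ k) + N := by
    calc 2 * r * lN * S ≤ 2 * r * lN * (N * i2 ^ k + (Rr ^ 2 * L) ^ 2) := by gcongr
      _ = 2 * r * lN * (N * i2 ^ k) + 2 * r * lN * (Rr ^ 2 * L) ^ 2 := by ring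
      _ ≤ _ := by linarith
  have h3 : 2 * N * lN * i2 ^ k ≤ c * N + 2 * N := by nlinarith
  have h4 : N * lN ≤ N * lN * i2 ^ k := le_mul_of_one_le_right (by positivity) hi2k
  nlinarith

/-- **Maynard-Tao**, uniformly in the constant coefficients `b i ≤ C₀ N`, with a lower bound for the
number of values: for every `r` there is a `k` such that among `k` linear forms in general position
(all primes `≤ D` divide the leading coefficients) at least `r` are prime for at least `N^(1-ε)` of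
the `m` in `(N, 2 N]` -/
theorem maynard_count (r : ℕ) : ∃ k : ℕ, 2 ≤ k ∧ ∃ D₁ : ℕ, ∀ (D : ℕ) (a : Fin k → ℕ) (C₀ : ℕ) (ε : ℝ),
    D₁ ≤ D → 0 < ε → ∃ N₀ : ℕ, ∀ N : ℕ, N₀ ≤ N → ∀ b : Fin k → ℕ, Forms k D a b →
      (∀ i, b i ≤ C₀ * N) → (N : ℝ) ^ (1 - ε) ≤
        ((Ioc N (2 * N)).filter (fun m =>
          r ≤ (univ.filter (fun i => (a i * m + b i).Prime)).card)).card := by
  obtain ⟨k, hk, hc⟩ := cells (96 * (r + 1))
  refine ⟨k, hk, 100 * k ^ 2, fun D a C₀ ε hD hε => ?_⟩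
  by_cases hapos : ∀ i, 0 < a i
  swap
  · exact ⟨0, fun N _ b h _ => (hapos h.pos).elim⟩
  obtain ⟨R₀, hR₀⟩ := hc D
  have hk1 : 1 ≤ k := by omega
  have hk4 : k ≤ D := by nlinarith
  have hD1 : 1 ≤ D := by omega
  choose C hC hE using fun i => Main_err ((k + 1) ^ 2) (2 * k) (a i) (hapos i)
  set c : ℝ := ∑ i, C i * (2 * a i + C₀) with hcdef
  have hc0 : 0 ≤ c := sum_nonneg fun i _ => mul_nonneg (hC i).le (by positivity)
  have hκ := Main_kap_pos D
  -- limits
  have tl : Tendsto (fun N : ℕ => Real.log N) atTop atTop :=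
    Real.tendsto_log_atTop.comp tendsto_natCast_atTop_atTop
  have tp : ∀ s : ℝ, 0 < s → Tendsto (fun N : ℕ => (N : ℝ) ^ s) atTop atTop := fun s hs =>
    (tendsto_rpow_atTop hs).comp tendsto_natCast_atTop_atTop
  have hlp : ∀ᶠ N : ℕ in atTop, 2 * r * (Real.log N) ^ (2 * k + 1) ≤ (N : ℝ) ^ (1 / 5 : ℝ) := by
    have h1 := (isLittleO_log_rpow_rpow_atTop ((2 * k + 1 : ℕ) : ℝ)
      (show (0 : ℝ) < 1 / 5 by norm_num)).comp_tendsto tendsto_natCast_atTop_atTop
    have h2 := h1.bound (show (0 : ℝ) < 1 / (2 * r + 1) by positivity)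
    filter_upwards [h2, tl.eventually_ge_atTop 0] with N hN hN0
    simp only [Function.comp_apply, Real.norm_eq_abs, Real.rpow_natCast] at hN
    rw [abs_of_nonneg (by positivity), abs_of_nonneg (by positivity), div_mul_eq_mul_div,
      le_div_iff₀ (by positivity), one_mul] at hN
    have : 0 ≤ Real.log N ^ (2 * k + 1) := by positivity
    nlinarith
  have hk0 : (0 : ℝ) < k := by exact_mod_cast (by omega : 0 < k)
  obtain ⟨Cω, hCω1, hω⟩ := Small_omega (ε / (8 * k)) (by positivity)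
  have hlp2 : ∀ᶠ N : ℕ in atTop, 2 * k * (Real.log N * (Real.log N ^ k * Cω ^ k) ^ 2) ≤
      (N : ℝ) ^ (ε / 2) := by
    have h1 := (isLittleO_log_rpow_rpow_atTop ((2 * k + 1 : ℕ) : ℝ)
      (show (0 : ℝ) < ε / 2 by positivity)).comp_tendsto tendsto_natCast_atTop_atTop
    have h2 := h1.bound (show (0 : ℝ) < 1 / (2 * k * (Cω ^ k) ^ 2) by positivity)
    filter_upwards [h2, tl.eventually_ge_atTop 0] with N hN hN0
    simp only [Function.comp_apply, Real.norm_eq_abs, Real.rpow_natCast] at hN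
    rw [abs_of_nonneg (by positivity), abs_of_nonneg (by positivity), div_mul_eq_mul_div,
      le_div_iff₀ (by positivity), one_mul] at hN
    calc 2 * k * (Real.log N * (Real.log N ^ k * Cω ^ k) ^ 2)
        = Real.log N ^ (2 * k + 1) * (2 * k * (Cω ^ k) ^ 2) := by ring
      _ ≤ _ := hN
  have hθ : ∀ᶠ N : ℕ in atTop, ∀ i, ∀ b : ℕ, b ≤ C₀ * N → (a i : ℝ) * N / 2 ≤
      BV.theta (a i * (2 * N) + b) - BV.theta (a i * N + b) :=
    eventually_all.2 fun i => Main_theta (a i) C₀ (hapos i)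
  have hai : ∀ᶠ N : ℕ in atTop, ∀ i, (a i : ℝ) ≤ (N : ℝ) ^ (2 / 45 : ℝ) :=
    eventually_all.2 fun i => (tp (2 / 45) (by norm_num)).eventually_ge_atTop _
  have hbig : ∀ᶠ N : ℕ in atTop, ∀ i, 2 * a i + C₀ ≤ N :=
    eventually_all.2 fun i => eventually_ge_atTop _
  have key : ∀ᶠ N : ℕ in atTop, ∀ b : Fin k → ℕ, Forms k D a b → (∀ i, b i ≤ C₀ * N) →
      (N : ℝ) ^ (1 - ε) ≤ ((Ioc N (2 * N)).filter (fun m =>
          r ≤ (univ.filter (fun i => (a i * m + b i).Prime)).card)).card := by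
    filter_upwards [hlp, hlp2, hθ, hai, hbig, eventually_ge_atTop 3, tl.eventually_ge_atTop c,
      tl.eventually_ge_atTop 3, (tp (1 / 5) (by norm_num)).eventually_ge_atTop (R₀ + 1),
      (tp (1 / 30) (by norm_num)).eventually_ge_atTop 2] with N hlp hlp2 hθ hai hbig hN3 hNc hN2 hNR hN30
    intro b h hbN
    by_contra hcon
    rw [not_le] at hcon
    set V : Finset ℕ := (Ioc N (2 * N)).filter (fun m =>
      r ≤ (univ.filter (fun i => (a i * m + b i).Prime)).card) with hV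
    have hN3' : (3 : ℝ) ≤ N := by exact_mod_cast hN3
    have hN1 : (1 : ℝ) ≤ N := by linarith
    have hN0 : (0 : ℝ) < N := by linarith
    set R : ℕ := ⌊(N : ℝ) ^ (1 / 5 : ℝ)⌋₊ with hR
    have hRle : (R : ℝ) ≤ (N : ℝ) ^ (1 / 5 : ℝ) := Nat.floor_le (by positivity)
    have hRge : (N : ℝ) ^ (1 / 5 : ℝ) - 1 ≤ R := by
      have := Nat.lt_floor_add_one ((N : ℝ) ^ (1 / 5 : ℝ))
      rw [← hR] at this
      linarith
    have hRR₀ : R₀ ≤ R := by
      have : (R₀ : ℝ) ≤ R := by linarith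
      exact_mod_cast this
    have h16 : 1 ≤ (N : ℝ) ^ (1 / 6 : ℝ) := Real.one_le_rpow hN1 (by norm_num)
    have h15 : (N : ℝ) ^ (1 / 5 : ℝ) = (N : ℝ) ^ (1 / 6 : ℝ) * (N : ℝ) ^ (1 / 30 : ℝ) := by
      rw [← Real.rpow_add hN0]; norm_num
    have hR16 : (N : ℝ) ^ (1 / 6 : ℝ) ≤ R := by nlinarith
    have hR1' : (1 : ℝ) ≤ R := h16.trans hR16
    have hR1 : 1 ≤ R := by exact_mod_cast hR1'
    have hlR : Real.log N / 6 ≤ Real.log R := by
      have := Real.log_le_log (by positivity) hR16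
      rw [Real.log_rpow hN0] at this
      linarith
    have hlR2 : Real.log R ≤ Real.log N / 5 := by
      have := Real.log_le_log (by linarith) hRle
      rw [Real.log_rpow hN0] at this
      linarith
    have hlR0 : 0 ≤ Real.log R := Real.log_nonneg hR1'
    have hRN : R ≤ N := by
      have : (R : ℝ) ≤ N := hRle.trans (by
        calc (N : ℝ) ^ (1 / 5 : ℝ) ≤ (N : ℝ) ^ (1 : ℝ) :=
              Real.rpow_le_rpow_of_exponent_le hN1 (by norm_num)
          _ = N := Real.rpow_one _)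
      exact_mod_cast this
    obtain ⟨G, bb, hG, hI2, hI3, hcell⟩ := hR₀ R hRR₀
    set z : Cfg k D R → ℝ := zz (FF G bb) with hz
    have hbdd : Bdd z := bdd_zz hG hR1
    set L : ℝ := (1 + Real.log R) ^ k with hL
    have hL0 : 0 ≤ L := by positivity
    have hLle : L ≤ Real.log N ^ k := pow_le_pow_left₀ (by linarith) (by linarith) k
    -- the two sums
    set S : ℝ := ∑ m ∈ Ioc N (2 * N), ft z (XX D R a b m) ^ 2 with hS
    set T : ℝ := ∑ i, ∑ m ∈ Ioc N (2 * N), th (a i * m + b i) * ft z (XX D R a b m) ^ 2 with hT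
    have hI20 : 0 < I2 D R G := by linarith
    have hSle : S ≤ N * I2 D R G ^ k + ((R : ℝ) ^ 2 * L) ^ 2 := by
      refine (sum_all h z N).trans ?_
      have h1 := (E_upper hk4 z).trans (upper_sum hD1 hG)
      have h2 := sum_lam_le hR1 hbdd
      have h3 : 0 ≤ ∑ d : Cfg k D R, |lam z d| := sum_nonneg fun _ _ => abs_nonneg _
      gcongr
    have hbd : ∀ m ∈ Ioc N (2 * N), ∀ i, a i * m + b i ≤ N ^ 2 := by
      intro m hm i
      have hmle := (mem_Ioc.1 hm).2
      have h7 := hbig i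
      have h8 := hbN i
      nlinarith [Nat.mul_le_mul_left (a i) hmle, Nat.mul_le_mul_right N h7]
    have hth : ∀ m ∈ Ioc N (2 * N), ∑ i, th (a i * m + b i) ≤
        ((univ.filter (fun i => (a i * m + b i).Prime)).card : ℝ) * (2 * Real.log N) := by
      intro m hm
      have h1 : ∀ i, th (a i * m + b i) ≤ if (a i * m + b i).Prime then 2 * Real.log N else 0 := by
        intro i
        unfold th
        split_ifs with hp
        · have h3 : ((a i * m + b i : ℕ) : ℝ) ≤ (N : ℝ) ^ 2 := by exact_mod_cast hbd m hm i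
          have h4 := Real.log_le_log (by exact_mod_cast hp.pos) h3
          rw [Real.log_pow] at h4
          exact_mod_cast h4
        · exact le_rfl
      refine (sum_le_sum fun i _ => h1 i).trans ?_
      rw [← sum_filter, sum_const, nsmul_eq_mul]
    have hlN0 : 0 ≤ Real.log N := by linarith
    have hft : ∀ m ∈ Ioc N (2 * N), ft z (XX D R a b m) ^ 2 ≤
        (Real.log N ^ k * Cω ^ k) ^ 2 * (N : ℝ) ^ (ε / 2) := by
      intro m hm
      have hm1 : ∀ i, 1 ≤ a i * m + b i := by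
        intro i
        have h9 := h.pos i
        have h10 := (mem_Ioc.1 hm).1
        have : 0 < a i * m := Nat.mul_pos h9 (by omega)
        omega
      have h2 := Small_XX (D := D) (R := R) (lam_le hR1 hbdd) hm1 (hbd m hm)
        (show 0 < ε / (8 * k) by positivity) hCω1 hω
      have h3 : L * (Cω * ((N ^ 2 : ℕ) : ℝ) ^ (ε / (8 * k))) ^ k ≤
          Real.log N ^ k * (Cω * ((N ^ 2 : ℕ) : ℝ) ^ (ε / (8 * k))) ^ k := by gcongr
      have h4 : (((N ^ 2 : ℕ) : ℝ) ^ (ε / (8 * k))) ^ k = (N : ℝ) ^ (ε / 4) := by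
        push_cast
        rw [← Real.rpow_natCast ((N : ℝ)) 2, ← Real.rpow_mul hN0.le,
          ← Real.rpow_natCast (_ ^ _) k, ← Real.rpow_mul hN0.le]
        congr 1
        push_cast
        field_simp
        norm_num
      have h5 : |ft z (XX D R a b m)| ≤ Real.log N ^ k * Cω ^ k * (N : ℝ) ^ (ε / 4) := by
        refine (h2.trans h3).trans (le_of_eq ?_)
        rw [mul_pow, h4]
        ring
      calc ft z (XX D R a b m) ^ 2 = |ft z (XX D R a b m)| ^ 2 := (sq_abs _).symm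
        _ ≤ (Real.log N ^ k * Cω ^ k * (N : ℝ) ^ (ε / 4)) ^ 2 := by gcongr
        _ = (Real.log N ^ k * Cω ^ k) ^ 2 * (N : ℝ) ^ (ε / 2) := by
            rw [mul_pow, ← Real.rpow_natCast (_ ^ (ε / 4)), ← Real.rpow_mul hN0.le]
            congr 2
            push_cast
            ring
    have hTle : T ≤ 2 * r * Real.log N * S + N := by
      have h1 : T ≤ ∑ m ∈ Ioc N (2 * N), (2 * r * Real.log N * ft z (XX D R a b m) ^ 2 +
          if r ≤ (univ.filter (fun i => (a i * m + b i).Prime)).card then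
            2 * k * (Real.log N * ((Real.log N ^ k * Cω ^ k) ^ 2 * (N : ℝ) ^ (ε / 2))) else 0) := by
        rw [hT, sum_comm]
        refine sum_le_sum fun m hm => ?_
        rw [← sum_mul]
        have h2 := hth m hm
        have h3 : 0 ≤ ft z (XX D R a b m) ^ 2 := sq_nonneg _
        split_ifs with hr
        · have h4 : ((univ.filter (fun i => (a i * m + b i).Prime)).card : ℝ) ≤ k := by
            have := card_le_univ (univ.filter (fun i => (a i * m + b i).Prime))
            rw [Fintype.card_fin] at this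
            exact_mod_cast this
          have h5 := hft m hm
          calc (∑ i, th (a i * m + b i)) * ft z (XX D R a b m) ^ 2
              ≤ (k * (2 * Real.log N)) * ft z (XX D R a b m) ^ 2 := by
                refine mul_le_mul_of_nonneg_right (h2.trans ?_) h3
                gcongr
            _ ≤ (k * (2 * Real.log N)) *
                ((Real.log N ^ k * Cω ^ k) ^ 2 * (N : ℝ) ^ (ε / 2)) := by gcongr
            _ = 2 * k * (Real.log N * ((Real.log N ^ k * Cω ^ k) ^ 2 * (N : ℝ) ^ (ε / 2))) := by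
                ring
            _ ≤ _ := le_add_of_nonneg_left (by positivity)
        · have h5 : ((univ.filter (fun i => (a i * m + b i).Prime)).card : ℝ) ≤ r := by
            exact_mod_cast (not_le.1 hr).le
          rw [add_zero]
          refine mul_le_mul_of_nonneg_right (h2.trans ?_) h3
          nlinarith
      refine h1.trans ?_
      rw [sum_add_distrib, ← mul_sum, ← hS, ← sum_filter, sum_const, nsmul_eq_mul, ← hV]
      have h6 : (V.card : ℝ) * (2 * k * (Real.log N *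
          ((Real.log N ^ k * Cω ^ k) ^ 2 * (N : ℝ) ^ (ε / 2)))) ≤ N := by
        calc (V.card : ℝ) * (2 * k * (Real.log N *
              ((Real.log N ^ k * Cω ^ k) ^ 2 * (N : ℝ) ^ (ε / 2))))
            ≤ (N : ℝ) ^ (1 - ε) * (2 * k * (Real.log N *
              ((Real.log N ^ k * Cω ^ k) ^ 2 * (N : ℝ) ^ (ε / 2)))) := by gcongr
          _ = (N : ℝ) ^ (1 - ε) * ((2 * k * (Real.log N *
              (Real.log N ^ k * Cω ^ k) ^ 2)) * (N : ℝ) ^ (ε / 2)) := by ring
          _ ≤ (N : ℝ) ^ (1 - ε) * ((N : ℝ) ^ (ε / 2) * (N : ℝ) ^ (ε / 2)) := by gcongr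
          _ = N := by
              rw [← Real.rpow_add hN0, ← Real.rpow_add hN0]
              rw [show 1 - ε + (ε / 2 + ε / 2) = (1 : ℝ) by ring, Real.rpow_one]
      linarith
    have hTge : k * (N / (8 * kap D) * (I1 D R G ^ 2 * I2 D R G ^ (k - 1))) - c * N ≤ T := by
      have hi : ∀ i ∈ (univ : Finset (Fin k)),
          N / (8 * kap D) * (I1 D R G ^ 2 * I2 D R G ^ (k - 1)) - C i * (2 * a i + C₀) * N ≤
          ∑ m ∈ Ioc N (2 * N), th (a i * m + b i) * ft z (XX D R a b m) ^ 2 := by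
        intro i _
        have hai1 : (1 : ℝ) ≤ a i := by exact_mod_cast h.pos i
        have hx3 : 3 ≤ a i * (2 * N) + b i := by
          have := h.pos i
          nlinarith
        have hxN : (N : ℝ) ≤ ((a i * (2 * N) + b i : ℕ) : ℝ) := by
          push_cast
          nlinarith [Nat.cast_nonneg (α := ℝ) (b i)]
        have hlev : ((a i * R ^ 2 : ℕ) : ℝ) ≤ ((a i * (2 * N) + b i : ℕ) : ℝ) ^ (4 / 9 : ℝ) := by
          have h1 : ((a i * R ^ 2 : ℕ) : ℝ) ≤ (N : ℝ) ^ (2 / 45 : ℝ) * ((N : ℝ) ^ (1 / 5 : ℝ)) ^ 2 := by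
            push_cast
            have := hai i
            gcongr
          refine h1.trans ?_
          have h2 : (N : ℝ) ^ (2 / 45 : ℝ) * ((N : ℝ) ^ (1 / 5 : ℝ)) ^ 2 = (N : ℝ) ^ (4 / 9 : ℝ) := by
            rw [← Real.rpow_natCast, ← Real.rpow_mul hN0.le, ← Real.rpow_add hN0]
            norm_num
          rw [h2]
          exact Real.rpow_le_rpow hN0.le hxN (by norm_num)
        obtain ⟨E₁, E₂, hE₁, hE₂, hsum⟩ := hE i (b i) N (R ^ 2) hx3 hlev
        have h1 := sum_primes h i (lam_le hR1 hbdd) (lam_supp hbdd) hRN hE₁ hE₂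
        refine le_trans ?_ h1
        have hmain := E_main hk1 hD hG hI20 hI3 i
        have h2 : N / (8 * kap D) * (I1 D R G ^ 2 * I2 D R G ^ (k - 1)) ≤
            (BV.theta (a i * (2 * N) + b i) - BV.theta (a i * N + b i)) / (a i).totient *
            (∑ X : Cfg k D R, (∏ p : PP D R, massi i p (X p)) * ft z X ^ 2) := by
          rw [Main_totient h i]
          have h3 : (N : ℝ) / (2 * kap D) ≤
              (BV.theta (a i * (2 * N) + b i) - BV.theta (a i * N + b i)) / (a i * kap D) := by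
            rw [div_le_div_iff₀ (by positivity) (by positivity)]
            have := hθ i (b i) (hbN i)
            have h4 : (N : ℝ) * (a i * kap D) = (a i * N / 2) * (2 * kap D) := by ring
            rw [h4]
            gcongr
          have h5 : 0 ≤ 1 / 4 * I1 D R G ^ 2 * I2 D R G ^ (k - 1) := by positivity
          calc N / (8 * kap D) * (I1 D R G ^ 2 * I2 D R G ^ (k - 1)) =
              N / (2 * kap D) * (1 / 4 * I1 D R G ^ 2 * I2 D R G ^ (k - 1)) := by
                field_simp; ring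
            _ ≤ _ := by
                refine mul_le_mul h3 hmain h5 ?_
                exact le_trans (by positivity) h3
        have h6 : L ^ 2 * ∑ q ∈ (Icc 1 (R ^ 2)).filter (fun q => Squarefree q ∧ (a i).Coprime q),
            (((k + 1) ^ 2 : ℕ) : ℝ) ^ q.primeFactors.card * (E₁ q + E₂ q) ≤
            C i * (2 * a i + C₀) * N := by
          have hlx : Real.log N ≤ Real.log ((a i * (2 * N) + b i : ℕ) : ℝ) :=
            Real.log_le_log hN0 hxN
          have hlN0 : 0 < Real.log N := by linarith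
          calc L ^ 2 * ∑ q ∈ (Icc 1 (R ^ 2)).filter (fun q => Squarefree q ∧ (a i).Coprime q),
                (((k + 1) ^ 2 : ℕ) : ℝ) ^ q.primeFactors.card * (E₁ q + E₂ q)
              ≤ L ^ 2 * (C i * (a i * (2 * N) + b i : ℕ) /
                  (Real.log (a i * (2 * N) + b i : ℕ)) ^ (2 * k)) := by gcongr
            _ ≤ (Real.log N ^ k) ^ 2 * (C i * ((2 * a i + C₀) * N) / (Real.log N) ^ (2 * k)) := by
                have hCi := hC i
                have e1 : ((a i * (2 * N) + b i : ℕ) : ℝ) ≤ (2 * a i + C₀) * N := by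
                  have e2 : (b i : ℝ) ≤ C₀ * N := by exact_mod_cast hbN i
                  push_cast
                  linarith
                gcongr
            _ = C i * (2 * a i + C₀) * N := by
                rw [← pow_mul, mul_comm k 2]
                field_simp
        linarith
      have h7 := sum_le_sum hi
      rw [sum_sub_distrib, sum_const, card_univ, Fintype.card_fin, nsmul_eq_mul, ← sum_mul] at h7
      exact h7
    have hRR : 2 * r * Real.log N * ((R : ℝ) ^ 2 * L) ^ 2 ≤ N := by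
      have hlN0 : 0 < Real.log N := by linarith
      calc 2 * r * Real.log N * ((R : ℝ) ^ 2 * L) ^ 2
          ≤ 2 * r * Real.log N * ((((N : ℝ) ^ (1 / 5 : ℝ)) ^ 2) * Real.log N ^ k) ^ 2 := by gcongr
        _ = (2 * r * Real.log N ^ (2 * k + 1)) * ((N : ℝ) ^ (1 / 5 : ℝ)) ^ 4 := by ring
        _ ≤ (N : ℝ) ^ (1 / 5 : ℝ) * ((N : ℝ) ^ (1 / 5 : ℝ)) ^ 4 := by gcongr
        _ = ((N : ℝ) ^ (1 / 5 : ℝ)) ^ 5 := by ring
        _ = N := by
            rw [← Real.rpow_natCast, ← Real.rpow_mul hN0.le]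
            norm_num
    exact Main_cmp (r := r) hk1 hN3' hκ hI2 hNc (by linarith) hlR hcell hTge hTle hSle hRR
  obtain ⟨N₀, hN₀⟩ := eventually_atTop.1 key
  exact ⟨N₀, fun N hN => hN₀ N hN⟩

/-- **Maynard-Tao**, uniformly in the constant coefficients `b i ≤ C₀ N` -/
theorem maynard_uniform (r : ℕ) : ∃ k : ℕ, 2 ≤ k ∧ ∃ D₁ : ℕ, ∀ (D : ℕ) (a : Fin k → ℕ) (C₀ : ℕ),
    D₁ ≤ D → ∃ N₀ : ℕ, ∀ N : ℕ, N₀ ≤ N → ∀ b : Fin k → ℕ, Forms k D a b →
      (∀ i, b i ≤ C₀ * N) → ∃ m ∈ Ioc N (2 * N),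
        r ≤ (univ.filter (fun i => (a i * m + b i).Prime)).card := by
  obtain ⟨k, hk, D₁, h⟩ := maynard_count r
  refine ⟨k, hk, D₁, fun D a C₀ hD => ?_⟩
  obtain ⟨N₀, hN₀⟩ := h D a C₀ (1 / 2) hD (by norm_num)
  refine ⟨max N₀ 1, fun N hN b hF hb => ?_⟩
  have h1 := hN₀ N (le_trans (le_max_left _ _) hN) b hF hb
  have hN1 : 1 ≤ N := le_trans (le_max_right _ _) hN
  have h2 : (0 : ℝ) < (N : ℝ) ^ (1 - 1 / 2 : ℝ) :=
    Real.rpow_pos_of_pos (by exact_mod_cast hN1) _
  have h3 : 0 < ((Ioc N (2 * N)).filter (fun m =>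
      r ≤ (univ.filter (fun i => (a i * m + b i).Prime)).card)).card := by
    exact_mod_cast h2.trans_le h1
  obtain ⟨m, hm⟩ := card_pos.1 h3
  rw [mem_filter] at hm
  exact ⟨m, hm.1, hm.2⟩

/-- **Maynard-Tao**: for every `r` there is a `k` such that among `k` linear forms in general
position (all primes `≤ D` divide the leading coefficients) at least `r` are prime infinitely often -/
theorem maynard (r : ℕ) : ∃ k : ℕ, 2 ≤ k ∧ ∃ D₁ : ℕ, ∀ (D : ℕ) (a b : Fin k → ℕ), D₁ ≤ D →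
    Forms k D a b → ∃ N₀ : ℕ, ∀ N : ℕ, N₀ ≤ N → ∃ m ∈ Ioc N (2 * N),
      r ≤ (univ.filter (fun i => (a i * m + b i).Prime)).card := by
  obtain ⟨k, hk, D₁, h⟩ := maynard_uniform r
  refine ⟨k, hk, D₁, fun D a b hD hF => ?_⟩
  obtain ⟨N₀, hN₀⟩ := h D a (∑ i, b i) hD
  refine ⟨max N₀ 1, fun N hN => hN₀ N (le_trans (le_max_left _ _) hN) b hF fun i => ?_⟩
  have h1 : 1 ≤ N := le_trans (le_max_right _ _) hN
  have h2 := single_le_sum (f := b) (fun _ _ => Nat.zero_le _) (mem_univ i)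
  nlinarith

end Pool.Agent.MT
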