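import Pool.Agent.Work.MT.SumAll
import Pool.Agent.Work.BV.Primes

/-! # the sum of the weights over the integers where a form is prime -/

namespace Pool.Agent.MT

open Finset

/-- the size of the error for all classes mod `a q`, at `y` -/
def ErrBound (a q y : ℕ) (E : ℝ) : Prop :=
  ∀ c : ℕ, c.Coprime (a * q) → |BV.thetaA (a * q) c y - BV.theta y / (a * q).totient| ≤ E

/-- the expectation of the product of two indicators at `p` -/
theorem SumPrimes_mass {k : ℕ} (i : Fin k) (p : ℕ) (d e : Option (Fin k)) :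
    ∑ x : Option (Fin k), massi i p x * ind x d * ind x e =
      if (d ≠ some i ∧ e ≠ some i) ∧ (d = none ∨ e = none ∨ d = e) then
        (if d = none ∧ e = none then 1 else 1 / ((p : ℝ) - 1)) else 0 := by
  rw [Fintype.sum_option]
  rcases d with _ | j
  · rcases e with _ | l
    · simp only [massi, ind, mul_one, ne_eq, reduceCtorEq, not_false_eq_true, and_self, true_or,
        if_true]
      have h1 : ∀ j : Fin k, (if j = i then (0 : ℝ) else 1 / ((p : ℝ) - 1)) =
          1 / ((p : ℝ) - 1) - (if j = i then 1 / ((p : ℝ) - 1) else 0) := by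
        intro j
        split_ifs <;> ring
      simp only [h1, Finset.sum_sub_distrib, Finset.sum_const, Finset.sum_ite_eq', Finset.mem_univ,
        if_true, Finset.card_univ, Fintype.card_fin, nsmul_eq_mul]
      ring
    · simp only [massi, ind, mul_one, ne_eq, reduceCtorEq, not_false_eq_true, true_and, true_or,
        if_true, and_true, and_false, if_false, mul_zero, zero_add, Option.some.injEq, mul_ite,
        Finset.sum_ite_eq', Finset.mem_univ]
      by_cases hl : l = i
      · simp [hl]
      · simp [hl]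
  · rcases e with _ | l
    · simp only [massi, ind, mul_one, ne_eq, reduceCtorEq, not_false_eq_true, true_or,
        or_true, and_true, if_false, mul_zero, zero_add, Option.some.injEq, mul_ite,
        Finset.sum_ite_eq', Finset.mem_univ, if_true]
      by_cases hl : j = i
      · simp [hl]
      · simp [hl]
    · simp only [massi, ind, ne_eq, reduceCtorEq, false_and, if_false, mul_zero, zero_add,
        Option.some.injEq, mul_ite, mul_one, false_or]
      by_cases hjl : j = l
      · subst hjl
        by_cases hl : j = i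
        · subst hl
          simp only [not_true_eq_false, false_and, if_false]
          apply Finset.sum_eq_zero
          intro x _
          by_cases hx : x = j <;> simp [hx]
        · simp only [hl, not_false_eq_true, and_self, if_true]
          rw [Finset.sum_eq_single j]
          · simp [hl]
          · intro x _ hx
            simp [hx]
          · intro h
            exact absurd (Finset.mem_univ _) h
      · rw [if_neg (by rintro ⟨-, h⟩; exact hjl h)]
        apply Finset.sum_eq_zero
        intro x _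
        by_cases hx : x = l
        · subst hx
          rw [if_pos rfl, if_neg (fun h' => hjl h'.symm)]
        · rw [if_neg hx]

theorem SumPrimes_expect {k D R : ℕ} (i : Fin k) (d e : Cfg k D R) :
    ∑ X : Cfg k D R, (∏ p : PP D R, massi i p (X p)) *
      ((∏ p : PP D R, ind (X p) (d p)) * (∏ p : PP D R, ind (X p) (e p))) =
      ∏ p : PP D R, ∑ x : Option (Fin k), massi i p x * ind x (d p) * ind x (e p) := by
  rw [Finset.prod_univ_sum, Fintype.piFinset_univ]
  apply Finset.sum_congr rfl
  intro X _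
  rw [← Finset.prod_mul_distrib, ← Finset.prod_mul_distrib]
  apply Finset.prod_congr rfl
  intro p _
  ring

/-- the pairs which matter -/
def SumPrimes_ok {k D R : ℕ} (i : Fin k) (d e : Cfg k D R) : Prop :=
  (∀ p, d p ≠ some i ∧ e p ≠ some i) ∧ Comp d e

theorem SumPrimes_totient_aux {D R : ℕ} (f : PP D R → ℕ) (hf : ∀ p, f p = 1 ∨ f p = p)
    (s : Finset (PP D R)) : (∏ p ∈ s, f p).totient = ∏ p ∈ s, (f p).totient := by
  classical
  induction s using Finset.induction_on with
  | empty => simp
  | insert q s hq ih =>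
    rw [Finset.prod_insert hq, Finset.prod_insert hq, Nat.totient_mul, ih]
    apply Nat.Coprime.prod_right
    intro p hp
    have hpq : q ≠ p := fun h => hq (h ▸ hp)
    rcases hf q with h1 | h1
    · rw [h1]; exact Nat.coprime_one_left _
    · rcases hf p with h2 | h2
      · rw [h2]; exact Nat.coprime_one_right _
      · rw [h1, h2]
        exact (Nat.coprime_primes (SumAll_prime q) (SumAll_prime p)).2
          (fun h' => hpq (Subtype.ext h'))

theorem SumPrimes_totient {k D R : ℕ} (d e : Cfg k D R) :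
    ((tot2 d e).totient : ℝ) =
      ∏ p : PP D R, if d p = none ∧ e p = none then (1 : ℝ) else ((p : ℕ) : ℝ) - 1 := by
  unfold tot2
  rw [SumPrimes_totient_aux]
  · push_cast
    apply Finset.prod_congr rfl
    intro p _
    split_ifs
    · simp
    · rw [Nat.totient_prime (SumAll_prime p), Nat.cast_sub (SumAll_prime p).one_le]
      simp
  · intro p
    split_ifs
    · exact Or.inl rfl
    · exact Or.inr rfl

theorem SumPrimes_expect_ok {k D R : ℕ} (i : Fin k) (d e : Cfg k D R)
    (h : SumPrimes_ok i d e) :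
    ∑ X : Cfg k D R, (∏ p : PP D R, massi i p (X p)) *
      ((∏ p : PP D R, ind (X p) (d p)) * (∏ p : PP D R, ind (X p) (e p))) =
      1 / ((tot2 d e).totient : ℝ) := by
  rw [SumPrimes_expect, SumPrimes_totient, one_div, ← Finset.prod_inv_distrib]
  apply Finset.prod_congr rfl
  intro p _
  rw [SumPrimes_mass, if_pos ⟨h.1 p, h.2 p⟩]
  split_ifs <;> simp

theorem SumPrimes_expect_not_ok {k D R : ℕ} (i : Fin k) (d e : Cfg k D R)
    (h : ¬ SumPrimes_ok i d e) :
    ∑ X : Cfg k D R, (∏ p : PP D R, massi i p (X p)) *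
      ((∏ p : PP D R, ind (X p) (d p)) * (∏ p : PP D R, ind (X p) (e p))) = 0 := by
  rw [SumPrimes_expect]
  have : ∃ p, ¬ ((d p ≠ some i ∧ e p ≠ some i) ∧ (d p = none ∨ e p = none ∨ d p = e p)) := by
    by_contra hcon
    apply h
    have hcon' : ∀ p, (d p ≠ some i ∧ e p ≠ some i) ∧ (d p = none ∨ e p = none ∨ d p = e p) := by
      intro p
      by_contra h'
      exact hcon ⟨p, h'⟩
    exact ⟨fun p => (hcon' p).1, fun p => (hcon' p).2⟩
  obtain ⟨p, hp⟩ := this
  apply Finset.prod_eq_zero (Finset.mem_univ p)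
  rw [SumPrimes_mass, if_neg hp]

theorem SumPrimes_dvd {k D R : ℕ} (d e : Cfg k D R) (p : ℕ) (hp : p.Prime) (h : p ∣ tot2 d e) :
    ∃ q : PP D R, (q : ℕ) = p ∧ ¬ (d q = none ∧ e q = none) := by
  unfold tot2 at h
  obtain ⟨q, -, hq⟩ := (Prime.dvd_finsetProd_iff hp.prime _).1 h
  split_ifs at hq with h1
  · exact absurd (Nat.dvd_one.1 hq) hp.ne_one
  · exact ⟨q, ((Nat.prime_dvd_prime_iff_eq hp (SumAll_prime q)).1 hq).symm, h1⟩

theorem SumPrimes_dvd' {k D R : ℕ} (d e : Cfg k D R) (q : PP D R) :
    (q : ℕ) ∣ tot2 d e ↔ ¬ (d q = none ∧ e q = none) := by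
  constructor
  · intro h
    obtain ⟨q', hq', h'⟩ := SumPrimes_dvd d e q (SumAll_prime q) h
    rwa [Subtype.ext hq'] at h'
  · intro h
    unfold tot2
    have := Finset.dvd_prod_of_mem (fun p : PP D R => if d p = none ∧ e p = none then 1
      else (p : ℕ)) (Finset.mem_univ q)
    simpa only [if_neg h] using this

theorem SumPrimes_cop {k D R : ℕ} {a b : Fin k → ℕ} (h : Forms k D a b) (i : Fin k)
    (d e : Cfg k D R) : (a i).Coprime (tot2 d e) := by
  apply Nat.coprime_of_dvd
  intro p hp h1 h2
  obtain ⟨q, hq, -⟩ := SumPrimes_dvd d e p hp h2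
  have h3 := (h.small i p hp).1 h1
  have h4 := SumAll_lt q
  omega

theorem SumPrimes_sqfree {k D R : ℕ} (d e : Cfg k D R) : Squarefree (tot2 d e) := by
  unfold tot2
  apply Finset.squarefree_prod_of_pairwise_isCoprime
  · intro p _ q _ hpq
    have hne : (p : ℕ) ≠ q := fun h' => hpq (Subtype.ext h')
    have := (Nat.coprime_primes (SumAll_prime p) (SumAll_prime q)).2 hne
    simp only [Function.onFun]
    rw [← Nat.coprime_iff_isRelPrime] at *
    split_ifs
    · exact Nat.coprime_one_left _
    · exact Nat.coprime_one_left _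
    · exact Nat.coprime_one_right _
    · exact this
  · intro p _
    split_ifs
    · exact squarefree_one
    · exact (SumAll_prime p).prime.squarefree

theorem SumPrimes_le {k D R : ℕ} (d e : Cfg k D R) : tot2 d e ≤ tot d * tot e := by
  unfold tot2 tot
  rw [← Finset.prod_mul_distrib]
  apply Finset.prod_le_prod' 
  intro p _
  have hp := (SumAll_prime p).one_le
  by_cases h1 : d p = none <;> by_cases h2 : e p = none <;> simp [h1, h2]
  nlinarith

/-- the number of pairs with a given product -/
theorem SumPrimes_card {k D R : ℕ} (q : ℕ) (hq : q ≠ 0) :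
    (univ.filter (fun x : Cfg k D R × Cfg k D R => tot2 x.1 x.2 = q)).card ≤
      ((k + 1) ^ 2) ^ q.primeFactors.card := by
  classical
  let t : PP D R → Finset (Option (Fin k) × Option (Fin k)) := fun p =>
    if (p : ℕ) ∣ q then univ else {(none, none)}
  have h1 : (univ.filter (fun x : Cfg k D R × Cfg k D R => tot2 x.1 x.2 = q)).card ≤
      (Fintype.piFinset t).card := by
    apply Finset.card_le_card_of_injOn (fun x p => (x.1 p, x.2 p))
    · intro x hx
      have hx' : tot2 x.1 x.2 = q := by simpa using hx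
      simp only [Finset.mem_coe, Fintype.mem_piFinset]
      intro p
      simp only [t]
      split_ifs with hp
      · exact Finset.mem_univ _
      · rw [← hx', SumPrimes_dvd', not_not] at hp
        simp [hp.1, hp.2]
    · intro x _ y _ hxy
      apply Prod.ext
      · funext p
        exact congrArg Prod.fst (congrFun hxy p)
      · funext p
        exact congrArg Prod.snd (congrFun hxy p)
  refine h1.trans ?_
  rw [Fintype.card_piFinset]
  have h2 : ∀ p : PP D R, (t p).card = if (p : ℕ) ∣ q then (k + 1) ^ 2 else 1 := by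
    intro p
    simp only [t]
    split_ifs
    · rw [Finset.card_univ, Fintype.card_prod, Fintype.card_option, Fintype.card_fin, sq]
    · simp
  simp only [h2]
  rw [Finset.prod_ite, Finset.prod_const, Finset.prod_const_one, mul_one]
  apply Nat.pow_le_pow_right (by positivity)
  apply Finset.card_le_card_of_injOn (fun p : PP D R => (p : ℕ))
  · intro p hp
    have hp' : (p : ℕ) ∣ q := by simpa using hp
    simp only [Finset.mem_coe, Nat.mem_primeFactors]
    exact ⟨SumAll_prime p, hp', hq⟩
  · intro x _ y _ hxy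
    exact Subtype.ext hxy

/-- the primes of one class in a window -/
theorem SumPrimes_class {A B q c N N' : ℕ} (hA : 0 < A) (hN : N ≤ N') :
    ∑ m ∈ Ioc N N', th (A * m + B) * (if m ≡ c [MOD q] then (1 : ℝ) else 0) =
      BV.thetaA (A * q) (A * c + B) (A * N' + B) - BV.thetaA (A * q) (A * c + B) (A * N + B) := by
  have hle : A * N + B ≤ A * N' + B := by
    have := Nat.mul_le_mul_left A hN
    omega
  have h1 : ∀ y, BV.thetaA (A * q) (A * c + B) y =
      ∑ n ∈ Ioc 0 y, if n ≡ A * c + B [MOD A * q] then th n else 0 := by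
    intro y
    unfold BV.thetaA th
    rw [Finset.sum_filter]
    have : Icc 1 y = Ioc 0 y := by
      ext n
      simp only [mem_Icc, mem_Ioc]
      omega
    rw [this]
    apply Finset.sum_congr rfl
    intro n _
    by_cases h2 : n.Prime <;> by_cases h3 : n ≡ A * c + B [MOD A * q] <;> simp [h2, h3]
  rw [h1, h1]
  have h2 : Ioc 0 (A * N' + B) = Ioc 0 (A * N + B) ∪ Ioc (A * N + B) (A * N' + B) := by
    rw [Finset.Ioc_union_Ioc_eq_Ioc (Nat.zero_le _) hle]
  have h3 : Disjoint (Ioc 0 (A * N + B)) (Ioc (A * N + B) (A * N' + B)) := by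
    rw [Finset.disjoint_left]
    intro n hn hn'
    simp only [mem_Ioc] at hn hn'
    omega
  rw [h2, Finset.sum_union h3, add_sub_cancel_left]
  rw [← Finset.sum_filter]
  simp only [mul_ite, mul_one, mul_zero]
  rw [← Finset.sum_filter]
  refine Finset.sum_nbij' (fun m => A * m + B) (fun n => (n - B) / A) ?_ ?_ ?_ ?_ ?_
  · intro m hm
    simp only [mem_filter, mem_Ioc] at hm ⊢
    obtain ⟨⟨h4, h5⟩, h6⟩ := hm
    refine ⟨⟨?_, ?_⟩, ?_⟩
    · have := Nat.mul_lt_mul_of_pos_left h4 hA
      omega
    · have := Nat.mul_le_mul_left A h5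
      omega
    · exact (h6.mul_left' A).add_right B
  · intro n hn
    simp only [mem_filter, mem_Ioc] at hn ⊢
    obtain ⟨⟨h4, h5⟩, h6⟩ := hn
    have h7 : n ≡ B [MOD A] := by
      have h8 : n ≡ A * c + B [MOD A] := h6.of_mul_right q
      refine h8.trans ?_
      have : A * c + B ≡ 0 + B [MOD A] := by
        apply Nat.ModEq.add_right
        exact (Nat.modEq_zero_iff_dvd.2 (dvd_mul_right A c))
      rwa [zero_add] at this
    have h9 : A ∣ n - B := (Nat.modEq_iff_dvd' (by omega)).1 h7.symm
    obtain ⟨m, hm⟩ := h9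
    have h10 : n = A * m + B := by omega
    subst h10
    have h11 : (A * m + B - B) / A = m := by
      rw [Nat.add_sub_cancel, Nat.mul_div_cancel_left m hA]
    rw [h11]
    refine ⟨⟨?_, ?_⟩, ?_⟩
    · have : A * N < A * m := by omega
      exact Nat.lt_of_mul_lt_mul_left this
    · have : A * m ≤ A * N' := by omega
      exact Nat.le_of_mul_le_mul_left this hA
    · have := Nat.ModEq.add_right_cancel' B h6
      exact Nat.ModEq.mul_left_cancel' hA.ne' this
  · intro m _
    simp only [Nat.add_sub_cancel]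
    exact Nat.mul_div_cancel_left m hA
  · intro n hn
    simp only [mem_filter, mem_Ioc] at hn ⊢
    obtain ⟨⟨h4, h5⟩, h6⟩ := hn
    have h7 : n ≡ B [MOD A] := by
      have h8 : n ≡ A * c + B [MOD A] := h6.of_mul_right q
      refine h8.trans ?_
      have : A * c + B ≡ 0 + B [MOD A] := by
        apply Nat.ModEq.add_right
        exact (Nat.modEq_zero_iff_dvd.2 (dvd_mul_right A c))
      rwa [zero_add] at this
    have h9 : A ∣ n - B := (Nat.modEq_iff_dvd' (by omega)).1 h7.symm
    rw [Nat.mul_div_cancel' h9]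
    omega
  · intro m _
    rfl

/-- pairs which are not ok give nothing -/
theorem SumPrimes_not_ok {k D R : ℕ} {a b : Fin k → ℕ} (h : Forms k D a b) (i : Fin k)
    (d e : Cfg k D R) (hde : ¬ SumPrimes_ok i d e) {N m : ℕ} (hN : R ≤ N) (hm : N < m) :
    th (a i * m + b i) *
      ((∏ p : PP D R, ind (XX D R a b m p) (d p)) * (∏ p : PP D R, ind (XX D R a b m p) (e p))) =
        0 := by
  by_cases hc : Comp d e
  swap
  · rw [not_comp h d e hc, mul_zero]
  have h1 : ∃ p, ¬ (d p ≠ some i ∧ e p ≠ some i) := by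
    by_contra hcon
    apply hde
    refine ⟨fun p => ?_, hc⟩
    by_contra h'
    exact hcon ⟨p, h'⟩
  obtain ⟨p, hp⟩ := h1
  by_cases hth : (a i * m + b i).Prime
  swap
  · unfold th
    rw [if_neg hth, zero_mul]
  have h2 : ¬ XX D R a b m p = some i := by
    rw [XX_eq h]
    intro hd
    have h3 := (Nat.prime_dvd_prime_iff_eq (SumAll_prime p) hth).1 hd
    have h4 : (p : ℕ) ≤ R := (mem_Ioc.1 (mem_filter.1 p.2).1).2
    have h5 := Nat.mul_le_mul_right m (h.pos i)
    omega
  rw [SumAll_prod_ind, if_neg, mul_zero]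
  intro hall
  obtain ⟨h3, h4⟩ := hall p
  apply hp
  constructor
  · intro h5
    rcases h3 with h3 | h3
    · rw [h3] at h5; cases h5
    · exact h2 (h3.trans h5)
  · intro h5
    rcases h4 with h4 | h4
    · rw [h4] at h5; cases h5
    · exact h2 (h4.trans h5)

/-- the sum for one pair -/
theorem SumPrimes_pair {k D R : ℕ} {a b : Fin k → ℕ} (h : Forms k D a b) (i : Fin k)
    (d e : Cfg k D R) (hde : SumPrimes_ok i d e) {N N' : ℕ} (hN' : N ≤ N') {E₁ E₂ : ℕ → ℝ}
    (h1 : ∀ q, ErrBound (a i) q (a i * N' + b i) (E₁ q))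
    (h2 : ∀ q, ErrBound (a i) q (a i * N + b i) (E₂ q)) :
    |∑ m ∈ Ioc N N', th (a i * m + b i) *
      ((∏ p : PP D R, ind (XX D R a b m p) (d p)) * (∏ p : PP D R, ind (XX D R a b m p) (e p))) -
      (BV.theta (a i * N' + b i) - BV.theta (a i * N + b i)) / (a i).totient *
        (1 / ((tot2 d e).totient : ℝ))| ≤ E₁ (tot2 d e) + E₂ (tot2 d e) := by
  obtain ⟨c, hc⟩ := exists_class h d e hde.2
  have hcop : (a i * c + b i).Coprime (a i * tot2 d e) := by
    apply Nat.Coprime.mul_right
    · have := h.cop i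
      rw [Nat.coprime_comm]
      rwa [Nat.coprime_mul_left_add_right]
    · apply Nat.coprime_of_dvd
      intro p hp hp1 hp2
      obtain ⟨q, rfl, hq⟩ := SumPrimes_dvd d e p hp hp2
      have h3 := hc c
      rw [if_pos (Nat.ModEq.refl c), SumAll_prod_ind] at h3
      have h4 : ∀ p : PP D R, (d p = none ∨ XX D R a b c p = d p) ∧
          (e p = none ∨ XX D R a b c p = e p) := by
        by_contra hcon
        rw [if_neg hcon] at h3
        exact zero_ne_one h3
      have h5 : XX D R a b c q = some i := (XX_eq h c q i).2 hp1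
      obtain ⟨h6, h7⟩ := h4 q
      obtain ⟨h8, h9⟩ := hde.1 q
      rcases h6 with h6 | h6
      · rcases h7 with h7 | h7
        · exact hq ⟨h6, h7⟩
        · exact h9 (h7.symm.trans h5)
      · exact h8 (h6.symm.trans h5)
  simp only [hc]
  rw [SumPrimes_class (h.pos i) hN']
  have h3 := h1 (tot2 d e) (a i * c + b i) hcop
  have h4 := h2 (tot2 d e) (a i * c + b i) hcop
  rw [Nat.totient_mul (SumPrimes_cop h i d e)] at h3 h4
  push_cast at h3 h4
  have h5 : ∀ x y u v s t : ℝ, x - y - (u - v) / s * (1 / t) = (x - u / (s * t)) - (y - v / (s * t)) := by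
    intro x y u v s t
    rw [div_mul_div_comm, mul_one, sub_div]
    ring
  rw [h5]
  exact (abs_sub _ _).trans (add_le_add h3 h4)

theorem SumPrimes_err_nonneg {a q y : ℕ} {E : ℝ} (h : ErrBound a q y E) : 0 ≤ E :=
  (abs_nonneg _).trans (h 1 (Nat.coprime_one_left _))

theorem win_sum_primes {k D R : ℕ} {a b : Fin k → ℕ} (h : Forms k D a b) (i : Fin k)
    {z : Cfg k D R → ℝ} {L : ℝ} (hL : ∀ d, |lam z d| ≤ L) (hs : ∀ d, lam z d ≠ 0 → tot d ≤ R)
    {N N' : ℕ} (hN : R ≤ N) (hN' : N ≤ N') {E₁ E₂ : ℕ → ℝ}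
    (h1 : ∀ q, ErrBound (a i) q (a i * N' + b i) (E₁ q))
    (h2 : ∀ q, ErrBound (a i) q (a i * N + b i) (E₂ q)) :
    (BV.theta (a i * N' + b i) - BV.theta (a i * N + b i)) / (a i).totient *
        (∑ X : Cfg k D R, (∏ p : PP D R, massi i p (X p)) * ft z X ^ 2) -
      L ^ 2 * ∑ q ∈ (Icc 1 (R ^ 2)).filter (fun q => Squarefree q ∧ (a i).Coprime q),
        (((k + 1) ^ 2 : ℕ) : ℝ) ^ q.primeFactors.card * (E₁ q + E₂ q) ≤
      ∑ m ∈ Ioc N N', th (a i * m + b i) * ft z (XX D R a b m) ^ 2 := by
  classical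
  set Th := (BV.theta (a i * N' + b i) - BV.theta (a i * N + b i)) / ((a i).totient : ℝ) with hTh
  have hL0 : 0 ≤ L := (abs_nonneg _).trans (hL (fun _ => none))
  have hsq : ∀ X : Cfg k D R, ft z X ^ 2 = ∑ d : Cfg k D R, ∑ e : Cfg k D R,
      lam z d * lam z e *
        ((∏ p : PP D R, ind (X p) (d p)) * (∏ p : PP D R, ind (X p) (e p))) := by
    intro X
    rw [ft_eq, sq, Finset.sum_mul_sum]
    apply Finset.sum_congr rfl
    intro d _
    apply Finset.sum_congr rfl
    intro e _
    ring
  have hW : ∑ m ∈ Ioc N N', th (a i * m + b i) * ft z (XX D R a b m) ^ 2 =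
      ∑ d : Cfg k D R, ∑ e : Cfg k D R, lam z d * lam z e *
        ∑ m ∈ Ioc N N', th (a i * m + b i) * ((∏ p : PP D R, ind (XX D R a b m p) (d p)) *
          (∏ p : PP D R, ind (XX D R a b m p) (e p))) := by
    simp only [hsq, Finset.mul_sum]
    rw [Finset.sum_comm]
    apply Finset.sum_congr rfl
    intro d _
    rw [Finset.sum_comm]
    apply Finset.sum_congr rfl
    intro e _
    apply Finset.sum_congr rfl
    intro m _
    ring
  have hE : ∑ X : Cfg k D R, (∏ p : PP D R, massi i p (X p)) * ft z X ^ 2 =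
      ∑ d : Cfg k D R, ∑ e : Cfg k D R, lam z d * lam z e *
        ∑ X : Cfg k D R, (∏ p : PP D R, massi i p (X p)) *
          ((∏ p : PP D R, ind (X p) (d p)) * (∏ p : PP D R, ind (X p) (e p))) := by
    simp only [hsq, Finset.mul_sum]
    rw [Finset.sum_comm]
    apply Finset.sum_congr rfl
    intro d _
    rw [Finset.sum_comm]
    apply Finset.sum_congr rfl
    intro e _
    apply Finset.sum_congr rfl
    intro X _
    ring
  rw [hW, hE, Finset.mul_sum, sub_le_iff_le_add, ← sub_le_iff_le_add', ← Finset.sum_sub_distrib]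
  -- one pair
  set P : Finset (Cfg k D R × Cfg k D R) := univ.filter (fun x => tot x.1 ≤ R ∧ tot x.2 ≤ R)
    with hP
  set g : ℕ → ℝ := fun q => L ^ 2 * (E₁ q + E₂ q) with hg
  have hE0 : ∀ q, 0 ≤ E₁ q + E₂ q := fun q =>
    add_nonneg (SumPrimes_err_nonneg (h1 q)) (SumPrimes_err_nonneg (h2 q))
  have hg0 : ∀ q, 0 ≤ g q := fun q => mul_nonneg (sq_nonneg L) (hE0 q)
  have key : ∀ d e : Cfg k D R,
      Th * (lam z d * lam z e * ∑ X : Cfg k D R, (∏ p : PP D R, massi i p (X p)) *
          ((∏ p : PP D R, ind (X p) (d p)) * (∏ p : PP D R, ind (X p) (e p)))) -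
      lam z d * lam z e *
        ∑ m ∈ Ioc N N', th (a i * m + b i) * ((∏ p : PP D R, ind (XX D R a b m p) (d p)) *
          (∏ p : PP D R, ind (XX D R a b m p) (e p))) ≤
      if tot d ≤ R ∧ tot e ≤ R then g (tot2 d e) else 0 := by
    intro d e
    by_cases hde : SumPrimes_ok i d e
    · rw [SumPrimes_expect_ok i d e hde]
      have h3 := SumPrimes_pair h i d e hde hN' h1 h2
      rw [← hTh] at h3
      set W := ∑ m ∈ Ioc N N', th (a i * m + b i) *
        ((∏ p : PP D R, ind (XX D R a b m p) (d p)) *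
          (∏ p : PP D R, ind (XX D R a b m p) (e p))) with hW'
      have h4 : Th * (lam z d * lam z e * (1 / ((tot2 d e).totient : ℝ))) -
          lam z d * lam z e * W =
          -(lam z d * lam z e * (W - Th * (1 / ((tot2 d e).totient : ℝ)))) := by ring
      rw [h4]
      have h5 : -(lam z d * lam z e * (W - Th * (1 / ((tot2 d e).totient : ℝ)))) ≤
          |lam z d| * |lam z e| * (E₁ (tot2 d e) + E₂ (tot2 d e)) := by
        calc -(lam z d * lam z e * (W - Th * (1 / ((tot2 d e).totient : ℝ))))
            ≤ |lam z d * lam z e * (W - Th * (1 / ((tot2 d e).totient : ℝ)))| := neg_le_abs _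
          _ = |lam z d| * |lam z e| * |W - Th * (1 / ((tot2 d e).totient : ℝ))| := by
              rw [abs_mul, abs_mul]
          _ ≤ |lam z d| * |lam z e| * (E₁ (tot2 d e) + E₂ (tot2 d e)) :=
              mul_le_mul_of_nonneg_left h3 (by positivity)
      refine h5.trans ?_
      split_ifs with h6
      · simp only [hg]
        apply mul_le_mul_of_nonneg_right _ (hE0 _)
        rw [sq]
        exact mul_le_mul (hL d) (hL e) (abs_nonneg _) hL0
      · have h7 : lam z d = 0 ∨ lam z e = 0 := by
          by_contra hcon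
          rw [not_or] at hcon
          exact h6 ⟨hs d hcon.1, hs e hcon.2⟩
        rcases h7 with h7 | h7 <;> simp [h7]
    · rw [SumPrimes_expect_not_ok i d e hde]
      have h3 : ∑ m ∈ Ioc N N', th (a i * m + b i) *
          ((∏ p : PP D R, ind (XX D R a b m p) (d p)) *
            (∏ p : PP D R, ind (XX D R a b m p) (e p))) = 0 :=
        Finset.sum_eq_zero fun m hm => SumPrimes_not_ok h i d e hde hN (mem_Ioc.1 hm).1
      rw [h3]
      simp only [mul_zero, sub_zero]
      split_ifs
      · exact hg0 _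
      · exact le_rfl
  have hT : ∀ x ∈ P, tot2 x.1 x.2 ∈ (Icc 1 (R ^ 2)).filter
      (fun q => Squarefree q ∧ (a i).Coprime q) := by
    intro x hx
    simp only [hP, mem_filter, mem_univ, true_and] at hx
    simp only [mem_filter, mem_Icc]
    refine ⟨⟨SumAll_tot2_pos _ _, ?_⟩, SumPrimes_sqfree _ _, SumPrimes_cop h i _ _⟩
    refine (SumPrimes_le _ _).trans ?_
    rw [sq]
    exact Nat.mul_le_mul hx.1 hx.2
  calc ∑ d : Cfg k D R, (Th * ∑ e : Cfg k D R, lam z d * lam z e *
        ∑ X : Cfg k D R, (∏ p : PP D R, massi i p (X p)) *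
          ((∏ p : PP D R, ind (X p) (d p)) * (∏ p : PP D R, ind (X p) (e p))) -
      ∑ e : Cfg k D R, lam z d * lam z e *
        ∑ m ∈ Ioc N N', th (a i * m + b i) * ((∏ p : PP D R, ind (XX D R a b m p) (d p)) *
          (∏ p : PP D R, ind (XX D R a b m p) (e p))))
      ≤ ∑ d : Cfg k D R, ∑ e : Cfg k D R,
        (if tot d ≤ R ∧ tot e ≤ R then g (tot2 d e) else 0) := by
        apply Finset.sum_le_sum
        intro d _
        rw [Finset.mul_sum, ← Finset.sum_sub_distrib]
        exact Finset.sum_le_sum fun e _ => key d e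
    _ = ∑ x ∈ P, g (tot2 x.1 x.2) := by
        rw [hP, Finset.sum_filter, ← Finset.univ_product_univ, Finset.sum_product]
    _ = ∑ q ∈ (Icc 1 (R ^ 2)).filter (fun q => Squarefree q ∧ (a i).Coprime q),
          ∑ x ∈ P.filter (fun x => tot2 x.1 x.2 = q), g q :=
        (Finset.sum_fiberwise_of_maps_to' hT g).symm
    _ ≤ L ^ 2 * ∑ q ∈ (Icc 1 (R ^ 2)).filter (fun q => Squarefree q ∧ (a i).Coprime q),
        (((k + 1) ^ 2 : ℕ) : ℝ) ^ q.primeFactors.card * (E₁ q + E₂ q) := by
        rw [Finset.mul_sum]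
        apply Finset.sum_le_sum
        intro q hq
        simp only [mem_filter, mem_Icc] at hq
        rw [Finset.sum_const, nsmul_eq_mul]
        have h3 : (P.filter (fun x => tot2 x.1 x.2 = q)).card ≤
            ((k + 1) ^ 2) ^ q.primeFactors.card := by
          refine le_trans (Finset.card_le_card ?_) (SumPrimes_card (k := k) (D := D) (R := R) q
            (by omega))
          intro x hx
          simp only [mem_filter] at hx
          simp only [mem_filter, mem_univ, true_and]
          exact hx.2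
        have h4 : ((P.filter (fun x => tot2 x.1 x.2 = q)).card : ℝ) ≤
            (((k + 1) ^ 2 : ℕ) : ℝ) ^ q.primeFactors.card := by exact_mod_cast h3
        calc ((P.filter (fun x => tot2 x.1 x.2 = q)).card : ℝ) * g q
            ≤ (((k + 1) ^ 2 : ℕ) : ℝ) ^ q.primeFactors.card * g q :=
              mul_le_mul_of_nonneg_right h4 (hg0 q)
          _ = L ^ 2 * ((((k + 1) ^ 2 : ℕ) : ℝ) ^ q.primeFactors.card * (E₁ q + E₂ q)) := by
              simp only [hg]
              ring

theorem sum_primes {k D R : ℕ} {a b : Fin k → ℕ} (h : Forms k D a b) (i : Fin k)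
    {z : Cfg k D R → ℝ} {L : ℝ} (hL : ∀ d, |lam z d| ≤ L) (hs : ∀ d, lam z d ≠ 0 → tot d ≤ R)
    {N : ℕ} (hN : R ≤ N) {E₁ E₂ : ℕ → ℝ}
    (h1 : ∀ q, ErrBound (a i) q (a i * (2 * N) + b i) (E₁ q))
    (h2 : ∀ q, ErrBound (a i) q (a i * N + b i) (E₂ q)) :
    (BV.theta (a i * (2 * N) + b i) - BV.theta (a i * N + b i)) / (a i).totient *
        (∑ X : Cfg k D R, (∏ p : PP D R, massi i p (X p)) * ft z X ^ 2) -
      L ^ 2 * ∑ q ∈ (Icc 1 (R ^ 2)).filter (fun q => Squarefree q ∧ (a i).Coprime q),
        (((k + 1) ^ 2 : ℕ) : ℝ) ^ q.primeFactors.card * (E₁ q + E₂ q) ≤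
      ∑ m ∈ Ioc N (2 * N), th (a i * m + b i) * ft z (XX D R a b m) ^ 2 :=
  win_sum_primes h i hL hs hN (by omega) h1 h2

end Pool.Agent.MT
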