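import Pool.Agent.Work.MT.Ext
import Pool.Agent.Work.MT.SumPrimes
import Pool.Agent.Work.MT.Level
import Pool.Agent.Work.MT.Cells
import Pool.Agent.Work.Shared.PNT.Tauber

/-! # Maynard-Tao: preparations -/

namespace Pool.Agent.MT

open Finset Filter

/-- the worst class -/
lemma Main_max (a q y : ℕ) (ha : 0 < a) : ∃ c : ℕ, c.Coprime (a * q) ∧
    ErrBound a q y |BV.thetaA (a * q) c y - BV.theta y / (a * q).totient| := by
  classical
  rcases Nat.eq_zero_or_pos q with hq | hq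
  · subst hq
    refine ⟨1, Nat.coprime_one_left _, fun c hc => ?_⟩
    have : c = 1 := by simpa using hc
    rw [this]
  set e := a * q with he
  have he0 : 0 < e := Nat.mul_pos ha hq
  have hne : ((range e).filter (fun c => c.Coprime e)).Nonempty := by
    refine ⟨1 % e, mem_filter.2 ⟨mem_range.2 (Nat.mod_lt _ he0), ?_⟩⟩
    rw [Nat.coprime_iff_gcd_eq_one, ← Nat.gcd_rec, Nat.gcd_one_right]
  obtain ⟨c, hc, hmax⟩ := exists_max_image _
    (fun c => |BV.thetaA e c y - BV.theta y / e.totient|) hne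
  refine ⟨c, (mem_filter.1 hc).2, fun c' hc' => ?_⟩
  have h1 : BV.thetaA e c' y = BV.thetaA e (c' % e) y := by
    unfold BV.thetaA
    have : ∀ p : ℕ, p ≡ c' [MOD e] ↔ p ≡ c' % e [MOD e] := fun p =>
      ⟨fun h => h.trans (Nat.mod_modEq _ _).symm, fun h => h.trans (Nat.mod_modEq _ _)⟩
    simp_rw [this]
  rw [← he, h1]
  refine hmax _ (mem_filter.2 ⟨mem_range.2 (Nat.mod_lt _ he0), ?_⟩)
  rw [← he, Nat.coprime_iff_gcd_eq_one] at hc'
  rw [Nat.coprime_iff_gcd_eq_one, ← Nat.gcd_rec, Nat.gcd_comm]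
  exact hc'

/-- the error functions -/
lemma Main_err (K A a : ℕ) (ha : 0 < a) : ∃ C : ℝ, 0 < C ∧ ∀ (b N Q : ℕ), 3 ≤ a * (2 * N) + b →
    ((a * Q : ℕ) : ℝ) ≤ ((a * (2 * N) + b : ℕ) : ℝ) ^ (4 / 9 : ℝ) → ∃ E₁ E₂ : ℕ → ℝ,
      (∀ q, ErrBound a q (a * (2 * N) + b) (E₁ q)) ∧ (∀ q, ErrBound a q (a * N + b) (E₂ q)) ∧
      ∑ q ∈ (Icc 1 Q).filter (fun q => Squarefree q ∧ a.Coprime q),
        (K : ℝ) ^ q.primeFactors.card * (E₁ q + E₂ q) ≤
        C * (a * (2 * N) + b : ℕ) / (Real.log (a * (2 * N) + b : ℕ)) ^ A := by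
  obtain ⟨C, hC, h⟩ := level_weights K A a ha
  refine ⟨2 * C, by positivity, fun b N Q hN hQ => ?_⟩
  choose c₁ hc₁ hm₁ using fun q => Main_max a q (a * (2 * N) + b) ha
  choose c₂ hc₂ hm₂ using fun q => Main_max a q (a * N + b) ha
  refine ⟨_, _, hm₁, hm₂, ?_⟩
  have h1 := h (a * (2 * N) + b) Q (a * (2 * N) + b) c₁ hN hQ le_rfl hc₁
  have h2 := h (a * (2 * N) + b) Q (a * N + b) c₂ hN hQ (by nlinarith) hc₂
  calc _ = ∑ q ∈ (Icc 1 Q).filter (fun q => Squarefree q ∧ a.Coprime q),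
        (K : ℝ) ^ q.primeFactors.card *
          |BV.thetaA (a * q) (c₁ q) (a * (2 * N) + b) -
            BV.theta (a * (2 * N) + b) / (a * q).totient| +
      ∑ q ∈ (Icc 1 Q).filter (fun q => Squarefree q ∧ a.Coprime q),
        (K : ℝ) ^ q.primeFactors.card *
          |BV.thetaA (a * q) (c₂ q) (a * N + b) -
            BV.theta (a * N + b) / (a * q).totient| := by
        rw [← sum_add_distrib]
        exact sum_congr rfl fun q _ => by ring
    _ ≤ _ := add_le_add h1 h2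
    _ = _ := by ring

/-- the totient of the leading coefficient -/
lemma Main_totient {k D : ℕ} {a b : Fin k → ℕ} (h : Forms k D a b) (i : Fin k) :
    ((a i).totient : ℝ) = a i * kap D := by
  have h1 := Nat.totient_eq_mul_prod_factors (a i)
  have h2 : (a i).primeFactors = (Icc 1 D).filter Nat.Prime := by
    ext p
    rw [Nat.mem_primeFactors, mem_filter, mem_Icc]
    constructor
    · rintro ⟨hp, hpa, _⟩
      exact ⟨⟨hp.one_lt.le, (h.small i p hp).1 hpa⟩, hp⟩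
    · rintro ⟨⟨_, h3⟩, hp⟩
      exact ⟨hp, (h.small i p hp).2 h3, (h.pos i).ne'⟩
  rw [h2] at h1
  have h3 := congrArg (fun t : ℚ => (t : ℝ)) h1
  simp only [Rat.cast_natCast, Rat.cast_mul, Rat.cast_prod, Rat.cast_sub, Rat.cast_one,
    Rat.cast_inv] at h3
  rw [h3, kap]
  congr 1
  exact prod_congr rfl fun p _ => by rw [one_div]

lemma Main_kap_pos (D : ℕ) : 0 < kap D := by
  refine prod_pos fun p hp => ?_
  have hp2 := (mem_filter.1 hp).2.two_le
  have : (2 : ℝ) ≤ p := by exact_mod_cast hp2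
  have : 1 / (p : ℝ) ≤ 1 / 2 := by gcongr
  linarith

/-- enough primes, uniformly in `b ≤ C₀ N` -/
lemma Main_theta (a C₀ : ℕ) (ha : 0 < a) : ∀ᶠ N : ℕ in atTop, ∀ b : ℕ, b ≤ C₀ * N →
    (a : ℝ) * N / 2 ≤ BV.theta (a * (2 * N) + b) - BV.theta (a * N + b) := by
  obtain ⟨C, hC, hθ⟩ := Pool.Agent.Work.Shared.PNT.theta_sub_self_le 1
  have h1 : Tendsto (fun N : ℕ => Real.log N) atTop atTop :=
    Real.tendsto_log_atTop.comp tendsto_natCast_atTop_atTop
  filter_upwards [h1.eventually_ge_atTop (10 * (C₀ + 1) * C), eventually_ge_atTop 3]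
    with N hN hN3 b hb
  have ha1 : (1 : ℝ) ≤ a := by exact_mod_cast ha
  have hN3' : (3 : ℝ) ≤ N := by exact_mod_cast hN3
  have hb' : (b : ℝ) ≤ C₀ * N := by exact_mod_cast hb
  have hC0 : (0 : ℝ) ≤ C₀ := Nat.cast_nonneg _
  have haN : (N : ℝ) ≤ a * N := by nlinarith
  have hlog : ∀ x : ℝ, (N : ℝ) ≤ x → |Chebyshev.theta x - x| ≤ x / (10 * (C₀ + 1)) := by
    intro x hx
    have hl : 10 * (C₀ + 1) * C ≤ Real.log x := hN.trans (Real.log_le_log (by linarith) hx)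
    have hl0 : 0 < Real.log x := lt_of_lt_of_le (by positivity) hl
    refine (hθ x (by linarith)).trans ?_
    rw [Real.rpow_one, div_le_div_iff₀ hl0 (by positivity)]
    nlinarith
  have e1 : BV.theta (a * (2 * N) + b) = Chebyshev.theta ((a : ℝ) * (2 * N) + b) := by
    rw [BV.primes_theta_eq]; push_cast; rfl
  have e2 : BV.theta (a * N + b) = Chebyshev.theta ((a : ℝ) * N + b) := by
    rw [BV.primes_theta_eq]; push_cast; rfl
  rw [e1, e2]
  have hb0 : (0 : ℝ) ≤ b := Nat.cast_nonneg _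
  have t1 := hlog ((a : ℝ) * (2 * N) + b) (by nlinarith)
  have t2 := hlog ((a : ℝ) * N + b) (by nlinarith)
  have hb2 : (b : ℝ) ≤ C₀ * (a * N) := by nlinarith
  have s1 : ((a : ℝ) * (2 * N) + b) / (10 * (C₀ + 1)) ≤ a * N / 5 := by
    rw [div_le_div_iff₀ (by positivity) (by norm_num)]
    nlinarith [mul_nonneg hC0 (show (0 : ℝ) ≤ a * N by positivity)]
  have s2 : ((a : ℝ) * N + b) / (10 * (C₀ + 1)) ≤ a * N / 10 := by
    rw [div_le_div_iff₀ (by positivity) (by norm_num)]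
    nlinarith [mul_nonneg hC0 (show (0 : ℝ) ≤ a * N by positivity)]
  rw [abs_le] at t1 t2
  have haN0 : (0 : ℝ) ≤ a * N := by positivity
  linarith [t1.1, t2.2]

end Pool.Agent.MT
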