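import Pool.Agent.Work.MT.Tensor

/-! # the expectation over the outcomes with a given label at one prime -/

namespace Pool.Agent.MT

open Finset

/-- the square of the weight over the outcomes with the label `i0` at `p0` -/
theorem RoughA_E {k D R : ℕ} (hk : k ≤ D) (z : Cfg k D R → ℝ) (p0 : PP D R) (i0 : Fin k) :
    ∑ X : Cfg k D R, (∏ p : PP D R, mass k p (X p)) * (if X p0 = some i0 then ft z X else 0) ^ 2 ≤
      ∑ r : Cfg k D R, if r p0 = none then
        1 / (p0 : ℕ) * (∑ a, uu (p0 : ℕ) (some i0) a * z (Function.update r p0 a)) ^ 2 / tot r
        else 0 := by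
  have hpp : ∀ p : PP D R, D < (p : ℕ) := fun p => (mem_Ioc.1 (mem_filter.1 p.2).1).1
  have hp0 : ∀ p : PP D R, 0 < (p : ℕ) := fun p => (Nat.zero_le _).trans_lt (hpp p)
  have hm : ∀ (p : PP D R) w, 0 ≤ mass k p w := by
    intro p w
    have hp := hp0 p
    have hp' : (0 : ℝ) < (p : ℕ) := by exact_mod_cast hp
    cases w with
    | none =>
      simp only [mass]
      rw [sub_nonneg, div_le_one hp']
      exact_mod_cast hk.trans (hpp p).le
    | some i =>
      simp only [mass]
      positivity
  -- the masses with the condition at `p0`
  set c : PP D R → Option (Fin k) → ℝ := fun p w =>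
    if p = p0 then (if w = some i0 then mass k p w else 0) else mass k p w with hc
  have hc0 : ∀ p w, 0 ≤ c p w := by
    intro p w
    simp only [hc]
    have := hm p w
    split_ifs <;> first | exact this | exact le_rfl
  have h1 := tensor_sum c (fun p w a => uu (p : ℕ) w a) z
  have h2 : ∑ X : Cfg k D R, (∏ p : PP D R, mass k p (X p)) *
      (if X p0 = some i0 then ft z X else 0) ^ 2 =
      ∑ r : Cfg k D R, ∑ s : Cfg k D R, z r * z s *
        ∏ p : PP D R, ∑ w, c p w * uu (p : ℕ) w (r p) * uu (p : ℕ) w (s p) := by
    rw [← h1]
    refine sum_congr rfl fun X _ => ?_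
    have h3 : ∏ p : PP D R, c p (X p) = if X p0 = some i0 then ∏ p : PP D R, mass k p (X p) else 0 := by
      split_ifs with hX
      · refine prod_congr rfl fun p _ => ?_
        simp only [hc]
        split_ifs with hp h4
        · rfl
        · exact absurd (hp ▸ hX) h4
        · rfl
      · refine prod_eq_zero (mem_univ p0) ?_
        simp [hc, hX]
    rw [h3]
    split_ifs
    · rfl
    · simp
  rw [h2]
  set M : PP D R → Option (Fin k) → Option (Fin k) → ℝ := fun p a b =>
    if p = p0 then 1 / (p : ℕ) * (uu (p : ℕ) (some i0) a * uu (p : ℕ) (some i0) b)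
    else if a = b then (if a = none then (1 : ℝ) else 1 / (p : ℕ)) else 0 with hM
  have hNp0 : ∀ a b : Option (Fin k), ∑ w, c p0 w * uu (p0 : ℕ) w a * uu (p0 : ℕ) w b =
      1 / (p0 : ℕ) * (uu (p0 : ℕ) (some i0) a * uu (p0 : ℕ) (some i0) b) := by
    intro a b
    rw [Finset.sum_eq_single (some i0)]
    · simp only [hc, if_true, mass]
      ring
    · intro w _ hw
      simp [hc, hw]
    · simp
  refine (tensor_mono M (fun p a b => ∑ w, c p w * uu (p : ℕ) w a * uu (p : ℕ) w b) (fun p => ?_)
    (fun p => ?_) z).trans_eq ?_
  · exact Tensor_psd_gram _ _ (hc0 p)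
  · by_cases hp : p = p0
    · subst hp
      have h5 := Tensor_psd_gram (A := Option (Fin k)) (Ω := Unit) (fun _ => 0) (fun _ _ => 0)
        (fun _ => le_rfl)
      simp only [univ_unique, sum_singleton, zero_mul] at h5
      convert h5 using 3 with a b
      rw [hNp0]
      simp [hM]
    · have := Tensor_psd_gram (A := Option (Fin k)) (Ω := Unit) (fun _ => 1)
        (fun _ a => if a = none then (0 : ℝ) else 1 / (p : ℕ)) (fun _ => zero_le_one)
      simp only [univ_unique, sum_singleton, one_mul] at this
      convert this using 3 with a b
      have h6 : ∑ w, c p w * uu (p : ℕ) w a * uu (p : ℕ) w b =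
          ∑ w, mass k p w * uu (p : ℕ) w a * uu (p : ℕ) w b := by
        simp only [hc, if_neg hp]
      rw [h6, Tensor_gram_mass (hp0 p)]
      simp only [hM, if_neg hp]
      ring
  · -- the kernel `M` as a Gram kernel
    have h7 := tensor_sum (fun (p : PP D R) (w : Option (Fin k)) =>
      if p = p0 then (if w = none then 1 / ((p : ℕ) : ℝ) else 0) else
        (if w = none then (1 : ℝ) else 1 / (p : ℕ)))
      (fun (p : PP D R) (w a : Option (Fin k)) =>
        if p = p0 then uu (p : ℕ) (some i0) a else if w = a then 1 else 0) z
    have h8 : ∀ (p : PP D R) (a b : Option (Fin k)), (∑ w : Option (Fin k),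
        (if p = p0 then (if w = none then 1 / ((p : ℕ) : ℝ) else 0) else
        (if w = none then (1 : ℝ) else 1 / (p : ℕ))) *
        (if p = p0 then uu (p : ℕ) (some i0) a else if w = a then 1 else 0) *
        (if p = p0 then uu (p : ℕ) (some i0) b else if w = b then 1 else 0)) = M p a b := by
      intro p a b
      by_cases hp : p = p0
      · simp only [hM, if_pos hp]
        rw [Finset.sum_eq_single none]
        · simp only [if_true]
          ring
        · intro w _ hw
          simp [hw]
        · simp
      · simp only [hM, if_neg hp]
        rw [Finset.sum_eq_single a]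
        · simp
        · intro w _ hw
          rw [if_neg hw]
          ring
        · simp
    simp only [h8] at h7
    rw [← h7]
    refine sum_congr rfl fun r _ => ?_
    split_ifs with hr
    · -- the product of the masses
      have h9 : (∏ p : PP D R, (if p = p0 then (if r p = none then 1 / ((p : ℕ) : ℝ) else 0) else
          (if r p = none then (1 : ℝ) else 1 / (p : ℕ)))) = 1 / (p0 : ℕ) * (1 / tot r) := by
        rw [← Finset.mul_prod_erase univ _ (mem_univ p0), if_pos rfl, if_pos hr]
        congr 1
        rw [tot, Nat.cast_prod, one_div, ← prod_inv_distrib,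
          ← Finset.mul_prod_erase univ (fun p : PP D R => (((if r p = none then 1 else (p : ℕ) : ℕ)) : ℝ)⁻¹)
            (mem_univ p0), if_pos hr, Nat.cast_one, inv_one, one_mul]
        refine prod_congr rfl fun p hp => ?_
        rw [if_neg (Finset.ne_of_mem_erase hp)]
        split_ifs <;> simp
      rw [h9]
      -- the inner sum
      have h10 : ∑ s : Cfg k D R, z s * ∏ p : PP D R,
          (if p = p0 then uu (p : ℕ) (some i0) (s p) else if r p = s p then 1 else 0) =
          ∑ a, uu (p0 : ℕ) (some i0) a * z (Function.update r p0 a) := by
        have h11 : ∀ s : Cfg k D R, z s * ∏ p : PP D R,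
            (if p = p0 then uu (p : ℕ) (some i0) (s p) else if r p = s p then 1 else 0) =
            if s = Function.update r p0 (s p0) then uu (p0 : ℕ) (some i0) (s p0) * z s else 0 := by
          intro s
          rw [← Finset.mul_prod_erase univ _ (mem_univ p0), if_pos rfl]
          split_ifs with hs
          · rw [prod_eq_one, mul_one, mul_comm]
            intro p hp
            have hne := Finset.ne_of_mem_erase hp
            rw [if_neg hne, if_pos]
            have := congrFun hs p
            rw [Function.update_of_ne hne] at this
            exact this.symm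
          · obtain ⟨p, hp⟩ := Function.ne_iff.1 hs
            have hne : p ≠ p0 := by
              rintro rfl
              simp at hp
            rw [Function.update_of_ne hne] at hp
            rw [prod_eq_zero (mem_erase.2 ⟨hne, mem_univ p⟩), mul_zero, mul_zero]
            rw [if_neg hne, if_neg (Ne.symm hp)]
        simp_rw [h11]
        rw [← Finset.sum_filter]
        symm
        apply Finset.sum_nbij' (fun a => Function.update r p0 a) (fun s => s p0)
        · intro a _
          simp
        · intro s _
          exact mem_univ _
        · intro a _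
          simp
        · intro s hs
          rw [mem_filter] at hs
          exact hs.2.symm
        · intro a _
          simp
      rw [h10]
      ring
    · rw [prod_eq_zero (mem_univ p0), zero_mul]
      rw [if_pos rfl, if_neg hr]

end Pool.Agent.MT
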