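import Pool.Agent.Work.MT.RoughA
import Pool.Agent.Work.MT.Tuples

/-! # the expectation over the outcomes with a given label at one prime, for the profile -/

namespace Pool.Agent.MT

open Finset

noncomputable section

open Classical in
/-- the sum of `G(n)^2/n` over the `n` at which the profile changes under multiplication by `p` -/
def I4 (D R : ℕ) (G b : ℕ → ℝ) (p : ℕ) : ℝ :=
  ∑ n ∈ NN D R, (if G (p * n) ≠ G n ∨ b (p * n) ≠ b n then G n ^ 2 else 0) / n

end

theorem RoughB_comp {k D R : ℕ} {r : Cfg k D R} {p0 : PP D R} (h : r p0 = none) (j i : Fin k) :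
    comp (Function.update r p0 (some j)) i = if i = j then (p0 : ℕ) * comp r i else comp r i := by
  unfold comp
  rw [← Finset.mul_prod_erase univ _ (mem_univ p0),
    ← Finset.mul_prod_erase univ (fun p : PP D R => if r p = some i then (p : ℕ) else 1)
      (mem_univ p0), h]
  have h1 : ∏ p ∈ univ.erase p0, (if Function.update r p0 (some j) p = some i then (p : ℕ) else 1) =
      ∏ p ∈ univ.erase p0, (if r p = some i then (p : ℕ) else 1) := by
    refine prod_congr rfl fun p hp => ?_
    rw [Function.update_of_ne (Finset.ne_of_mem_erase hp)]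
  rw [h1, Function.update_self]
  by_cases hij : i = j
  · simp [hij]
  · simp [hij, Ne.symm hij]

theorem RoughB_sgn {k D R : ℕ} {r : Cfg k D R} {p0 : PP D R} (h : r p0 = none) (j : Fin k) :
    sgn (Function.update r p0 (some j)) = -sgn r := by
  unfold sgn
  rw [← Finset.mul_prod_erase univ _ (mem_univ p0),
    ← Finset.mul_prod_erase univ (fun p : PP D R => if r p = none then (1 : ℝ) else -1)
      (mem_univ p0), h]
  have h1 : ∏ p ∈ univ.erase p0, (if Function.update r p0 (some j) p = none then (1 : ℝ) else -1) =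
      ∏ p ∈ univ.erase p0, (if r p = none then (1 : ℝ) else -1) := by
    refine prod_congr rfl fun p hp => ?_
    rw [Function.update_of_ne (Finset.ne_of_mem_erase hp)]
  rw [h1, Function.update_self]
  simp

theorem RoughB_sgn_sq {k D R : ℕ} (r : Cfg k D R) : (sgn r) ^ 2 = 1 := by
  unfold sgn
  rw [← Finset.prod_pow]
  apply Finset.prod_eq_one
  intro p _
  split_ifs <;> norm_num

/-- sums over the configurations of product functions -/
theorem RoughB_sum {k D R : ℕ} (H : Fin k → ℕ → ℝ) (h0 : ∀ i n, 0 ≤ H i n)
    (hs : ∀ i n, R < n → H i n = 0) :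
    ∑ r : Cfg k D R, (∏ i, H i (comp r i)) / tot r ≤ ∏ i, ∑ n ∈ NN D R, H i n / n := by
  classical
  have hz : ∀ r : Cfg k D R, (∏ i, H i (comp r i)) / tot r = ∏ j, (H j (comp r j) / comp r j) := by
    intro r
    rw [Finset.prod_div_distrib, Tuples_tot r]
    push_cast
    rfl
  rw [Finset.sum_congr rfl (fun r _ => hz r)]
  have h1 : ∑ r : Cfg k D R, ∏ j, (H j (comp r j) / comp r j) =
      ∑ r ∈ univ.filter (fun r : Cfg k D R => comp r ∈ Fintype.piFinset (fun _ : Fin k => NN D R)),
        ∏ j, (H j (comp r j) / comp r j) := by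
    symm
    apply Finset.sum_subset (Finset.filter_subset _ _)
    intro r hr hr2
    rw [mem_filter, not_and] at hr2
    have h3 := hr2 hr
    by_contra h5
    apply h3
    rw [Fintype.mem_piFinset]
    intro j
    apply Tuples_comp_NN
    by_contra h6
    apply h5
    apply Finset.prod_eq_zero (mem_univ j)
    rw [hs j _ (by omega)]
    simp
  rw [h1, ← Finset.sum_image (f := fun n => ∏ j, (H j (n j) / n j))
    (g := (comp : Cfg k D R → Fin k → ℕ)) (fun x _ y _ hxy => Tuples_comp_inj hxy),
    Finset.prod_univ_sum (fun _ : Fin k => NN D R) (fun j m => H j m / m)]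
  apply Finset.sum_le_sum_of_subset_of_nonneg
  · intro n hn
    rw [mem_image] at hn
    obtain ⟨r, hr, rfl⟩ := hn
    exact (mem_filter.1 hr).2
  · intro n _ _
    apply Finset.prod_nonneg
    intro j _
    exact div_nonneg (h0 _ _) (Nat.cast_nonneg _)

theorem RoughB_FF_nonneg {k R : ℕ} {G b : ℕ → ℝ} (h : Good R G b) (n : Fin k → ℕ) :
    0 ≤ FF G b n := by
  unfold FF
  split_ifs
  · exact prod_nonneg fun i _ => h.nonneg _
  · exact le_rfl

theorem RoughB_FF_le {k R : ℕ} {G b : ℕ → ℝ} (h : Good R G b) {n m : Fin k → ℕ}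
    (hn : ∀ i, 1 ≤ n i) (hnm : ∀ i, n i ≤ m i) :
    FF G b m ≤ ∏ i, G (n i) := by
  unfold FF
  split_ifs
  · exact prod_le_prod (fun i _ => h.nonneg _) fun i _ => h.anti _ _ (hn i) (hnm i)
  · exact prod_nonneg fun i _ => h.nonneg _

/-- the expectation over the outcomes with the label `i0` at `p0` -/
theorem RoughB_E {k D R : ℕ} (hk : k ≤ D) {G b : ℕ → ℝ} (h : Good R G b) (p0 : PP D R)
    (i0 : Fin k) :
    ∑ X : Cfg k D R, (∏ p : PP D R, mass k p (X p)) *
        (if X p0 = some i0 then ft (zz (FF G b)) X else 0) ^ 2 ≤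
      2 / (p0 : ℕ) * (I4 D R G b p0 * I2 D R G ^ (k - 1) +
        (k / (p0 : ℕ) : ℝ) ^ 2 * I2 D R G ^ k) := by
  classical
  refine (RoughA_E hk _ p0 i0).trans ?_
  have hpp : 0 < (p0 : ℕ) := (Tuples_mem p0).2.2.pos
  have hpR : (0 : ℝ) < (p0 : ℕ) := by exact_mod_cast hpp
  -- the two product functions
  set H1 : Fin k → ℕ → ℝ := fun i n =>
    if i = i0 then (if G (p0 * n) ≠ G n ∨ b (p0 * n) ≠ b n then G n ^ 2 else 0) else G n ^ 2 with hH1
  set H2 : Fin k → ℕ → ℝ := fun _ n => G n ^ 2 with hH2
  have hpt : ∀ r : Cfg k D R, (if r p0 = none then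
        1 / (p0 : ℕ) * (∑ a, uu (p0 : ℕ) (some i0) a * zz (FF G b) (Function.update r p0 a)) ^ 2 /
          tot r else 0) ≤
      2 / (p0 : ℕ) * ((∏ i, H1 i (comp r i)) / tot r) +
        2 / (p0 : ℕ) * ((k / (p0 : ℕ) : ℝ) ^ 2 * ((∏ i, H2 i (comp r i)) / tot r)) := by
    intro r
    have ht : (0 : ℝ) ≤ tot r := Nat.cast_nonneg _
    have hH10 : 0 ≤ ∏ i, H1 i (comp r i) := by
      refine prod_nonneg fun i _ => ?_
      simp only [hH1]
      split_ifs <;> positivity
    have hH20 : 0 ≤ ∏ i, H2 i (comp r i) := by
      refine prod_nonneg fun i _ => ?_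
      simp only [hH2]
      positivity
    split_ifs with hr
    · set n := comp r with hn
      set P : ℝ := ∏ i, G (n i) with hP
      have hn1 : ∀ i, 1 ≤ n i := fun i => Tuples_comp_pos r i
      set n' : Fin k → Fin k → ℕ := fun j i => if i = j then (p0 : ℕ) * n i else n i with hn'
      have hP0 : 0 ≤ P := prod_nonneg fun i _ => h.nonneg _
      have hnn' : ∀ j i, n i ≤ n' j i := by
        intro j i
        simp only [hn']
        split_ifs
        · exact Nat.le_mul_of_pos_left _ hpp
        · exact le_rfl
      have hz : ∀ j, zz (FF G b) (Function.update r p0 (some j)) = - (sgn r * FF G b (n' j)) := by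
        intro j
        unfold zz
        rw [RoughB_sgn hr j]
        have : comp (Function.update r p0 (some j)) = n' j := by
          funext i
          rw [RoughB_comp hr j i]
        rw [this]
        ring
      have hz0 : zz (FF G b) (Function.update r p0 none) = sgn r * FF G b n := by
        have : Function.update r p0 none = r := by
          rw [← hr, Function.update_eq_self]
        rw [this]
        rfl
      have hS : ∑ a, uu (p0 : ℕ) (some i0) a * zz (FF G b) (Function.update r p0 a) =
          sgn r * ((FF G b n - FF G b (n' i0)) + 1 / (p0 : ℕ) * ∑ j, FF G b (n' j)) := by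
        rw [Fintype.sum_option]
        simp only [hz, hz0, uu, one_mul, Option.some.injEq]
        have e1 : ∀ j : Fin k, ((if i0 = j then (1 : ℝ) else 0) - 1 / (p0 : ℕ)) *
            -(sgn r * FF G b (n' j)) =
            -(if i0 = j then sgn r * FF G b (n' j) else 0) +
              sgn r * (1 / (p0 : ℕ)) * FF G b (n' j) := by
          intro j
          split_ifs <;> ring
        rw [sum_congr rfl fun j _ => e1 j, sum_add_distrib, sum_neg_distrib, Finset.sum_ite_eq,
          if_pos (mem_univ _), ← mul_sum]
        ring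
      rw [hS, mul_pow, RoughB_sgn_sq, one_mul]
      have hA : (FF G b n - FF G b (n' i0)) ^ 2 ≤ ∏ i, H1 i (n i) := by
        by_cases hch : G (p0 * n i0) ≠ G (n i0) ∨ b (p0 * n i0) ≠ b (n i0)
        · have e2 : ∏ i, H1 i (n i) = P ^ 2 := by
            rw [hP, ← prod_pow]
            refine prod_congr rfl fun i _ => ?_
            simp only [hH1]
            split_ifs with hi hc
            · rfl
            · exact absurd (hi ▸ hch) hc
            · rfl
          rw [e2]
          have h1 := RoughB_FF_nonneg h n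
          have h2 := RoughB_FF_nonneg h (n' i0)
          have h3 := RoughB_FF_le h hn1 (fun i => le_refl (n i))
          have h4 := RoughB_FF_le h hn1 (hnn' i0)
          rw [← hP] at h3 h4
          rw [← sq_abs]
          have : |FF G b n - FF G b (n' i0)| ≤ P := by
            rw [abs_le]
            constructor <;> linarith
          exact pow_le_pow_left₀ (abs_nonneg _) this 2
        · push Not at hch
          have e3 : FF G b (n' i0) = FF G b n := by
            have hG : ∀ i, G (n' i0 i) = G (n i) := by
              intro i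
              simp only [hn']
              split_ifs with hi
              · rw [hi]; exact hch.1
              · rfl
            have hb : ∀ i, b (n' i0 i) = b (n i) := by
              intro i
              simp only [hn']
              split_ifs with hi
              · rw [hi]; exact hch.2
              · rfl
            unfold FF
            simp only [hG, hb]
          rw [e3, sub_self, zero_pow two_ne_zero]
          exact hH10
      have hB : (1 / (p0 : ℕ) * ∑ j, FF G b (n' j)) ^ 2 ≤
          (k / (p0 : ℕ) : ℝ) ^ 2 * ∏ i, H2 i (n i) := by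
        have e4 : ∏ i, H2 i (n i) = P ^ 2 := by
          rw [hP, ← prod_pow]
        rw [e4, ← mul_pow]
        have h5 : 0 ≤ ∑ j, FF G b (n' j) := sum_nonneg fun j _ => RoughB_FF_nonneg h _
        have h6 : ∑ j, FF G b (n' j) ≤ k * P := by
          calc ∑ j, FF G b (n' j) ≤ ∑ _j : Fin k, P :=
                sum_le_sum fun j _ => RoughB_FF_le h hn1 (hnn' j)
            _ = k * P := by simp
        refine pow_le_pow_left₀ (by positivity) ?_ 2
        calc 1 / ((p0 : ℕ) : ℝ) * ∑ j, FF G b (n' j) ≤ 1 / ((p0 : ℕ) : ℝ) * (k * P) := by gcongr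
          _ = _ := by ring
      have hAB : ((FF G b n - FF G b (n' i0)) + 1 / (p0 : ℕ) * ∑ j, FF G b (n' j)) ^ 2 ≤
          2 * ∏ i, H1 i (n i) + 2 * ((k / (p0 : ℕ) : ℝ) ^ 2 * ∏ i, H2 i (n i)) := by
        nlinarith [sq_nonneg ((FF G b n - FF G b (n' i0)) - 1 / (p0 : ℕ) * ∑ j, FF G b (n' j))]
      calc 1 / ((p0 : ℕ) : ℝ) * ((FF G b n - FF G b (n' i0)) +
            1 / (p0 : ℕ) * ∑ j, FF G b (n' j)) ^ 2 / tot r
          ≤ 1 / ((p0 : ℕ) : ℝ) * (2 * ∏ i, H1 i (n i) +
            2 * ((k / (p0 : ℕ) : ℝ) ^ 2 * ∏ i, H2 i (n i))) / tot r := by gcongr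
        _ = _ := by ring
    · positivity
  refine (sum_le_sum fun r _ => hpt r).trans ?_
  rw [sum_add_distrib, ← mul_sum, ← mul_sum, ← mul_sum, mul_add]
  have hS1 : ∑ r : Cfg k D R, (∏ i, H1 i (comp r i)) / tot r ≤
      I4 D R G b p0 * I2 D R G ^ (k - 1) := by
    refine (RoughB_sum H1 ?_ ?_).trans_eq ?_
    · intro i n
      simp only [hH1]
      split_ifs <;> positivity
    · intro i n hn
      simp only [hH1, h.supp n hn]
      split_ifs <;> simp
    · rw [← Finset.mul_prod_erase univ _ (mem_univ i0)]
      congr 1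
      · simp only [hH1, if_true]
        rfl
      · have e5 : ∀ i ∈ univ.erase i0, ∑ n ∈ NN D R, H1 i n / n = I2 D R G := by
          intro i hi
          unfold I2
          refine sum_congr rfl fun n _ => ?_
          simp only [hH1, if_neg (Finset.ne_of_mem_erase hi)]
        rw [prod_congr rfl e5, prod_const, Tuples_card]
  have hS2 : ∑ r : Cfg k D R, (∏ i, H2 i (comp r i)) / tot r ≤ I2 D R G ^ k := by
    refine (RoughB_sum H2 ?_ ?_).trans_eq ?_
    · intro i n
      simp only [hH2]
      positivity
    · intro i n hn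
      simp only [hH2, h.supp n hn]
      simp
    · simp only [hH2]
      rw [prod_const, card_univ, Fintype.card_fin]
      rfl
  gcongr

end Pool.Agent.MT
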