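import Pool.Agent.Work.MT.SumAll

/-! # the sum of the weights over the integers with a given label at one prime -/

namespace Pool.Agent.MT

open Finset

theorem RoughC_gen {k D R : ℕ} {a b : Fin k → ℕ} (h : Forms k D a b) (l : Cfg k D R → ℝ) (N : ℕ) :
    ∑ m ∈ Ioc N (2 * N), (∑ d : Cfg k D R, l d * ∏ p : PP D R, ind (XX D R a b m p) (d p)) ^ 2 ≤
      N * ∑ X : Cfg k D R, (∏ p : PP D R, mass k p (X p)) *
        (∑ d : Cfg k D R, l d * ∏ p : PP D R, ind (X p) (d p)) ^ 2 +
        (∑ d : Cfg k D R, |l d|) ^ 2 := by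
  classical
  have hsq : ∀ X : Cfg k D R, (∑ d : Cfg k D R, l d * ∏ p : PP D R, ind (X p) (d p)) ^ 2 =
      ∑ d : Cfg k D R, ∑ e : Cfg k D R, l d * l e *
        ((∏ p : PP D R, ind (X p) (d p)) * (∏ p : PP D R, ind (X p) (e p))) := by
    intro X
    rw [sq, Finset.sum_mul_sum]
    apply Finset.sum_congr rfl
    intro d _
    apply Finset.sum_congr rfl
    intro e _
    ring
  have hL : ∑ m ∈ Ioc N (2 * N),
      (∑ d : Cfg k D R, l d * ∏ p : PP D R, ind (XX D R a b m p) (d p)) ^ 2 =
      ∑ d : Cfg k D R, ∑ e : Cfg k D R, l d * l e *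
        ∑ m ∈ Ioc N (2 * N), ((∏ p : PP D R, ind (XX D R a b m p) (d p)) *
          (∏ p : PP D R, ind (XX D R a b m p) (e p))) := by
    simp only [hsq]
    rw [Finset.sum_comm]
    apply Finset.sum_congr rfl
    intro d _
    rw [Finset.sum_comm]
    apply Finset.sum_congr rfl
    intro e _
    rw [Finset.mul_sum]
  have hE : ∑ X : Cfg k D R, (∏ p : PP D R, mass k p (X p)) *
      (∑ d : Cfg k D R, l d * ∏ p : PP D R, ind (X p) (d p)) ^ 2 =
      ∑ d : Cfg k D R, ∑ e : Cfg k D R, l d * l e *
        ∑ X : Cfg k D R, (∏ p : PP D R, mass k p (X p)) *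
          ((∏ p : PP D R, ind (X p) (d p)) * (∏ p : PP D R, ind (X p) (e p))) := by
    simp only [hsq, Finset.mul_sum]
    rw [Finset.sum_comm]
    apply Finset.sum_congr rfl
    intro d _
    rw [Finset.sum_comm]
    apply Finset.sum_congr rfl
    intro e _
    apply Finset.sum_congr rfl
    intro X _
    ring
  rw [hL, hE, sq (∑ d : Cfg k D R, |l d|), Finset.sum_mul_sum, Finset.mul_sum,
    ← Finset.sum_add_distrib]
  apply Finset.sum_le_sum
  intro d _
  rw [Finset.mul_sum, ← Finset.sum_add_distrib]
  apply Finset.sum_le_sum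
  intro e _
  by_cases hde : Comp d e
  · obtain ⟨c, hc⟩ := exists_class h d e hde
    rw [SumAll_expect_comp d e hde]
    simp only [hc]
    have h1 := SumAll_count N c (tot2 d e) (SumAll_tot2_pos d e)
    set S := ∑ m ∈ Ioc N (2 * N), if m ≡ c [MOD tot2 d e] then (1 : ℝ) else 0 with hS
    have h2 : l d * l e * (S - (N : ℝ) / (tot2 d e)) ≤ |l d| * |l e| := by
      calc l d * l e * (S - (N : ℝ) / (tot2 d e))
          ≤ |l d * l e * (S - (N : ℝ) / (tot2 d e))| := le_abs_self _
        _ = |l d| * |l e| * |S - (N : ℝ) / (tot2 d e)| := by rw [abs_mul, abs_mul]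
        _ ≤ |l d| * |l e| * 1 := by
            apply mul_le_mul_of_nonneg_left h1 (by positivity)
        _ = |l d| * |l e| := mul_one _
    have h3 : l d * l e * (S - (N : ℝ) / (tot2 d e)) =
        l d * l e * S - N * (l d * l e * (1 / (tot2 d e : ℝ))) := by ring
    linarith
  · rw [SumAll_expect_not_comp d e hde]
    have h1 : ∑ m ∈ Ioc N (2 * N), ((∏ p : PP D R, ind (XX D R a b m p) (d p)) *
          (∏ p : PP D R, ind (XX D R a b m p) (e p))) = 0 :=
      Finset.sum_eq_zero (fun m _ => not_comp h d e hde m)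
    rw [h1, mul_zero, mul_zero, zero_add]
    positivity

open Classical in
/-- the coefficients of the weight with the condition at `p0` -/
noncomputable def RoughC_l {k D R : ℕ} (l : Cfg k D R → ℝ) (p0 : PP D R) (i0 : Fin k)
    (d : Cfg k D R) : ℝ :=
  if d p0 = some i0 then l d + l (Function.update d p0 none) else 0

theorem RoughC_split {k D R : ℕ} (p0 : PP D R) (i0 : Fin k) (f : Cfg k D R → ℝ) :
    ∑ d ∈ univ.filter (fun d : Cfg k D R => d p0 = some i0), f (Function.update d p0 none) =
      ∑ d ∈ univ.filter (fun d : Cfg k D R => d p0 = none), f d := by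
  classical
  apply Finset.sum_nbij' (fun d => Function.update d p0 none)
    (fun d => Function.update d p0 (some i0))
  · intro d _
    simp
  · intro d _
    simp
  · intro d hd
    rw [mem_filter] at hd
    rw [Function.update_idem, ← hd.2, Function.update_eq_self]
  · intro d hd
    rw [mem_filter] at hd
    rw [Function.update_idem, ← hd.2, Function.update_eq_self]
  · intro d _
    rfl

theorem RoughC_ft {k D R : ℕ} (l : Cfg k D R → ℝ) (p0 : PP D R) (i0 : Fin k) (X : Cfg k D R) :
    (if X p0 = some i0 then ∑ d : Cfg k D R, l d * ∏ p : PP D R, ind (X p) (d p) else 0) =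
      ∑ d : Cfg k D R, RoughC_l l p0 i0 d * ∏ p : PP D R, ind (X p) (d p) := by
  classical
  by_cases hX : X p0 = some i0
  · rw [if_pos hX]
    have h1 : ∑ d : Cfg k D R, RoughC_l l p0 i0 d * ∏ p : PP D R, ind (X p) (d p) =
        ∑ d ∈ univ.filter (fun d : Cfg k D R => d p0 = some i0),
            l d * ∏ p : PP D R, ind (X p) (d p) +
        ∑ d ∈ univ.filter (fun d : Cfg k D R => d p0 = some i0),
            l (Function.update d p0 none) *
              ∏ p : PP D R, ind (X p) ((Function.update d p0 none) p) := by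
      rw [← sum_add_distrib, sum_filter]
      refine sum_congr rfl fun d _ => ?_
      unfold RoughC_l
      split_ifs with hd
      · have h2 : ∏ p : PP D R, ind (X p) ((Function.update d p0 none) p) =
            ∏ p : PP D R, ind (X p) (d p) := by
          refine prod_congr rfl fun p _ => ?_
          by_cases hp : p = p0
          · subst hp
            rw [Function.update_self, hd]
            simp [ind, hX]
          · rw [Function.update_of_ne hp]
        rw [h2]
        ring
      · ring
    rw [h1, RoughC_split p0 i0 (fun d => l d * ∏ p : PP D R, ind (X p) (d p)),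
      sum_filter, sum_filter, ← sum_add_distrib]
    refine sum_congr rfl fun d _ => ?_
    rcases hd : d p0 with _ | j
    · simp
    · by_cases hj : j = i0
      · subst hj
        simp
      · have h3 : ∏ p : PP D R, ind (X p) (d p) = 0 := by
          refine prod_eq_zero (mem_univ p0) ?_
          rw [hd, hX]
          simp [ind, Ne.symm hj]
        rw [h3, mul_zero]
        simp
  · rw [if_neg hX]
    symm
    refine sum_eq_zero fun d _ => ?_
    unfold RoughC_l
    split_ifs with hd
    · rw [prod_eq_zero (mem_univ p0), mul_zero]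
      rw [hd]
      simp [ind, hX]
    · ring

theorem RoughC_abs {k D R : ℕ} (l : Cfg k D R → ℝ) (p0 : PP D R) (i0 : Fin k) :
    ∑ d : Cfg k D R, |RoughC_l l p0 i0 d| ≤ ∑ d : Cfg k D R, |l d| := by
  classical
  have h1 : ∑ d : Cfg k D R, |RoughC_l l p0 i0 d| ≤
      ∑ d ∈ univ.filter (fun d : Cfg k D R => d p0 = some i0), |l d| +
      ∑ d ∈ univ.filter (fun d : Cfg k D R => d p0 = some i0), |l (Function.update d p0 none)| := by
    rw [← sum_add_distrib, sum_filter]
    refine sum_le_sum fun d _ => ?_
    unfold RoughC_l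
    split_ifs
    · exact abs_add_le _ _
    · simp
  refine h1.trans ?_
  rw [RoughC_split p0 i0 (fun d => |l d|), sum_filter, sum_filter, ← sum_add_distrib]
  refine sum_le_sum fun d _ => ?_
  rcases hd : d p0 with _ | j
  · simp
  · by_cases hj : j = i0
    · subst hj
      simp
    · simp [hj]

/-- the sum of the weights over the integers with the label `i0` at `p0` -/
theorem RoughC_sum {k D R : ℕ} {a b : Fin k → ℕ} (h : Forms k D a b) (z : Cfg k D R → ℝ)
    (p0 : PP D R) (i0 : Fin k) (N : ℕ) :
    ∑ m ∈ Ioc N (2 * N),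
        (if XX D R a b m p0 = some i0 then ft z (XX D R a b m) else 0) ^ 2 ≤
      N * ∑ X : Cfg k D R, (∏ p : PP D R, mass k p (X p)) *
        (if X p0 = some i0 then ft z X else 0) ^ 2 + (∑ d : Cfg k D R, |lam z d|) ^ 2 := by
  have h1 : ∀ X : Cfg k D R, (if X p0 = some i0 then ft z X else 0) =
      ∑ d : Cfg k D R, RoughC_l (lam z) p0 i0 d * ∏ p : PP D R, ind (X p) (d p) := by
    intro X
    rw [← RoughC_ft, ft_eq]
  simp only [h1]
  refine (RoughC_gen h (RoughC_l (lam z) p0 i0) N).trans ?_
  have h2 := RoughC_abs (lam z) p0 i0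
  have h3 : 0 ≤ ∑ d : Cfg k D R, |RoughC_l (lam z) p0 i0 d| := sum_nonneg fun _ _ => abs_nonneg _
  gcongr

end Pool.Agent.MT
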