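import Pool.Agent.Work.MT.Cells
import Pool.Agent.Work.MT.RoughB

/-! # the profile, with the bound for the changes of the cell -/

namespace Pool.Agent.MT

open Finset

/-- the numbers of a cell which leave it under multiplication by `p` -/
theorem RoughD_I4 {D R : ℕ} {η : ℝ} {j : ℕ} {C : ℝ}
    (hC : ∀ t : ℝ, 1 ≤ t → |Cells_B D t - kap D * Real.log t| ≤ C) (hR : 1 ≤ R) (hη : 0 < η)
    (hj : (2 : ℝ) ^ j * η ≤ 1) {p : ℕ} (hp : 1 ≤ p) (hpR : (p : ℝ) ≤ (R : ℝ) ^ η) :
    I4 D R (Cells_g R η (j + 1) (fun c => (1 / 2 : ℝ) ^ c))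
      (fun n => 2 ^ (Cells_c R η (j + 1) n) * η) p ≤ ((j : ℝ) + 1) * (kap D * Real.log p + 2 * C) := by
  classical
  have hRR : (1 : ℝ) ≤ R := by exact_mod_cast hR
  have hp0 : (0 : ℝ) < p := by exact_mod_cast hp
  have hT0 : ∀ c : ℕ, (p : ℝ) ≤ Cells_T R η c := by
    intro c
    refine hpR.trans ?_
    have := Cells_T_mono R hR η hη.le (Nat.zero_le c)
    unfold Cells_T at this ⊢
    simpa using this
  have hTR : ∀ c, c ≤ j → Cells_T R η c ≤ R := by
    intro c hc
    refine le_trans (Cells_T_mono R hR η hη.le hc) ?_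
    unfold Cells_T
    calc (R : ℝ) ^ ((2 : ℝ) ^ j * η) ≤ (R : ℝ) ^ (1 : ℝ) :=
          Real.rpow_le_rpow_of_exponent_le hRR hj
      _ = R := Real.rpow_one _
  have h1 : ∀ n ∈ NN D R, (if Cells_g R η (j + 1) (fun c => (1 / 2 : ℝ) ^ c) (p * n) ≠
        Cells_g R η (j + 1) (fun c => (1 / 2 : ℝ) ^ c) n ∨
        (2 : ℝ) ^ (Cells_c R η (j + 1) (p * n)) * η ≠ 2 ^ (Cells_c R η (j + 1) n) * η
        then Cells_g R η (j + 1) (fun c => (1 / 2 : ℝ) ^ c) n ^ 2 else 0) / (n : ℝ) ≤
      ∑ c ∈ range (j + 1), ((if (n : ℝ) ≤ Cells_T R η c then 1 / (n : ℝ) else 0) -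
        (if (n : ℝ) ≤ Cells_T R η c / p then 1 / (n : ℝ) else 0)) := by
    intro n _
    have hn0 : (0 : ℝ) ≤ n := Nat.cast_nonneg _
    have hpos : ∀ c ∈ range (j + 1), 0 ≤ (if (n : ℝ) ≤ Cells_T R η c then 1 / (n : ℝ) else 0) -
        (if (n : ℝ) ≤ Cells_T R η c / p then 1 / (n : ℝ) else 0) := by
      intro c _
      have hle : Cells_T R η c / p ≤ Cells_T R η c :=
        div_le_self (hp0.le.trans (hT0 c)) (by exact_mod_cast hp)
      have h0 : 0 ≤ 1 / (n : ℝ) := by positivity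
      split_ifs with h2 h3 h3
      · linarith
      · linarith
      · exact absurd (h3.trans hle) h2
      · linarith
    by_cases hch : Cells_c R η (j + 1) (p * n) = Cells_c R η (j + 1) n
    · rw [if_neg]
      · rw [zero_div]
        exact sum_nonneg hpos
      · rw [not_or, not_not, not_not]
        constructor
        · unfold Cells_g
          rw [hch]
        · rw [hch]
    · have hlt : Cells_c R η (j + 1) n < Cells_c R η (j + 1) (p * n) :=
        lt_of_le_of_ne (Cells_c_mono R η (j + 1) (Nat.le_mul_of_pos_left n hp)) (Ne.symm hch)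
      -- a boundary between `n` and `p n`
      obtain ⟨c, hc, hc1, hc2⟩ : ∃ c, c < j + 1 ∧ Cells_T R η c < ((p * n : ℕ) : ℝ) ∧
          ¬ Cells_T R η c < (n : ℝ) := by
        by_contra hcon
        push Not at hcon
        apply absurd hlt
        rw [not_lt]
        unfold Cells_c
        apply Finset.card_le_card
        intro d hd
        rw [mem_filter] at hd ⊢
        exact ⟨hd.1, hcon d (mem_range.1 hd.1) hd.2⟩
      rw [not_lt] at hc2
      have hG : Cells_g R η (j + 1) (fun c => (1 / 2 : ℝ) ^ c) n ^ 2 ≤ 1 := by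
        unfold Cells_g
        split_ifs
        · rw [← pow_mul]
          exact pow_le_one₀ (by norm_num) (by norm_num)
        · norm_num
      have hG0 : 0 ≤ Cells_g R η (j + 1) (fun c => (1 / 2 : ℝ) ^ c) n ^ 2 := sq_nonneg _
      calc _ ≤ 1 / (n : ℝ) := by
            apply div_le_div_of_nonneg_right _ hn0
            split_ifs
            · exact hG
            · norm_num
        _ = (if (n : ℝ) ≤ Cells_T R η c then 1 / (n : ℝ) else 0) -
            (if (n : ℝ) ≤ Cells_T R η c / p then 1 / (n : ℝ) else 0) := by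
            rw [if_pos hc2, if_neg, sub_zero]
            rw [le_div_iff₀ hp0, not_le]
            push_cast at hc1
            linarith
        _ ≤ _ := single_le_sum (f := fun c => (if (n : ℝ) ≤ Cells_T R η c then 1 / (n : ℝ) else 0) -
            (if (n : ℝ) ≤ Cells_T R η c / p then 1 / (n : ℝ) else 0)) hpos (mem_range.2 hc)
  unfold I4
  refine (sum_le_sum h1).trans ?_
  rw [sum_comm]
  calc ∑ c ∈ range (j + 1), ∑ n ∈ NN D R, ((if (n : ℝ) ≤ Cells_T R η c then 1 / (n : ℝ) else 0) -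
        (if (n : ℝ) ≤ Cells_T R η c / p then 1 / (n : ℝ) else 0))
      ≤ ∑ _c ∈ range (j + 1), (kap D * Real.log p + 2 * C) := by
        refine sum_le_sum fun c hc => ?_
        have hcj : c ≤ j := by
          rw [mem_range] at hc
          omega
        have hle : Cells_T R η c / p ≤ Cells_T R η c :=
          div_le_self (hp0.le.trans (hT0 c)) (by exact_mod_cast hp)
        rw [sum_sub_distrib, Cells_BT D R _ (hTR c hcj), Cells_BT D R _ (hle.trans (hTR c hcj))]
        have hT1 : 1 ≤ Cells_T R η c := le_trans (by exact_mod_cast hp) (hT0 c)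
        have h2 := hC _ hT1
        have h3 := hC (Cells_T R η c / p) (by rw [le_div_iff₀ hp0, one_mul]; exact hT0 c)
        rw [Real.log_div (by linarith) hp0.ne'] at h3
        rw [abs_le] at h2 h3
        nlinarith [h2.1, h2.2, h3.1, h3.2]
    _ = _ := by
        rw [sum_const, card_range, nsmul_eq_mul]
        push_cast
        ring

/-- the choice of the profile, with the bound for the changes of the cell -/
theorem cells_rough (M : ℝ) : ∃ k : ℕ, 2 ≤ k ∧ ∃ η : ℝ, 0 < η ∧ η ≤ 1 ∧ ∃ J : ℕ, ∀ D : ℕ,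
    ∃ (R₀ : ℕ) (C : ℝ), 0 ≤ C ∧ ∀ R : ℕ, R₀ ≤ R →
    ∃ G b : ℕ → ℝ, Good R G b ∧ 1 ≤ I2 D R G ∧ 4 * k * I3 D R G b ≤ I2 D R G ∧
      M * kap D * Real.log R * I2 D R G ≤ k * I1 D R G ^ 2 ∧
      η / 2 * (kap D * Real.log R) ≤ I2 D R G ∧
      ∀ p : ℕ, 1 ≤ p → (p : ℝ) ≤ (R : ℝ) ^ η → I4 D R G b p ≤ J * (kap D * Real.log p + C) := by
  obtain ⟨j, hj⟩ : ∃ j : ℕ, 768 * M ≤ j := ⟨⌈768 * M⌉₊, Nat.le_ceil _⟩
  set k : ℕ := 2 ^ (j + 1) with hk
  have hk2 : 2 ≤ k := by
    rw [hk, pow_succ]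
    have : 1 ≤ 2 ^ j := Nat.one_le_two_pow
    omega
  have hkR : (0 : ℝ) < k := by positivity
  have hkR' : (k : ℝ) = 2 ^ j * 2 := by
    rw [hk]
    push_cast
    rw [pow_succ]
  set η : ℝ := 1 / (16 * k * (j + 1)) with hη
  have hη0 : 0 < η := by positivity
  have hkη : 16 * (k : ℝ) * (j + 1) * η = 1 := by
    rw [hη]
    field_simp
  have h2j : (2 : ℝ) ^ j * η ≤ 1 / 32 := by
    have h1 : 32 * ((2 : ℝ) ^ j * η) * (j + 1) = 1 := by
      calc 32 * ((2 : ℝ) ^ j * η) * (j + 1) = 16 * (2 ^ j * 2) * (j + 1) * η := by ring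
        _ = 1 := by rw [← hkR', hkη]
    have h3 : 0 ≤ (2 : ℝ) ^ j * η := by positivity
    have h4 : 0 ≤ (2 : ℝ) ^ j * η * j := by positivity
    nlinarith
  have hη1 : η ≤ 1 := by
    have h1 : (1 : ℝ) ≤ 2 ^ j := one_le_pow₀ (by norm_num)
    nlinarith
  refine ⟨k, hk2, η, hη0, hη1, j + 1, fun D => ?_⟩
  obtain ⟨C, hC0, hC⟩ := Cells_B_asym D
  have hkap : 0 < kap D := Cells_k_nonneg ((Icc 1 D).filter Nat.Prime) (fun _ hq => (mem_filter.1 hq).2)
  refine ⟨⌈Real.exp (2 * (C + 1) / (η * kap D))⌉₊ + 1, 2 * C, by positivity, fun R hR => ?_⟩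
  have hR1 : 1 ≤ R := by omega
  have hRR : (1 : ℝ) ≤ R := by exact_mod_cast hR1
  have hexp : Real.exp (2 * (C + 1) / (η * kap D)) ≤ R := by
    refine le_trans (Nat.le_ceil _) ?_
    exact_mod_cast (by omega : ⌈Real.exp (2 * (C + 1) / (η * kap D))⌉₊ ≤ R)
  have hlog : 2 * (C + 1) / (η * kap D) ≤ Real.log R := by
    rw [Real.le_log_iff_exp_le (by linarith)]
    exact hexp
  have hBv : 2 * (C + 1) ≤ η * (kap D * Real.log R) := by
    rw [div_le_iff₀ (by positivity)] at hlog
    linarith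
  have hlog0 : 0 ≤ Real.log R := Real.log_nonneg hRR
  set B : ℝ := kap D * Real.log R with hB
  have hB0 : 0 ≤ B := by positivity
  have hbd := Cells_bounds D R hR1 η hη0 j (by linarith) C hC (by linarith) hB0
  have hg1 := hbd (fun c => (1 / 2 : ℝ) ^ c) (fun c => by
    rw [pow_succ]
    have : (0 : ℝ) ≤ (1 / 2) ^ c := by positivity
    linarith) (fun c => by positivity)
  have hg2 := hbd (fun c => (1 / 4 : ℝ) ^ c) (fun c => by
    rw [pow_succ]
    have : (0 : ℝ) ≤ (1 / 4) ^ c := by positivity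
    linarith) (fun c => by positivity)
  simp only [Cells_phi1] at hg1
  simp only [Cells_phi2] at hg2
  have hI1 : I1 D R (Cells_g R η (j + 1) (fun c => (1 / 2 : ℝ) ^ c)) =
      ∑ n ∈ NN D R, Cells_g R η (j + 1) (fun c => (1 / 2 : ℝ) ^ c) n / (n : ℝ) := rfl
  have hI2 : I2 D R (Cells_g R η (j + 1) (fun c => (1 / 2 : ℝ) ^ c)) =
      ∑ n ∈ NN D R, Cells_g R η (j + 1) (fun c => (1 / 4 : ℝ) ^ c) n / (n : ℝ) := by
    unfold I2
    apply Finset.sum_congr rfl
    intro n _
    unfold Cells_g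
    split_ifs
    · rw [← pow_mul, mul_comm _ 2, pow_mul]
      norm_num
    · norm_num
  have hI3 : I3 D R (Cells_g R η (j + 1) (fun c => (1 / 2 : ℝ) ^ c))
      (fun n => 2 ^ (Cells_c R η (j + 1) n) * η) =
      η * ∑ n ∈ NN D R, Cells_g R η (j + 1) (fun c => (1 / 2 : ℝ) ^ c) n / (n : ℝ) := by
    unfold I3
    rw [Finset.mul_sum]
    apply Finset.sum_congr rfl
    intro n _
    unfold Cells_g
    split_ifs
    · have h : (2 : ℝ) ^ (Cells_c R η (j + 1) n) * (1 / 2) ^ (Cells_c R η (j + 1) n) = 1 := by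
        rw [← mul_pow]
        norm_num
      calc 2 ^ (Cells_c R η (j + 1) n) * η * ((1 / 2 : ℝ) ^ (Cells_c R η (j + 1) n)) ^ 2 / (n : ℝ)
          = ((2 : ℝ) ^ (Cells_c R η (j + 1) n) * (1 / 2) ^ (Cells_c R η (j + 1) n)) *
            (η * ((1 / 2 : ℝ) ^ (Cells_c R η (j + 1) n) / (n : ℝ))) := by ring
        _ = _ := by rw [h, one_mul]
    · simp
  have hhalf : (1 / 2 : ℝ) ^ (j + 1) ≤ 1 / 2 := by
    rw [pow_succ]
    have : (1 / 2 : ℝ) ^ j ≤ 1 := pow_le_one₀ (by norm_num) (by norm_num)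
    linarith
  have hhalf0 : (0 : ℝ) ≤ (1 / 2 : ℝ) ^ (j + 1) := by positivity
  set S1 : ℝ := ∑ n ∈ NN D R, Cells_g R η (j + 1) (fun c => (1 / 2 : ℝ) ^ c) n / (n : ℝ) with hS1
  set S2 : ℝ := ∑ n ∈ NN D R, Cells_g R η (j + 1) (fun c => (1 / 4 : ℝ) ^ c) n / (n : ℝ) with hS2
  have hηB : 0 ≤ η * B := by positivity
  have hjR : (0 : ℝ) ≤ j := Nat.cast_nonneg j
  have hS2lo : 1 / 2 * (η * B) ≤ S2 := by
    refine le_trans ?_ hg2.1
    nlinarith
  have hS2hi : S2 ≤ 3 * (η * B) := by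
    refine le_trans hg2.2 ?_
    nlinarith
  have hS1lo : η * B * (j + 1) / 4 ≤ S1 := by
    refine le_trans ?_ hg1.1
    nlinarith
  have hS1hi : S1 ≤ η * B * (j + 2) := by
    refine le_trans hg1.2 ?_
    nlinarith
  refine ⟨Cells_g R η (j + 1) (fun c => (1 / 2 : ℝ) ^ c),
    fun n => 2 ^ (Cells_c R η (j + 1) n) * η, ?_, ?_, ?_, ?_, ?_, ?_⟩
  · refine ⟨?_, ?_, ?_, ?_, ?_, ?_, ?_⟩
    · intro n
      unfold Cells_g
      split_ifs
      · positivity
      · exact le_rfl
    · intro n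
      unfold Cells_g
      split_ifs
      · exact pow_le_one₀ (by norm_num) (by norm_num)
      · norm_num
    · intro m n _ hmn
      have hc := Cells_c_mono R η (j + 1) hmn
      unfold Cells_g
      by_cases h1 : Cells_c R η (j + 1) n < j + 1
      · rw [if_pos h1, if_pos (lt_of_le_of_lt hc h1)]
        exact pow_le_pow_of_le_one (by norm_num) (by norm_num) hc
      · rw [if_neg h1]
        split_ifs
        · positivity
        · exact le_rfl
    · intro n hn
      unfold Cells_g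
      rw [if_neg]
      intro h
      have h1 := (Cells_c_le_iff R hR1 η hη0.le (j + 1) n j (by omega)).1 (by omega)
      have h2 : Cells_T R η j ≤ R := by
        unfold Cells_T
        calc (R : ℝ) ^ ((2 : ℝ) ^ j * η) ≤ (R : ℝ) ^ (1 : ℝ) :=
              Real.rpow_le_rpow_of_exponent_le hRR (by linarith)
          _ = R := Real.rpow_one _
      have h3 : (R : ℝ) < n := by exact_mod_cast hn
      linarith
    · intro n
      positivity
    · intro n hn
      unfold Cells_g at hn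
      have h1 : Cells_c R η (j + 1) n < j + 1 := by
        by_contra h
        rw [if_neg h] at hn
        exact hn rfl
      have h2 : (2 : ℝ) ^ (Cells_c R η (j + 1) n) ≤ 2 ^ j :=
        pow_le_pow_right₀ (by norm_num) (by omega)
      have h3 : (2 : ℝ) ^ (Cells_c R η (j + 1) n) * η ≤ 2 ^ j * η :=
        mul_le_mul_of_nonneg_right h2 hη0.le
      show (2 : ℝ) ^ (Cells_c R η (j + 1) n) * η ≤ 1 / 2
      linarith
    · intro n _ hn
      unfold Cells_g at hn
      have h1 : Cells_c R η (j + 1) n < j + 1 := by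
        by_contra h
        rw [if_neg h] at hn
        exact hn rfl
      exact (Cells_c_le_iff R hR1 η hη0.le (j + 1) n _ h1).1 le_rfl
  · rw [hI2]
    linarith
  · rw [hI2, hI3]
    have h1 : 4 * (k : ℝ) * (η * S1) ≤ 4 * k * (η * (η * B * (j + 2))) := by
      apply mul_le_mul_of_nonneg_left _ (by positivity)
      exact mul_le_mul_of_nonneg_left hS1hi hη0.le
    have h2 : 4 * (k : ℝ) * (η * (η * B * (j + 2))) ≤ 1 / 2 * (η * B) := by
      have h3 : 4 * (k : ℝ) * η * (j + 2) ≤ 1 / 2 := by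
        have h4 : 0 ≤ (k : ℝ) * η := by positivity
        have h5 : 0 ≤ (k : ℝ) * η * j := by positivity
        nlinarith
      calc 4 * (k : ℝ) * (η * (η * B * (j + 2))) = (4 * (k : ℝ) * η * (j + 2)) * (η * B) := by ring
        _ ≤ _ := mul_le_mul_of_nonneg_right h3 hηB
    linarith
  · rw [hI1, hI2]
    have hS20 : 0 ≤ S2 := by linarith
    rcases le_or_gt M 0 with hM | hM
    · have h1 : M * kap D * Real.log R * S2 ≤ 0 := by
        have : M * kap D * Real.log R * S2 = M * (B * S2) := by rw [hB]; ring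
        rw [this]
        exact mul_nonpos_of_nonpos_of_nonneg hM (mul_nonneg hB0 hS20)
      have h2 : 0 ≤ (k : ℝ) * S1 ^ 2 := by positivity
      linarith
    · have h1 : M * kap D * Real.log R * S2 ≤ M * B * (3 * (η * B)) := by
        have : M * kap D * Real.log R * S2 = M * B * S2 := by rw [hB]; ring
        rw [this]
        exact mul_le_mul_of_nonneg_left hS2hi (by positivity)
      have h2 : (k : ℝ) * (η * B * (j + 1) / 4) ^ 2 ≤ k * S1 ^ 2 := by
        apply mul_le_mul_of_nonneg_left _ hkR.le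
        exact pow_le_pow_left₀ (by positivity) hS1lo 2
      have h3 : M * B * (3 * (η * B)) ≤ (k : ℝ) * (η * B * (j + 1) / 4) ^ 2 := by
        have h4 : (k : ℝ) * (η * B * (j + 1) / 4) ^ 2 =
            (16 * (k : ℝ) * (j + 1) * η) * (j + 1) * (η * B * B) / 256 := by ring
        rw [h4, hkη]
        have h5 : 0 ≤ η * B * B := by positivity
        nlinarith
      linarith
  · rw [hI2]
    linarith
  · intro p hp hpR
    push_cast
    exact RoughD_I4 hC hR1 hη0 (by linarith) hp hpR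

end Pool.Agent.MT
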