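import Pool.Agent.Work.MT.RoughB
import Pool.Agent.Work.MT.RoughC
import Pool.Agent.Work.MP_40574a_nt.Mertens

/-! # the sum of the weights over the integers with a small prime factor in one of the forms -/

namespace Pool.Agent.MT

open Finset Pool.Agent.Work.MP_40574a_nt

/-- `∑_{p ≤ y} log p / p ≤ log y + log 4` -/
theorem RoughE_log (y : ℕ) (hy : 1 ≤ y) :
    ∑ p ∈ (Icc 0 y).filter Nat.Prime, Real.log p / p ≤ Real.log y + Real.log 4 := by
  rw [← Mertens.A_nat]
  exact Mertens.upper_nat hy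

/-- `∑_{p ≤ y} 1/p ≤ ε log y + K` -/
theorem RoughE_recip (ε : ℝ) (hε : 0 < ε) : ∃ K : ℝ, 0 ≤ K ∧ ∀ y : ℕ, 1 ≤ y →
    ∑ p ∈ (Icc 0 y).filter Nat.Prime, 1 / (p : ℝ) ≤ ε * Real.log y + K := by
  set w : ℕ := ⌈Real.exp (1 / ε)⌉₊ with hw
  have hlog4 : 0 ≤ Real.log 4 := Real.log_nonneg (by norm_num)
  refine ⟨(w + 1) + ε * Real.log 4, by positivity, fun y hy => ?_⟩
  have h1 : ∑ p ∈ (Icc 0 y).filter Nat.Prime, 1 / (p : ℝ) ≤
      ∑ p ∈ (Icc 0 y).filter Nat.Prime, ((if p ≤ w then 1 else 0) + ε * (Real.log p / p)) := by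
    refine sum_le_sum fun p hp => ?_
    have hpp := (mem_filter.1 hp).2
    have hp1 : (1 : ℝ) ≤ p := by exact_mod_cast hpp.one_lt.le
    have hl0 : 0 ≤ Real.log p := Real.log_nonneg hp1
    split_ifs with h
    · have h2 : 1 / (p : ℝ) ≤ 1 := by
        rw [div_le_one (by linarith)]
        exact hp1
      have : 0 ≤ ε * (Real.log p / p) := by positivity
      linarith
    · have h3 : Real.exp (1 / ε) ≤ p := by
        refine (Nat.le_ceil _).trans ?_
        rw [← hw]
        exact_mod_cast (by omega : w ≤ p)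
      have h4 : 1 / ε ≤ Real.log p := by
        rw [Real.le_log_iff_exp_le (by linarith)]
        exact h3
      have h5 : 1 ≤ ε * Real.log p := by
        rw [div_le_iff₀ hε] at h4
        linarith
      rw [zero_add, ← mul_div_assoc]
      gcongr
  refine h1.trans ?_
  rw [sum_add_distrib, ← mul_sum]
  have h6 : ∑ p ∈ (Icc 0 y).filter Nat.Prime, (if p ≤ w then (1 : ℝ) else 0) ≤ w + 1 := by
    rw [← sum_filter, sum_const, nsmul_eq_mul, mul_one]
    have : (((Icc 0 y).filter Nat.Prime).filter (fun p => p ≤ w)).card ≤ (range (w + 1)).card := by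
      refine card_le_card fun p hp => ?_
      rw [mem_filter] at hp
      exact mem_range.2 (by omega)
    rw [card_range] at this
    exact_mod_cast this
  have h7 := mul_le_mul_of_nonneg_left (RoughE_log y hy) hε.le
  linarith

open Classical in
/-- the integers at which one of the forms has a prime factor `≤ y` -/
noncomputable def RoughE_bad {k : ℕ} (D R : ℕ) (a b : Fin k → ℕ) (y N : ℕ) : Finset ℕ :=
  (Ioc N (2 * N)).filter (fun m => ∃ p : PP D R, (p : ℕ) ≤ y ∧ XX D R a b m p ≠ none)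

theorem RoughE_sum {k D R : ℕ} {a b : Fin k → ℕ} (h : Forms k D a b) (hk : k ≤ D) (hD : 1 ≤ D)
    {G bb : ℕ → ℝ} (hG : Good R G bb) {J : ℕ} {C κ : ℝ} (hC : 0 ≤ C) (hκ : 0 ≤ κ) {y : ℕ}
    (hy : 1 ≤ y) (hI4 : ∀ p : ℕ, 1 ≤ p → p ≤ y → I4 D R G bb p ≤ J * (κ * Real.log p + C))
    (N : ℕ) :
    ∑ m ∈ RoughE_bad D R a b y N, ft (zz (FF G bb)) (XX D R a b m) ^ 2 ≤
      N * (k * (2 * J * (κ * (Real.log y + Real.log 4) +
        C * ∑ p ∈ (Icc 0 y).filter Nat.Prime, 1 / (p : ℝ)) * I2 D R G ^ (k - 1) +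
        2 * k ^ 2 / D ^ 2 * I2 D R G ^ k)) +
      k * (y + 1) * (∑ d : Cfg k D R, |lam (zz (FF G bb)) d|) ^ 2 := by
  classical
  set z : Cfg k D R → ℝ := zz (FF G bb) with hz
  set Λ : ℝ := (∑ d : Cfg k D R, |lam z d|) ^ 2 with hΛ
  have hI20 : 0 ≤ I2 D R G := Tuples_I2_nonneg D R G
  have hD0 : (0 : ℝ) < D := by exact_mod_cast hD
  -- step 1
  have h1 : ∀ m ∈ RoughE_bad D R a b y N, ft z (XX D R a b m) ^ 2 ≤
      ∑ p : PP D R, if (p : ℕ) ≤ y then ∑ i0 : Fin k,
        (if XX D R a b m p = some i0 then ft z (XX D R a b m) else 0) ^ 2 else 0 := by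
    intro m hm
    unfold RoughE_bad at hm
    rw [mem_filter] at hm
    obtain ⟨_, p, hpy, hX⟩ := hm
    obtain ⟨i0, hi0⟩ := Option.ne_none_iff_exists'.1 hX
    calc ft z (XX D R a b m) ^ 2 =
        (if XX D R a b m p = some i0 then ft z (XX D R a b m) else 0) ^ 2 := by rw [if_pos hi0]
      _ ≤ ∑ i0 : Fin k, (if XX D R a b m p = some i0 then ft z (XX D R a b m) else 0) ^ 2 :=
          single_le_sum (f := fun i0 => (if XX D R a b m p = some i0 then ft z (XX D R a b m)
            else 0) ^ 2) (fun _ _ => sq_nonneg _) (mem_univ i0)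
      _ = (if (p : ℕ) ≤ y then ∑ i0 : Fin k,
          (if XX D R a b m p = some i0 then ft z (XX D R a b m) else 0) ^ 2 else 0) := by
          rw [if_pos hpy]
      _ ≤ _ := single_le_sum (f := fun p : PP D R => if (p : ℕ) ≤ y then ∑ i0 : Fin k,
            (if XX D R a b m p = some i0 then ft z (XX D R a b m) else 0) ^ 2 else 0)
            (fun _ _ => by
              split_ifs
              · exact sum_nonneg fun _ _ => sq_nonneg _
              · exact le_rfl) (mem_univ p)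
  -- the bound at one prime
  set g : ℕ → ℝ := fun p => k * (N * (2 / p * (J * (κ * Real.log p + C) * I2 D R G ^ (k - 1) +
    (k / p : ℝ) ^ 2 * I2 D R G ^ k)) + Λ) with hg
  have h2 : ∀ p : PP D R, (p : ℕ) ≤ y → ∑ m ∈ Ioc N (2 * N), ∑ i0 : Fin k,
      (if XX D R a b m p = some i0 then ft z (XX D R a b m) else 0) ^ 2 ≤ g p := by
    intro p hpy
    rw [sum_comm]
    have hp1 : 1 ≤ (p : ℕ) := (Tuples_mem p).2.2.pos
    have h3 : ∀ i0 ∈ (univ : Finset (Fin k)), ∑ m ∈ Ioc N (2 * N),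
        (if XX D R a b m p = some i0 then ft z (XX D R a b m) else 0) ^ 2 ≤
        N * (2 / (p : ℕ) * (J * (κ * Real.log (p : ℕ) + C) * I2 D R G ^ (k - 1) +
          (k / (p : ℕ) : ℝ) ^ 2 * I2 D R G ^ k)) + Λ := by
      intro i0 _
      refine (RoughC_sum h z p i0 N).trans ?_
      have h4 := RoughB_E hk hG p i0
      have h5 := hI4 p hp1 hpy
      have h6 : 0 ≤ I2 D R G ^ (k - 1) := by positivity
      have h7 : 2 / ((p : ℕ) : ℝ) * (I4 D R G bb p * I2 D R G ^ (k - 1) +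
          (k / (p : ℕ) : ℝ) ^ 2 * I2 D R G ^ k) ≤
          2 / (p : ℕ) * (J * (κ * Real.log (p : ℕ) + C) * I2 D R G ^ (k - 1) +
          (k / (p : ℕ) : ℝ) ^ 2 * I2 D R G ^ k) := by gcongr
      have h8 := h4.trans h7
      gcongr
    refine (sum_le_sum h3).trans ?_
    rw [sum_const, card_univ, Fintype.card_fin, nsmul_eq_mul]
  have hlog0 : ∀ p : ℕ, 0 ≤ Real.log p := fun p => Real.log_natCast_nonneg p
  have hg0 : ∀ p, 0 ≤ g p := by
    intro p
    have := hlog0 p
    simp only [hg]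
    positivity
  -- step 2
  have h9 : ∑ m ∈ RoughE_bad D R a b y N, ft z (XX D R a b m) ^ 2 ≤
      ∑ p ∈ PP D R, if p ≤ y then g p else 0 := by
    calc ∑ m ∈ RoughE_bad D R a b y N, ft z (XX D R a b m) ^ 2
        ≤ ∑ m ∈ RoughE_bad D R a b y N, ∑ p : PP D R, if (p : ℕ) ≤ y then ∑ i0 : Fin k,
          (if XX D R a b m p = some i0 then ft z (XX D R a b m) else 0) ^ 2 else 0 :=
          sum_le_sum h1
      _ ≤ ∑ m ∈ Ioc N (2 * N), ∑ p : PP D R, if (p : ℕ) ≤ y then ∑ i0 : Fin k,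
          (if XX D R a b m p = some i0 then ft z (XX D R a b m) else 0) ^ 2 else 0 := by
          refine sum_le_sum_of_subset_of_nonneg (filter_subset _ _) fun m _ _ => ?_
          refine sum_nonneg fun p _ => ?_
          split_ifs
          · exact sum_nonneg fun _ _ => sq_nonneg _
          · exact le_rfl
      _ = ∑ p : PP D R, if (p : ℕ) ≤ y then ∑ m ∈ Ioc N (2 * N), ∑ i0 : Fin k,
          (if XX D R a b m p = some i0 then ft z (XX D R a b m) else 0) ^ 2 else 0 := by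
          rw [sum_comm]
          refine sum_congr rfl fun p _ => ?_
          split_ifs
          · rfl
          · simp
      _ ≤ ∑ p : PP D R, if (p : ℕ) ≤ y then g p else 0 := by
          refine sum_le_sum fun p _ => ?_
          split_ifs with hp
          · exact h2 p hp
          · exact le_rfl
      _ = _ := Finset.sum_coe_sort (PP D R) (fun p => if p ≤ y then g p else 0)
  refine h9.trans ?_
  rw [← sum_filter]
  -- step 3
  set P : Finset ℕ := (PP D R).filter (fun p => p ≤ y) with hP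
  have hsub : P ⊆ (Icc 0 y).filter Nat.Prime := by
    intro p hp
    rw [hP, mem_filter, PP, mem_filter] at hp
    rw [mem_filter, mem_Icc]
    exact ⟨⟨Nat.zero_le _, hp.2⟩, hp.1.2⟩
  have hcard : (P.card : ℝ) ≤ y + 1 := by
    have h10 : P.card ≤ (range (y + 1)).card := by
      refine card_le_card fun p hp => ?_
      rw [hP, mem_filter] at hp
      exact mem_range.2 (by omega)
    rw [card_range] at h10
    exact_mod_cast h10
  have e1 : ∑ p ∈ P, g p = N * (k * (2 * J * (κ * ∑ p ∈ P, Real.log p / p +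
      C * ∑ p ∈ P, 1 / (p : ℝ)) * I2 D R G ^ (k - 1) +
      2 * k ^ 2 * (∑ p ∈ P, 1 / (p : ℝ) ^ 3) * I2 D R G ^ k)) + k * P.card * Λ := by
    have e2 : ∀ p ∈ P, g p = N * (k * (2 * J * (κ * (Real.log p / p) + C * (1 / (p : ℝ))) *
        I2 D R G ^ (k - 1) + 2 * k ^ 2 * (1 / (p : ℝ) ^ 3) * I2 D R G ^ k)) + k * Λ := by
      intro p hp
      rw [hP, mem_filter, PP, mem_filter] at hp
      have hp0 : (p : ℝ) ≠ 0 := by exact_mod_cast hp.1.2.ne_zero
      simp only [hg]
      field_simp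
    rw [sum_congr rfl e2, sum_add_distrib, sum_const, nsmul_eq_mul]
    simp only [mul_add, add_mul, sum_add_distrib, mul_sum, sum_mul]
    ring
  rw [e1]
  have h11 : ∑ p ∈ P, Real.log p / p ≤ Real.log y + Real.log 4 :=
    (sum_le_sum_of_subset_of_nonneg hsub fun p _ _ => by
      have := hlog0 p
      positivity).trans (RoughE_log y hy)
  have h12 : ∑ p ∈ P, 1 / (p : ℝ) ≤ ∑ p ∈ (Icc 0 y).filter Nat.Prime, 1 / (p : ℝ) :=
    sum_le_sum_of_subset_of_nonneg hsub fun p _ _ => by positivity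
  have h13 : ∑ p ∈ P, 1 / (p : ℝ) ^ 3 ≤ 1 / (D : ℝ) ^ 2 := by
    calc ∑ p ∈ P, 1 / (p : ℝ) ^ 3 ≤ ∑ p ∈ PP D R, 1 / (p : ℝ) ^ 3 :=
          sum_le_sum_of_subset_of_nonneg (filter_subset _ _) fun p _ _ => by positivity
      _ ≤ ∑ p ∈ PP D R, 1 / (D : ℝ) * (1 / (p : ℝ) ^ 2) := by
          refine sum_le_sum fun p hp => ?_
          rw [PP, mem_filter, mem_Ioc] at hp
          have hDp : (D : ℝ) ≤ p := by exact_mod_cast hp.1.1.le
          have hp0 : (0 : ℝ) < p := by exact_mod_cast hp.2.pos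
          rw [div_mul_div_comm, one_mul]
          apply div_le_div_of_nonneg_left (by norm_num) (by positivity)
          nlinarith [mul_le_mul_of_nonneg_right hDp (by positivity : (0 : ℝ) ≤ (p : ℝ) ^ 2)]
      _ = 1 / (D : ℝ) * ∑ p ∈ PP D R, 1 / (p : ℝ) ^ 2 := by rw [mul_sum]
      _ ≤ 1 / (D : ℝ) * (1 / D) := by
          have := Tuples_sum_sq (R := R) hD
          gcongr
      _ = 1 / (D : ℝ) ^ 2 := by
          rw [div_mul_div_comm, one_mul, sq]
  have h14 : 0 ≤ Λ := sq_nonneg _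
  have h15 : 0 ≤ ∑ p ∈ P, 1 / (p : ℝ) := sum_nonneg fun p _ => by positivity
  have h16 : 0 ≤ ∑ p ∈ P, Real.log p / p := sum_nonneg fun p _ => by
    have := hlog0 p
    positivity
  have e3 : 2 * (k : ℝ) ^ 2 / D ^ 2 * I2 D R G ^ k = 2 * k ^ 2 * (1 / D ^ 2) * I2 D R G ^ k := by
    ring
  rw [e3]
  gcongr

end Pool.Agent.MT
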