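import Pool.Agent.Work.MT.MainA
import Pool.Agent.Work.MT.Small
import Pool.Agent.Work.MT.RoughD
import Pool.Agent.Work.MT.RoughE

/-! # Maynard-Tao with all the forms free of small prime factors (after Pintz) -/

namespace Pool.Agent.MT

open Finset Filter

/-- the contribution of the integers with a small prime factor -/
lemma RoughF_bad {k : ℕ} {N lN κ η c ly l4 C K ε s1 y Λ D i2 SB J : ℝ} (hk : 1 ≤ k) (hN : 0 ≤ N)
    (hκ : 0 < κ) (hC : 0 ≤ C) (hJ : 0 ≤ J) (hlN : 0 ≤ lN) (hi2 : 1 ≤ i2) (hD : 0 < D)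
    (hly0 : 0 ≤ ly)
    (hbad : SB ≤ N * (k * (2 * J * (κ * (ly + l4) + C * s1) * i2 ^ (k - 1) +
      2 * k ^ 2 / D ^ 2 * i2 ^ k)) + k * (y + 1) * Λ)
    (hly : ly ≤ c * lN) (hS : s1 ≤ ε * ly + K) (hε : C * ε ≤ κ) (hi : η / 12 * (κ * lN) ≤ i2)
    (hc : 1536 * k ^ 2 * J * c ≤ η) (hN1 : 768 * k ^ 2 * J * (κ * l4 + C * K) ≤ η * (κ * lN))
    (hDk : 32 * (k : ℝ) ^ 4 ≤ D ^ 2) (hΛ : 16 * k ^ 2 * (y + 1) * Λ ≤ N) :
    4 * k * SB ≤ N * i2 ^ k := by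
  have hk1 : (1 : ℝ) ≤ k := by exact_mod_cast hk
  have hk0 : (0 : ℝ) < k := by linarith
  have hik : i2 ^ k = i2 * i2 ^ (k - 1) := by
    rw [← pow_succ']
    congr 1
    omega
  have hp1 : 1 ≤ i2 ^ (k - 1) := one_le_pow₀ hi2
  have hik1 : 1 ≤ i2 ^ k := one_le_pow₀ hi2
  have hκl : 0 ≤ κ * lN := by positivity
  -- term 1
  have t1 : κ * (ly + l4) + C * s1 ≤ 2 * (κ * (c * lN)) + (κ * l4 + C * K) := by
    have e1 : C * s1 ≤ C * (ε * ly + K) := mul_le_mul_of_nonneg_left hS hC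
    have e2 : C * ε * ly ≤ κ * ly := mul_le_mul_of_nonneg_right hε hly0
    have e3 : κ * ly ≤ κ * (c * lN) := mul_le_mul_of_nonneg_left hly hκ.le
    nlinarith
  have t2 : 32 * k * (2 * k * J * (2 * (κ * (c * lN)))) ≤ i2 := by
    have e4 : 1536 * k ^ 2 * J * c * (κ * lN) ≤ η * (κ * lN) := mul_le_mul_of_nonneg_right hc hκl
    have e5 : 32 * k * (2 * k * J * (2 * (κ * (c * lN)))) =
      1 / 12 * (1536 * k ^ 2 * J * c * (κ * lN)) := by ring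
    rw [e5]
    linarith
  have t3 : 32 * k * (2 * k * J * (κ * l4 + C * K)) ≤ i2 := by
    have e6 : 32 * k * (2 * k * J * (κ * l4 + C * K)) =
      1 / 12 * (768 * k ^ 2 * J * (κ * l4 + C * K)) := by ring
    rw [e6]
    linarith
  have t4 : 16 * k * (k * (2 * J * (κ * (ly + l4) + C * s1) * i2 ^ (k - 1))) ≤ i2 ^ k := by
    have e7 : 16 * k * (2 * k * J * (κ * (ly + l4) + C * s1)) ≤ i2 := by
      have e8 : 16 * k * (2 * k * J * (κ * (ly + l4) + C * s1)) ≤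
          16 * k * (2 * k * J * (2 * (κ * (c * lN)) + (κ * l4 + C * K))) := by gcongr
      nlinarith
    calc 16 * k * (k * (2 * J * (κ * (ly + l4) + C * s1) * i2 ^ (k - 1))) =
        16 * k * (2 * k * J * (κ * (ly + l4) + C * s1)) * i2 ^ (k - 1) := by ring
      _ ≤ i2 * i2 ^ (k - 1) := by gcongr
      _ = i2 ^ k := hik.symm
  have t5 : 16 * k * (k * (2 * k ^ 2 / D ^ 2 * i2 ^ k)) ≤ i2 ^ k := by
    have e9 : 32 * (k : ℝ) ^ 4 / D ^ 2 ≤ 1 := by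
      rw [div_le_one (by positivity)]
      exact hDk
    calc 16 * k * (k * (2 * k ^ 2 / D ^ 2 * i2 ^ k)) = 32 * (k : ℝ) ^ 4 / D ^ 2 * i2 ^ k := by ring
      _ ≤ 1 * i2 ^ k := by gcongr
      _ = i2 ^ k := one_mul _
  have t6 : 16 * k * (k * (y + 1) * Λ) ≤ N * i2 ^ k := by
    calc 16 * k * (k * (y + 1) * Λ) = 16 * k ^ 2 * (y + 1) * Λ := by ring
      _ ≤ N := hΛ
      _ ≤ _ := le_mul_of_one_le_right hN hik1
  have t7 : 16 * k * SB ≤ 3 * (N * i2 ^ k) := by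
    calc 16 * k * SB ≤ 16 * k * (N * (k * (2 * J * (κ * (ly + l4) + C * s1) * i2 ^ (k - 1) +
      2 * k ^ 2 / D ^ 2 * i2 ^ k)) + k * (y + 1) * Λ) := by gcongr
      _ = N * (16 * k * (k * (2 * J * (κ * (ly + l4) + C * s1) * i2 ^ (k - 1)))) +
          N * (16 * k * (k * (2 * k ^ 2 / D ^ 2 * i2 ^ k))) + 16 * k * (k * (y + 1) * Λ) := by ring
      _ ≤ N * i2 ^ k + N * i2 ^ k + N * i2 ^ k := by gcongr
      _ = _ := by ring
  have : 0 ≤ N * i2 ^ k := by positivity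
  linarith

/-- the final comparison -/
lemma RoughF_cmp {k r : ℕ} {N c κ lR lN i1 i2 Rr L T S SB B V : ℝ} (hk : 1 ≤ k) (hN : 3 ≤ N)
    (hκ : 0 < κ) (hi2 : 1 ≤ i2) (hcN : c + 1 ≤ lN) (hlN : 2 < lN) (hlR : lN / 6 ≤ lR)
    (hcell : 96 * (r + 1) * κ * lR * i2 ≤ k * i1 ^ 2)
    (hT : k * (N / (8 * κ) * (i1 ^ 2 * i2 ^ (k - 1))) - c * N ≤ T)
    (hTS : T ≤ 2 * r * lN * S + 2 * k * lN * SB + 2 * k * lN * (B * V))
    (hS : S ≤ N * i2 ^ k + (Rr ^ 2 * L) ^ 2) (hR : 2 * r * lN * (Rr ^ 2 * L) ^ 2 ≤ N)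
    (hSB : 4 * k * SB ≤ N * i2 ^ k) : N * i2 ^ k ≤ 4 * k * (B * V) := by
  have hik : i2 ^ k = i2 * i2 ^ (k - 1) := by
    rw [← pow_succ']
    congr 1
    omega
  have hi2p : 1 ≤ i2 ^ (k - 1) := one_le_pow₀ hi2
  have hi2k : 1 ≤ i2 ^ k := one_le_pow₀ hi2
  have hN0 : 0 < N := by linarith
  have hr0 : (0 : ℝ) ≤ r := Nat.cast_nonneg _
  have hlN0 : 0 < lN := by linarith
  have h1 : 2 * (r + 1) * N * lN * i2 ^ k ≤ k * (N / (8 * κ) * (i1 ^ 2 * i2 ^ (k - 1))) := by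
    have e1 : k * (N / (8 * κ) * (i1 ^ 2 * i2 ^ (k - 1))) =
        N / (8 * κ) * i2 ^ (k - 1) * (k * i1 ^ 2) := by ring
    rw [e1]
    calc 2 * (r + 1) * N * lN * i2 ^ k
        ≤ 2 * (r + 1) * N * (6 * lR) * i2 ^ k := by gcongr; linarith
      _ = N / (8 * κ) * i2 ^ (k - 1) * (96 * (r + 1) * κ * lR * i2) := by
          rw [hik]; field_simp; ring
      _ ≤ _ := by gcongr
  have h2 : 2 * r * lN * S ≤ 2 * r * lN * (N * i2 ^ k) + N := by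
    calc 2 * r * lN * S ≤ 2 * r * lN * (N * i2 ^ k + (Rr ^ 2 * L) ^ 2) := by gcongr
      _ = 2 * r * lN * (N * i2 ^ k) + 2 * r * lN * (Rr ^ 2 * L) ^ 2 := by ring
      _ ≤ _ := by linarith
  have h3 : 2 * k * lN * SB ≤ 1 / 2 * (lN * (N * i2 ^ k)) := by
    calc 2 * k * lN * SB = 1 / 2 * (lN * (4 * k * SB)) := by ring
      _ ≤ _ := by gcongr
  have h4 : (c + 1) * N ≤ lN * (N * i2 ^ k) := by
    calc (c + 1) * N ≤ lN * N := by gcongr
      _ = lN * (N * 1) := by ring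
      _ ≤ _ := by gcongr
  have h5 : 1 / 2 * (lN * (N * i2 ^ k)) ≤ 2 * k * lN * (B * V) := by nlinarith
  have h6 : lN * (N * i2 ^ k) ≤ lN * (4 * k * (B * V)) := by linarith
  exact le_of_mul_le_mul_left h6 hlN0

/-- the number of large prime factors -/
lemma RoughF_omega {n N : ℕ} {c : ℝ} (hn : 1 ≤ n) (hnN : n ≤ N ^ 2) (hN : 2 ≤ N) (hc : 0 < c) :
    ((n.primeFactors.filter (fun q : ℕ => (N : ℝ) ^ c < q)).card : ℝ) ≤ 2 / c := by
  set S := n.primeFactors.filter (fun q : ℕ => (N : ℝ) ^ c < q) with hS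
  have hN1 : (1 : ℝ) < N := by exact_mod_cast (by omega : 1 < N)
  have hl : 0 < Real.log N := Real.log_pos hN1
  have h1 : ((N : ℝ) ^ c) ^ S.card ≤ (N : ℝ) ^ 2 := by
    calc ((N : ℝ) ^ c) ^ S.card = ∏ _q ∈ S, (N : ℝ) ^ c := by rw [prod_const]
      _ ≤ ∏ q ∈ S, (q : ℝ) := prod_le_prod (fun _ _ => by positivity)
          fun q hq => (mem_filter.1 hq).2.le
      _ = ((∏ q ∈ S, q : ℕ) : ℝ) := by push_cast; rfl
      _ ≤ (n : ℝ) := by
          have : ∏ q ∈ S, q ∣ n := (Finset.prod_dvd_prod_of_subset _ _ _ (filter_subset _ _)).trans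
            (Nat.prod_primeFactors_dvd n)
          exact_mod_cast Nat.le_of_dvd (by omega) this
      _ ≤ (N : ℝ) ^ 2 := by exact_mod_cast hnN
  have h2 := Real.log_le_log (by positivity) h1
  rw [Real.log_pow, Real.log_pow, Real.log_rpow (by linarith)] at h2
  rw [le_div_iff₀ hc]
  have h3 : (S.card : ℝ) * c * Real.log N ≤ 2 * Real.log N := by
    push_cast at h2
    linarith
  exact le_of_mul_le_mul_right h3 hl

end Pool.Agent.MT
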