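import Pool.Agent.Work.MT.Defs

/-! # tensor products of positive semidefinite kernels; the upper bound `E_upper` -/

namespace Pool.Agent.MT

open Finset

theorem tensor_sum {ι A Ω : Type*} [Fintype ι] [DecidableEq ι] [Fintype A] [Fintype Ω]
    (c : ι → Ω → ℝ) (g : ι → Ω → A → ℝ) (z : (ι → A) → ℝ) :
    ∑ ω : ι → Ω, (∏ p, c p (ω p)) * (∑ r : ι → A, z r * ∏ p, g p (ω p) (r p)) ^ 2 =
      ∑ r : ι → A, ∑ s : ι → A, z r * z s * ∏ p, ∑ w : Ω, c p w * g p w (r p) * g p w (s p) := by
  have h1 : ∀ ω : ι → Ω, (∏ p, c p (ω p)) * (∑ r : ι → A, z r * ∏ p, g p (ω p) (r p)) ^ 2 =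
      ∑ r : ι → A, ∑ s : ι → A, z r * z s *
        ∏ p, c p (ω p) * g p (ω p) (r p) * g p (ω p) (s p) := by
    intro ω
    rw [sq, sum_mul_sum, mul_sum]
    refine sum_congr rfl fun r _ => ?_
    rw [mul_sum]
    refine sum_congr rfl fun s _ => ?_
    rw [prod_mul_distrib, prod_mul_distrib]
    ring
  simp_rw [h1]
  rw [sum_comm]
  refine sum_congr rfl fun r _ => ?_
  rw [sum_comm]
  refine sum_congr rfl fun s _ => ?_
  rw [← mul_sum]
  congr 1
  rw [prod_univ_sum, Fintype.piFinset_univ]

/-- a positive semidefinite kernel is a Gram kernel -/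
theorem Tensor_gram {A : Type*} [Fintype A] [DecidableEq A] {K : A → A → ℝ} (h : PSD K) :
    ∃ g : A → A → ℝ, ∀ a b, K a b = ∑ w, g w a * g w b := by
  classical
  have hK : (Matrix.of K).PosSemidef := by
    refine Matrix.PosSemidef.of_dotProduct_mulVec_nonneg ?_ ?_
    · ext a b
      simp [Matrix.conjTranspose_apply, h.1 a b]
    · intro x
      have := h.2 x
      simp only [dotProduct, Matrix.mulVec, Matrix.of_apply, star_trivial, mul_sum]
      refine this.trans_eq (sum_congr rfl fun a _ => sum_congr rfl fun b _ => by ring)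
  open scoped MatrixOrder in
  obtain ⟨B, hB⟩ := CStarAlgebra.nonneg_iff_eq_star_mul_self.mp hK.nonneg
  refine ⟨B, fun a b => ?_⟩
  have := congrFun (congrFun hB a) b
  rw [Matrix.of_apply] at this
  rw [this, Matrix.mul_apply]
  rfl

theorem tensor_psd {ι A : Type*} [Fintype ι] [DecidableEq ι] [Fintype A] [DecidableEq A]
    (K : ι → A → A → ℝ) (h : ∀ p, PSD (K p)) (z : (ι → A) → ℝ) :
    0 ≤ ∑ r : ι → A, ∑ s : ι → A, z r * z s * ∏ p, K p (r p) (s p) := by
  choose g hg using fun p => Tensor_gram (h p)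
  have h1 := tensor_sum (fun _ _ => 1) g z
  simp only [one_mul, prod_const_one] at h1
  simp_rw [hg, ← h1]
  exact sum_nonneg fun ω _ => sq_nonneg _

theorem tensor_mono {ι A : Type*} [Fintype ι] [DecidableEq ι] [Fintype A] [DecidableEq A]
    (M N : ι → A → A → ℝ) (hN : ∀ p, PSD (N p)) (hMN : ∀ p, PSD (fun a b => M p a b - N p a b))
    (z : (ι → A) → ℝ) :
    ∑ r : ι → A, ∑ s : ι → A, z r * z s * ∏ p, N p (r p) (s p) ≤
      ∑ r : ι → A, ∑ s : ι → A, z r * z s * ∏ p, M p (r p) (s p) := by
  set KK : Finset ι → ι → A → A → ℝ := fun S p a b => if p ∈ S then N p a b else M p a b - N p a b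
    with hKK
  have h1 : ∀ r s : ι → A, ∏ p, M p (r p) (s p) =
      ∑ S ∈ (univ : Finset ι).powerset, ∏ p, KK S p (r p) (s p) := by
    intro r s
    have h2 : ∏ p, M p (r p) (s p) =
        ∏ p, (N p (r p) (s p) + (M p (r p) (s p) - N p (r p) (s p))) :=
      prod_congr rfl fun p _ => by ring
    rw [h2, prod_add]
    refine sum_congr rfl fun S _ => ?_
    rw [hKK, prod_ite]
    congr 1
    · refine prod_congr (by ext; simp) fun _ _ => rfl
    · refine prod_congr (by ext; simp) fun _ _ => rfl
  have h2 : ∑ r : ι → A, ∑ s : ι → A, z r * z s * ∏ p, M p (r p) (s p) =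
      ∑ S ∈ (univ : Finset ι).powerset, ∑ r : ι → A, ∑ s : ι → A, z r * z s *
        ∏ p, KK S p (r p) (s p) := by
    simp_rw [h1, mul_sum]
    exact (sum_congr rfl fun r _ => sum_comm).trans sum_comm
  rw [h2]
  have h3 : ∑ r : ι → A, ∑ s : ι → A, z r * z s * ∏ p, N p (r p) (s p) =
      ∑ r : ι → A, ∑ s : ι → A, z r * z s * ∏ p, KK univ p (r p) (s p) := by
    simp [hKK]
  rw [h3]
  refine single_le_sum (f := fun S : Finset ι => ∑ r : ι → A, ∑ s : ι → A, z r * z s *
        ∏ p, KK S p (r p) (s p)) (fun S _ => ?_) (mem_powerset.2 (subset_univ _))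
  refine tensor_psd (KK S) (fun p => ?_) z
  by_cases hp : p ∈ S
  · have : KK S p = N p := by
      ext a b
      simp [hKK, hp]
    rw [this]
    exact hN p
  · have : KK S p = fun a b => M p a b - N p a b := by
      ext a b
      simp [hKK, hp]
    rw [this]
    exact hMN p

/-- Gram kernels with nonnegative weights -/
theorem Tensor_psd_gram {A Ω : Type*} [Fintype A] [Fintype Ω] (c : Ω → ℝ) (g : Ω → A → ℝ)
    (hc : ∀ w, 0 ≤ c w) : PSD (fun a b => ∑ w, c w * g w a * g w b) := by
  refine ⟨fun a b => sum_congr rfl fun w _ => by ring, fun x => ?_⟩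
  have h : ∑ a, ∑ b, x a * x b * ∑ w, c w * g w a * g w b =
      ∑ w, c w * (∑ a, x a * g w a) ^ 2 := by
    simp_rw [sq, sum_mul_sum, mul_sum]
    rw [sum_comm_cycle]
    refine sum_congr rfl fun w _ => sum_congr rfl fun a _ => sum_congr rfl fun b _ => by ring
  rw [h]
  exact sum_nonneg fun w _ => mul_nonneg (hc w) (sq_nonneg _)

theorem Tensor_gram_mass {k p : ℕ} (hp : 0 < p) (a b : Option (Fin k)) :
    ∑ w, mass k p w * uu p w a * uu p w b =
      (if a = b then (if a = none then (1 : ℝ) else 1 / p) else 0) -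
        (if a = none then 0 else 1 / (p : ℝ)) * (if b = none then 0 else 1 / (p : ℝ)) := by
  have hp0 : (p : ℝ) ≠ 0 := by positivity
  rw [Fintype.sum_option]
  cases a with
  | none =>
    cases b with
    | none =>
      simp [uu, mass]
      field_simp
      ring
    | some j =>
      simp only [uu, mass, mul_one]
      simp [mul_sub, sum_sub_distrib]
      field_simp
      ring
  | some i =>
    cases b with
    | none =>
      simp only [uu, mass, mul_one]
      simp [mul_sub, sum_sub_distrib]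
      field_simp
      ring
    | some j =>
      simp only [uu, mass]
      by_cases hij : i = j
      · subst hij
        simp [mul_sub, sub_mul, sum_sub_distrib]
        field_simp
        ring
      · simp [mul_sub, sub_mul, sum_sub_distrib, hij, Ne.symm hij]
        field_simp
        ring

/-- upper bound for the expectation over all integers -/
theorem E_upper {k D R : ℕ} (hk : k ≤ D) (z : Cfg k D R → ℝ) :
    ∑ X : Cfg k D R, (∏ p : PP D R, mass k p (X p)) * ft z X ^ 2 ≤
      ∑ r : Cfg k D R, z r ^ 2 / tot r := by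
  have hpp : ∀ p : PP D R, D < (p : ℕ) := fun p => (mem_Ioc.1 (mem_filter.1 p.2).1).1
  have hp0 : ∀ p : PP D R, 0 < (p : ℕ) := fun p => (Nat.zero_le _).trans_lt (hpp p)
  have h1 := tensor_sum (fun (p : PP D R) w => mass k p w) (fun p w a => uu (p : ℕ) w a) z
  have h2 : ∑ X : Cfg k D R, (∏ p : PP D R, mass k p (X p)) * ft z X ^ 2 =
      ∑ r : Cfg k D R, ∑ s : Cfg k D R, z r * z s *
        ∏ p : PP D R, ∑ w, mass k p w * uu (p : ℕ) w (r p) * uu (p : ℕ) w (s p) := h1
  rw [h2]
  have hm : ∀ (p : PP D R) w, 0 ≤ mass k p w := by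
    intro p w
    have hp := hp0 p
    have hp' : (0 : ℝ) < (p : ℕ) := by exact_mod_cast hp
    cases w with
    | none =>
      simp only [mass]
      rw [sub_nonneg, div_le_one hp']
      exact_mod_cast hk.trans (hpp p).le
    | some i =>
      simp only [mass]
      positivity
  refine (tensor_mono (fun (p : PP D R) a b => if a = b then (if a = none then (1 : ℝ) else 1 / (p : ℕ))
    else 0) (fun p a b => ∑ w, mass k p w * uu (p : ℕ) w a * uu (p : ℕ) w b) (fun p => ?_)
    (fun p => ?_) z).trans_eq ?_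
  · exact Tensor_psd_gram _ _ (hm p)
  · have := Tensor_psd_gram (A := Option (Fin k)) (Ω := Unit) (fun _ => 1)
      (fun _ a => if a = none then (0 : ℝ) else 1 / (p : ℕ)) (fun _ => zero_le_one)
    simp only [univ_unique, sum_singleton, one_mul] at this
    convert this using 3 with a b
    rw [Tensor_gram_mass (hp0 p)]
    ring
  · refine sum_congr rfl fun r _ => ?_
    rw [sum_eq_single r]
    · simp only [if_true]
      rw [← sq, div_eq_mul_inv]
      congr 1
      rw [tot, Nat.cast_prod, ← prod_inv_distrib]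
      refine prod_congr rfl fun p _ => ?_
      split_ifs <;> simp
    · intro s _ hs
      obtain ⟨p, hp⟩ := Function.ne_iff.1 hs
      rw [prod_eq_zero (mem_univ p), mul_zero]
      rw [if_neg (Ne.symm hp)]
    · simp

end Pool.Agent.MT
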